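import Pool.Agent.H70.G3.Defs

/-! # MP_75f39d_G3 : basic facts -/

open Finset Classical

universe u

namespace H70G3

/-- injective transfer of sums -/
lemma transfer {ι κ : Type*} (s : Finset ι) (t : Finset κ) (f : ι → ℕ) (g : κ → ℕ) (i : ι → κ)
    (hi : ∀ a ∈ s, i a ∈ t) (hinj : ∀ a ∈ s, ∀ b ∈ s, i a = i b → a = b)
    (hle : ∀ a ∈ s, f a ≤ g (i a)) : ∑ a ∈ s, f a ≤ ∑ b ∈ t, g b := by
  classical
  calc ∑ a ∈ s, f a ≤ ∑ a ∈ s, g (i a) := sum_le_sum hle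
    _ = ∑ b ∈ s.image i, g b := by rw [sum_image]; intro a ha b hb h; exact hinj a ha b hb h
    _ ≤ ∑ b ∈ t, g b := by
      apply sum_le_sum_of_subset
      intro b hb
      obtain ⟨a, ha, rfl⟩ := mem_image.1 hb
      exact hi a ha

namespace Ctx
variable {V : Type u} [Fintype V] [DecidableEq V] (c : Ctx V)
variable {S T K : Finset V} {e f : Finset V} {p q v w y z : V}

lemma mem_D : S ∈ c.D ↔ isD c.E S := by simp [D, Dset]

lemma empty_D : (∅ : Finset V) ∈ c.D := by rw [mem_D]; intro v hv; simp at hv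

lemma union_D (hS : S ∈ c.D) (hT : T ∈ c.D) : S ∪ T ∈ c.D := by
  rw [mem_D] at *
  intro v hv
  rcases mem_union.1 hv with h | h
  · obtain ⟨e, he, hve, hes⟩ := hS v h
    exact ⟨e, he, hve, hes.trans subset_union_left⟩
  · obtain ⟨e, he, hve, hes⟩ := hT v h
    exact ⟨e, he, hve, hes.trans subset_union_right⟩

lemma edge_D (he : e ∈ c.E) : e ∈ c.D := by
  rw [mem_D]; intro v hv; exact ⟨e, he, hv, Subset.refl _⟩

lemma mem_at : e ∈ at' c.E S y ↔ e ∈ c.E ∧ y ∈ e ∧ e ⊆ S := by simp [at']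

lemma exists_at (hS : S ∈ c.D) (hy : y ∈ S) : ∃ e, e ∈ at' c.E S y := by
  rw [mem_D] at hS
  obtain ⟨e, he, h1, h2⟩ := hS y hy
  exact ⟨e, by rw [mem_at]; exact ⟨he, h1, h2⟩⟩

/-- `S.erase p ∈ D` iff nobody depends on `p` -/
lemma erase_D_iff (hS : S ∈ c.D) : S.erase p ∈ c.D ↔ ∀ y, ¬ dep c.E S y p := by
  rw [mem_D] at *
  constructor
  · rintro h y ⟨hy, hyp, hd⟩
    obtain ⟨e, he, h1, h2⟩ := h y (mem_erase.2 ⟨hyp, hy⟩)
    have := hd e he h1 (h2.trans (erase_subset _ _))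
    exact (mem_erase.1 (h2 this)).1 rfl
  · intro h y hy
    obtain ⟨hyp, hyS⟩ := mem_erase.1 hy
    have h1 := h y
    unfold dep at h1
    push Not at h1
    obtain ⟨e, he, h2, h3, h4⟩ := h1 hyS hyp
    exact ⟨e, he, h2, subset_erase.2 ⟨h3, h4⟩⟩

/-- removal of a set -/
lemma sdiff_D (h : ∀ z ∈ S \ K, ∃ e ∈ c.E, z ∈ e ∧ e ⊆ S ∧ Disjoint e K) : S \ K ∈ c.D := by
  rw [mem_D]
  intro z hz
  obtain ⟨e, he, h1, h2, h3⟩ := h z hz
  refine ⟨e, he, h1, ?_⟩
  intro x hx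
  rw [mem_sdiff]
  exact ⟨h2 hx, fun hk => (disjoint_left.1 h3) hx hk⟩

/-- removal of two vertices, both of which occur in an edge only together with `p` -/
lemma erase_erase_D (hS : S ∈ c.D) (hq : ∀ e ∈ c.E, q ∈ e → e ⊆ S → p ∈ e)
    (h : ∀ x, dep c.E S x p → x = q) : (S.erase p).erase q ∈ c.D := by
  have h0 : (S.erase p).erase q = S \ {p, q} := by
    ext x; simp only [mem_erase, mem_sdiff, mem_insert, mem_singleton]; tauto
  rw [h0]
  apply sdiff_D
  intro z hz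
  simp only [mem_sdiff, mem_insert, mem_singleton, not_or] at hz
  obtain ⟨hzS, hzp, hzq⟩ := hz
  by_contra hcon
  push Not at hcon
  have : dep c.E S z p := by
    refine ⟨hzS, hzp, fun e he hze hes => ?_⟩
    have h2 := hcon e he hze hes
    rw [disjoint_left] at h2
    push Not at h2
    obtain ⟨x, hx, hx2⟩ := h2
    simp only [mem_insert, mem_singleton] at hx2
    rcases hx2 with rfl | rfl
    · exact hx
    · exact hq e he hx hes
  exact hzq (h z this)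

lemma dep_trans (h1 : dep c.E S y p) (h2 : dep c.E S p q) (h : y ≠ q) : dep c.E S y q :=
  ⟨h1.1, h, fun e he hy hs => h2.2.2 e he (h1.2.2 e he hy hs) hs⟩

lemma dep_mem (hS : S ∈ c.D) (h : dep c.E S y p) : p ∈ S := by
  obtain ⟨e, he⟩ := c.exists_at hS h.1
  rw [mem_at] at he
  exact he.2.2 (h.2.2 e he.1 he.2.1 he.2.2)

lemma dep_not_crit (hS : S ∈ c.D) (h : dep c.E S y p) : S.erase p ∉ c.D := by
  rw [c.erase_D_iff hS]; push Not; exact ⟨y, h⟩

lemma ctr_Dm (hw : isW c.E w) : Dm c.E w (c.ctr w) := by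
  obtain ⟨v, hv⟩ := hw
  rw [c.ctr_spec w v hv]; exact hv

lemma rep_Dm (hv : isC c.E v) : Dm c.E (c.rep v) v := c.rep_spec v hv

lemma ctr_rep (hv : isC c.E v) : c.ctr (c.rep v) = v := c.ctr_spec _ _ (c.rep_Dm hv)

lemma rep_isW (hv : isC c.E v) : isW c.E (c.rep v) := ⟨v, c.rep_Dm hv⟩

lemma ctr_isC (hw : isW c.E w) : isC c.E (c.ctr w) := ⟨w, c.ctr_Dm hw⟩

lemma C_not_W (h : isC c.E v) : ¬ isW c.E v := by
  rintro ⟨x, hx⟩; obtain ⟨w, hw⟩ := h; exact c.acyc w v x hw hx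

lemma W_not_C (h : isW c.E v) : ¬ isC c.E v := fun h2 => c.C_not_W h2 h

lemma C_not_R (h : isC c.E v) : ¬ isR c.E v := fun h2 => h2.2.1 h

lemma W_not_R (h : isW c.E v) : ¬ isR c.E v := fun h2 => h2.2.2 h

lemma W_not_L (h : isW c.E v) : ¬ isL c.E v := by
  rintro h2
  obtain ⟨x, hx⟩ := h
  have := hx.2 _ h2 (mem_singleton_self v)
  exact hx.1 (mem_singleton.1 this).symm

lemma four (v : V) : isW c.E v ∨ isC c.E v ∨ isL c.E v ∨ isR c.E v := by
  unfold isR; tauto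

lemma ne_of_W_C (h : isW c.E w) (h2 : isC c.E v) : w ≠ v := by
  rintro rfl; exact c.W_not_C h h2

lemma ne_of_R_C (h : isR c.E y) (h2 : isC c.E v) : y ≠ v := by
  rintro rfl; exact c.C_not_R h2 h

lemma ne_of_R_W (h : isR c.E y) (h2 : isW c.E w) : y ≠ w := by
  rintro rfl; exact c.W_not_R h2 h

lemma W_edge (hw : isW c.E w) (he : e ∈ c.E) (h : w ∈ e) : c.ctr w ∈ e := (c.ctr_Dm hw).2 e he h

lemma ctr_mem (hw : isW c.E w) (hS : S ∈ c.D) (h : w ∈ S) : c.ctr w ∈ S := by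
  obtain ⟨e, he⟩ := c.exists_at hS h
  rw [mem_at] at he
  exact he.2.2 (c.W_edge hw he.1 he.2.1)

lemma dep_ctr (hw : isW c.E w) (h : w ∈ S) : dep c.E S w (c.ctr w) :=
  ⟨h, (c.ctr_Dm hw).1, fun _ he hwe _ => c.W_edge hw he hwe⟩

lemma dep_not_L (h : dep c.E S y p) : ¬ isL c.E y := by
  intro hl
  have := h.2.2 _ hl (mem_singleton_self y) (singleton_subset_iff.2 h.1)
  exact h.2.1 (mem_singleton.1 this).symm

/-- an edge containing three different vertices -/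
lemma edge_eq (he : e ∈ c.E) (h1 : y ∈ e) (h2 : p ∈ e) (h3 : q ∈ e) (h12 : y ≠ p) (h13 : y ≠ q)
    (h23 : p ≠ q) : e = {y, p, q} := by
  symm
  apply eq_of_subset_of_card_le
  · intro x hx
    simp only [mem_insert, mem_singleton] at hx
    rcases hx with rfl | rfl | rfl <;> assumption
  · have : ({y, p, q} : Finset V).card = 3 := by
      rw [card_eq_three]; exact ⟨y, p, q, h12, h13, h23, rfl⟩
    rw [this]; exact c.card_le e he

/-- an edge has no four different vertices -/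
lemma edge_four (he : e ∈ c.E) (h1 : y ∈ e) (h2 : p ∈ e) (h3 : q ∈ e) (h4 : z ∈ e) (h12 : y ≠ p)
    (h13 : y ≠ q) (h23 : p ≠ q) : z = y ∨ z = p ∨ z = q := by
  rw [c.edge_eq he h1 h2 h3 h12 h13 h23] at h4
  simpa only [mem_insert, mem_singleton] using h4

/-- if all `S`-edges at `y` contain `p` and `q` there is only one -/
lemma at_unique (hS : S ∈ c.D) (h1 : dep c.E S y p) (h2 : dep c.E S y q) (h : p ≠ q) :
    at' c.E S y = {{y, p, q}} := by
  obtain ⟨e, he⟩ := c.exists_at hS h1.1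
  have key : ∀ f ∈ at' c.E S y, f = {y, p, q} := by
    intro f hf
    rw [mem_at] at hf
    exact c.edge_eq hf.1 hf.2.1 (h1.2.2 f hf.1 hf.2.1 hf.2.2) (h2.2.2 f hf.1 hf.2.1 hf.2.2)
      h1.2.1 h2.2.1 h
  rw [eq_singleton_iff_unique_mem]
  refine ⟨?_, key⟩
  rw [← key e he]; exact he

/-- (L4) first form -/
lemma at_dep_W (hS : S ∈ c.D) (h : dep c.E S y p) (hp : isW c.E p) (hy : y ≠ c.ctr p) :
    at' c.E S y = {{y, p, c.ctr p}} := by
  apply c.at_unique hS h _ (c.ctr_Dm hp).1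
  exact ⟨h.1, hy, fun e he h1 h2 => c.W_edge hp he (h.2.2 e he h1 h2)⟩

/-- (L4) second form -/
lemma at_W_dep (hS : S ∈ c.D) (h : dep c.E S y p) (hy : isW c.E y) (hp : p ≠ c.ctr y) :
    at' c.E S y = {{y, c.ctr y, p}} :=
  c.at_unique hS (c.dep_ctr hy h.1) h hp.symm

lemma cost_W (h : isW c.E p) : c.cost p = 12 := by simp [cost, h]

lemma cost_R (h : isR c.E p) : c.cost p = 6 := by
  have := h.2.2
  simp [cost, h, this]

lemma cost_C (h : isC c.E p) : c.cost p = 0 := by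
  have h1 := c.C_not_W h
  have h2 := c.C_not_R h
  simp [cost, h1, h2]

lemma cost_le (p : V) : c.cost p ≤ 12 := by unfold cost; split_ifs <;> omega

lemma cost_zero (h1 : ¬ isW c.E p) (h2 : ¬ isR c.E p) : c.cost p = 0 := by simp [cost, h1, h2]

lemma R_not_L (h : isR c.E y) : ({y} : Finset V) ∉ c.E := h.1

lemma isU_of (hX : T ∈ c.D) (hy : y ∉ T) (h : insert y T ∉ c.D) : c.isU y T := ⟨hX, hy, h⟩

/-- `t` counts a subset of the edges at `y` -/
lemma t_le_card (y : V) (S : Finset V) : c.t y S ≤ (at' c.E S y).card := by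
  unfold t
  apply card_le_card
  intro e he
  rw [mem_filter] at he
  rw [mem_at]
  exact ⟨(c.tri_sub y e he.1).1, (c.tri_sub y e he.1).2, he.2⟩

end Ctx
end H70G3
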