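import Pool.Agent.H70.G3.Basic

/-!
# Row CII : pairs of class II are sources of II1 or II3

Given v, z with pairP S p v z (isC v, isC z, dep S v p, dep S v z, dep S z p, dep S z v, p ∈ S, ¬ dep S p v).  p ≠ z and p ≠ v (dep).
e0 := {v, p, z}: at' E S v = {e0} and at' E S z = {{z, p, v}} = {e0} (`at_unique`).
¬ dep S p v: as p ∈ S, p ≠ v, there is f ∈ E, p ∈ f ⊆ S, v ∉ f.  z ∉ f (otherwise f ∈ at' E S z = {e0}, v ∈ f).  So also ¬ dep S p z.
isR p: else isW p, ctr p ≠ p (`ctr_Dm`), ctr p ∈ e0 (`W_edge`) so ctr p ∈ {v, z}, and ctr p ∈ f, contradiction.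
(∀ u, Dm u v → u ∉ S): u ∈ S has an S-edge g (`exists_at`), v ∈ g so g ∈ at' E S v, g = e0, u ∈ {v,p,z}; u ≠ v (Dm), u ∈ W but p ∈ R, z ∈ C: contradiction.
Same for z (g ∋ z, g ∈ at' E S z).
insert (rep v) S ∈ D and insert (rep z) S ∈ D: otherwise cU4 S p (with v resp. z; use dep S v p resp. dep S z p).
Case 1: insert (rep z) (S.erase v) ∈ D: srcII1 S p v z.
Case 2: insert (rep v) (S.erase z) ∈ D: srcII1 S p z v (pairP S p z v holds by symmetry and ¬ dep S p z).
Case 3: neither: srcII3 S p v z. Let w = rep v, w ∉ S, M = insert w S ∈ D.  at' E M w is nonempty (`exists_at`). Let h ∈ at' E M w; v = ctr w ∈ h (`W_edge`, `ctr_rep`).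
  Claim z ∈ h. Otherwise insert w (S.erase z) ∈ D (contradiction to case 2): use `mem_D`: for x = w or x = v take h (h ⊆ insert w (S.erase z) as z ∉ h);
  for x = p take f; for other x ∈ S.erase z take an S-edge g at x: z ∉ g, since otherwise g ∈ at' E S z = {e0} and x ∈ e0.
  So w, v, z ∈ h, pairwise different (w ∈ W; v, z ∈ C; v ≠ z), h = {w, v, z} (`edge_eq`).  Hence at' E M w = {{w,v,z}}.
-/

open Finset Classical

universe u

namespace H70G3
namespace Ctx
variable {V : Type u} [Fintype V] [DecidableEq V] (c : Ctx V)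

theorem class_II {S : Finset V} {p : V} (hS : S ∈ c.D) (hp : isW c.E p ∨ isR c.E p)
    (h4 : ¬ c.cU4 S p) (h : ∃ v z, c.pairP S p v z) :
    ∃ v z, c.srcII1 S p v z ∨ c.srcII3 S p v z := by
  obtain ⟨v, z, hpair⟩ := h
  obtain ⟨hv, hz, d1, d2, d3, d4, hpS, hn⟩ := hpair
  have hpz : p ≠ z := fun h => d3.2.1 h.symm
  have hpv : p ≠ v := fun h => d1.2.1 h.symm
  have hvz : v ≠ z := d2.2.1
  have atv : at' c.E S v = {{v, p, z}} := c.at_unique hS d1 d2 hpz
  have atz : at' c.E S z = {{z, p, v}} := c.at_unique hS d3 d4 hpv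
  have memv : ∀ g ∈ c.E, v ∈ g → g ⊆ S → g = {v, p, z} := by
    intro g h1 h2 h3
    have : g ∈ at' c.E S v := by rw [c.mem_at]; exact ⟨h1, h2, h3⟩
    rw [atv] at this
    exact mem_singleton.1 this
  have memz : ∀ g ∈ c.E, z ∈ g → g ⊆ S → g = {z, p, v} := by
    intro g h1 h2 h3
    have : g ∈ at' c.E S z := by rw [c.mem_at]; exact ⟨h1, h2, h3⟩
    rw [atz] at this
    exact mem_singleton.1 this
  -- the edge avoiding `v`
  have hf : ∃ f ∈ c.E, p ∈ f ∧ f ⊆ S ∧ v ∉ f := by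
    by_contra hcon
    push Not at hcon
    exact hn ⟨hpS, hpv, hcon⟩
  obtain ⟨f, hfE, hpf, hfS, hvf⟩ := hf
  have hzf : z ∉ f := by
    intro h1
    have := memz f hfE h1 hfS
    apply hvf
    rw [this]
    simp
  have hnz : ¬ dep c.E S p z := fun hd => hzf (hd.2.2 f hfE hpf hfS)
  have e0 : ({v, p, z} : Finset V) ∈ c.E := by
    have : ({v, p, z} : Finset V) ∈ at' c.E S v := by rw [atv]; exact mem_singleton_self _
    rw [c.mem_at] at this
    exact this.1
  have hr : isR c.E p := by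
    rcases hp with hw | hr
    · exfalso
      have h1 : c.ctr p ∈ ({v, p, z} : Finset V) := c.W_edge hw e0 (by simp)
      have h2 := (c.ctr_Dm hw).1
      have h3 := c.W_edge hw hfE hpf
      simp only [mem_insert, mem_singleton] at h1
      rcases h1 with h1 | h1 | h1
      · rw [h1] at h3; exact hvf h3
      · exact h2 h1.symm
      · rw [h1] at h3; exact hzf h3
    · exact hr
  have hu1 : ∀ u, Dm c.E u v → u ∉ S := by
    intro u hu huS
    obtain ⟨g, hg⟩ := c.exists_at hS huS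
    rw [c.mem_at] at hg
    have h1 := memv g hg.1 (hu.2 g hg.1 hg.2.1) hg.2.2
    have h2 := hg.2.1
    rw [h1] at h2
    have huW : isW c.E u := ⟨v, hu⟩
    simp only [mem_insert, mem_singleton] at h2
    rcases h2 with h2 | h2 | h2
    · exact hu.1 h2
    · rw [h2] at huW; exact c.W_not_R huW hr
    · rw [h2] at huW; exact c.C_not_W hz huW
  have hu2 : ∀ u, Dm c.E u z → u ∉ S := by
    intro u hu huS
    obtain ⟨g, hg⟩ := c.exists_at hS huS
    rw [c.mem_at] at hg
    have h1 := memz g hg.1 (hu.2 g hg.1 hg.2.1) hg.2.2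
    have h2 := hg.2.1
    rw [h1] at h2
    have huW : isW c.E u := ⟨z, hu⟩
    simp only [mem_insert, mem_singleton] at h2
    rcases h2 with h2 | h2 | h2
    · exact hu.1 h2
    · rw [h2] at huW; exact c.W_not_R huW hr
    · rw [h2] at huW; exact c.C_not_W hv huW
  have hrv : insert (c.rep v) S ∈ c.D := by
    by_contra hcon
    exact h4 ⟨v, hv, d1, hu1, hcon⟩
  by_cases c1 : insert (c.rep z) (S.erase v) ∈ c.D
  · exact ⟨v, z, Or.inl ⟨hS, hr, ⟨hv, hz, d1, d2, d3, d4, hpS, hn⟩, hu1, hu2, c1⟩⟩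
  by_cases c2 : insert (c.rep v) (S.erase z) ∈ c.D
  · exact ⟨z, v, Or.inl ⟨hS, hr, ⟨hz, hv, d3, d4, d1, d2, hpS, hnz⟩, hu2, hu1, c2⟩⟩
  refine ⟨v, z, Or.inr ⟨hS, hr, ⟨hv, hz, d1, d2, d3, d4, hpS, hn⟩, hu1, hrv, ?_⟩⟩
  have hwv : c.rep v ≠ v := (c.rep_Dm hv).1
  have hwz : c.rep v ≠ z := c.ne_of_W_C (c.rep_isW hv) hz
  have key : ∀ g ∈ at' c.E (insert (c.rep v) S) (c.rep v), g = {c.rep v, v, z} := by
    intro g hg
    rw [c.mem_at] at hg
    obtain ⟨hgE, hwg, hgM⟩ := hg
    have hvg : v ∈ g := (c.rep_Dm hv).2 g hgE hwg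
    have hzg : z ∈ g := by
      by_contra hzg
      apply c2
      have hsub : ∀ k : Finset V, k ⊆ insert (c.rep v) S → z ∉ k →
          k ⊆ insert (c.rep v) (S.erase z) := by
        intro k hk hzk x hx
        rcases mem_insert.1 (hk hx) with h1 | h1
        · rw [h1]; exact mem_insert_self _ _
        · exact mem_insert_of_mem (mem_erase.2 ⟨fun h2 => hzk (h2 ▸ hx), h1⟩)
      rw [c.mem_D]
      intro x hx
      rcases mem_insert.1 hx with hx | hx
      · rw [hx]; exact ⟨g, hgE, hwg, hsub g hgM hzg⟩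
      · obtain ⟨hxz, hxS⟩ := mem_erase.1 hx
        by_cases hxv : x = v
        · rw [hxv]; exact ⟨g, hgE, hvg, hsub g hgM hzg⟩
        by_cases hxp : x = p
        · rw [hxp]; exact ⟨f, hfE, hpf, hsub f (hfS.trans (subset_insert _ _)) hzf⟩
        obtain ⟨k, hk⟩ := c.exists_at hS hxS
        rw [c.mem_at] at hk
        refine ⟨k, hk.1, hk.2.1, hsub k (hk.2.2.trans (subset_insert _ _)) ?_⟩
        intro hzk
        have h1 := memz k hk.1 hzk hk.2.2
        have h2 := hk.2.1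
        rw [h1] at h2
        simp only [mem_insert, mem_singleton] at h2
        rcases h2 with h2 | h2 | h2
        · exact hxz h2
        · exact hxp h2
        · exact hxv h2
    exact c.edge_eq hgE hwg hvg hzg hwv hwz hvz
  obtain ⟨g, hg⟩ := c.exists_at hrv (mem_insert_self _ _)
  rw [eq_singleton_iff_unique_mem]
  refine ⟨?_, key⟩
  have := key g hg
  rw [← this]; exact hg

end Ctx
end H70G3
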