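import Pool.Agent.H70.G3.Basic

/-!
# Row CR : reduced pairs (S, p), p ∈ R, without dependent vertex in R

Dep := {y : dep S y p} nonempty, every y ∈ Dep is in C (`dep_not_L`, red, hn, `four`).
Step 1: there is v ∈ Dep with dep S p v.  Take v ∈ Dep; ¬ cM2: there is z, dep S z v.  z = p: done.  z ≠ p: dep S z p (`dep_trans`), z ∈ C.  ¬ cM2 for z: there is z',
  dep S z' z.  z' = p: take v := z.  z' ≠ p: if z' ≠ v then dep S z' p and dep S z' v (`dep_trans` twice: dep S z' z, dep S z p; dep S z' z, dep S z v), the S-edge at z'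
  contains z', z, p, v, four different vertices (`edge_four`), contradiction.  So z' = v: dep S v z.  Now isC v, isC z, dep S v p, dep S v z, dep S z p, dep S z v, p ∈ S:
  by red (no pairP) dep S p v.
Step 2: v as in Step 1.
 Case A: all x ∈ Dep equal v.
  (∀ u, Dm u v → u ∉ S): if u ∈ S then dep S u v, and u ≠ p (W, R), so dep S u p (`dep_trans`), so u = v, but u ∈ W, v ∈ C.
  By ¬ cU4: insert (rep v) S ∈ D.  w := rep v ∉ S.
  If insert w (S.erase p) ∈ D: ias S p v, so clSelf.
  Otherwise clIAW: M = insert w S ∈ D; let h ∈ at' E M w (nonempty); v ∈ h (`W_edge`, `ctr_rep`). Claim p ∈ h: otherwise insert w (S.erase p) ∈ D: for x = w and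
   x = v take h; for another x ∈ S.erase p: not dep S x p, so there is an S-edge at x avoiding p.  So h ∋ w, v, p, different: h = {w,v,p} (`edge_eq`); at' E M w = {{w,v,p}}.
 Case B: some y' ∈ Dep, y' ≠ v; y' ∈ C.  dep S y' p, dep S p v ⇒ dep S y' v; at' E S y' = {{y', p, v}} (`at_unique`).  ¬ cM2: there is z with dep S z y'.
   z = p: dep S p y', dep S p v: at' E S p = {{p, v, y'}}: ib (v ≠ y'), clSelf.
   z ≠ p: dep S z p.  z ≠ v: dep S z v (`dep_trans` via p), S-edge at z contains z, y', p, v: four different, contradiction.  z = v: dep S v y', dep S v p: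
   at' E S v = {{v, y', p}}; S-edges at p contain v (dep S p v), so they lie in at' E S v; so at' E S p = {{p, v, y'}}: ib.
-/

open Finset Classical

universe u

namespace H70G3
namespace Ctx
variable {V : Type u} [Fintype V] [DecidableEq V] (c : Ctx V)

/-- every vertex depending on `p` is a centre -/
theorem CR_centre {S : Finset V} {p : V} (hr : c.red S p)
    (hn : ∀ y, isR c.E y → ¬ dep c.E S y p) {y : V} (hy : dep c.E S y p) : isC c.E y := by
  rcases c.four y with h | h | h | h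
  · exact absurd ⟨y, h, hy⟩ hr.2.2.2
  · exact h
  · exact absurd h (c.dep_not_L hy)
  · exact absurd hy (hn y h)

/-- by `¬ cM2` something depends on a centre depending on `p` -/
theorem CR_next {S : Finset V} {p : V} (hS : S ∈ c.D) (hr : c.red S p)
    (hn : ∀ y, isR c.E y → ¬ dep c.E S y p) {y : V} (hy : dep c.E S y p) :
    ∃ z, dep c.E S z y := by
  by_contra hcon
  push Not at hcon
  exact hr.1 ⟨y, c.CR_centre hr hn hy, hy, (c.erase_D_iff hS).2 hcon⟩

/-- step 1 -/
theorem CR_step {S : Finset V} {p : V} (h : c.crit S p) (hr : c.red S p)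
    (hn : ∀ y, isR c.E y → ¬ dep c.E S y p) :
    ∃ v, isC c.E v ∧ dep c.E S v p ∧ dep c.E S p v := by
  obtain ⟨hS, hpS, hcr⟩ := h
  obtain ⟨v, hv⟩ : ∃ y, dep c.E S y p := by
    by_contra hcon
    push Not at hcon
    exact hcr ((c.erase_D_iff hS).2 hcon)
  have hvC := c.CR_centre hr hn hv
  obtain ⟨z, hz⟩ := c.CR_next hS hr hn hv
  by_cases hzp : z = p
  · subst hzp
    exact ⟨v, hvC, hv, hz⟩
  have hz2 := c.dep_trans hz hv hzp
  have hzC := c.CR_centre hr hn hz2
  obtain ⟨z', hz'⟩ := c.CR_next hS hr hn hz2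
  by_cases hz'p : z' = p
  · subst hz'p
    exact ⟨z, hzC, hz2, hz'⟩
  by_cases hz'v : z' = v
  · subst hz'v
    refine ⟨z', hvC, hv, ?_⟩
    by_contra hcon
    exact hr.2.2.1 ⟨z', z, hvC, hzC, hv, hz', hz2, hz, hpS, hcon⟩
  · exfalso
    have h1 := c.dep_trans hz' hz2 hz'p
    have h2 := c.dep_trans hz' hz hz'v
    obtain ⟨e, he⟩ := c.exists_at hS hz'.1
    rw [c.mem_at] at he
    rcases c.edge_four he.1 he.2.1 (hz'.2.2 e he.1 he.2.1 he.2.2) (h1.2.2 e he.1 he.2.1 he.2.2)
      (h2.2.2 e he.1 he.2.1 he.2.2) hz'.2.1 hz'p hzp with h3 | h3 | h3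
    · exact hz'v h3.symm
    · exact hz.2.1 h3.symm
    · exact hv.2.1 h3

/-- case A -/
theorem CR_A {S : Finset V} {p v : V} (hS : S ∈ c.D) (hr : c.red S p)
    (hp : isR c.E p) (hvC : isC c.E v) (hv : dep c.E S v p)
    (hpv : dep c.E S p v) (hA : ∀ x, dep c.E S x p → x = v) : c.clIAW S p ∨ c.clSelf S p := by
  have hu : ∀ u, Dm c.E u v → u ∉ S := by
    intro u hu huS
    have h1 : dep c.E S u v := ⟨huS, hu.1, fun e he h1 _ => hu.2 e he h1⟩
    have hW : isW c.E u := ⟨v, hu⟩
    exact hr.2.2.2 ⟨u, hW, c.dep_trans h1 hv (c.ne_of_R_W hp hW).symm⟩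
  have hM : insert (c.rep v) S ∈ c.D := by
    by_contra hcon
    exact hr.2.1 ⟨v, hvC, hv, hu, hcon⟩
  have hwS : c.rep v ∉ S := hu _ (c.rep_Dm hvC)
  have hwW : isW c.E (c.rep v) := c.rep_isW hvC
  by_cases hi : insert (c.rep v) (S.erase p) ∈ c.D
  · right
    left
    exact ⟨v, hS, hp, hvC, hpv, hv, hA, hu, hi⟩
  · left
    refine ⟨hp, hS, v, hvC, hwS, hM, ?_⟩
    have key : ∀ f ∈ at' c.E (insert (c.rep v) S) (c.rep v), f = {c.rep v, v, p} := by
      intro f hf
      rw [c.mem_at] at hf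
      obtain ⟨hfE, hwf, hfM⟩ := hf
      have hvf : v ∈ f := by
        have h1 := c.W_edge hwW hfE hwf
        rwa [c.ctr_rep hvC] at h1
      have hpf : p ∈ f := by
        by_contra hpf
        apply hi
        have hfs : f ⊆ insert (c.rep v) (S.erase p) := by
          intro x hx
          rcases mem_insert.1 (hfM hx) with h1 | h1
          · rw [h1]
            exact mem_insert_self _ _
          · refine mem_insert_of_mem (mem_erase.2 ⟨?_, h1⟩)
            rintro rfl
            exact hpf hx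
        rw [c.mem_D]
        intro x hx
        rcases mem_insert.1 hx with h1 | h1
        · rw [h1]
          exact ⟨f, hfE, hwf, hfs⟩
        · obtain ⟨hxp, hxS⟩ := mem_erase.1 h1
          by_cases hxv : x = v
          · rw [hxv]
            exact ⟨f, hfE, hvf, hfs⟩
          · have h2 : ¬ dep c.E S x p := fun h3 => hxv (hA x h3)
            unfold dep at h2
            push Not at h2
            obtain ⟨e, he, h3, h4, h5⟩ := h2 hxS hxp
            refine ⟨e, he, h3, ?_⟩
            exact (subset_erase.2 ⟨h4, h5⟩).trans (subset_insert _ _)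
      exact c.edge_eq hfE hwf hvf hpf (c.ne_of_W_C hwW hvC) (c.ne_of_R_W hp hwW).symm hv.2.1
    obtain ⟨e, he⟩ := c.exists_at hM (mem_insert_self (c.rep v) S)
    rw [eq_singleton_iff_unique_mem]
    refine ⟨?_, key⟩
    rw [← key e he]
    exact he

theorem class_R {S : Finset V} {p : V} (h : c.crit S p) (hr : c.red S p) (hp : isR c.E p)
    (hn : ∀ y, isR c.E y → ¬ dep c.E S y p) : c.clIAW S p ∨ c.clSelf S p := by
  obtain ⟨v, hvC, hv, hpv⟩ := c.CR_step h hr hn
  obtain ⟨hS, hpS, hcr⟩ := h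
  by_cases hA : ∀ x, dep c.E S x p → x = v
  · exact c.CR_A hS hr hp hvC hv hpv hA
  push Not at hA
  obtain ⟨y, hy, hyv⟩ := hA
  have hyC := c.CR_centre hr hn hy
  have hyv' := c.dep_trans hy hpv hyv
  right
  right
  obtain ⟨z, hz⟩ := c.CR_next hS hr hn hy
  by_cases hzp : z = p
  · subst hzp
    exact ⟨hS, hp, v, y, hvC, hyC, hyv.symm, c.at_unique hS hpv hz hyv.symm⟩
  have hz2 := c.dep_trans hz hy hzp
  by_cases hzv : z = v
  · subst hzv
    have h1 := c.at_unique hS hz hv hy.2.1
    refine ⟨hS, hp, z, y, hvC, hyC, hyv.symm, ?_⟩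
    have key : ∀ f ∈ at' c.E S p, f = {p, z, y} := by
      intro f hf
      rw [c.mem_at] at hf
      have h2 : f ∈ at' c.E S z := by
        rw [c.mem_at]
        exact ⟨hf.1, hpv.2.2 f hf.1 hf.2.1 hf.2.2, hf.2.2⟩
      rw [h1, mem_singleton] at h2
      rw [h2]
      ext x
      simp only [mem_insert, mem_singleton]
      tauto
    obtain ⟨e, he⟩ := c.exists_at hS hpS
    rw [eq_singleton_iff_unique_mem]
    refine ⟨?_, key⟩
    rw [← key e he]
    exact he
  · exfalso
    have h2 := c.dep_trans hz2 hpv hzv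
    obtain ⟨e, he⟩ := c.exists_at hS hz.1
    rw [c.mem_at] at he
    rcases c.edge_four he.1 he.2.1 (hz.2.2 e he.1 he.2.1 he.2.2) (hz2.2.2 e he.1 he.2.1 he.2.2)
      (h2.2.2 e he.1 he.2.1 he.2.2) hz.2.1 hzp hy.2.1 with h3 | h3 | h3
    · exact hzv h3.symm
    · exact hyv h3.symm
    · exact hv.2.1 h3

end Ctx
end H70G3
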