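import Pool.Agent.H70.G3.Basic

/-!
# Row CW : reduced pairs (S, p), p ∈ W, without dependent vertex in R

v = ctr p. Dep := {y : dep S y p} is nonempty (`erase_D_iff`, crit).  Every y ∈ Dep is in C: not L (`dep_not_L`), not W (red), not R (hn), `four`.
Case 1: all x ∈ Dep equal v. Then dep S v p. clA: v ∈ S; (S.erase p).erase v ∈ D by `erase_erase_D` with q := v (hq from dep S v p);
  insert v ((S.erase p).erase v) ∉ D: an edge at v inside it is an S-edge at v, contains p (dep S v p), but p is not in the set (p ≠ v).
Case 2: some v' ∈ Dep, v' ≠ v.  at' E S v' = {{v', p, v}} (`at_dep_W`).  ¬ cM2 with v': S.erase v' ∉ D, so there is z with dep S z v' (`erase_D_iff`).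
  (a) z = p: dep S p v', dep S p v (`dep_ctr`): at' E S p = {{p, v, v'}} (`at_unique`): clSW with z := v' (S.erase p ∉ D from crit).
  (b) z ≠ p: dep S z p (`dep_trans`), so z ∈ C.
     z = v: dep S v v', dep S v p: at' E S v = {{v, v', p}}; every S-edge at p contains v (`W_edge`) so lies in at' E S v; at' E S p nonempty: at' E S p = {{v,v',p}} = {{p,v,v'}}: clSW.
     z ≠ v: at' E S z = {{z, p, v}} (`at_dep_W`), its edge contains v' (dep S z v'): v' = z (no: dep), v' = p (no: C and W), v' = v (no).
-/

open Finset Classical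

universe u

namespace H70G3
namespace Ctx
variable {V : Type u} [Fintype V] [DecidableEq V] (c : Ctx V)

theorem class_W {S : Finset V} {p : V} (h : c.crit S p) (hr : c.red S p) (hp : isW c.E p)
    (hn : ∀ y, isR c.E y → ¬ dep c.E S y p) : c.clA S p ∨ c.clSW S p := by
  obtain ⟨hS, hpS, hcr⟩ := h
  obtain ⟨hM2, -, -, hR1⟩ := hr
  obtain ⟨v, hv⟩ : ∃ v, v = c.ctr p := ⟨_, rfl⟩
  have hC : ∀ y, dep c.E S y p → isC c.E y := by
    intro y hy
    rcases c.four y with h | h | h | h
    · exact absurd ⟨y, h, hy⟩ hR1
    · exact h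
    · exact absurd h (c.dep_not_L hy)
    · exact absurd hy (hn y h)
  have hvC : isC c.E v := by
    rw [hv]
    exact c.ctr_isC hp
  have hpv : p ≠ v := c.ne_of_W_C hp hvC
  have hne : ∃ y, dep c.E S y p := by
    by_contra hcon
    push Not at hcon
    exact hcr ((c.erase_D_iff hS).2 hcon)
  by_cases hall : ∀ x, dep c.E S x p → x = v
  · left
    obtain ⟨y, hy⟩ := hne
    have hdv : dep c.E S v p := by
      have h1 := hall y hy
      rwa [h1] at hy
    unfold clA
    rw [← hv]
    refine ⟨hp, hS, hpS, hdv.1, c.erase_erase_D hS hdv.2.2 hall, ?_⟩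
    intro hD
    rw [mem_D] at hD
    obtain ⟨e, he, hve, hes⟩ := hD v (mem_insert_self _ _)
    have hsub : insert v ((S.erase p).erase v) ⊆ S := by
      intro x hx
      rw [mem_insert] at hx
      rcases hx with hx | hx
      · rw [hx]
        exact hdv.1
      · exact mem_of_mem_erase (mem_of_mem_erase hx)
    have h1 := hes (hdv.2.2 e he hve (hes.trans hsub))
    rw [mem_insert] at h1
    rcases h1 with h1 | h1
    · exact hpv h1
    · exact (mem_erase.1 (mem_of_mem_erase h1)).1 rfl
  · right
    push Not at hall
    obtain ⟨v', hd', hvv'⟩ := hall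
    have hC' := hC v' hd'
    have hpv' : p ≠ v' := c.ne_of_W_C hp hC'
    have hz : ∃ z, dep c.E S z v' := by
      by_contra hcon
      push Not at hcon
      exact hM2 ⟨v', hC', hd', (c.erase_D_iff hS).2 hcon⟩
    obtain ⟨z, hz⟩ := hz
    have hpd : dep c.E S p v := by
      rw [hv]
      exact c.dep_ctr hp hpS
    unfold clSW
    rw [← hv]
    refine ⟨hp, hS, hcr, v', hC', hvv', ?_⟩
    by_cases hzp : z = p
    · rw [hzp] at hz
      exact c.at_unique hS hpd hz (Ne.symm hvv')
    · have hzd := c.dep_trans hz hd' hzp
      by_cases hzv : z = v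
      · rw [hzv] at hz hzd
        have h1 := c.at_unique hS hz hzd hpv'.symm
        have h2 : ({v, v', p} : Finset V) = {p, v, v'} := by
          ext x
          simp only [mem_insert, mem_singleton]
          tauto
        have key : ∀ e ∈ at' c.E S p, e = {p, v, v'} := by
          intro e he
          rw [mem_at] at he
          have h3 : v ∈ e := hpd.2.2 e he.1 he.2.1 he.2.2
          have h4 : e ∈ at' c.E S v := by
            rw [mem_at]
            exact ⟨he.1, h3, he.2.2⟩
          rw [h1, mem_singleton] at h4
          rw [h4, h2]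
        obtain ⟨e, he⟩ := c.exists_at hS hpS
        rw [eq_singleton_iff_unique_mem]
        refine ⟨?_, key⟩
        rw [← key e he]
        exact he
      · exfalso
        have h1 := c.at_dep_W hS hzd hp (by rw [← hv]; exact hzv)
        have h2 : ({z, p, c.ctr p} : Finset V) ∈ at' c.E S z := by
          rw [h1]
          exact mem_singleton_self _
        rw [mem_at] at h2
        have h3 := hz.2.2 _ h2.1 h2.2.1 h2.2.2
        simp only [mem_insert, mem_singleton] at h3
        rcases h3 with h3 | h3 | h3
        · exact hz.2.1 h3.symm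
        · exact hpv' h3.symm
        · exact hvv' (by rw [h3, hv])

end Ctx
end H70G3
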