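import Pool.Agent.H70.G3.Ra

/-!
# Row Ri : the states S1

T = insert w S, w = rep v, ias S y v (so S ∈ D, isR y, isC v, dep S y v, dep S v y, w ∉ S by `rep_Dm`, insert w (S.erase y) ∈ D).
T ∈ D: T = S ∪ insert w (S.erase y) (`union_D`).  w ≠ y.  T.erase y = insert w (S.erase y) ∈ D.  So nobody depends on y in T (`erase_D_iff`): self y T: ias T y v' contains dep T v' y: impossible.
(E) every T-edge g at y contains v: if w ∉ g then g ⊆ S, dep S y v; if w ∈ g: `W_edge`, `ctr_rep`.   So dep T y v.
t y T ≤ 2: some chosen edge avoids v (`tri_R`, first alternative since card = 3), it is not ⊆ T by (E).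
First alternative of S1src: at' E S y = {{y,v,s}}, s ∈ R, s ≠ y; e := {y,v,s} is also a T-edge.  ib y T: at' E T y = {{y,v1,v2}} would equal {{y,v,s}}, s ∈ {y,v1,v2}, s ≠ y, s ∈ C: contradiction.
  So self y T = 0.  om y T p ≠ 0: dep T y p, p ∈ e, p ≠ y; p = v gives 0; so only p = s: ldR ≤ 6 (`om_R_le`), and if it is ≠ 0 then dep T y s, dep T y v: at' E T y singleton
  (`at_unique`), t ≤ 1 (`t_le_card`): 6 + 4 + 2 ≤ 12.  If it is 0: 0 + 8 + 2 ≤ 12.
Second alternative: card (at' E S y) ≥ 2, so card (at' E T y) ≥ 2.  ib impossible.  om y T p ≠ 0: dep T y p and dep T y v, p ≠ v (v ∈ C gives om = 0): `at_unique` singleton, contradiction.  ldR = 0.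
-/

open Finset Classical

universe u

namespace H70G3
namespace Ctx
variable {V : Type u} [Fintype V] [DecidableEq V] (c : Ctx V)

theorem ldR_S1img {y : V} {T : Finset V} (hy : isR c.E y) (h3 : (c.tri y).card = 3)
    (h : c.S1img y T) : T ∈ c.D ∧ y ∈ T ∧ c.ldR y T + 4 * c.t y T + 2 ≤ 12 := by
  obtain ⟨S, v, hsrc, rfl⟩ := h
  obtain ⟨hias, halt⟩ := hsrc
  obtain ⟨hSD, -, hv, hyv, hvy, hdep, hno, hins⟩ := hias
  set w := c.rep v with hw
  have hwW : isW c.E w := c.rep_isW hv
  have hcw : c.ctr w = v := c.ctr_rep hv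
  have hwS : w ∉ S := hno w (c.rep_Dm hv)
  have hyS : y ∈ S := hyv.1
  have hyw : y ≠ w := c.ne_of_R_W hy hwW
  have hyne : y ≠ v := c.ne_of_R_C hy hv
  have hT : insert w S = S ∪ insert w (S.erase y) := by
    ext x
    simp only [mem_insert, mem_union, mem_erase]
    tauto
  have hTD : insert w S ∈ c.D := by
    rw [hT]; exact c.union_D hSD hins
  have hyT : y ∈ insert w S := mem_insert_of_mem hyS
  have hTe : (insert w S).erase y = insert w (S.erase y) := by
    ext x
    simp only [mem_insert, mem_erase]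
    constructor
    · rintro ⟨h1, h2 | h2⟩
      · exact Or.inl h2
      · exact Or.inr ⟨h1, h2⟩
    · rintro (h1 | ⟨h1, h2⟩)
      · exact ⟨by rw [h1]; exact hyw.symm, Or.inl h1⟩
      · exact ⟨h1, Or.inr h2⟩
  have hnd : ∀ x, ¬ dep c.E (insert w S) x y := by
    rw [← c.erase_D_iff hTD, hTe]; exact hins
  -- every T-edge at y contains v
  have hE : ∀ g ∈ c.E, y ∈ g → g ⊆ insert w S → v ∈ g := by
    intro g hg hyg hgT
    by_cases hwg : w ∈ g
    · rw [← hcw]; exact c.W_edge hwW hg hwg
    · apply hyv.2.2 g hg hyg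
      intro x hx
      rcases mem_insert.1 (hgT hx) with h1 | h1
      · exact absurd (h1 ▸ hx) hwg
      · exact h1
  have hdv : dep c.E (insert w S) y v := ⟨hyT, hyne, hE⟩
  -- t is at most two
  have ht : c.t y (insert w S) ≤ 2 := by
    rcases c.tri_R y hy with ⟨-, h1⟩ | ⟨h1, -⟩
    · obtain ⟨e, he, hve⟩ := h1 v hyne.symm
      have hlt : c.t y (insert w S) < (c.tri y).card := by
        unfold t
        apply card_lt_card
        rw [ssubset_iff_of_subset (filter_subset _ _)]
        refine ⟨e, he, ?_⟩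
        rw [mem_filter]
        rintro ⟨-, h2⟩
        exact hve (hE e (c.tri_sub y e he).1 (c.tri_sub y e he).2 h2)
      omega
    · omega
  have hom : ∀ p, c.om y (insert w S) p ≠ 0 → p ≠ v ∧ dep c.E (insert w S) y p := by
    intro p hp
    refine ⟨?_, (c.om_dep hp).1⟩
    rintro rfl
    exact hp (c.om_zero (c.C_not_R hv) (c.C_not_W hv))
  have hself0 : (¬ c.ib (insert w S) y) → c.self y (insert w S) = 0 := by
    intro hib
    unfold self
    rw [if_neg]
    rintro (⟨v', hv'⟩ | h1)
    · exact hnd v' hv'.2.2.2.2.1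
    · exact hib h1
  refine ⟨hTD, hyT, ?_⟩
  have hsub : at' c.E S y ⊆ at' c.E (insert w S) y := by
    intro g hg
    rw [mem_at] at hg ⊢
    exact ⟨hg.1, hg.2.1, hg.2.2.trans (subset_insert _ _)⟩
  rcases halt with ⟨s, hs, hsy, hat, htri⟩ | ⟨hcard, -⟩
  · have he : ({y, v, s} : Finset V) ∈ at' c.E (insert w S) y := by
      apply hsub
      rw [hat]; exact mem_singleton_self _
    have he' := he
    rw [mem_at] at he'
    have hib : ¬ c.ib (insert w S) y := by
      rintro ⟨-, -, v1, v2, h1, h2, h12, hat2⟩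
      rw [hat2, mem_singleton] at he
      have hsm : s ∈ ({y, v1, v2} : Finset V) := by
        rw [← he]; simp
      simp only [mem_insert, mem_singleton] at hsm
      rcases hsm with h4 | h4 | h4
      · exact hsy h4
      · exact c.ne_of_R_C hs h1 h4
      · exact c.ne_of_R_C hs h2 h4
    have hs0 := hself0 hib
    have hsum : ∑ p, c.om y (insert w S) p = c.om y (insert w S) s := by
      apply sum_eq_single_of_mem s (mem_univ _)
      intro p _ hps
      by_contra hne
      obtain ⟨h1, h2⟩ := hom p hne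
      have h4 := h2.2.2 _ he'.1 he'.2.1 he'.2.2
      simp only [mem_insert, mem_singleton] at h4
      rcases h4 with h5 | h5 | h5
      · exact h2.2.1 h5.symm
      · exact h1 h5
      · exact hps h5
    have hld : c.ldR y (insert w S) = c.om y (insert w S) s := by
      unfold ldR; rw [hsum, hs0]; rfl
    by_cases h0 : c.om y (insert w S) s = 0
    · rw [hld, h0]; omega
    · obtain ⟨h1, h2⟩ := hom s h0
      have hun := c.at_unique hTD h2 hdv h1
      have htc := c.t_le_card y (insert w S)
      rw [hun, card_singleton] at htc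
      have h6 := c.om_R_le (y := y) (S := insert w S) hs
      rw [hld]; omega
  · have hcT : 2 ≤ (at' c.E (insert w S) y).card := hcard.trans (card_le_card hsub)
    have hib : ¬ c.ib (insert w S) y := by
      rintro ⟨-, -, v1, v2, h1, h2, h12, hat2⟩
      rw [hat2, card_singleton] at hcT
      omega
    have hs0 := hself0 hib
    have hsum : ∑ p, c.om y (insert w S) p = 0 := by
      apply sum_eq_zero
      intro p _
      by_contra hne
      obtain ⟨h1, h2⟩ := hom p hne
      have hun := c.at_unique hTD h2 hdv h1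
      rw [hun, card_singleton] at hcT
      omega
    have hld : c.ldR y (insert w S) = 0 := by
      unfold ldR; rw [hsum, hs0]
    rw [hld]; omega

end Ctx
end H70G3
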