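import Pool.Agent.H70.G3.Basic

/-!
# Row Rj : the map S ↦ insert (rep v) S on the sources is injective

Σ_{S ∈ D} nS1 = card {S ∈ D : ∃ v, S1src y S v}; map S ↦ insert (rep v(S)) S ∈ {T ∈ D : S1img y T}: in D because S ∈ D and insert (rep v) (S.erase y) ∈ D (ias), `union_D`.
Use `transfer` or card_le_card_of_injOn.
Injective: S1, v1 and S2, v2 with T = insert (rep v1) S1 = insert (rep v2) S2.  Every T-edge g at y contains v_i: rep v_i ∉ g ⇒ g ⊆ S_i, dep S_i y v_i; rep v_i ∈ g ⇒ `W_edge`, `ctr_rep`.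
If v1 ≠ v2: there is an S1-edge e0 at y, e0 = {y,v1,v2} (`edge_eq`), and every S1-edge at y equals it; S1src S1 v1 second alternative (card ≥ 2) impossible; first: {y,v1,s} = {y,v1,v2},
 s ∈ R, s ≠ y: s = v1 or v2 ∈ C: contradiction.  So v1 = v2 = v, rep v ∉ S_i (`rep_Dm`, ias): S1 = T.erase (rep v) = S2.
-/

open Finset Classical

universe u

namespace H70G3
namespace Ctx
variable {V : Type u} [Fintype V] [DecidableEq V] (c : Ctx V)

lemma Rj_mem {y v : V} {S g : Finset V} (h : c.S1src y S v) (hg : g ∈ c.E) (hy : y ∈ g)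
    (hs : g ⊆ insert (c.rep v) S) : v ∈ g := by
  obtain ⟨⟨hS, hyR, hv, hd, -, -, -, -⟩, -⟩ := h
  by_cases hr : c.rep v ∈ g
  · have h1 := c.W_edge (c.rep_isW hv) hg hr
    rwa [c.ctr_rep hv] at h1
  · refine hd.2.2 g hg hy ?_
    intro x hx
    rcases mem_insert.1 (hs hx) with h1 | h1
    · rw [h1] at hx
      exact absurd hx hr
    · exact h1

lemma Rj_key {y v1 v2 : V} {S1 S2 : Finset V} (h1 : c.S1src y S1 v1) (h2 : c.S1src y S2 v2)
    (hT : insert (c.rep v1) S1 = insert (c.rep v2) S2) : S1 = S2 := by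
  have hyR : isR c.E y := h1.1.2.1
  have hC1 : isC c.E v1 := h1.1.2.2.1
  have hC2 : isC c.E v2 := h2.1.2.2.1
  have heq : v1 = v2 := by
    by_contra hne
    have key : ∀ g ∈ at' c.E S1 y, g = {y, v1, v2} := by
      intro g hg
      rw [c.mem_at] at hg
      have a1 : v1 ∈ g := c.Rj_mem h1 hg.1 hg.2.1 (hg.2.2.trans (subset_insert _ _))
      have a2 : v2 ∈ g := c.Rj_mem h2 hg.1 hg.2.1 (by
        rw [← hT]; exact hg.2.2.trans (subset_insert _ _))
      exact c.edge_eq hg.1 hg.2.1 a1 a2 (c.ne_of_R_C hyR hC1) (c.ne_of_R_C hyR hC2) hne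
    rcases h1.2 with ⟨s, hs, hsy, hat, -⟩ | ⟨hcard, -⟩
    · have a1 := key {y, v1, s} (by rw [hat]; exact mem_singleton_self _)
      have a2 : v2 ∈ ({y, v1, s} : Finset V) := by rw [a1]; simp
      simp only [mem_insert, mem_singleton] at a2
      rcases a2 with a2 | a2 | a2
      · exact c.ne_of_R_C hyR hC2 a2.symm
      · exact hne a2.symm
      · exact c.ne_of_R_C hs hC2 a2.symm
    · have a1 : at' c.E S1 y ⊆ {{y, v1, v2}} := by
        intro g hg
        rw [mem_singleton]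
        exact key g hg
      have a2 := card_le_card a1
      rw [card_singleton] at a2
      omega
  subst heq
  have n1 : c.rep v1 ∉ S1 := h1.1.2.2.2.2.2.2.1 _ (c.rep_Dm hC1)
  have n2 : c.rep v1 ∉ S2 := h2.1.2.2.2.2.2.2.1 _ (c.rep_Dm hC1)
  rw [← erase_insert n1, hT, erase_insert n2]

lemma Rj_D {y v : V} {S : Finset V} (h : c.S1src y S v) : insert (c.rep v) S ∈ c.D := by
  obtain ⟨⟨hS, -, -, -, -, -, -, hI⟩, -⟩ := h
  have h1 : insert (c.rep v) S = S ∪ insert (c.rep v) (S.erase y) := by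
    ext x
    simp only [mem_insert, mem_union, mem_erase]
    tauto
  rw [h1]
  exact c.union_D hS hI

theorem sum_nS1_le {y : V} (hy : isR c.E y) :
    ∑ S ∈ c.D, c.nS1 y S ≤ ∑ T ∈ c.D, c.nImg y T := by
  have e1 : ∑ S ∈ c.D, c.nS1 y S = (c.D.filter (fun S => ∃ v, c.S1src y S v)).card := by
    rw [card_filter]
    rfl
  have e2 : ∑ T ∈ c.D, c.nImg y T = (c.D.filter (fun T => c.S1img y T)).card := by
    rw [card_filter]
    rfl
  rw [e1, e2]
  refine card_le_card_of_injOn
    (fun S => if h : ∃ v, c.S1src y S v then insert (c.rep h.choose) S else S) ?_ ?_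
  · intro S hS
    have hS' := (mem_filter.1 hS).2
    have hs := hS'.choose_spec
    simp only [dif_pos hS']
    exact mem_filter.2 ⟨c.Rj_D hs, S, _, hs, rfl⟩
  · intro S hS S' hS' heq
    have a1 := (mem_filter.1 hS).2
    have a2 := (mem_filter.1 hS').2
    simp only [dif_pos a1, dif_pos a2] at heq
    exact c.Rj_key a1.choose_spec a2.choose_spec heq

end Ctx
end H70G3
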