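import Pool.Agent.H70.G3.Basic

/-!
# Row Rs : a single payer y ∈ R of p ∈ R : sole or special

Suppose the first alternative fails: x with dep S x p, x ≠ y.  x ∉ L (`dep_not_L`), x ∉ W (red), x ∉ R (uniq): x ∈ C (`four`); call it v.
¬ cM2 with v (isC v, dep S v p): S.erase v ∉ D, so there is z with dep S z v (`erase_D_iff`, S ∈ D from crit).
(1) z = p: dep S p v; dep S y p, y ≠ v (`ne_of_R_C`) ⇒ dep S y v (`dep_trans`) ⇒ at' E S y = {{y,p,v}} (`at_unique`, p ≠ v as p ∈ R).
(2) z ≠ p: dep S z p (`dep_trans`). z ∉ L, z ∉ W (red).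
  z ∈ R: z = y (uniq): dep S y v, dep S y p: at' E S y = {{y,p,v}}.
  z ∈ C: ¬ cM2 with z: there is z', dep S z' z.
    z' = p: dep S p z, so dep S y z (y ≠ z), at' E S y = {{y,p,z}}.
    z' ≠ p: if z' ≠ v: dep S z' p (via z), dep S z' v (via z); the S-edge at z' (`exists_at`) contains z', z, p, v, pairwise different: `edge_four` contradiction.
     So z' = v: dep S v z.  Then pairP S p v z would hold unless dep S p v (p ∈ S from crit); red excludes pairP; so dep S p v and (1) applies.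
-/

open Finset Classical

universe u

namespace H70G3
namespace Ctx
variable {V : Type u} [Fintype V] [DecidableEq V] (c : Ctx V)

theorem sole_or_special {S : Finset V} {y p : V} (hy : isR c.E y) (hp : isR c.E p)
    (hc : c.crit S p) (hr : c.red S p) (hd : dep c.E S y p) (hu : c.uniq y S p) :
    (∀ x, dep c.E S x p → x = y) ∨ ∃ v, isC c.E v ∧ at' c.E S y = {{y, p, v}} := by
  by_cases h : ∀ x, dep c.E S x p → x = y
  · exact Or.inl h
  right
  push Not at h
  obtain ⟨v, hvp, hvy⟩ := h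
  obtain ⟨hS, hpS, _⟩ := hc
  obtain ⟨r1, _, r3, r4⟩ := hr
  have hcl : ∀ x, dep c.E S x p → isC c.E x ∨ x = y := by
    intro x hx
    rcases c.four x with h1 | h1 | h1 | h1
    · exact absurd ⟨x, h1, hx⟩ r4
    · exact Or.inl h1
    · exact absurd h1 (c.dep_not_L hx)
    · exact Or.inr (hu x h1 hx)
  have hvC : isC c.E v := (hcl v hvp).resolve_right hvy
  have hex : ∀ u, isC c.E u → dep c.E S u p → ∃ z, dep c.E S z u := by
    intro u hu1 hu2
    by_contra hno
    push Not at hno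
    exact r1 ⟨u, hu1, hu2, (c.erase_D_iff hS).2 hno⟩
  have case1 : dep c.E S p v → ∃ v, isC c.E v ∧ at' c.E S y = {{y, p, v}} := fun hpv =>
    ⟨v, hvC, c.at_unique hS hd (c.dep_trans hd hpv (c.ne_of_R_C hy hvC)) (c.ne_of_R_C hp hvC)⟩
  obtain ⟨z, hz⟩ := hex v hvC hvp
  by_cases hzp : z = p
  · subst hzp
    exact case1 hz
  have hzp' : dep c.E S z p := c.dep_trans hz hvp hzp
  rcases hcl z hzp' with hzC | rfl
  · obtain ⟨z', hz'⟩ := hex z hzC hzp'
    by_cases hz'p : z' = p
    · subst hz'p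
      exact ⟨z, hzC, c.at_unique hS hd (c.dep_trans hd hz' (c.ne_of_R_C hy hzC)) (c.ne_of_R_C hp hzC)⟩
    have hz'p' : dep c.E S z' p := c.dep_trans hz' hzp' hz'p
    by_cases hz'v : z' = v
    · subst hz'v
      by_cases hpv : dep c.E S p z'
      · exact case1 hpv
      · exact absurd ⟨z', z, hvC, hzC, hvp, hz', hzp', hz, hpS, hpv⟩ r3
    · exfalso
      have hz'v' : dep c.E S z' v := c.dep_trans hz' hz hz'v
      obtain ⟨e, he⟩ := c.exists_at hS hz'.1
      rw [mem_at] at he
      obtain ⟨he1, he2, he3⟩ := he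
      rcases c.edge_four he1 he2 (hz'.2.2 e he1 he2 he3) (hz'p'.2.2 e he1 he2 he3)
        (hz'v'.2.2 e he1 he2 he3) hz'.2.1 hz'p hzp with h1 | h1 | h1
      · exact hz'v h1.symm
      · exact hz.2.1 h1.symm
      · exact hvp.2.1 h1
  · exact ⟨v, hvC, c.at_unique hS hd hz (c.ne_of_R_C hp hvC)⟩

end Ctx
end H70G3
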