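import Pool.Agent.H70.G3.Ra
import Pool.Agent.H70.G3.Rs

/-!
# Row Rm : the load of (y, S) when there are at least two S-edges at y

If dep S y p and dep S y q with p ≠ q then at' E S y is a singleton (`at_unique`), excluded.  So at most one vertex p has dep S y p.  If p ∈ W: dep S y p and dep S y (ctr p)
(y ≠ ctr p), i.e. `at_dep_W` gives a singleton, excluded.  ib is excluded (singleton).  ias S y v needs dep S y v.
(0) no vertex p with dep S y p: ldR = 0 and t ≤ 3 (t ≤ card tri = 3).
(1) dep S y p, p ∈ R: self = 0 (v = p impossible).  ldR = om y S p ≤ 6.  t ≤ 2: all S-edges at y contain p, and some chosen edge avoids p (`tri_R`, first alternative because card tri = 3).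
   t ≤ 1: 6 + 4 ≤ 12.  t = 2: om ≤ 3: 3 + 8 ≤ 12.  om > 3: uniq, crit, red; `sole_or_special`: the special alternative gives a singleton, excluded; so all dependents of p equal y:
   X := (S.erase p).erase y ∈ D (`erase_erase_D`).  DA y X p: isU y X (edges at y in insert y X are S-edges, contain p, p ∉ insert y X); two chosen edges e ≠ f ⊆ S (t = 2), both contain p;
   insert y (insert p X) = S.  So nDA y S ≥ 1: 6 + 8 ≤ 12 + 2.
(2) dep S y p, p ∉ R (then p ∉ W): all om = 0; ldR = self ≤ 6.  If self = 0 fine.  self = 6: ias S y p (v = p), t ≤ 2 as before; t ≤ 1 fine; t = 2: S1src y S p (second alternative): nS1 = 1: 6 + 8 ≤ 12 + 2.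
-/

open Finset Classical

universe u

namespace H70G3
namespace Ctx
variable {V : Type u} [Fintype V] [DecidableEq V] (c : Ctx V)

theorem Rm_uniq {y p q : V} {S : Finset V} (hS : S ∈ c.D) (h2 : 2 ≤ (at' c.E S y).card)
    (hp : dep c.E S y p) (hq : dep c.E S y q) : p = q := by
  by_contra h
  rw [c.at_unique hS hp hq h, card_singleton] at h2
  omega

theorem Rm_not_ib {y : V} {S : Finset V} (h2 : 2 ≤ (at' c.E S y).card) : ¬ c.ib S y := by
  rintro ⟨-, -, v, v', -, -, -, h⟩
  rw [h, card_singleton] at h2
  omega

theorem Rm_t3 {y : V} (S : Finset V) (h3 : (c.tri y).card = 3) : c.t y S ≤ 3 := by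
  unfold t
  rw [← h3]
  exact card_filter_le _ _

theorem Rm_t2 {y p : V} {S : Finset V} (hy : isR c.E y) (h3 : (c.tri y).card = 3)
    (hp : dep c.E S y p) : c.t y S ≤ 2 := by
  rcases c.tri_R y hy with ⟨-, h⟩ | ⟨h, -⟩
  · obtain ⟨e, he, hpe⟩ := h p (Ne.symm hp.2.1)
    unfold t
    have hsub : (c.tri y).filter (fun e => e ⊆ S) ⊆ (c.tri y).erase e := by
      intro f hf
      rw [mem_filter] at hf
      rw [mem_erase]
      refine ⟨?_, hf.1⟩
      rintro rfl
      exact hpe (hp.2.2 f (c.tri_sub y f he).1 (c.tri_sub y f he).2 hf.2)
    refine (card_le_card hsub).trans ?_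
    rw [card_erase_of_mem he, h3]
  · omega

theorem Rm_sum {y p : V} {S : Finset V} (hS : S ∈ c.D) (h2 : 2 ≤ (at' c.E S y).card)
    (hp : dep c.E S y p) : ∑ q, c.om y S q = c.om y S p := by
  refine sum_eq_single p (fun q _ hq => ?_) (fun h => absurd (mem_univ _) h)
  by_contra h
  exact hq (c.Rm_uniq hS h2 (c.om_dep h).1 hp)

theorem ldR_two {y : V} {S : Finset V} (hy : isR c.E y) (h3 : (c.tri y).card = 3)
    (hS : S ∈ c.D) (h2 : 2 ≤ (at' c.E S y).card) :
    c.ldR y S + 4 * c.t y S ≤ 12 + 2 * c.nDA y S + 2 * c.nS1 y S := by
  have hib := c.Rm_not_ib h2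
  by_cases hex : ∃ p, dep c.E S y p
  · obtain ⟨p, hp⟩ := hex
    have ht := c.Rm_t2 hy h3 hp
    have hpW : ¬ isW c.E p := by
      intro hw
      rw [c.at_dep_W hS hp hw (c.ne_of_R_C hy (c.ctr_isC hw)), card_singleton] at h2
      omega
    unfold ldR
    rw [c.Rm_sum hS h2 hp]
    by_cases hpR : isR c.E p
    · -- case 1
      have hself : c.self y S = 0 := by
        unfold self
        rw [if_neg]
        rintro (⟨v, hv⟩ | h)
        · have hvp := c.Rm_uniq hS h2 hv.2.2.2.1 hp
          exact c.C_not_R hv.2.2.1 (hvp ▸ hpR)
        · exact hib h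
      rw [hself, add_zero]
      have hom := c.om_R_le (y := y) (S := S) hpR
      by_cases ht1 : c.t y S ≤ 1
      · omega
      · have ht2 : c.t y S = 2 := by omega
        by_cases ho : c.om y S p ≤ 3
        · omega
        · have hu : c.uniq y S p := by
            by_contra hu
            exact ho (c.om_R_le3 hpR hu)
          obtain ⟨hd, hc, hr⟩ := c.om_dep (y := y) (S := S) (p := p) (by omega)
          rcases c.sole_or_special hy hpR hc hr hd hu with hs | ⟨v, -, hv⟩
          · have hX := c.erase_erase_D hS hd.2.2 hs
            have hyp : y ≠ p := hd.2.1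
            have hpS : p ∈ S := hc.2.1
            have hyS : y ∈ S := hd.1
            have hpX : p ∉ insert y ((S.erase p).erase y) := by
              simp only [mem_insert, mem_erase, not_or]
              exact ⟨Ne.symm hyp, fun h => h.2.1 rfl⟩
            have hins : insert y (insert p ((S.erase p).erase y)) = S := by
              ext x
              simp only [mem_insert, mem_erase]
              constructor
              · rintro (rfl | rfl | h)
                · exact hyS
                · exact hpS
                · exact h.2.2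
              · intro hx
                by_cases h1 : x = y
                · exact Or.inl h1
                · by_cases h4 : x = p
                  · exact Or.inr (Or.inl h4)
                  · exact Or.inr (Or.inr ⟨h1, h4, hx⟩)
            have hU : c.isU y ((S.erase p).erase y) := by
              refine ⟨hX, notMem_erase _ _, fun h => ?_⟩
              obtain ⟨e, he⟩ := c.exists_at h (mem_insert_self _ _)
              rw [mem_at] at he
              refine hpX (he.2.2 (hd.2.2 e he.1 he.2.1 (he.2.2.trans ?_)))
              rw [insert_erase (mem_erase.2 ⟨hyp, hyS⟩)]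
              exact erase_subset _ _
            obtain ⟨e, f, hef, hcard⟩ := card_eq_two.1 ht2
            have he : e ∈ (c.tri y).filter (fun e => e ⊆ S) := by rw [hcard]; simp
            have hf : f ∈ (c.tri y).filter (fun e => e ⊆ S) := by rw [hcard]; simp
            rw [mem_filter] at he hf
            have hDA : c.DA y ((S.erase p).erase y) p := by
              refine ⟨hU, hpR, fun h => hpX (mem_insert_of_mem h), Ne.symm hyp, e, he.1, f, hf.1, hef,
                hd.2.2 e (c.tri_sub y e he.1).1 (c.tri_sub y e he.1).2 he.2,
                hd.2.2 f (c.tri_sub y f hf.1).1 (c.tri_sub y f hf.1).2 hf.2, ?_, ?_⟩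
              · rw [hins]; exact he.2
              · rw [hins]; exact hf.2
            have hn : 1 ≤ c.nDA y S := by
              unfold nDA
              rw [Nat.one_le_iff_ne_zero, Ne, card_eq_zero, ← Ne, ← nonempty_iff_ne_empty]
              exact ⟨((S.erase p).erase y, p), mem_filter.2 ⟨mem_univ _, hDA, hins⟩⟩
            omega
          · rw [hv, card_singleton] at h2
            omega
    · -- case 2
      rw [c.om_zero hpR hpW, zero_add]
      have hself := c.self_le y S
      by_cases hs0 : c.self y S = 0
      · omega
      · have hias : c.ias S y p := by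
          have h : (∃ v, c.ias S y v) ∨ c.ib S y := by
            by_contra hn
            exact hs0 (by unfold self; rw [if_neg hn])
          rcases h with ⟨v, hv⟩ | h
          · rwa [← c.Rm_uniq hS h2 hv.2.2.2.1 hp]
          · exact absurd h hib
        by_cases ht1 : c.t y S ≤ 1
        · omega
        · have ht2 : c.t y S = 2 := by omega
          have hn : c.nS1 y S = 1 := by
            unfold nS1
            rw [if_pos ⟨p, hias, Or.inr ⟨h2, ht2⟩⟩]
          omega
  · have hld : c.ldR y S = 0 := by
      unfold ldR
      have h1 : ∑ q, c.om y S q = 0 := by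
        refine sum_eq_zero fun q _ => ?_
        by_contra h
        exact hex ⟨q, (c.om_dep h).1⟩
      have h4 : c.self y S = 0 := by
        unfold self
        rw [if_neg]
        rintro (⟨v, hv⟩ | h)
        · exact hex ⟨v, hv.2.2.2.1⟩
        · exact hib h
      rw [h1, h4]
    have := c.Rm_t3 S h3
    omega

end Ctx
end H70G3
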