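import Pool.Agent.H70.G3.Ra

/-!
# Row Rt : the states T2

T2 y T: e ≠ f in tri y, e, f ⊆ T, both are T-edges at y (`tri_sub`).
dep T y p ⇒ p ∈ e ∩ f, p ≠ y.  First alternative (e ∩ f ⊆ {y}): no such p.  Second: e = {y,w,ctr w}, f = {y,ctr w,x}: p ∈ {w, ctr w} ∩ {ctr w, x}; p = w would give w = x (w ≠ ctr w, w ≠ y) and f = e;
 so p = ctr w, in C.
(1) all om y T p = 0 (`om_dep`, `om_zero`, `C_not_R`, `C_not_W`).
(2) self y T = 0: ib: at' E T y would be a singleton but e ≠ f are in it.  ias T y v: dep T y v so (second alternative) v = ctr w, but w ∈ T with Dm w v contradicts the clause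
    ∀ u, Dm u v → u ∉ T.
(3) ¬ S1img y T: suppose T = insert (rep v) S, S1src S v.  Every T-edge g at y contains v: if rep v ∉ g then g ⊆ S, use dep S y v (in ias); if rep v ∈ g use `W_edge`, `ctr_rep`.
    So v ∈ e ∩ f, v ≠ y: second alternative, and v = ctr w as above.  w ∈ T, Dm w v so w ∉ S (ias), hence w = rep v.
    S1src first alternative: at' E S y = {{y,v,s}}, s ∈ R, s ≠ y.  f = {y,v,x} ⊆ T, w ∉ f (w = x would give f = e; w ≠ y, v), so f ⊆ S, f ∈ at' E S y, f = {y,v,s}, so s ∈ {y,v,x}: s ≠ y;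
     s ≠ v (R, C); s = x: x ∈ C or W, contradiction.
    second alternative: t y S = 2 : two chosen edges inside S; with e (contains w = rep v ∉ S, so not inside S) there are three chosen edges inside T, but t y T = 2: contradiction.
    (t y S ≤ number of chosen edges inside T different from e = 1.)
-/

open Finset Classical

universe u

namespace H70G3
namespace Ctx
variable {V : Type u} [Fintype V] [DecidableEq V] (c : Ctx V)

lemma Rt_key {y p : V} {e f : Finset V} (hy : isR c.E y) (hef : e ≠ f)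
    (h : (∀ x ∈ e, x ∈ f → x = y) ∨
     (∃ w x, isW c.E w ∧ e = {y, w, c.ctr w} ∧ f = {y, c.ctr w, x} ∧ (isC c.E x ∨ isW c.E x)))
    (hpe : p ∈ e) (hpf : p ∈ f) (hpy : p ≠ y) :
    ∃ w x, isW c.E w ∧ e = {y, w, c.ctr w} ∧ f = {y, c.ctr w, x} ∧ (isC c.E x ∨ isW c.E x) ∧
      p = c.ctr w ∧ w ∉ f := by
  rcases h with h | ⟨w, x, hw, he, hf, hx⟩
  · exact absurd (h p hpe hpf) hpy
  · have hwf : w ∉ f := by
      intro hwf
      rw [hf] at hwf
      simp only [mem_insert, mem_singleton] at hwf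
      rcases hwf with h1 | h1 | h1
      · exact c.ne_of_R_W hy hw h1.symm
      · exact (c.ctr_Dm hw).1 h1
      · apply hef
        rw [he, hf, ← h1]
        ext a
        simp only [mem_insert, mem_singleton]
        tauto
    refine ⟨w, x, hw, he, hf, hx, ?_, hwf⟩
    rw [he] at hpe
    simp only [mem_insert, mem_singleton] at hpe
    rcases hpe with h1 | h1 | h1
    · exact absurd h1 hpy
    · rw [h1] at hpf
      exact absurd hpf hwf
    · exact h1

theorem ldR_T2 {y : V} {T : Finset V} (hy : isR c.E y) (h3 : (c.tri y).card = 3)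
    (h : c.T2 y T) : c.ldR y T = 0 ∧ ¬ c.S1img y T := by
  obtain ⟨hTD, hyT, ht2, e, he, f, hf, hef, heT, hfT, halt⟩ := h
  have heE := c.tri_sub y e he
  have hfE := c.tri_sub y f hf
  have heat : e ∈ at' c.E T y := by rw [mem_at]; exact ⟨heE.1, heE.2, heT⟩
  have hfat : f ∈ at' c.E T y := by rw [mem_at]; exact ⟨hfE.1, hfE.2, hfT⟩
  refine ⟨?_, ?_⟩
  · unfold ldR
    have h1 : ∑ p, c.om y T p = 0 := by
      refine sum_eq_zero fun p _ => ?_
      by_contra hne
      obtain ⟨hd, -, -⟩ := c.om_dep hne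
      obtain ⟨w, x, hw, -, -, -, hp, -⟩ := c.Rt_key hy hef halt (hd.2.2 e heE.1 heE.2 heT)
        (hd.2.2 f hfE.1 hfE.2 hfT) hd.2.1.symm
      apply hne
      have hpC : isC c.E p := by rw [hp]; exact c.ctr_isC hw
      exact c.om_zero (c.C_not_R hpC) (c.C_not_W hpC)
    have h2 : c.self y T = 0 := by
      unfold self
      rw [if_neg]
      rintro (⟨v, hv⟩ | ⟨_, _, v, v', _, _, _, hat⟩)
      · obtain ⟨-, -, hvC, hd, -, -, hu, -⟩ := hv
        obtain ⟨w, x, hw, hee, -, -, hp, -⟩ := c.Rt_key hy hef halt (hd.2.2 e heE.1 heE.2 heT)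
          (hd.2.2 f hfE.1 hfE.2 hfT) hd.2.1.symm
        refine hu w ?_ (heT ?_)
        · rw [hp]; exact c.ctr_Dm hw
        · rw [hee]; simp
      · rw [hat, mem_singleton] at heat hfat
        exact hef (heat.trans hfat.symm)
    rw [h1, h2]
  · rintro ⟨S, v, ⟨hias, hAB⟩, hTS⟩
    obtain ⟨hSD, -, hvC, hd, -, -, hu, -⟩ := hias
    have hrS : c.rep v ∉ S := hu _ (c.rep_Dm hvC)
    have hsub : ∀ g : Finset V, g ⊆ T → c.rep v ∉ g → g ⊆ S := by
      intro g hg hr
      rw [hTS] at hg
      exact (Finset.subset_insert_iff_of_notMem hr).1 hg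
    have hcont : ∀ g ∈ c.E, y ∈ g → g ⊆ T → v ∈ g := by
      intro g hg hyg hgT
      by_cases hr : c.rep v ∈ g
      · have h1 := c.W_edge (c.rep_isW hvC) hg hr
        rwa [c.ctr_rep hvC] at h1
      · exact hd.2.2 g hg hyg (hsub g hgT hr)
    obtain ⟨w, x, hw, hee, hff, hx, hp, hwf⟩ := c.Rt_key hy hef halt (hcont e heE.1 heE.2 heT)
      (hcont f hfE.1 hfE.2 hfT) hd.2.1.symm
    have hwS : w ∉ S := by
      apply hu w
      rw [hp]; exact c.ctr_Dm hw
    have hwe : w ∈ e := by rw [hee]; simp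
    have hwr : w = c.rep v := by
      have h1 := heT hwe
      rw [hTS, mem_insert] at h1
      rcases h1 with h1 | h1
      · exact h1
      · exact absurd h1 hwS
    rcases hAB with ⟨s, hsR, hsy, hat, -⟩ | ⟨-, ht⟩
    · have hfS : f ⊆ S := hsub f hfT (by rw [← hwr]; exact hwf)
      have hfat' : f ∈ at' c.E S y := by rw [mem_at]; exact ⟨hfE.1, hfE.2, hfS⟩
      rw [hat, mem_singleton] at hfat'
      have hsf : s ∈ f := by rw [hfat']; simp
      rw [hff] at hsf
      simp only [mem_insert, mem_singleton] at hsf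
      rcases hsf with h1 | h1 | h1
      · exact hsy h1
      · exact c.ne_of_R_C hsR (c.ctr_isC hw) h1
      · rcases hx with hx | hx
        · exact c.ne_of_R_C hsR hx h1
        · exact c.ne_of_R_W hsR hx h1
    · unfold t at ht ht2
      have hsub2 : (c.tri y).filter (fun g => g ⊆ S) ⊆ ((c.tri y).filter (fun g => g ⊆ T)).erase e := by
        intro g hg
        rw [mem_filter] at hg
        rw [mem_erase, mem_filter]
        refine ⟨?_, hg.1, hg.2.trans (by rw [hTS]; exact subset_insert _ _)⟩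
        rintro rfl
        exact hwS (hg.2 hwe)
      have h1 := card_le_card hsub2
      have hemem : e ∈ (c.tri y).filter (fun g => g ⊆ T) := mem_filter.2 ⟨he, heT⟩
      rw [card_erase_of_mem hemem, ht, ht2] at h1
      omega

end Ctx
end H70G3
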