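import Pool.Agent.H70.G3.Rp

/-!
# Row Rv : used states are T2 states

t y T = 2 is part of Use.  T ∈ D: X ∈ D (isU), the edges are in E (`tri_sub`), `edge_D`, `union_D`.  y ∈ T.
First alternative of Use: e W-active: e = {y,w,ctr w}; f W- or O-active; e, f ∈ tri y, e, f ⊆ T.  If ctr w ∉ f: e ∩ f ⊆ {y}: a common x ≠ y is w (then f = e by `WA_edge`, contradiction) or ctr w.
 If ctr w ∈ f: `pair_shape`: f = {y, ctr w, w'}, w' ∈ W: second alternative of T2 with x := w'.
Second alternative: e := {y,w,ctr w}, f := {y,ctr w,ctr w'}, x := ctr w' ∈ C; e ≠ f (w ∈ e; w ∉ f because w ∈ W, y ∈ R, centres in C).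
-/

open Finset Classical

universe u

namespace H70G3
namespace Ctx
variable {V : Type u} [Fintype V] [DecidableEq V] (c : Ctx V)

theorem use_T2 {y : V} {X T : Finset V} (hy : isR c.E y) (h : c.Use y X T) : c.T2 y T := by
  obtain ⟨ht, h | h⟩ := h
  · obtain ⟨e, f, hef, he, hf, hT⟩ := h
    have he0 := he
    obtain ⟨hU, het, _, w, hw, _, hew, _⟩ := he
    have hft : f ∈ c.tri y := by
      rcases hf with hf | hf
      · exact hf.2.1
      · exact hf.2.1
    have heE := c.tri_sub y e het
    have hfE := c.tri_sub y f hft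
    have heT : e ⊆ T := by
      rw [hT]; exact subset_union_right.trans subset_union_left
    have hfT : f ⊆ T := by rw [hT]; exact subset_union_right
    refine ⟨?_, heT heE.2, ht, e, het, f, hft, hef, heT, hfT, ?_⟩
    · rw [hT]
      exact c.union_D (c.union_D hU.1 (c.edge_D heE.1)) (c.edge_D hfE.1)
    · by_cases hcf : c.ctr w ∈ f
      · right
        rw [hew] at he0
        obtain ⟨w', hw', -, hf'⟩ := c.pair_shape hy hw he0 hf (by rw [← hew]; exact hef.symm) hcf
        exact ⟨w, w', hw, hew, hf', Or.inr hw'⟩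
      · left
        intro x hx hxf
        rw [hew] at hx
        simp only [mem_insert, mem_singleton] at hx
        rcases hx with rfl | rfl | rfl
        · rfl
        · exfalso
          have h1 := c.WA_edge (X := X) hy hw hfE.1 hfE.2 hxf
          exact hef (hew.trans h1.symm)
        · exact absurd hxf hcf
  · obtain ⟨w, w', hw, hw', he, _, _, _, _, hft, hT⟩ := h
    obtain ⟨hU, het, _, _⟩ := he
    have heE := c.tri_sub y _ het
    have hfE := c.tri_sub y _ hft
    have heT : ({y, w, c.ctr w} : Finset V) ⊆ T := by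
      rw [hT]; exact subset_union_right.trans subset_union_left
    have hfT : ({y, c.ctr w, c.ctr w'} : Finset V) ⊆ T := by rw [hT]; exact subset_union_right
    refine ⟨?_, heT heE.2, ht, _, het, _, hft, ?_, heT, hfT, Or.inr ⟨w, c.ctr w', hw, rfl, rfl,
      Or.inl (c.ctr_isC hw')⟩⟩
    · rw [hT]
      exact c.union_D (c.union_D hU.1 (c.edge_D heE.1)) (c.edge_D hfE.1)
    · intro heq
      have h1 : w ∈ ({y, c.ctr w, c.ctr w'} : Finset V) := by
        rw [← heq]; simp
      simp only [mem_insert, mem_singleton] at h1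
      rcases h1 with h1 | h1 | h1
      · exact c.ne_of_R_W hy hw h1.symm
      · exact c.ne_of_W_C hw (c.ctr_isC hw) h1
      · exact c.ne_of_W_C hw (c.ctr_isC hw') h1

end Ctx
end H70G3
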