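import Pool.Agent.H70.G3.Rp

/-!
# Row Rw : every state is used by at most two clusters

Let U = {X : Use y X T}.  t y T = 2 (if U is nonempty): exactly two chosen edges E1 ≠ E2 are ⊆ T.
Call an edge at y W-type if it contains a vertex w ∈ W; then it is {y,w,ctr w} (`WA_edge`) and w is its only vertex in W.
In every use one of the two edges is W-type and W-active; say E1 = {y,w,v} is W-type.
(A) Some X ∈ U by the second alternative: the two chosen edges in T are {y,w,ctr w} and {y,ctr w,ctr w'} (both ⊆ T, t = 2), i.e. E1 = {y,w,v} and E2 = {y,v,v'} with v, v' ∈ C.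
   Then no X' ∈ U is by the first alternative: both E1, E2 would be active, but E2 contains no W-vertex (not WA) and no R-vertex except y (OA needs x ∈ X' ∩ R, x ≠ y): contradiction.
   For X' ∈ U by the second alternative: the edges are the same E1 (the W-type one), E2, and y, w, v, v' ∉ X', T = X' ∪ E1 ∪ E2, so X' = T \ (E1 ∪ E2). So card U ≤ 1.
(B) All X ∈ U are by the first alternative: E1, E2 both active at X, at least one of them W-active.  Note: a W-type edge is never O-active (OA: {y,a,x}, ¬isW a, x ∈ R), so all W-type edges are W-active, a not W-type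
   edge is O-active.  E1 = {y,w,v} W-active.  For X ∈ U: y, w ∉ X, so X ∩ E1 ⊆ {v}; T = X ∪ E1 ∪ E2.
   Exclusion: X1, X2 ∈ U with X1 ∩ E2 = X2 ∩ E2 are equal.  Otherwise they differ only in v (outside E1 ∪ E2 both equal T), say v ∈ X1, v ∉ X2, X1 = insert v X2. (If v ∈ E2 this contradicts X1 ∩ E2 = X2 ∩ E2.)
      X1 ∈ D: there is h ∈ E, v ∈ h ⊆ X1 = insert v X2 ⊆ X2 ∪ E1.  By WA y X2 E1 and v ∉ X2: all (X2 ∪ E1)-edges at v contain w, so w ∈ h ⊆ X1, but w ∉ X1: contradiction.
   (The W-vertex in WA y X E1 is w since w is the only W-vertex of E1.)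
   Now E2: if W-type, E2 = {y,w',v'}: y, w' ∉ X, so X ∩ E2 is ∅ or {v'}: determined by [v' ∈ X].  If E2 is O-active for all X ∈ U: E2 = {y,a,x} with a ∉ X, x ∈ X: E2 has exactly two vertices q1, q2 besides y
   and X ∩ E2 is {q1} or {q2}: determined by [q1 ∈ X].  In both cases X ↦ (a Bool) is injective on U, so card U ≤ 2.
-/

open Finset Classical

universe u

namespace H70G3
namespace Ctx
variable {V : Type u} [Fintype V] [DecidableEq V] (c : Ctx V)

theorem Rw_pair {y : V} {T e f g : Finset V} (ht : c.t y T = 2) (he : e ∈ c.tri y) (heT : e ⊆ T)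
    (hf : f ∈ c.tri y) (hfT : f ⊆ T) (hne : e ≠ f) (hg : g ∈ c.tri y) (hgT : g ⊆ T) :
    g = e ∨ g = f := by
  by_contra hcon
  push Not at hcon
  have h1 : ({e, f, g} : Finset (Finset V)) ⊆ (c.tri y).filter (fun e => e ⊆ T) := by
    intro z hz
    simp only [mem_insert, mem_singleton] at hz
    rw [mem_filter]
    rcases hz with rfl | rfl | rfl
    exacts [⟨he, heT⟩, ⟨hf, hfT⟩, ⟨hg, hgT⟩]
  have h3 : ({e, f, g} : Finset (Finset V)).card = 3 :=
    card_eq_three.2 ⟨e, f, g, hne, hcon.1.symm, hcon.2.symm, rfl⟩
  have h2 : 3 ≤ c.t y T := by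
    rw [← h3]
    unfold t
    exact card_le_card h1
  omega

theorem Rw_WA {y w : V} {X e : Finset V} (hy : isR c.E y) (hw : isW c.E w) (h : c.WA y X e)
    (hwe : w ∈ e) : w ∉ X ∧ e = {y, w, c.ctr w} ∧
      (c.ctr w ∈ X ∨ ∀ f ∈ c.E, c.ctr w ∈ f → f ⊆ X ∪ e → w ∈ f) := by
  obtain ⟨-, -, -, w', hw', hwX, hee, hor⟩ := h
  have hww : w' = w := by
    rw [hee] at hwe
    simp only [mem_insert, mem_singleton] at hwe
    rcases hwe with h | h | h
    · exact absurd h.symm (c.ne_of_R_W hy hw)
    · exact h.symm
    · exact absurd h (c.ne_of_W_C hw (c.ctr_isC hw'))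
  subst hww
  exact ⟨hwX, hee, hor⟩

theorem Rw_OA {y w : V} {X e : Finset V} (hy : isR c.E y) (hw : isW c.E w) (h : c.OA y X e) :
    w ∉ e := by
  obtain ⟨-, -, -, a, x, -, -, haW, -, hxR, hee⟩ := h
  intro hwe
  rw [hee] at hwe
  simp only [mem_insert, mem_singleton] at hwe
  rcases hwe with h | h | h
  · exact c.ne_of_R_W hy hw h.symm
  · exact haW (h ▸ hw)
  · exact c.W_not_R hw (h ▸ hxR)

theorem Rw_act {y w : V} {X e : Finset V} (hy : isR c.E y) (hw : isW c.E w) (hwe : w ∈ e)
    (h : c.WA y X e ∨ c.OA y X e) : c.WA y X e := by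
  rcases h with h | h
  · exact h
  · exact absurd hwe (c.Rw_OA hy hw h)

theorem use_le_two {y : V} {T : Finset V} (hy : isR c.E y) (h3 : (c.tri y).card = 3) :
    (univ.filter (fun X : Finset V => c.Use y X T)).card ≤ 2 := by
  by_cases hA : ∃ X : Finset V, c.t y T = 2 ∧ ∃ w w', isW c.E w ∧ isW c.E w' ∧
      c.WA y X {y, w, c.ctr w} ∧ c.ctr w ≠ c.ctr w' ∧ c.ctr w ∉ X ∧ c.ctr w' ∉ X ∧
      ({y, c.ctr w, c.ctr w'} : Finset V) ∈ c.tri y ∧
      T = X ∪ {y, w, c.ctr w} ∪ {y, c.ctr w, c.ctr w'}
  · obtain ⟨X0, ht, w, w', hw, hw', hWA, hne, hvX, hv'X, hg, hT⟩ := hA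
    obtain ⟨g, hgdef⟩ : ∃ g : Finset V, g = {y, c.ctr w, c.ctr w'} := ⟨_, rfl⟩
    obtain ⟨e, hedef⟩ : ∃ e : Finset V, e = {y, w, c.ctr w} := ⟨_, rfl⟩
    rw [← hedef, ← hgdef] at hT
    rw [← hgdef] at hg
    rw [← hedef] at hWA
    have hgT : g ⊆ T := by rw [hT]; exact subset_union_right
    have heT : e ⊆ T := by rw [hT]; exact subset_union_right.trans subset_union_left
    have hgW : ∀ u, isW c.E u → u ∉ g := by
      intro u hu hug
      rw [hgdef] at hug
      simp only [mem_insert, mem_singleton] at hug
      rcases hug with h | h | h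
      · exact c.ne_of_R_W hy hu h.symm
      · exact c.ne_of_W_C hu (c.ctr_isC hw) h
      · exact c.ne_of_W_C hu (c.ctr_isC hw') h
    have hwe : w ∈ e := by rw [hedef]; simp
    have hgact : ∀ X, ¬ (c.WA y X g ∨ c.OA y X g) := by
      intro X h
      rcases h with h | h
      · obtain ⟨-, -, -, u, hu, -, hge, -⟩ := h
        exact hgW u hu (by rw [hge]; simp)
      · obtain ⟨hU, -, -, a, x, -, -, -, hxX, hxR, hge⟩ := h
        have hxg : x ∈ g := by rw [hge]; simp
        rw [hgdef] at hxg
        simp only [mem_insert, mem_singleton] at hxg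
        rcases hxg with h | h | h
        · exact hU.2.1 (h ▸ hxX)
        · exact c.ne_of_R_C hxR (c.ctr_isC hw) h
        · exact c.ne_of_R_C hxR (c.ctr_isC hw') h
    have key : ∀ X, c.Use y X T → X = T \ (e ∪ g) := by
      rintro X ⟨-, h⟩
      rcases h with ⟨e', f', hef, he', hf', hT'⟩ | ⟨u, u', hu, hu', h1, h2, hne', huX, hu'X, hg', hT'⟩
      · exfalso
        have hf'2 := c.Rp_act hf'
        have he'T : e' ⊆ T := by rw [hT']; exact subset_union_right.trans subset_union_left
        have hf'T : f' ⊆ T := by rw [hT']; exact subset_union_right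
        rcases c.Rw_pair ht he'.2.1 he'T hf'2.1 hf'T hef hg hgT with h | h
        · exact hgact X (Or.inl (h ▸ he'))
        · exact hgact X (h ▸ hf')
      · obtain ⟨g', hg'def⟩ : ∃ g' : Finset V, g' = {y, c.ctr u, c.ctr u'} := ⟨_, rfl⟩
        obtain ⟨e', he'def⟩ : ∃ e' : Finset V, e' = {y, u, c.ctr u} := ⟨_, rfl⟩
        rw [← he'def] at h1
        rw [← hg'def] at hg'
        rw [← he'def, ← hg'def] at hT'
        have hg'T : g' ⊆ T := by rw [hT']; exact subset_union_right
        have he'T : e' ⊆ T := by rw [hT']; exact subset_union_right.trans subset_union_left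
        have hue : u ∈ e' := by rw [he'def]; simp
        have hug : u ∉ g' := by
          intro hug
          rw [hg'def] at hug
          simp only [mem_insert, mem_singleton] at hug
          rcases hug with h | h | h
          · exact c.ne_of_R_W hy hu h.symm
          · exact c.ne_of_W_C hu (c.ctr_isC hu) h
          · exact c.ne_of_W_C hu (c.ctr_isC hu') h
        have hne2 : e' ≠ g' := fun h => hug (h ▸ hue)
        have hgg : g = g' := by
          rcases c.Rw_pair ht h1.2.1 he'T hg' hg'T hne2 hg hgT with h | h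
          · exact absurd (h ▸ hue) (hgW u hu)
          · exact h
        have hee : e = e' := by
          rcases c.Rw_pair ht h1.2.1 he'T hg' hg'T hne2 hWA.2.1 heT with h | h
          · exact h
          · exact absurd ((h.trans hgg.symm) ▸ hwe) (hgW w hw)
        have huX' : u ∉ X := (c.Rw_WA hy hu h1 hue).1
        have hyX : y ∉ X := h1.1.2.1
        rw [hgg, hee]
        ext z
        rw [mem_sdiff]
        constructor
        · intro hz
          refine ⟨by rw [hT']; simp [hz], ?_⟩
          rw [mem_union, he'def, hg'def]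
          simp only [mem_insert, mem_singleton]
          rintro ((h | h | h) | (h | h | h))
          · exact hyX (h ▸ hz)
          · exact huX' (h ▸ hz)
          · exact huX (h ▸ hz)
          · exact hyX (h ▸ hz)
          · exact huX (h ▸ hz)
          · exact hu'X (h ▸ hz)
        · rintro ⟨hz, hz2⟩
          rw [hT', mem_union, mem_union] at hz
          rw [mem_union] at hz2
          tauto
    refine (card_le_one.2 ?_).trans (by norm_num)
    intro a ha b hb
    rw [mem_filter] at ha hb
    rw [key a ha.2, key b hb.2]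
  · by_cases hU : ∃ X, c.Use y X T
    swap
    · have h0 : univ.filter (fun X : Finset V => c.Use y X T) = ∅ := by
        rw [filter_eq_empty_iff]
        intro X _ hX
        exact hU ⟨X, hX⟩
      rw [h0]
      simp
    obtain ⟨X0, ht, h0⟩ := hU
    have halt : ∀ X, c.Use y X T → ∃ e f, e ≠ f ∧ c.WA y X e ∧ (c.WA y X f ∨ c.OA y X f) ∧
        T = X ∪ e ∪ f := by
      rintro X ⟨-, h⟩
      rcases h with h | ⟨u, u', hu, hu', h1, h2, h3, h4, h5, h6, h7⟩
      · exact h
      · exact absurd ⟨X, ht, u, u', hu, hu', h1, h3, h4, h5, h6, h7⟩ hA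
    obtain ⟨e, f, hef, he, hf, hT⟩ := halt X0 ⟨ht, h0⟩
    obtain ⟨w, hw, hwe⟩ : ∃ w, isW c.E w ∧ w ∈ e := by
      obtain ⟨-, -, -, w, hw, -, hee, -⟩ := he
      exact ⟨w, hw, by rw [hee]; simp⟩
    have hee := (c.Rw_WA hy hw he hwe).2.1
    have hfT : f ⊆ T := by rw [hT]; exact subset_union_right
    have heT : e ⊆ T := by rw [hT]; exact subset_union_right.trans subset_union_left
    have hall : ∀ X, c.Use y X T → c.WA y X e ∧ (c.WA y X f ∨ c.OA y X f) ∧ T = X ∪ e ∪ f := by
      intro X hX
      obtain ⟨e', f', hef', he', hf', hT'⟩ := halt X hX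
      have he'T : e' ⊆ T := by rw [hT']; exact subset_union_right.trans subset_union_left
      have hf'T : f' ⊆ T := by rw [hT']; exact subset_union_right
      rcases c.Rw_pair ht he.2.1 heT (c.Rp_act hf).1 hfT hef he'.2.1 he'T with h | h
      · have hff : f' = f := by
          rcases c.Rw_pair ht he.2.1 heT (c.Rp_act hf).1 hfT hef (c.Rp_act hf').1 hf'T with h2 | h2
          · exact absurd (h.trans h2.symm) hef'
          · exact h2
        subst h
        subst hff
        exact ⟨he', hf', hT'⟩
      · have hff : f' = e := by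
          rcases c.Rw_pair ht he.2.1 heT (c.Rp_act hf).1 hfT hef (c.Rp_act hf').1 hf'T with h2 | h2
          · exact h2
          · exact absurd (h.trans h2.symm) hef'
        subst h
        subst hff
        refine ⟨c.Rw_act hy hw hwe hf', Or.inl he', ?_⟩
        rw [hT', union_assoc, union_assoc, union_comm e' f']
    have hsub : ∀ X1 X2, c.Use y X1 T → c.Use y X2 T → X1 ∩ f = X2 ∩ f → X1 ⊆ X2 := by
      intro X1 X2 hX1 hX2 hint
      obtain ⟨ha1, -, hT1⟩ := hall X1 hX1
      obtain ⟨ha2, -, hT2⟩ := hall X2 hX2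
      have hw1 := (c.Rw_WA hy hw ha1 hwe).1
      have hor := (c.Rw_WA hy hw ha2 hwe).2.2
      have hy1 : y ∉ X1 := ha1.1.2.1
      have hz : ∀ z ∈ X1, z ∉ X2 → z = c.ctr w := by
        intro z hz1 hz2
        have hzT : z ∈ T := by rw [hT1]; simp [hz1]
        rw [hT2, mem_union, mem_union] at hzT
        rcases hzT with (h | h) | h
        · exact absurd h hz2
        · rw [hee] at h
          simp only [mem_insert, mem_singleton] at h
          rcases h with h | h | h
          · exact absurd (h ▸ hz1) hy1
          · exact absurd (h ▸ hz1) hw1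
          · exact h
        · have h2 : z ∈ X2 ∩ f := by
            rw [← hint, mem_inter]
            exact ⟨hz1, h⟩
          exact absurd (mem_inter.1 h2).1 hz2
      intro z hz1
      by_contra hz2
      have hzv := hz z hz1 hz2
      rw [hzv] at hz1 hz2
      have hD : isD c.E X1 := (c.mem_D).1 ha1.1.1
      obtain ⟨h, hhE, hvh, hhX⟩ := hD _ hz1
      rcases hor with hor | hor
      · exact hz2 hor
      · have hwh := hor h hhE hvh (by
          intro x hx
          rw [mem_union]
          by_cases hxX : x ∈ X2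
          · exact Or.inl hxX
          · right
            rw [hz x (hhX hx) hxX, hee]
            simp)
        exact hw1 (hhX hwh)
    obtain ⟨P, Q, hPQ⟩ : ∃ P Q : Finset V, ∀ X, c.Use y X T → X ∩ f = P ∨ X ∩ f = Q := by
      by_cases hfW : ∃ u, isW c.E u ∧ u ∈ f
      · obtain ⟨u, hu, huf⟩ := hfW
        refine ⟨∅, {c.ctr u}, fun X hX => ?_⟩
        obtain ⟨-, hfa, -⟩ := hall X hX
        have hfa' := c.Rw_act hy hu huf hfa
        obtain ⟨huX, hfe, -⟩ := c.Rw_WA hy hu hfa' huf
        have hyX : y ∉ X := hfa'.1.2.1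
        by_cases hv : c.ctr u ∈ X
        · right
          ext z
          rw [mem_inter, mem_singleton, hfe]
          simp only [mem_insert, mem_singleton]
          constructor
          · rintro ⟨hz, h | h | h⟩
            · exact absurd (h ▸ hz) hyX
            · exact absurd (h ▸ hz) huX
            · exact h
          · rintro rfl
            exact ⟨hv, Or.inr (Or.inr rfl)⟩
        · left
          rw [eq_empty_iff_forall_notMem]
          intro z hz
          rw [mem_inter, hfe] at hz
          simp only [mem_insert, mem_singleton] at hz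
          obtain ⟨hz, h | h | h⟩ := hz
          · exact hyX (h ▸ hz)
          · exact huX (h ▸ hz)
          · exact hv (h ▸ hz)
      · have hOA : ∀ X, c.Use y X T → c.OA y X f := by
          intro X hX
          obtain ⟨-, hfa, -⟩ := hall X hX
          rcases hfa with h | h
          · exfalso
            obtain ⟨-, -, -, u, hu, -, hfe, -⟩ := h
            exact hfW ⟨u, hu, by rw [hfe]; simp⟩
          · exact h
        obtain ⟨-, -, -, a0, x0, -, -, -, -, -, hfe0⟩ := hOA X0 ⟨ht, h0⟩
        refine ⟨{a0}, {x0}, fun X hX => ?_⟩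
        obtain ⟨hXU, -, -, a, x, haX, hay, -, hxX, hxR, hfe⟩ := hOA X hX
        have hyX : y ∉ X := hXU.2.1
        have hX2 : X ∩ f = {x} := by
          ext z
          rw [mem_inter, mem_singleton, hfe]
          simp only [mem_insert, mem_singleton]
          constructor
          · rintro ⟨hz, h | h | h⟩
            · exact absurd (h ▸ hz) hyX
            · exact absurd (h ▸ hz) haX
            · exact h
          · rintro rfl
            exact ⟨hxX, Or.inr (Or.inr rfl)⟩
        rw [hX2]
        have hxf : x ∈ f := by rw [hfe]; simp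
        rw [hfe0] at hxf
        simp only [mem_insert, mem_singleton] at hxf
        rcases hxf with h | h | h
        · exact absurd (h ▸ hxX) hyX
        · left; rw [h]
        · right; rw [h]
    have hcard : (univ.filter (fun X : Finset V => c.Use y X T)).card ≤
        ({P, Q} : Finset (Finset V)).card := by
      apply card_le_card_of_injOn (fun X => X ∩ f)
      · intro X hX
        rw [mem_coe, mem_filter] at hX
        rw [mem_coe, mem_insert, mem_singleton]
        exact hPQ X hX.2
      · intro X1 hX1 X2 hX2 h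
        rw [mem_coe, mem_filter] at hX1 hX2
        exact Subset.antisymm (hsub X1 X2 hX1.2 hX2.2 h) (hsub X2 X1 hX2.2 hX1.2 h.symm)
    exact hcard.trans card_le_two

end Ctx
end H70G3
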