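import Pool.Agent.H70.G3.Basic

/-!
# Row Rd : the double vertex

(1) dX ≤ 1: DA y X p, DA y X p', p ≠ p'. Chosen edges e ≠ f containing p inside insert y (insert p X); e', f' containing p' inside insert y (insert p' X).  e does not contain p' (p' ∉ X, p' ≠ p,
 p' ≠ y), so e, f ∉ {e', f'}: four different chosen edges, but card (tri y) = 3.
(2) If DA y X p with e, f: e and f are not O-active: OA y X e has at' E (X ∪ e) y = {e}, but f ⊆ insert y (insert p X) ⊆ X ∪ e (y, p ∈ e), f ∈ at' E (X ∪ e) y, f ≠ e.  The same argument shows that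
 they are not W-active.  So only the third chosen edge can be active, and it is not both O- and W-active (OA gives e = {y,a,x} with ¬ isW a, x ∈ R; WA gives a vertex w ∈ W in e, w ≠ y since y ∈ R...
 precisely: e = {y,a,x} = {y,w,ctr w}, w ∈ {y,a,x}, each not in W).  So oX + aX ≤ 1.
(3) oX + aX ≤ 3: O- and W-active edges are different, both in tri y (card 3).
-/

open Finset Classical

universe u

namespace H70G3
namespace Ctx
variable {V : Type u} [Fintype V] [DecidableEq V] (c : Ctx V)

theorem OA_not_WA {y : V} {X e : Finset V} (hy : isR c.E y) (h : c.OA y X e) : ¬ c.WA y X e := by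
  rintro ⟨_, _, _, w, hw, _, he, _⟩
  obtain ⟨_, _, _, a, x, _, _, haW, _, hxR, he'⟩ := h
  have h1 : w ∈ e := by rw [he]; simp
  rw [he'] at h1
  simp only [mem_insert, mem_singleton] at h1
  rcases h1 with rfl | rfl | rfl
  · exact c.W_not_R hw hy
  · exact haW hw
  · exact c.W_not_R hw hxR

theorem dX_le_one {y : V} {X : Finset V} (h3 : (c.tri y).card = 3) : c.dX y X ≤ 1 := by
  unfold dX
  rw [Finset.card_le_one]
  intro p hp p' hp'
  rw [mem_filter] at hp hp'
  obtain ⟨_, _, _, hpX, hpy, e, he, f, hf, hef, hpe, hpf, heX, hfX⟩ := hp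
  obtain ⟨_, _, _, hpX', hpy', e', he', f', hf', hef', hpe', hpf', heX', hfX'⟩ := hp'
  by_contra hne
  have key : ∀ g : Finset V, g ⊆ insert y (insert p' X) → p ∉ g := by
    intro g hg hpg
    have h1 := hg hpg
    simp only [mem_insert] at h1
    rcases h1 with h1 | h1 | h1
    · exact hpy h1
    · exact hne h1
    · exact hpX h1
  have h1 : e ≠ e' := by rintro rfl; exact key e heX' hpe
  have h2 : e ≠ f' := by rintro rfl; exact key e hfX' hpe
  have h4 : f ≠ e' := by rintro rfl; exact key f heX' hpf
  have h5 : f ≠ f' := by rintro rfl; exact key f hfX' hpf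
  have h6 : ({e, f, e', f'} : Finset (Finset V)).card = 4 := by
    rw [card_insert_of_notMem, card_insert_of_notMem, card_insert_of_notMem, card_singleton]
    · simpa using hef'
    · simp only [mem_insert, mem_singleton, not_or]; exact ⟨h4, h5⟩
    · simp only [mem_insert, mem_singleton, not_or]; exact ⟨hef, h1, h2⟩
  have h7 : ({e, f, e', f'} : Finset (Finset V)) ⊆ c.tri y := by
    intro g hg
    simp only [mem_insert, mem_singleton] at hg
    rcases hg with rfl | rfl | rfl | rfl
    · exact he
    · exact hf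
    · exact he'
    · exact hf'
  have h8 := card_le_card h7
  omega

private lemma Rd_disj {y : V} {X : Finset V} (hy : isR c.E y) :
    c.oX y X + c.aX y X = ((c.tri y).filter (fun e => c.OA y X e) ∪
      (c.tri y).filter (fun e => c.WA y X e)).card := by
  unfold oX aX
  rw [card_union_of_disjoint]
  rw [Finset.disjoint_left]
  intro e he he'
  rw [mem_filter] at he he'
  exact c.OA_not_WA hy he.2 he'.2

private lemma Rd_at {y : V} {X e f : Finset V} {p : V} (he : e ∈ c.tri y) (hf : f ∈ c.tri y)
    (hpe : p ∈ e) (hfX : f ⊆ insert y (insert p X)) (h : at' c.E (X ∪ e) y = {e}) : f = e := by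
  have h1 : f ∈ at' c.E (X ∪ e) y := by
    rw [mem_at]
    refine ⟨(c.tri_sub y f hf).1, (c.tri_sub y f hf).2, ?_⟩
    intro z hz
    have h2 := hfX hz
    simp only [mem_insert] at h2
    rw [mem_union]
    rcases h2 with h2 | h2 | h2
    · right; rw [h2]; exact (c.tri_sub y e he).2
    · right; rw [h2]; exact hpe
    · left; exact h2
  rw [h, mem_singleton] at h1
  exact h1

theorem oX_add_aX_le_of_dX {y : V} {X : Finset V} (hy : isR c.E y) (h3 : (c.tri y).card = 3)
    (h : c.dX y X ≠ 0) : c.oX y X + c.aX y X ≤ 1 := by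
  unfold dX at h
  rw [Finset.card_ne_zero] at h
  obtain ⟨p, hp⟩ := h
  rw [mem_filter] at hp
  obtain ⟨_, _, _, hpX, hpy, e, he, f, hf, hef, hpe, hpf, heX, hfX⟩ := hp
  rw [c.Rd_disj hy]
  have hsub : (c.tri y).filter (fun e => c.OA y X e) ∪ (c.tri y).filter (fun e => c.WA y X e) ⊆
      ((c.tri y).erase e).erase f := by
    intro k hk
    have h1 : k ∈ c.tri y ∧ at' c.E (X ∪ k) y = {k} := by
      rw [mem_union, mem_filter, mem_filter] at hk
      rcases hk with hk | hk
      · exact ⟨hk.1, hk.2.2.2.1⟩
      · exact ⟨hk.1, hk.2.2.2.1⟩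
    rw [mem_erase, mem_erase]
    refine ⟨?_, ?_, h1.1⟩
    · rintro rfl
      exact hef (c.Rd_at hf he hpf heX h1.2)
    · rintro rfl
      exact hef (c.Rd_at he hf hpe hfX h1.2).symm
  have h2 := card_le_card hsub
  rw [card_erase_of_mem (by rw [mem_erase]; exact ⟨hef.symm, hf⟩), card_erase_of_mem he, h3] at h2
  exact h2

theorem oX_add_aX_le {y : V} {X : Finset V} (hy : isR c.E y) (h3 : (c.tri y).card = 3) :
    c.oX y X + c.aX y X ≤ 3 := by
  rw [c.Rd_disj hy, ← h3]
  apply card_le_card
  intro k hk
  rw [mem_union, mem_filter, mem_filter] at hk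
  rcases hk with hk | hk
  · exact hk.1
  · exact hk.1

end Ctx
end H70G3
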