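import Pool.Agent.H70.G3.Rp
import Pool.Agent.H70.G3.Rd

/-!
# Row Rx : the cluster inequality

a = aX, o = oX, d = dX (Row Rd): d ≤ 1; d ≠ 0 ⇒ a + o ≤ 1; a + o ≤ 3.  If isU y X fails all of them are 0 (OA, WA, DA contain isU).  Assume isU y X: right side 6 + 2 uX.
d = 1: 2 o + 2 + 4 a ≤ 2 + 4 = 6.   d = 0: 2 o + 4 a ≤ 6 unless a ≥ 2 or (a = 1 and o = 2).  (a+o ≤ 3)
 needed: (a,o) = (1,2): 8 ≤ 6 + 2 uX: uX ≥ 1.  (2,0): uX ≥ 1.  (2,1): 10: uX ≥ 2.  (3,0): 12: uX ≥ 3.
Write the three chosen edges e1,e2,e3.  For active e ≠ f with e W-active put T(e,f) = X ∪ e ∪ f. T ∈ D (X ∈ D, `edge_D`, `union_D`), e, f ⊆ T.  If the third chosen edge g is not ⊆ T then t y T = 2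
 and Use y X T (first alternative), T ∈ D, and the chosen edges inside T are exactly e, f, so different pairs give different T.
 If g ⊆ T: `third_edge` (w from WA y X e): either (path) f is W-active and g = {y,ctr w,ctr w'}, or f is not W-active and g is not active at all.
(1,2): e W-active, f, g O-active: g ⊆ T(e,f) is impossible (path: f W-active contradicts OA_not_WA; second: g not active). So uX ≥ 1.
(3,0): e, f, g all W-active: g ⊆ T(e,f): path: g = {y,ctr w,ctr w'}: but g is W-active, so contains a vertex of W, which is y or a centre: contradiction (`W_not_C`, `W_not_R`); second: f not W-active: no.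
   So all three T(e,f), T(e,g), T(f,g) are used and different: uX ≥ 3.
(2,1): e, f W-active, g O-active.  T(e,f): g ⊆ T: path gives g = {y, centre, centre}, but OA g contains x ∈ R, x ∈ X, x ≠ y (y ∉ X): contradiction.  So used.  T(e,g): third edge f ⊆ T(e,g): `third_edge` with f := g, g := f:
   path: g W-active: no; second: f not W-active: no.  So used, different from T(e,f): uX ≥ 2.
(2,0): e, f W-active, g the third. If g ⊄ T(e,f): used. If g ⊆ T(e,f): path: e = {y,w,v}, f = {y,w',v'}, g = {y,v,v'}, v ≠ v', v, v' ∉ X.  T' := X ∪ e ∪ g ∈ D; f ⊄ T': w' ∈ f, w' ∉ X (from WA y X f: its W-vertex is the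
   only W-vertex w' of f), w' ∉ e (w' = w would give v = v'; w' ≠ y, v), w' ∉ g.  So t y T' = 2 and Use y X T' (second alternative).  uX ≥ 1.
-/

open Finset Classical

universe u

namespace H70G3
namespace Ctx
variable {V : Type u} [Fintype V] [DecidableEq V] (c : Ctx V)

private theorem Rx_t {y : V} (h3 : (c.tri y).card = 3) {e f g T : Finset V} (he : e ∈ c.tri y)
    (hf : f ∈ c.tri y) (hg : g ∈ c.tri y) (hef : e ≠ f) (heg : e ≠ g) (hfg : f ≠ g)
    (h1 : e ⊆ T) (h2 : f ⊆ T) (h4 : ¬ g ⊆ T) : c.t y T = 2 := by
  have htri : ({e, f, g} : Finset (Finset V)) = c.tri y := by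
    apply eq_of_subset_of_card_le
    · intro a ha
      simp only [mem_insert, mem_singleton] at ha
      rcases ha with rfl | rfl | rfl <;> assumption
    · rw [h3]
      exact (card_eq_three.2 ⟨e, f, g, hef, heg, hfg, rfl⟩).ge
  have h5 : (c.tri y).filter (fun a => a ⊆ T) = {e, f} := by
    ext a
    rw [mem_filter, ← htri]
    simp only [mem_insert, mem_singleton]
    constructor
    · rintro ⟨rfl | rfl | rfl, h⟩
      · exact Or.inl rfl
      · exact Or.inr rfl
      · exact absurd h h4
    · rintro (rfl | rfl)
      · exact ⟨Or.inl rfl, h1⟩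
      · exact ⟨Or.inr (Or.inl rfl), h2⟩
  unfold t
  rw [h5, card_pair hef]

private theorem Rx_D {y : V} {X e f : Finset V} (hX : X ∈ c.D) (he : e ∈ c.tri y)
    (hf : f ∈ c.tri y) : X ∪ e ∪ f ∈ c.D :=
  c.union_D (c.union_D hX (c.edge_D (c.tri_sub y e he).1)) (c.edge_D (c.tri_sub y f hf).1)

private theorem Rx_actm {y : V} {X f : Finset V} (hf : c.WA y X f ∨ c.OA y X f) :
    f ∈ c.tri y := by
  rcases hf with hf | hf
  · exact hf.2.1
  · exact hf.2.1

private theorem Rx_first {y : V} {X e f g : Finset V} (h3 : (c.tri y).card = 3)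
    (he : c.WA y X e) (hf : c.WA y X f ∨ c.OA y X f) (hg : g ∈ c.tri y) (hef : e ≠ f)
    (heg : e ≠ g) (hfg : f ≠ g) (h : ¬ g ⊆ X ∪ e ∪ f) :
    X ∪ e ∪ f ∈ c.D.filter (fun T => c.Use y X T) := by
  have he' : e ∈ c.tri y := he.2.1
  have hf' : f ∈ c.tri y := c.Rx_actm hf
  rw [mem_filter]
  refine ⟨c.Rx_D he.1.1 he' hf', ?_, Or.inl ⟨e, f, hef, he, hf, rfl⟩⟩
  exact c.Rx_t h3 he' hf' hg hef heg hfg (subset_union_right.trans subset_union_left)
    subset_union_right h

/-- the third chosen edge is contained in the union only for a path of two W-active edges -/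
private theorem Rx_third {y : V} {X e f g : Finset V} (hy : isR c.E y)
    (he : c.WA y X e) (hf : c.WA y X f ∨ c.OA y X f) (hg : g ∈ c.tri y) (hef : e ≠ f)
    (heg : e ≠ g) (hfg : f ≠ g) (h : g ⊆ X ∪ e ∪ f) :
    (∃ w w', isW c.E w ∧ isW c.E w' ∧ c.WA y X f ∧ e = {y, w, c.ctr w} ∧
      f = {y, w', c.ctr w'} ∧ g = {y, c.ctr w, c.ctr w'} ∧ c.ctr w ≠ c.ctr w' ∧ c.ctr w ∉ X ∧
      c.ctr w' ∉ X) ∨
    (¬ c.WA y X f ∧ ¬ c.WA y X g ∧ ¬ c.OA y X g) := by
  obtain ⟨w, hw, hwX, hew, -⟩ := he.2.2.2
  rw [hew] at he hef heg h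
  rcases c.third_edge hy hw hwX he hf (fun h' => hef h'.symm) hg (fun h' => heg h'.symm)
    (fun h' => hfg h'.symm) h with ⟨w', h1, h2, h4, h5, h6, h7, h8⟩ | h1
  · exact Or.inl ⟨w, w', hw, h1, h2, hew, h4, h5, h6, h7, h8⟩
  · exact Or.inr h1

private theorem Rx_noW {y w w' : V} {X : Finset V} (hy : isR c.E y) (hw : isW c.E w)
    (hw' : isW c.E w') (h : c.WA y X {y, c.ctr w, c.ctr w'}) : False := by
  obtain ⟨x, hx, -, hex, -⟩ := h.2.2.2
  have h1 : x ∈ ({y, c.ctr w, c.ctr w'} : Finset V) := by
    rw [hex]
    simp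
  simp only [mem_insert, mem_singleton] at h1
  rcases h1 with rfl | rfl | rfl
  · exact c.W_not_R hx hy
  · exact c.W_not_C hx (c.ctr_isC hw)
  · exact c.W_not_C hx (c.ctr_isC hw')

private theorem Rx_noO {y w w' : V} {X : Finset V} (hw : isW c.E w)
    (hw' : isW c.E w') (h : c.OA y X {y, c.ctr w, c.ctr w'}) : False := by
  obtain ⟨a, x, -, -, -, hxX, hxR, hex⟩ := h.2.2.2
  have h1 : x ∈ ({y, c.ctr w, c.ctr w'} : Finset V) := by
    rw [hex]
    simp
  simp only [mem_insert, mem_singleton] at h1
  rcases h1 with rfl | rfl | rfl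
  · exact h.1.2.1 hxX
  · exact c.C_not_R (c.ctr_isC hw) hxR
  · exact c.C_not_R (c.ctr_isC hw') hxR

private theorem Rx_two {y : V} {X e f g : Finset V} (hy : isR c.E y) (h3 : (c.tri y).card = 3)
    (he : c.WA y X e) (hf : c.WA y X f) (hg : g ∈ c.tri y) (hef : e ≠ f)
    (heg : e ≠ g) (hfg : f ≠ g) : ∃ T, T ∈ c.D.filter (fun T => c.Use y X T) := by
  by_cases h : g ⊆ X ∪ e ∪ f
  · rcases c.Rx_third hy he (Or.inl hf) hg hef heg hfg h with
      ⟨w, w', hw, hw', -, hew, hfw, hgw, hne, hX, hX'⟩ | h1
    · refine ⟨X ∪ e ∪ g, ?_⟩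
      rw [mem_filter]
      refine ⟨c.Rx_D he.1.1 he.2.1 hg, ?_, Or.inr ⟨w, w', hw, hw', ?_, ?_, hne, hX, hX', ?_, ?_⟩⟩
      · refine c.Rx_t h3 he.2.1 hg hf.2.1 heg hef (fun h' => hfg h'.symm)
          (subset_union_right.trans subset_union_left) subset_union_right ?_
        intro hsub
        have h1 : w' ∈ f := by
          rw [hfw]
          simp
        have h2 := hsub h1
        rw [mem_union, mem_union] at h2
        rcases h2 with (h2 | h2) | h2
        · obtain ⟨x, hx, hxX, hfx, -⟩ := hf.2.2.2
          rw [hfx] at h1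
          simp only [mem_insert, mem_singleton] at h1
          rcases h1 with rfl | rfl | rfl
          · exact c.W_not_R hw' hy
          · exact hxX h2
          · exact c.W_not_C hw' (c.ctr_isC hx)
        · rw [hew] at h2
          simp only [mem_insert, mem_singleton] at h2
          rcases h2 with rfl | rfl | rfl
          · exact c.W_not_R hw' hy
          · exact hne rfl
          · exact c.W_not_C hw' (c.ctr_isC hw)
        · rw [hgw] at h2
          simp only [mem_insert, mem_singleton] at h2
          rcases h2 with rfl | h2 | h2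
          · exact c.W_not_R hw' hy
          · exact c.W_not_C hw' (h2 ▸ c.ctr_isC hw)
          · exact c.W_not_C hw' (by rw [h2]; exact c.ctr_isC hw')
      · rw [← hew]
        exact he
      · rw [← hfw]
        exact hf
      · rw [← hgw]
        exact hg
      · rw [← hew, ← hgw]
    · exact absurd hf h1.1
  · exact ⟨_, c.Rx_first h3 he (Or.inl hf) hg hef heg hfg h⟩

theorem cluster_le {y : V} {X : Finset V} (hy : isR c.E y) (h3 : (c.tri y).card = 3) :
    2 * c.oX y X + 2 * c.dX y X + 4 * c.aX y X ≤ (if c.isU y X then 6 else 0) + 2 * c.uX y X := by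
  have hd := c.dX_le_one (X := X) h3
  have hoa := c.oX_add_aX_le (X := X) hy h3
  by_cases hU : c.isU y X
  · rw [if_pos hU]
    by_cases hd0 : c.dX y X = 0
    · have ho : c.oX y X = ((c.tri y).filter (fun e => c.OA y X e)).card := rfl
      have ha : c.aX y X = ((c.tri y).filter (fun e => c.WA y X e)).card := rfl
      have hu : c.uX y X = (c.D.filter (fun T => c.Use y X T)).card := rfl
      -- at least two W-active edges
      have k2 : 2 ≤ c.aX y X → 1 ≤ c.uX y X := by
        intro h
        rw [ha] at h
        obtain ⟨e, he, f, hf, hef⟩ := one_lt_card.1 (show 1 < _ from h)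
        rw [mem_filter] at he hf
        have h5 : ({e, f} : Finset (Finset V)).card < (c.tri y).card := by
          rw [h3, card_pair hef]
          omega
        obtain ⟨g, hg, hgn⟩ := exists_mem_notMem_of_card_lt_card h5
        simp only [mem_insert, mem_singleton, not_or] at hgn
        obtain ⟨T, hT⟩ := c.Rx_two hy h3 he.2 hf.2 hg hef (fun h' => hgn.1 h'.symm)
          (fun h' => hgn.2 h'.symm)
        rw [hu]
        exact card_pos.2 ⟨T, hT⟩
      -- one W-active edge, two O-active edges
      have k12 : c.aX y X = 1 → c.oX y X = 2 → 1 ≤ c.uX y X := by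
        intro h1 h2
        rw [ha] at h1
        rw [ho] at h2
        obtain ⟨e, he⟩ := card_eq_one.1 h1
        obtain ⟨f, g, hfg, hf⟩ := card_eq_two.1 h2
        have he1 : e ∈ (c.tri y).filter (fun e => c.WA y X e) := by
          rw [he]
          exact mem_singleton_self e
        have hf1 : f ∈ (c.tri y).filter (fun e => c.OA y X e) := by
          rw [hf]
          simp
        have hg1 : g ∈ (c.tri y).filter (fun e => c.OA y X e) := by
          rw [hf]
          simp
        rw [mem_filter] at he1 hf1 hg1
        have hef : e ≠ f := by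
          rintro rfl
          exact c.OA_not_WA hy hf1.2 he1.2
        have heg : e ≠ g := by
          rintro rfl
          exact c.OA_not_WA hy hg1.2 he1.2
        rw [hu]
        refine card_pos.2 ⟨_, c.Rx_first h3 he1.2 (Or.inr hf1.2) hg1.1 hef heg hfg ?_⟩
        intro h
        rcases c.Rx_third hy he1.2 (Or.inr hf1.2) hg1.1 hef heg hfg h with
          ⟨w, w', -, -, h5, -⟩ | h5
        · exact c.OA_not_WA hy hf1.2 h5
        · exact h5.2.2 hg1.2
      -- two W-active edges, one O-active edge
      have k21 : c.aX y X = 2 → c.oX y X = 1 → 2 ≤ c.uX y X := by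
        intro h1 h2
        rw [ha] at h1
        rw [ho] at h2
        obtain ⟨g, hg⟩ := card_eq_one.1 h2
        obtain ⟨e, f, hef, hf⟩ := card_eq_two.1 h1
        have hg1 : g ∈ (c.tri y).filter (fun e => c.OA y X e) := by
          rw [hg]
          exact mem_singleton_self g
        have he1 : e ∈ (c.tri y).filter (fun e => c.WA y X e) := by
          rw [hf]
          simp
        have hf1 : f ∈ (c.tri y).filter (fun e => c.WA y X e) := by
          rw [hf]
          simp
        rw [mem_filter] at he1 hf1 hg1
        have heg : e ≠ g := by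
          rintro rfl
          exact c.OA_not_WA hy hg1.2 he1.2
        have hfg : f ≠ g := by
          rintro rfl
          exact c.OA_not_WA hy hg1.2 hf1.2
        have n1 : ¬ g ⊆ X ∪ e ∪ f := by
          intro h
          rcases c.Rx_third hy he1.2 (Or.inl hf1.2) hg1.1 hef heg hfg h with
            ⟨w, w', hw, hw', -, -, -, h5, -⟩ | h5
          · rw [h5] at hg1
            exact c.Rx_noO hw hw' hg1.2
          · exact h5.1 hf1.2
        have n2 : ¬ f ⊆ X ∪ e ∪ g := by
          intro h
          rcases c.Rx_third hy he1.2 (Or.inr hg1.2) hf1.1 heg hef (fun h' => hfg h'.symm) h with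
            ⟨w, w', -, -, h5, -⟩ | h5
          · exact c.OA_not_WA hy hg1.2 h5
          · exact h5.2.1 hf1.2
        have u1 := c.Rx_first h3 he1.2 (Or.inl hf1.2) hg1.1 hef heg hfg n1
        have u2 := c.Rx_first h3 he1.2 (Or.inr hg1.2) hf1.1 heg hef (fun h' => hfg h'.symm) n2
        rw [hu]
        refine one_lt_card.2 ⟨_, u1, _, u2, ?_⟩
        intro h
        apply n1
        rw [h]
        exact subset_union_right
      -- three W-active edges
      have k3 : c.aX y X = 3 → 3 ≤ c.uX y X := by
        intro h1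
        rw [ha] at h1
        obtain ⟨e, f, g, hef, heg, hfg, hA⟩ := card_eq_three.1 h1
        have he1 : e ∈ (c.tri y).filter (fun e => c.WA y X e) := by
          rw [hA]
          simp
        have hf1 : f ∈ (c.tri y).filter (fun e => c.WA y X e) := by
          rw [hA]
          simp
        have hg1 : g ∈ (c.tri y).filter (fun e => c.WA y X e) := by
          rw [hA]
          simp
        rw [mem_filter] at he1 hf1 hg1
        have key : ∀ e f g : Finset V, c.WA y X e → c.WA y X f → c.WA y X g → e ≠ f → e ≠ g →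
            f ≠ g → ¬ g ⊆ X ∪ e ∪ f := by
          intro e f g he hf hg hef heg hfg h
          rcases c.Rx_third hy he (Or.inl hf) hg.2.1 hef heg hfg h with
            ⟨w, w', hw, hw', -, -, -, h5, -⟩ | h5
          · rw [h5] at hg
            exact c.Rx_noW hy hw hw' hg
          · exact h5.1 hf
        have n1 := key e f g he1.2 hf1.2 hg1.2 hef heg hfg
        have n2 := key e g f he1.2 hg1.2 hf1.2 heg hef (fun h' => hfg h'.symm)
        have n3 := key f g e hf1.2 hg1.2 he1.2 hfg (fun h' => hef h'.symm) (fun h' => heg h'.symm)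
        have u1 := c.Rx_first h3 he1.2 (Or.inl hf1.2) hg1.1 hef heg hfg n1
        have u2 := c.Rx_first h3 he1.2 (Or.inl hg1.2) hf1.1 heg hef (fun h' => hfg h'.symm) n2
        have u3 := c.Rx_first h3 hf1.2 (Or.inl hg1.2) he1.1 hfg (fun h' => hef h'.symm)
          (fun h' => heg h'.symm) n3
        rw [hu]
        have hsub : ({X ∪ e ∪ f, X ∪ e ∪ g, X ∪ f ∪ g} : Finset (Finset V)) ⊆
            c.D.filter (fun T => c.Use y X T) := by
          intro T hT
          simp only [mem_insert, mem_singleton] at hT
          rcases hT with rfl | rfl | rfl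
          · exact u1
          · exact u2
          · exact u3
        refine le_trans (le_of_eq ?_) (card_le_card hsub)
        symm
        refine card_eq_three.2 ⟨_, _, _, ?_, ?_, ?_, rfl⟩
        · intro h
          apply n1
          rw [h]
          exact subset_union_right
        · intro h
          apply n1
          rw [h]
          exact subset_union_right
        · intro h
          apply n3
          rw [← h]
          exact subset_union_right.trans subset_union_left
      by_cases a2 : 2 ≤ c.aX y X
      · have q := k2 a2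
        by_cases a3 : c.aX y X = 3
        · have := k3 a3
          omega
        · have a2' : c.aX y X = 2 := by omega
          by_cases o1 : c.oX y X = 1
          · have := k21 a2' o1
            omega
          · omega
      · by_cases a1 : c.aX y X = 1
        · by_cases o2 : c.oX y X = 2
          · have := k12 a1 o2
            omega
          · omega
        · omega
    · have h1 := c.oX_add_aX_le_of_dX hy h3 hd0
      omega
  · rw [if_neg hU]
    have h1 : c.oX y X = 0 := by
      unfold oX
      rw [card_eq_zero, filter_eq_empty_iff]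
      intro e _ h
      exact hU h.1
    have h2 : c.aX y X = 0 := by
      unfold aX
      rw [card_eq_zero, filter_eq_empty_iff]
      intro e _ h
      exact hU h.1
    have h4 : c.dX y X = 0 := by
      unfold dX
      rw [card_eq_zero, filter_eq_empty_iff]
      intro e _ h
      exact hU h.1
    omega

end Ctx
end H70G3
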