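import Pool.Agent.H70.G3.Ra

/-!
# Row Rz : type Two vertices

tri_R second alternative: tri y = {e, f}, all edges at y are in tri y, e ∩ f = {y}, all other vertices of e, f are in C.
cap y S for y ∈ S: card tri = 2 ≠ 3: 12 - 6 t; isR y so not W.   y ∉ S: ldR = 0 (`ldR_not_mem`).
y ∈ S ∈ D: all om y S p = 0: dep S y p gives p in some edge at y, p ≠ y, so p ∈ C (`om_zero`).  self ≤ 6.  t y S = card (at' E S y) ≥ 1 (all edges at y are chosen).
t = 1: 12 - 6 = 6 ≥ self.  t = 2: self = 0: ib needs a singleton; ias S y v: v in both edges, so v = y, contradiction.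
-/

open Finset Classical

universe u

namespace H70G3
namespace Ctx
variable {V : Type u} [Fintype V] [DecidableEq V] (c : Ctx V)

theorem ldR_Two {y : V} {S : Finset V} (hy : isR c.E y) (h2 : (c.tri y).card = 2)
    (h2a : ∀ e ∈ c.E, y ∈ e → e ∈ c.tri y)
    (h2b : ∀ e ∈ c.tri y, ∀ f ∈ c.tri y, e ≠ f → ∀ x ∈ e, x ∈ f → x = y)
    (h2c : ∀ e ∈ c.tri y, ∀ x ∈ e, x ≠ y → isC c.E x) (hS : S ∈ c.D) :
    c.ldR y S ≤ c.cap y S := by
  by_cases hyS : y ∈ S
  swap
  · rw [c.ldR_not_mem hyS]; exact Nat.zero_le _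
  have hcap : c.cap y S = 12 - 6 * c.t y S := by
    unfold cap
    rw [if_neg hy.2.2, if_pos hy, if_pos hyS, if_neg (by omega)]
  have hom : ∀ p, c.om y S p = 0 := by
    intro p
    by_contra hne
    have hd := (c.om_dep hne).1
    obtain ⟨e, he⟩ := c.exists_at hS hyS
    rw [mem_at] at he
    have hpC := h2c e (h2a e he.1 he.2.1) p (hd.2.2 e he.1 he.2.1 he.2.2) hd.2.1.symm
    exact hne (c.om_zero (c.C_not_R hpC) (c.C_not_W hpC))
  have hsum : ∑ p, c.om y S p = 0 := Finset.sum_eq_zero fun p _ => hom p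
  rw [hcap]
  unfold ldR
  rw [hsum, zero_add]
  have hself := c.self_le y S
  have htle : c.t y S ≤ 2 := by
    unfold t
    rw [← h2]
    exact card_le_card (filter_subset _ _)
  by_cases ht : c.t y S = 2
  · have hall : (c.tri y).filter (fun e => e ⊆ S) = c.tri y := by
      apply eq_of_subset_of_card_le (filter_subset _ _)
      unfold t at ht
      rw [ht, h2]
    obtain ⟨e1, e2, hne, htri⟩ := card_eq_two.1 h2
    have h1 : e1 ∈ c.tri y := by rw [htri]; simp
    have h1' : e2 ∈ c.tri y := by rw [htri]; simp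
    have hs1 : e1 ⊆ S := by
      rw [← hall] at h1; exact (mem_filter.1 h1).2
    have hs2 : e2 ⊆ S := by
      rw [← hall] at h1'; exact (mem_filter.1 h1').2
    have hE1 := c.tri_sub y e1 h1
    have hE2 := c.tri_sub y e2 h1'
    have hz : c.self y S = 0 := by
      unfold self
      rw [if_neg]
      rintro (⟨v, hv⟩ | hib)
      · have hd := hv.2.2.2.1
        exact hd.2.1 (h2b e1 h1 e2 h1' hne v (hd.2.2 e1 hE1.1 hE1.2 hs1)
          (hd.2.2 e2 hE2.1 hE2.2 hs2)).symm
      · obtain ⟨-, -, v, v', -, -, -, hat⟩ := hib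
        have m1 : e1 ∈ at' c.E S y := by rw [mem_at]; exact ⟨hE1.1, hE1.2, hs1⟩
        have m2 : e2 ∈ at' c.E S y := by rw [mem_at]; exact ⟨hE2.1, hE2.2, hs2⟩
        rw [hat, mem_singleton] at m1 m2
        exact hne (m1.trans m2.symm)
    rw [hz]
    exact Nat.zero_le _
  · omega

end Ctx
end H70G3
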