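import Pool.Agent.H70.G3.Rn
import Pool.Agent.H70.G3.Rm
import Pool.Agent.H70.G3.Rt
import Pool.Agent.H70.G3.Ri
import Pool.Agent.H70.G3.Rj
import Pool.Agent.H70.G3.Rx
import Pool.Agent.H70.G3.Rv
import Pool.Agent.H70.G3.Rw
import Pool.Agent.H70.G3.Rz

/-!
# Row Rsum : the load of y ∈ R is at most the capacity of y

By `tri_R`: type Two: sum `ldR_Two`.  Otherwise card (tri y) = 3.
Pointwise for S ∈ D:  ldR y S + 2 nImg y S + 4 nT2 y S ≤ (if y ∈ S then 12 - 4 t else 0) + 2 nOA y S + 2 nDA y S + 4 nWA y S + 2 nS1 y S: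
  y ∉ S: ldR = 0 (`ldR_not_mem`), nImg = 0 (`ldR_S1img`: y ∈ T), nT2 = 0 (T2 contains y ∈ T).
  T2 y S: `ldR_T2`: 0 + 0 + 4 ≤ 12 - 8.   not T2, S1img: `ldR_S1img`.   neither: `ldR_one` or `ldR_two` (at' E S y nonempty by `exists_at`), t ≤ 3.
Sums over D:
 Σ_S nOA y S ≤ Σ_{X ∈ D} oX y X  (pairs (X,e) with OA y X e; X ∈ D by isU, e ∈ tri y), Σ_S nWA ≤ Σ_{X ∈ D} aX, Σ_S nDA ≤ Σ_{X ∈ D} dX  (fiberwise: the sets over different S are disjoint),
 Σ_S nS1 ≤ Σ_T nImg (`sum_nS1_le`),
 Σ_{X ∈ D} (2 oX + 2 dX + 4 aX) ≤ Σ_{X ∈ D} (if isU then 6 else 0) + 2 Σ_{X ∈ D} uX (`cluster_le`),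
 Σ_{X ∈ D} uX = number of pairs (X,T) ∈ D × D with Use ≤ Σ_{T ∈ D} 2 nT2 y T (`use_le_two`; 0 if not T2 by `use_T2`).
 Adding: Σ_S ldR ≤ Σ_{S ∈ D} (if y ∈ S then 12 - 4 t else 0) + Σ_{X ∈ D} (if isU y X then 6 else 0) = Σ_{T ∈ D} cap y T (unfold cap, isU; isR y, not W).
Strict version (no vertex of W): then no centre (`rep_isW`), type Two is impossible (its two chosen edges are different, so one of them has a vertex x ≠ y (both contain y), x ∈ C).
 For X = ∅ ∈ D (`empty_D`): isU y ∅ ({y} = insert y ∅ ∉ D: the edge at y inside {y} would be {y}, `R_not_L`);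
 oX y ∅ = 0 (x ∈ ∅), aX = 0 (isW), dX y ∅ = 0 (e, f ⊆ {y,p} both containing y and p are equal). So at X = ∅ the cluster inequality holds with 6 to spare: 0 < 6 + 2 uX.
-/

open Finset Classical

universe u

namespace H70G3

theorem Rsum_fib {α β : Type*} [Fintype α] (P : α → Prop) (f : α → β) (D : Finset β) :
    ∑ S ∈ D, (univ.filter (fun x => P x ∧ f x = S)).card ≤ (univ.filter P).card := by
  have h1 : ∀ S ∈ D, (univ.filter (fun x => P x ∧ f x = S)).card =
      ∑ x ∈ univ.filter P, (if f x = S then 1 else 0) := by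
    intro S _
    rw [← filter_filter, card_filter]
  rw [sum_congr rfl h1, sum_comm]
  calc ∑ x ∈ univ.filter P, ∑ S ∈ D, (if f x = S then 1 else 0)
      ≤ ∑ x ∈ univ.filter P, 1 := by
        apply sum_le_sum
        intro x _
        rw [sum_ite_eq]
        split_ifs
        · exact le_refl _
        · exact Nat.zero_le _
    _ = (univ.filter P).card := by rw [card_eq_sum_ones]

theorem Rsum_fib2 {α β : Type*} [Fintype α] (P : α → Prop) (f : α → β) (D : Finset β)
    (n : β → ℕ) (hn : ∀ S ∈ D, n S = (univ.filter (fun x => P x ∧ f x = S)).card) :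
    ∑ S ∈ D, n S ≤ (univ.filter P).card := by
  rw [sum_congr rfl hn]
  exact Rsum_fib P f D

theorem Rsum_prod {α β : Type*} [Fintype α] [Fintype β] (P : α → β → Prop) (D : Finset α)
    (A : Finset β) (hD : ∀ X e, P X e → X ∈ D ∧ e ∈ A) :
    (univ.filter (fun x : α × β => P x.1 x.2)).card ≤ ∑ X ∈ D, (A.filter (fun e => P X e)).card := by
  have h1 : univ.filter (fun x : α × β => P x.1 x.2) ⊆
      D.biUnion (fun X => (A.filter (fun e => P X e)).image (fun e => (X, e))) := by
    intro x hx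
    have h2 := (mem_filter.1 hx).2
    obtain ⟨h3, h4⟩ := hD _ _ h2
    exact mem_biUnion.2 ⟨x.1, h3, mem_image.2 ⟨x.2, mem_filter.2 ⟨h4, h2⟩, rfl⟩⟩
  refine (card_le_card h1).trans (card_biUnion_le.trans (sum_le_sum ?_))
  intro X _
  exact card_image_le

namespace Ctx
variable {V : Type u} [Fintype V] [DecidableEq V] (c : Ctx V)

theorem Rsum_t_le {y : V} (h3 : (c.tri y).card = 3) (S : Finset V) : c.t y S ≤ 3 := by
  unfold t
  rw [← h3]
  exact card_filter_le _ _

theorem Rsum_pt {y : V} (hy : isR c.E y) (h3 : (c.tri y).card = 3) {S : Finset V}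
    (hS : S ∈ c.D) : c.ldR y S + 2 * c.nImg y S + 4 * c.nT2 y S ≤
      (if y ∈ S then 12 - 4 * c.t y S else 0) + 2 * c.nOA y S + 2 * c.nDA y S + 4 * c.nWA y S +
        2 * c.nS1 y S := by
  have ht := c.Rsum_t_le h3 S
  by_cases hyS : y ∈ S
  · rw [if_pos hyS]
    by_cases hT : c.T2 y S
    · obtain ⟨h1, h2⟩ := c.ldR_T2 hy h3 hT
      have h4 : c.t y S = 2 := hT.2.2.1
      have h5 : c.nImg y S = 0 := if_neg h2
      have h6 : c.nT2 y S = 1 := if_pos hT
      rw [h1, h5, h6, h4]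
      omega
    · have h6 : c.nT2 y S = 0 := if_neg hT
      by_cases hI : c.S1img y S
      · have h5 : c.nImg y S = 1 := if_pos hI
        obtain ⟨_, _, h7⟩ := c.ldR_S1img hy h3 hI
        rw [h5, h6]
        omega
      · have h5 : c.nImg y S = 0 := if_neg hI
        rw [h5, h6]
        obtain ⟨e, he⟩ := c.exists_at hS hyS
        rcases Nat.lt_or_ge (at' c.E S y).card 2 with h8 | h8
        · have h9 : at' c.E S y = {e} := by
            have h10 : (at' c.E S y).card = 1 := by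
              have := card_pos.2 ⟨e, he⟩
              omega
            obtain ⟨e', he'⟩ := card_eq_one.1 h10
            rw [he', mem_singleton] at he
            rw [he', he]
          have h11 := c.ldR_one hy h3 hS h9
          omega
        · have h11 := c.ldR_two hy h3 hS h8
          omega
  · rw [if_neg hyS]
    have h1 := c.ldR_not_mem (S := S) hyS
    have h5 : c.nImg y S = 0 := if_neg (fun h => hyS (c.ldR_S1img hy h3 h).2.1)
    have h6 : c.nT2 y S = 0 := if_neg (fun h => hyS h.2.1)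
    rw [h1, h5, h6]
    exact Nat.zero_le _

theorem Rsum_OA (y : V) : ∑ S ∈ c.D, c.nOA y S ≤ ∑ X ∈ c.D, c.oX y X := by
  refine (Rsum_fib2 (fun x : Finset V × Finset V => c.OA y x.1 x.2) (fun x => x.1 ∪ x.2)
    c.D _ (fun S _ => ?_)).trans ?_
  · unfold nOA
    apply congrArg
    ext x
    simp only [mem_filter]
  exact Rsum_prod (fun X e => c.OA y X e) c.D (c.tri y) (fun X e h => ⟨h.1.1, h.2.1⟩)

theorem Rsum_WA (y : V) : ∑ S ∈ c.D, c.nWA y S ≤ ∑ X ∈ c.D, c.aX y X := by
  refine (Rsum_fib2 (fun x : Finset V × Finset V => c.WA y x.1 x.2) (fun x => x.1 ∪ x.2)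
    c.D _ (fun S _ => ?_)).trans ?_
  · unfold nWA
    apply congrArg
    ext x
    simp only [mem_filter]
  exact Rsum_prod (fun X e => c.WA y X e) c.D (c.tri y) (fun X e h => ⟨h.1.1, h.2.1⟩)

theorem Rsum_DA (y : V) : ∑ S ∈ c.D, c.nDA y S ≤ ∑ X ∈ c.D, c.dX y X := by
  refine (Rsum_fib2 (fun x : Finset V × V => c.DA y x.1 x.2)
    (fun x => insert y (insert x.2 x.1)) c.D _ (fun S _ => ?_)).trans ?_
  · unfold nDA
    apply congrArg
    ext x
    simp only [mem_filter]
  exact Rsum_prod (fun X p => c.DA y X p) c.D univ (fun X e h => ⟨h.1.1, mem_univ _⟩)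

theorem Rsum_uX {y : V} (hy : isR c.E y) (h3 : (c.tri y).card = 3) :
    ∑ X ∈ c.D, c.uX y X ≤ ∑ T ∈ c.D, 2 * c.nT2 y T := by
  have h1 : ∀ X ∈ c.D, c.uX y X = ∑ T ∈ c.D, (if c.Use y X T then 1 else 0) := by
    intro X _
    unfold uX
    rw [card_filter]
  rw [sum_congr rfl h1, sum_comm]
  apply sum_le_sum
  intro T _
  rw [← card_filter]
  by_cases hT : c.T2 y T
  · have h6 : c.nT2 y T = 1 := if_pos hT
    rw [h6]
    refine (card_le_card ?_).trans (c.use_le_two (T := T) hy h3)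
    intro X hX
    exact mem_filter.2 ⟨mem_univ _, (mem_filter.1 hX).2⟩
  · have h7 : c.D.filter (fun X => c.Use y X T) = ∅ := by
      rw [filter_eq_empty_iff]
      intro X _ hU
      exact hT (c.use_T2 hy hU)
    rw [h7, card_empty]
    exact Nat.zero_le _

theorem Rsum_core {y : V} (hy : isR c.E y) (h3 : (c.tri y).card = 3) :
    ∑ S ∈ c.D, c.ldR y S + ∑ X ∈ c.D, 2 * c.uX y X ≤
      ∑ S ∈ c.D, (if y ∈ S then 12 - 4 * c.t y S else 0) +
        ∑ X ∈ c.D, (2 * c.oX y X + 2 * c.dX y X + 4 * c.aX y X) := by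
  have h1 := sum_le_sum (fun S (hS : S ∈ c.D) => c.Rsum_pt hy h3 hS)
  simp only [sum_add_distrib, ← mul_sum] at h1 ⊢
  have h2 := c.Rsum_OA y
  have h4 := c.Rsum_WA y
  have h5 := c.Rsum_DA y
  have h6 := c.Rsum_uX hy h3
  have h7 := c.sum_nS1_le hy
  rw [← mul_sum] at h6
  omega

theorem Rsum_cap {y : V} (hy : isR c.E y) (h3 : (c.tri y).card = 3) :
    ∑ T ∈ c.D, c.cap y T = ∑ S ∈ c.D, (if y ∈ S then 12 - 4 * c.t y S else 0) +
      ∑ X ∈ c.D, (if c.isU y X then 6 else 0) := by
  rw [← sum_add_distrib]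
  apply sum_congr rfl
  intro T hT
  unfold cap
  rw [if_neg hy.2.2, if_pos hy, if_pos h3]
  by_cases hyT : y ∈ T
  · have h1 : ¬ c.isU y T := fun h => h.2.1 hyT
    rw [if_pos hyT, if_pos hyT, if_neg h1, add_zero]
  · rw [if_neg hyT, if_neg hyT, zero_add]
    by_cases hD : insert y T ∈ c.D
    · have h1 : ¬ c.isU y T := fun h => h.2.2 hD
      rw [if_pos hD, if_neg h1]
    · have h1 : c.isU y T := ⟨hT, hyT, hD⟩
      rw [if_neg hD, if_pos h1]

theorem sum_ldR_le {y : V} (hy : isR c.E y) : ∑ S ∈ c.D, c.ldR y S ≤ ∑ T ∈ c.D, c.cap y T := by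
  rcases c.tri_R y hy with ⟨h3, _⟩ | ⟨h2, h2a, h2b, h2c⟩
  · have h1 := c.Rsum_core hy h3
    have h4 := sum_le_sum (fun X (_ : X ∈ c.D) => c.cluster_le (X := X) hy h3)
    rw [sum_add_distrib (f := fun X => if c.isU y X then 6 else 0)] at h4
    rw [c.Rsum_cap hy h3]
    omega
  · exact sum_le_sum (fun S hS => c.ldR_Two hy h2 h2a h2b h2c hS)

theorem sum_ldR_lt {y : V} (hy : isR c.E y) (hW : ∀ w, ¬ isW c.E w) :
    ∑ S ∈ c.D, c.ldR y S < ∑ T ∈ c.D, c.cap y T := by
  have hC : ∀ x, ¬ isC c.E x := fun x hx => hW _ (c.rep_isW hx)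
  rcases c.tri_R y hy with ⟨h3, _⟩ | ⟨h2, h2a, h2b, h2c⟩
  · have h1 := c.Rsum_core hy h3
    have hU : c.isU y ∅ := by
      refine ⟨c.empty_D, notMem_empty _, ?_⟩
      intro h
      rw [c.mem_D] at h
      obtain ⟨e, he, hye, hes⟩ := h y (mem_insert_self _ _)
      have h5 : e = {y} := by
        apply Subset.antisymm
        · intro x hx
          have h6 := hes hx
          rw [mem_insert] at h6
          rcases h6 with h6 | h6
          · exact mem_singleton.2 h6
          · exact absurd h6 (notMem_empty _)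
        · exact singleton_subset_iff.2 hye
      rw [h5] at he
      exact c.R_not_L hy he
    have ho : c.oX y ∅ = 0 := by
      unfold oX
      rw [card_eq_zero, filter_eq_empty_iff]
      intro e _ h
      obtain ⟨_, _, _, a, x, _, _, _, hx, _⟩ := h
      exact notMem_empty _ hx
    have ha : c.aX y ∅ = 0 := by
      unfold aX
      rw [card_eq_zero, filter_eq_empty_iff]
      intro e _ h
      obtain ⟨_, _, _, w, hw, _⟩ := h
      exact hW w hw
    have hdd : c.dX y ∅ = 0 := by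
      unfold dX
      rw [card_eq_zero, filter_eq_empty_iff]
      intro p _ h
      obtain ⟨_, _, _, _, e, he, f, hf, hne, hpe, hpf, hes, hfs⟩ := h
      have key : ∀ g ∈ c.tri y, p ∈ g → g ⊆ insert y (insert p (∅ : Finset V)) →
          g = insert y (insert p (∅ : Finset V)) := by
        intro g hg hpg hgs
        apply Subset.antisymm hgs
        intro x hx
        rw [mem_insert, mem_insert] at hx
        rcases hx with hx | hx | hx
        · rw [hx]
          exact (c.tri_sub y g hg).2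
        · rw [hx]
          exact hpg
        · exact absurd hx (notMem_empty _)
      exact hne ((key e he hpe hes).trans (key f hf hpf hfs).symm)
    have h4 : ∑ X ∈ c.D, (2 * c.oX y X + 2 * c.dX y X + 4 * c.aX y X) <
        ∑ X ∈ c.D, ((if c.isU y X then 6 else 0) + 2 * c.uX y X) := by
      refine sum_lt_sum (fun X _ => c.cluster_le (X := X) hy h3) ⟨∅, c.empty_D, ?_⟩
      rw [ho, ha, hdd, if_pos hU]
      omega
    rw [sum_add_distrib (f := fun X => if c.isU y X then 6 else 0)] at h4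
    rw [c.Rsum_cap hy h3]
    omega
  · exfalso
    obtain ⟨e, f, hne, hef⟩ := card_eq_two.1 h2
    have he : e ∈ c.tri y := by
      rw [hef]
      exact mem_insert_self _ _
    have hf : f ∈ c.tri y := by
      rw [hef]
      exact mem_insert_of_mem (mem_singleton_self _)
    have key : ∀ g ∈ c.tri y, g = {y} := by
      intro g hg
      apply Subset.antisymm
      · intro x hx
        by_contra h6
        exact hC x (h2c g hg x hx (fun h => h6 (mem_singleton.2 h)))
      · exact singleton_subset_iff.2 (c.tri_sub y g hg).2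
    exact hne ((key e he).trans (key f hf).symm)

end Ctx
end H70G3
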