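import Pool.Agent.H70.G3.Basic

/-!
# Row TG : toggling

For every vertex w:  Σ_{T ∈ D} cap w T ≤ cost w * cr, cr = card {S ∈ D : w ∈ S, S.erase w ∉ D}.  Put un = card {X ∈ D : w ∉ X, insert w X ∉ D}, A = {S ∈ D : w ∈ S}, B = {S ∈ D : w ∉ S}.
card D = card A + card B; the map S ↦ S.erase w is a bijection from {S ∈ A : S.erase w ∈ D} to {X ∈ B : insert w X ∈ D}; so card A - cr = card B - un, i.e. card A + un = card B + cr.
For e ∈ tri w (e ∈ E, w ∈ e): m_e := card {S ∈ A : ¬ e ⊆ S}; {S ∈ D : e ⊆ S} has card A - m_e elements.  hP: card A + card B ≤ 2 (card A - m_e), so 2 m_e + un ≤ cr.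
Σ_{e ∈ tri w} m_e = Σ_{S ∈ A} (card (tri w) - t w S) (double counting).
isW w (`tri_W`: three edges): 4 times the sum: Σ_{S ∈ A} (24 - 8 t) + 12 un ≤ 12 cr.   isR w, card tri = 3: 2 times the sum: Σ (12 - 4 t) + 6 un ≤ 6 cr.
isR w, card tri = 2: 3 times the sum of two: Σ (12 - 6 t) + 6 un ≤ 6 cr.  otherwise cap = 0.  (t ≤ card (tri w).)
-/

open Finset Classical

universe u

namespace H70G3
namespace Ctx
variable {V : Type u} [Fintype V] [DecidableEq V] (c : Ctx V)

/-- number of sets with `w` not removable, and number of sets to which `w` cannot be added -/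
private lemma TG_cards (w : V) :
    (c.D.filter (fun S => w ∈ S)).card + (c.D.filter (fun X => w ∉ X ∧ insert w X ∉ c.D)).card =
      (c.D.filter (fun S => w ∉ S)).card + (c.D.filter (fun S => w ∈ S ∧ S.erase w ∉ c.D)).card := by
  have hA : (c.D.filter (fun S => w ∈ S)).card = (c.D.filter (fun S => w ∈ S ∧ S.erase w ∈ c.D)).card +
      (c.D.filter (fun S => w ∈ S ∧ S.erase w ∉ c.D)).card := by
    have h := card_filter_add_card_filter_not (s := c.D.filter (fun S => w ∈ S)) (fun S => S.erase w ∈ c.D)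
    rw [filter_filter, filter_filter] at h
    exact h.symm
  have hB : (c.D.filter (fun S => w ∉ S)).card = (c.D.filter (fun S => w ∉ S ∧ insert w S ∈ c.D)).card +
      (c.D.filter (fun S => w ∉ S ∧ insert w S ∉ c.D)).card := by
    have h := card_filter_add_card_filter_not (s := c.D.filter (fun S => w ∉ S)) (fun S => insert w S ∈ c.D)
    rw [filter_filter, filter_filter] at h
    exact h.symm
  have hAB : (c.D.filter (fun S => w ∈ S ∧ S.erase w ∈ c.D)).card =
      (c.D.filter (fun S => w ∉ S ∧ insert w S ∈ c.D)).card := by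
    refine card_nbij' (fun S => S.erase w) (fun S => insert w S) ?_ ?_ ?_ ?_
    · intro S hS
      rw [mem_coe, mem_filter] at hS ⊢
      refine ⟨hS.2.2, notMem_erase w S, ?_⟩
      rw [insert_erase hS.2.1]; exact hS.1
    · intro S hS
      rw [mem_coe, mem_filter] at hS ⊢
      refine ⟨hS.2.2, mem_insert_self w S, ?_⟩
      rw [erase_insert hS.2.1]; exact hS.1
    · intro S hS
      rw [mem_coe, mem_filter] at hS
      exact insert_erase hS.2.1
    · intro S hS
      rw [mem_coe, mem_filter] at hS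
      exact erase_insert hS.2.1
  omega

private lemma TG_edge (w : V) (hP : ∀ e ∈ c.E, c.D.card ≤ 2 * (c.D.filter (fun S => e ⊆ S)).card)
    (e : Finset V) (he : e ∈ c.tri w) :
    2 * ((c.D.filter (fun S => w ∈ S)).filter (fun S => ¬ e ⊆ S)).card +
      (c.D.filter (fun X => w ∉ X ∧ insert w X ∉ c.D)).card ≤
      (c.D.filter (fun S => w ∈ S ∧ S.erase w ∉ c.D)).card := by
  have h1 := c.TG_cards w
  have h2 : (c.D.filter (fun S => w ∈ S)).card + (c.D.filter (fun S => w ∉ S)).card = c.D.card :=
    card_filter_add_card_filter_not (s := c.D) (fun S => w ∈ S)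
  have h3 := card_filter_add_card_filter_not (s := c.D.filter (fun S => w ∈ S)) (fun S => e ⊆ S)
  have h4 := hP e (c.tri_sub w e he).1
  have h5 : (c.D.filter (fun S => w ∈ S)).filter (fun S => e ⊆ S) = c.D.filter (fun S => e ⊆ S) := by
    rw [filter_filter]
    refine filter_congr fun S _ => ?_
    constructor
    · exact fun h => h.2
    · exact fun h => ⟨h (c.tri_sub w e he).2, h⟩
  rw [h5] at h3
  omega

private lemma TG_t_le (w : V) (S : Finset V) : c.t w S ≤ (c.tri w).card := by
  unfold t
  exact card_le_card (filter_subset _ _)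

private lemma TG_key (w : V) (hP : ∀ e ∈ c.E, c.D.card ≤ 2 * (c.D.filter (fun S => e ⊆ S)).card) :
    2 * (∑ S ∈ c.D.filter (fun S => w ∈ S), ((c.tri w).card - c.t w S)) +
      (c.tri w).card * (c.D.filter (fun X => w ∉ X ∧ insert w X ∉ c.D)).card ≤
      (c.tri w).card * (c.D.filter (fun S => w ∈ S ∧ S.erase w ∉ c.D)).card := by
  have h1 : ∑ S ∈ c.D.filter (fun S => w ∈ S), ((c.tri w).card - c.t w S) =
      ∑ e ∈ c.tri w, ((c.D.filter (fun S => w ∈ S)).filter (fun S => ¬ e ⊆ S)).card := by
    have h2 : ∀ S : Finset V, (c.tri w).card - c.t w S = ∑ e ∈ c.tri w, (if ¬ e ⊆ S then 1 else 0) := by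
      intro S
      have h3 := card_filter_add_card_filter_not (s := c.tri w) (fun e => e ⊆ S)
      rw [← card_filter]
      unfold t
      omega
    simp only [h2]
    rw [sum_comm]
    refine sum_congr rfl fun e _ => ?_
    rw [card_filter]
  rw [h1, mul_sum]
  have h2 : ∑ e ∈ c.tri w, (2 * ((c.D.filter (fun S => w ∈ S)).filter (fun S => ¬ e ⊆ S)).card +
      (c.D.filter (fun X => w ∉ X ∧ insert w X ∉ c.D)).card) ≤
      ∑ _e ∈ c.tri w, (c.D.filter (fun S => w ∈ S ∧ S.erase w ∉ c.D)).card :=
    sum_le_sum fun e he => c.TG_edge w hP e he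
  rw [sum_add_distrib, sum_const, sum_const, smul_eq_mul, smul_eq_mul] at h2
  exact h2

/-- the capacity outside -/
private lemma TG_B (w : V) (k : ℕ) :
    ∑ T ∈ c.D.filter (fun S => w ∉ S), (if insert w T ∈ c.D then 0 else k) =
      k * (c.D.filter (fun X => w ∉ X ∧ insert w X ∉ c.D)).card := by
  have h : ∀ T ∈ c.D.filter (fun S => w ∉ S), (if insert w T ∈ c.D then 0 else k) =
      (if insert w T ∉ c.D then k else 0) := by
    intro T _
    by_cases hT : insert w T ∈ c.D
    · rw [if_pos hT, if_neg (not_not.2 hT)]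
    · rw [if_neg hT, if_pos hT]
  rw [sum_congr rfl h, ← sum_filter, filter_filter, sum_const, smul_eq_mul, mul_comm]

private lemma TG_one (w : V) (hP : ∀ e ∈ c.E, c.D.card ≤ 2 * (c.D.filter (fun S => e ⊆ S)).card) :
    ∑ T ∈ c.D, c.cap w T ≤ (c.D.filter (fun S => w ∈ S ∧ S.erase w ∉ c.D)).card * c.cost w := by
  have hsplit := sum_filter_add_sum_filter_not c.D (fun S => w ∈ S) (fun T => c.cap w T)
  rw [← hsplit]
  have hkey := c.TG_key w hP
  by_cases hW : isW c.E w
  · rw [c.cost_W hW]
    have hA : ∑ T ∈ c.D.filter (fun S => w ∈ S), c.cap w T =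
        8 * ∑ S ∈ c.D.filter (fun S => w ∈ S), ((c.tri w).card - c.t w S) := by
      rw [mul_sum]
      refine sum_congr rfl fun T hT => ?_
      rw [mem_filter] at hT
      unfold cap
      rw [if_pos hW, if_pos hT.2, c.tri_W w hW]
      omega
    have hB : ∑ T ∈ c.D.filter (fun S => ¬ w ∈ S), c.cap w T =
        12 * (c.D.filter (fun X => w ∉ X ∧ insert w X ∉ c.D)).card := by
      rw [← c.TG_B w 12]
      refine sum_congr rfl fun T hT => ?_
      rw [mem_filter] at hT
      unfold cap
      rw [if_pos hW, if_neg hT.2]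
    rw [hA, hB]
    rw [c.tri_W w hW] at hkey ⊢
    omega
  · by_cases hR : isR c.E w
    · rw [c.cost_R hR]
      have hB : ∑ T ∈ c.D.filter (fun S => ¬ w ∈ S), c.cap w T =
          6 * (c.D.filter (fun X => w ∉ X ∧ insert w X ∉ c.D)).card := by
        rw [← c.TG_B w 6]
        refine sum_congr rfl fun T hT => ?_
        rw [mem_filter] at hT
        unfold cap
        rw [if_neg hW, if_pos hR, if_neg hT.2]
      rcases c.tri_R w hR with h3 | h2
      · have hA : ∑ T ∈ c.D.filter (fun S => w ∈ S), c.cap w T =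
            4 * ∑ S ∈ c.D.filter (fun S => w ∈ S), ((c.tri w).card - c.t w S) := by
          rw [mul_sum]
          refine sum_congr rfl fun T hT => ?_
          rw [mem_filter] at hT
          unfold cap
          rw [if_neg hW, if_pos hR, if_pos hT.2, if_pos h3.1, h3.1]
          omega
        rw [hA, hB]
        rw [h3.1] at hkey ⊢
        omega
      · have hA : ∑ T ∈ c.D.filter (fun S => w ∈ S), c.cap w T =
            6 * ∑ S ∈ c.D.filter (fun S => w ∈ S), ((c.tri w).card - c.t w S) := by
          rw [mul_sum]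
          refine sum_congr rfl fun T hT => ?_
          rw [mem_filter] at hT
          unfold cap
          have h23 : ¬ (c.tri w).card = 3 := by rw [h2.1]; norm_num
          rw [if_neg hW, if_pos hR, if_pos hT.2, if_neg h23, h2.1]
          omega
        rw [hA, hB]
        rw [h2.1] at hkey ⊢
        omega
    · have h0 : ∀ T, c.cap w T = 0 := by
        intro T
        unfold cap
        rw [if_neg hW, if_neg hR]
      simp only [h0, sum_const_zero, add_zero, Nat.zero_le]

theorem toggle (hP : ∀ e ∈ c.E, c.D.card ≤ 2 * (c.D.filter (fun S => e ⊆ S)).card) :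
    ∑ w, ∑ T ∈ c.D, c.cap w T ≤
      ∑ p, ∑ _S ∈ c.D.filter (fun S => p ∈ S ∧ S.erase p ∉ c.D), c.cost p := by
  refine sum_le_sum fun w _ => ?_
  rw [sum_const, smul_eq_mul]
  exact c.TG_one w hP

end Ctx
end H70G3
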