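import Pool.Agent.H70.G3.Basic

/-!
# Row WU4 : load of rule U4 is at most 12

Put v = ctr w. If the condition fails ldU4 = 0. Otherwise v ∈ T and no u with Dm u v lies in T.  Let P = {p : dep T v p}; v ∈ T ∈ D, so there is
f0 ∈ at' E T v (`exists_at`), P ⊆ f0.erase v, card ≤ 2.  p ∈ P ∩ W ⇒ ctr p ≠ v (else Dm p v (`ctr_Dm`) and p ∈ T (`dep_mem`), excluded).
If some p ∈ P is in W: ctr p ∈ f0 (`W_edge`), f0 = {v, p, ctr p} (`edge_eq`), P ⊆ {p, ctr p}, cost (ctr p) = 0, sum ≤ 12.
If no p ∈ P is in W: every cost ≤ 6, card P ≤ 2, sum ≤ 12.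
-/

open Finset Classical

universe u

namespace H70G3
namespace Ctx
variable {V : Type u} [Fintype V] [DecidableEq V] (c : Ctx V)

theorem ldU4_le {w : V} {T : Finset V} (hw : isW c.E w) (hT : T ∈ c.D) : c.ldU4 w T ≤ 12 := by
  unfold ldU4
  split_ifs with hcond
  · obtain ⟨hvT, hdom, -⟩ := hcond
    obtain ⟨f0, hf0⟩ := c.exists_at hT hvT
    rw [mem_at] at hf0
    obtain ⟨hf0E, hvf0, hf0T⟩ := hf0
    set P := univ.filter (fun p => dep c.E T (c.ctr w) p) with hP
    have hPsub : P ⊆ f0.erase (c.ctr w) := by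
      intro p hp
      rw [hP, mem_filter] at hp
      exact mem_erase.2 ⟨hp.2.2.1.symm, hp.2.2.2 f0 hf0E hvf0 hf0T⟩
    by_cases hW : ∃ p ∈ P, isW c.E p
    · obtain ⟨p, hpP, hpW⟩ := hW
      have hpf := mem_erase.1 (hPsub hpP)
      have hdp : dep c.E T (c.ctr w) p := by
        rw [hP, mem_filter] at hpP
        exact hpP.2
      have hne : c.ctr w ≠ c.ctr p := by
        intro h
        have h1 := c.ctr_Dm hpW
        rw [← h] at h1
        exact hdom p h1 (c.dep_mem hT hdp)
      have hpc : p ≠ c.ctr p := (c.ctr_Dm hpW).1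
      have hcf : c.ctr p ∈ f0 := c.W_edge hpW hf0E hpf.2
      have hf0eq := c.edge_eq hf0E hvf0 hpf.2 hcf hpf.1.symm hne hpc
      have hPs : P ⊆ {p, c.ctr p} := by
        intro x hx
        have h1 := mem_erase.1 (hPsub hx)
        rw [hf0eq] at h1
        simp only [mem_insert, mem_singleton] at h1 ⊢
        rcases h1 with ⟨h2, h3 | h3 | h3⟩
        · exact absurd h3 h2
        · exact Or.inl h3
        · exact Or.inr h3
      calc ∑ x ∈ P, c.cost x ≤ ∑ x ∈ ({p, c.ctr p} : Finset V), c.cost x :=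
            sum_le_sum_of_subset hPs
        _ = c.cost p + c.cost (c.ctr p) := sum_pair hpc
        _ ≤ 12 := by
            rw [c.cost_C (c.ctr_isC hpW)]
            exact c.cost_le p
    · push Not at hW
      have h6 : ∀ x ∈ P, c.cost x ≤ 6 := by
        intro x hx
        have h1 := hW x hx
        unfold cost
        rw [if_neg h1]
        split_ifs <;> omega
      have hcard : P.card ≤ 2 := by
        have h1 := card_le_card hPsub
        rw [card_erase_of_mem hvf0] at h1
        have h2 := c.card_le f0 hf0E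
        omega
      calc ∑ x ∈ P, c.cost x ≤ P.card • 6 := sum_le_card_nsmul _ _ _ h6
        _ ≤ 12 := by
            rw [smul_eq_mul]
            omega
  · omega

end Ctx
end H70G3
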