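import Pool.Agent.H70.G3.WM2
import Pool.Agent.H70.G3.WU4

/-!
# Row WSl : the slots (w, T), w ∈ W

v = ctr w. Use `ldM2_add_ldII1_le`, `ldU4_le`.  cap w T = if w ∈ T then 24 - 8 t else if insert w T ∈ D then 0 else 12.
(1) w ∉ T, v ∉ T: insert w T ∉ D (otherwise an edge at w inside insert w T; it contains v = ctr w by `W_edge`, v ≠ w, so v ∈ T), cap = 12.
  ldII3 = 0 (T = insert w S ∋ w), ldR1 = 0 (dep T w p needs w ∈ T), ldSW = ldIAW = ldPart = 0 (w ∈ {w,..} ⊆ T because at' E T w = {e} gives e ⊆ T),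
  ldU4 = 0 (needs v ∈ T).
  (1a) insert v T ∉ D: ldM2 = 0, ldA ≤ 12, ldII1 = 0: a source (S, z) has T = insert (rep z) (S.erase v), v ∈ S (dep S v p), T ∈ D, S ∈ D, so
       insert v T = S ∪ T ∈ D (`union_D`), contradiction.
  (1b) insert v T ∈ D: ldA = 0, ldM2 + ldII1 ≤ 12.
(2) w ∉ T, v ∈ T: ldM2 = ldA = 0, ldII1 = 0 (T = insert (rep z) (S.erase v) does not contain v: rep z ≠ v by `ne_of_W_C`), ldII3 = ldR1 = ldSW = ldIAW = ldPart = 0.
  ldU4 ≤ 12 and if insert w T ∈ D then ldU4 = 0.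
(3) w ∈ T: then v ∈ T (`ctr_mem`), ldM2 = ldA = 0, ldII1 = 0 (as in (2)), ldU4 = 0 (u = w: Dm w v, w ∈ T).  There is an edge in at' E T w.
  N := card (at' E T w) ≥ 1, t w T ≤ N (`t_le_card`) and t w T ≤ card (tri w) = 3.
  N ≥ 2: ldR1 = 0: dep T w p with p ≠ v gives at' E T w = {{w,v,p}} (`at_W_dep`), so only p = v, cost v = 0 (`cost_C`, `ctr_isC`); ldII3 = ldSW = ldIAW
  = ldPart = 0 because they need at' E T w = {_}.  So load 0 ≤ cap.
  N = 1: cap ≥ 16. We show load ≤ 12. at' E T w = {e}, v ∈ e.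
   If some p ≠ v has dep T w p then e = {w, v, p}, and p is the only such vertex; ldR1 ≤ cost p.
     p ∈ W: ldR1 ≤ 12; ldII3 = 0, ldSW = 0 (they need {w,v,z} = {w,v,p}, so z = p ∈ C), ldIAW = 0, ldPart = 0 (need p ∈ R). 
       [For {w,v,z} = {w,v,p} with z ≠ w, v, one gets z = p. Note z ≠ w, v: for ldSW z ≠ ctr w by definition and z ∈ C, w ∈ W; for ldII3 z ≠ v from dep S v z and
        z ∈ C; for ldIAW, ldPart the vertex is in R, so differs from w ∈ W and v ∈ C.]
     p ∈ R: ldR1 ≤ 6; ldII3 = ldSW = 0; ldIAW ≤ 6 and is 0 if T.erase w ∉ D; ldPart ≤ 4 and is 0 if T.erase w ∈ D: total ≤ 12.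
     p ∈ C or L (neither W nor R): ldR1 = 0 (cost 0); ldIAW = ldPart = 0; ldII3 ≤ 6, and if ldII3 ≠ 0 then T = insert w S with S ∈ D, w ∉ S, so T.erase w = S ∈ D,
       so ldSW = 0; ldSW ≤ 12. total ≤ 12.   (ldII3 ≤ 6: at most one p: T.erase w = S, at' S v = {{v,p,z}} by `at_unique`, z determined by at' E T w = {{w,v,z}}.)
   If no p ≠ v has dep T w p: then e has no third vertex (every third vertex z of e has dep T w z because e is the only T-edge at w), all of
     ldR1, ldII3, ldSW, ldIAW, ldPart are 0.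
 Second theorem: w ∈ T and N = 1: load ≤ 12 < 16 ≤ cap.
-/

open Finset Classical

universe u

namespace H70G3
namespace Ctx
variable {V : Type u} [Fintype V] [DecidableEq V] (c : Ctx V)

/-- `{w, ctr w, z}` is the only edge at `w` inside `T` and has three vertices -/
def WSl_third (w : V) (T : Finset V) (z : V) : Prop :=
  z ≠ w ∧ z ≠ c.ctr w ∧ at' c.E T w = {{w, c.ctr w, z}}

omit [Fintype V] in
lemma WSl_inj {w v z z' : V} (h : ({w, v, z} : Finset V) = {w, v, z'}) (hz : z ≠ w) (hzv : z ≠ v) :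
    z = z' := by
  have h1 : z ∈ ({w, v, z'} : Finset V) := by rw [← h]; simp
  simp only [mem_insert, mem_singleton] at h1
  rcases h1 with h1 | h1 | h1
  · exact absurd h1 hz
  · exact absurd h1 hzv
  · exact h1

lemma WSl_unique {w z z' : V} {T : Finset V} (h : c.WSl_third w T z) (h' : c.WSl_third w T z') :
    z = z' := by
  have h1 := h.2.2.symm.trans h'.2.2
  have h2 : ({w, c.ctr w, z} : Finset V) = {w, c.ctr w, z'} := Finset.singleton_injective h1
  exact WSl_inj h2 h.1 h.2.1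

lemma WSl_mem {w z : V} {T : Finset V} (h : at' c.E T w = {{w, c.ctr w, z}}) : w ∈ T := by
  have h1 : ({w, c.ctr w, z} : Finset V) ∈ at' c.E T w := by rw [h]; exact mem_singleton_self _
  rw [c.mem_at] at h1
  exact h1.2.2 (by simp)

lemma WSl_of_dep {w p : V} {T : Finset V} (hw : isW c.E w) (hT : T ∈ c.D) (h : dep c.E T w p)
    (hp : p ≠ c.ctr w) : c.WSl_third w T p := ⟨h.2.1.symm, hp, c.at_W_dep hT h hw hp⟩

lemma WSl_R1_zero {w : V} {T : Finset V} (hw : isW c.E w) (hT : T ∈ c.D)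
    (h : ∀ z, c.WSl_third w T z → c.cost z = 0) : c.ldR1 w T = 0 := by
  unfold ldR1
  refine Finset.sum_eq_zero fun p hp => ?_
  rw [mem_filter] at hp
  by_cases hpv : p = c.ctr w
  · rw [hpv]; exact c.cost_C (c.ctr_isC hw)
  · exact h p (c.WSl_of_dep hw hT hp.2 hpv)

lemma WSl_R1_le {w z : V} {T : Finset V} (hw : isW c.E w) (hT : T ∈ c.D)
    (hz : c.WSl_third w T z) : c.ldR1 w T ≤ c.cost z := by
  unfold ldR1
  calc ∑ p ∈ univ.filter (fun p => dep c.E T w p), c.cost p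
      ≤ ∑ p ∈ univ.filter (fun p => dep c.E T w p), (if p = z then c.cost z else 0) := by
        refine Finset.sum_le_sum fun p hp => ?_
        rw [mem_filter] at hp
        by_cases hpv : p = c.ctr w
        · rw [hpv, c.cost_C (c.ctr_isC hw)]; exact Nat.zero_le _
        · have h1 := c.WSl_unique (c.WSl_of_dep hw hT hp.2 hpv) hz
          rw [h1, if_pos rfl]
    _ ≤ ∑ p : V, (if p = z then c.cost z else 0) :=
        Finset.sum_le_sum_of_subset (Finset.filter_subset _ _)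
    _ = c.cost z := by rw [Finset.sum_ite_eq' univ z]; simp

lemma WSl_II3 {w : V} {T : Finset V} (hw : isW c.E w) (h : c.ldII3 w T ≠ 0) :
    ∃ z, c.WSl_third w T z ∧ isC c.E z ∧ T.erase w ∈ c.D := by
  unfold ldII3 at h
  have h1 : (univ.filter (fun p : V => c.rep (c.ctr w) = w ∧
    ∃ S z, c.srcII3 S p (c.ctr w) z ∧ T = insert w S)).Nonempty := by
    rw [← Finset.card_ne_zero]
    intro h0
    apply h
    rw [h0]
  obtain ⟨p, hp⟩ := h1
  rw [mem_filter] at hp
  obtain ⟨-, hrep, S, z, hsrc, hTS⟩ := hp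
  obtain ⟨hSD, hpR, hpair, hu, hins, hat⟩ := hsrc
  rw [hrep] at hins hat
  have hwS : w ∉ S := hu w (c.ctr_Dm hw)
  refine ⟨z, ⟨(c.ne_of_W_C hw hpair.2.1).symm, hpair.2.2.2.1.2.1.symm, ?_⟩, hpair.2.1, ?_⟩
  · rw [hTS]; exact hat
  · rw [hTS, Finset.erase_insert hwS]; exact hSD

lemma WSl_II3_le {w : V} {T : Finset V} (hw : isW c.E w) : c.ldII3 w T ≤ 6 := by
  unfold ldII3
  have h1 : (univ.filter (fun p : V => c.rep (c.ctr w) = w ∧
    ∃ S z, c.srcII3 S p (c.ctr w) z ∧ T = insert w S)).card ≤ 1 := by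
    rw [Finset.card_le_one]
    intro p1 hp1 p2 hp2
    rw [mem_filter] at hp1 hp2
    obtain ⟨-, hrep, S1, z1, hsrc1, hTS1⟩ := hp1
    obtain ⟨-, -, S2, z2, hsrc2, hTS2⟩ := hp2
    obtain ⟨hSD1, hpR1, hpair1, hu1, hins1, hat1⟩ := hsrc1
    obtain ⟨hSD2, hpR2, hpair2, hu2, hins2, hat2⟩ := hsrc2
    rw [hrep] at hat1 hat2
    have hwS1 : w ∉ S1 := hu1 w (c.ctr_Dm hw)
    have hwS2 : w ∉ S2 := hu2 w (c.ctr_Dm hw)
    have hS : S1 = S2 := by
      rw [← Finset.erase_insert hwS1, ← Finset.erase_insert hwS2, ← hTS1, ← hTS2]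
    subst hS
    have hz : z1 = z2 := by
      have t1 : c.WSl_third w (insert w S1) z1 :=
        ⟨(c.ne_of_W_C hw hpair1.2.1).symm, hpair1.2.2.2.1.2.1.symm, hat1⟩
      have t2 : c.WSl_third w (insert w S1) z2 :=
        ⟨(c.ne_of_W_C hw hpair2.2.1).symm, hpair2.2.2.2.1.2.1.symm, hat2⟩
      exact c.WSl_unique t1 t2
    subst hz
    have n1 : p1 ≠ z1 := c.ne_of_R_C hpR1 hpair1.2.1
    have n2 : p2 ≠ z1 := c.ne_of_R_C hpR2 hpair2.2.1
    have a1 := c.at_unique hSD1 hpair1.2.2.2.1 hpair1.2.2.1 n1.symm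
    have a2 := c.at_unique hSD2 hpair2.2.2.2.1 hpair2.2.2.1 n2.symm
    have a3 : ({c.ctr w, z1, p1} : Finset V) = {c.ctr w, z1, p2} :=
      Finset.singleton_injective (a1.symm.trans a2)
    exact WSl_inj a3 hpair1.2.2.1.2.1.symm n1
  omega

lemma WSl_SW {w : V} {T : Finset V} (hw : isW c.E w) (h : c.ldSW w T ≠ 0) :
    ∃ z, c.WSl_third w T z ∧ isC c.E z ∧ T.erase w ∉ c.D := by
  unfold ldSW at h
  split_ifs at h with hc
  · obtain ⟨h1, z, hz, hzc, hat⟩ := hc
    exact ⟨z, ⟨(c.ne_of_W_C hw hz).symm, hzc, hat⟩, hz, h1⟩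
  · exact absurd rfl h

lemma WSl_SW_le (w : V) (T : Finset V) : c.ldSW w T ≤ 12 := by
  unfold ldSW
  split_ifs <;> omega

lemma WSl_IAW {w : V} {T : Finset V} (hw : isW c.E w) (h : c.ldIAW w T ≠ 0) :
    ∃ z, c.WSl_third w T z ∧ isR c.E z ∧ T.erase w ∈ c.D := by
  unfold ldIAW at h
  have h1 : (univ.filter (fun p : V => isR c.E p ∧ T.erase w ∈ c.D ∧
      at' c.E T w = {{w, c.ctr w, p}})).Nonempty := by
    rw [← Finset.card_ne_zero]
    intro h0
    apply h
    rw [h0]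
  obtain ⟨p, hp⟩ := h1
  rw [mem_filter] at hp
  obtain ⟨-, hR, hD, hat⟩ := hp
  exact ⟨p, ⟨c.ne_of_R_W hR hw, c.ne_of_R_C hR (c.ctr_isC hw), hat⟩, hR, hD⟩

lemma WSl_IAW_le {w : V} {T : Finset V} (hw : isW c.E w) : c.ldIAW w T ≤ 6 := by
  unfold ldIAW
  have h1 : (univ.filter (fun p : V => isR c.E p ∧ T.erase w ∈ c.D ∧
      at' c.E T w = {{w, c.ctr w, p}})).card ≤ 1 := by
    rw [Finset.card_le_one]
    intro p1 hp1 p2 hp2
    rw [mem_filter] at hp1 hp2
    obtain ⟨-, hR1, -, hat1⟩ := hp1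
    obtain ⟨-, hR2, -, hat2⟩ := hp2
    exact c.WSl_unique ⟨c.ne_of_R_W hR1 hw, c.ne_of_R_C hR1 (c.ctr_isC hw), hat1⟩
      ⟨c.ne_of_R_W hR2 hw, c.ne_of_R_C hR2 (c.ctr_isC hw), hat2⟩
  omega

lemma WSl_Part {w : V} {T : Finset V} (hw : isW c.E w) (h : c.ldPart w T ≠ 0) :
    ∃ z, c.WSl_third w T z ∧ isR c.E z ∧ T.erase w ∉ c.D := by
  unfold ldPart at h
  split_ifs at h with hc
  · obtain ⟨h1, z, hz, hat⟩ := hc
    exact ⟨z, ⟨c.ne_of_R_W hz hw, c.ne_of_R_C hz (c.ctr_isC hw), hat⟩, hz, h1⟩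
  · exact absurd rfl h

lemma WSl_Part_le (w : V) (T : Finset V) : c.ldPart w T ≤ 4 := by
  unfold ldPart
  split_ifs <;> omega

/-- the five loads of the rules at the third vertex -/
lemma WSl_five {w : V} {T : Finset V} (hw : isW c.E w) (hT : T ∈ c.D) :
    c.ldII3 w T + c.ldR1 w T + c.ldSW w T + c.ldIAW w T + c.ldPart w T ≤ 12 ∧
    ((¬ ∃ z, c.WSl_third w T z) →
      c.ldII3 w T + c.ldR1 w T + c.ldSW w T + c.ldIAW w T + c.ldPart w T = 0) := by
  have hnone : (¬ ∃ z, c.WSl_third w T z) →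
      c.ldII3 w T + c.ldR1 w T + c.ldSW w T + c.ldIAW w T + c.ldPart w T = 0 := by
    intro hn
    have a1 : c.ldII3 w T = 0 := by
      by_contra h
      obtain ⟨z, hz, -⟩ := c.WSl_II3 hw h
      exact hn ⟨z, hz⟩
    have a2 : c.ldR1 w T = 0 := c.WSl_R1_zero hw hT fun z hz => absurd ⟨z, hz⟩ hn
    have a3 : c.ldSW w T = 0 := by
      by_contra h
      obtain ⟨z, hz, -⟩ := c.WSl_SW hw h
      exact hn ⟨z, hz⟩
    have a4 : c.ldIAW w T = 0 := by
      by_contra h
      obtain ⟨z, hz, -⟩ := c.WSl_IAW hw h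
      exact hn ⟨z, hz⟩
    have a5 : c.ldPart w T = 0 := by
      by_contra h
      obtain ⟨z, hz, -⟩ := c.WSl_Part hw h
      exact hn ⟨z, hz⟩
    omega
  refine ⟨?_, hnone⟩
  by_cases hex : ∃ z, c.WSl_third w T z
  swap
  · have := hnone hex
    omega
  obtain ⟨z, hz⟩ := hex
  have hII := c.WSl_II3_le (T := T) hw
  have hR1 := c.WSl_R1_le hw hT hz
  have hSW := c.WSl_SW_le w T
  have hIA := c.WSl_IAW_le (T := T) hw
  have hPa := c.WSl_Part_le w T
  have b1 : ¬ isC c.E z → c.ldII3 w T = 0 := by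
    intro hC
    by_contra h
    obtain ⟨z', hz', hC', -⟩ := c.WSl_II3 hw h
    rw [c.WSl_unique hz' hz] at hC'
    exact hC hC'
  have b3 : ¬ isC c.E z → c.ldSW w T = 0 := by
    intro hC
    by_contra h
    obtain ⟨z', hz', hC', -⟩ := c.WSl_SW hw h
    rw [c.WSl_unique hz' hz] at hC'
    exact hC hC'
  have b4 : ¬ isR c.E z → c.ldIAW w T = 0 := by
    intro hC
    by_contra h
    obtain ⟨z', hz', hC', -⟩ := c.WSl_IAW hw h
    rw [c.WSl_unique hz' hz] at hC'
    exact hC hC'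
  have b5 : ¬ isR c.E z → c.ldPart w T = 0 := by
    intro hC
    by_contra h
    obtain ⟨z', hz', hC', -⟩ := c.WSl_Part hw h
    rw [c.WSl_unique hz' hz] at hC'
    exact hC hC'
  have c1 : c.ldII3 w T ≠ 0 → c.ldSW w T = 0 := by
    intro h
    obtain ⟨_, _, _, hD⟩ := c.WSl_II3 hw h
    by_contra h2
    obtain ⟨_, _, _, hD2⟩ := c.WSl_SW hw h2
    exact hD2 hD
  have c2 : c.ldIAW w T ≠ 0 → c.ldPart w T = 0 := by
    intro h
    obtain ⟨_, _, _, hD⟩ := c.WSl_IAW hw h
    by_contra h2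
    obtain ⟨_, _, _, hD2⟩ := c.WSl_Part hw h2
    exact hD2 hD
  by_cases hzW : isW c.E z
  · have d1 := b1 (c.W_not_C hzW)
    have d2 := b3 (c.W_not_C hzW)
    have d3 := b4 (c.W_not_R hzW)
    have d4 := b5 (c.W_not_R hzW)
    rw [c.cost_W hzW] at hR1
    omega
  by_cases hzR : isR c.E z
  · have hzC : ¬ isC c.E z := fun h => c.C_not_R h hzR
    have d1 := b1 hzC
    have d2 := b3 hzC
    rw [c.cost_R hzR] at hR1
    by_cases h0 : c.ldIAW w T = 0
    · omega
    · have := c2 h0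
      omega
  · have d3 := b4 hzR
    have d4 := b5 hzR
    rw [c.cost_zero hzW hzR] at hR1
    by_cases h0 : c.ldII3 w T = 0
    · omega
    · have := c1 h0
      omega

lemma WSl_II1_zero {w : V} {T : Finset V}
    (h : ∀ (S : Finset V) (z : V), isC c.E z → S ∈ c.D → c.ctr w ∈ S →
      insert (c.rep z) (S.erase (c.ctr w)) ∈ c.D →
      T ≠ insert (c.rep z) (S.erase (c.ctr w))) : c.ldII1 w T = 0 := by
  unfold ldII1
  have h1 : (univ.filter (fun p : V => c.rep (c.ctr w) = w ∧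
    ∃ S z, c.srcII1 S p (c.ctr w) z ∧ T = insert (c.rep z) (S.erase (c.ctr w)))) = ∅ := by
    rw [Finset.filter_eq_empty_iff]
    rintro p - ⟨-, S, z, hsrc, hTS⟩
    obtain ⟨hSD, -, hpair, -, -, hins⟩ := hsrc
    exact h S z hpair.2.1 hSD hpair.2.2.1.1 hins hTS
  rw [h1, Finset.card_empty]

lemma WSl_II1_zero_of_mem {w : V} {T : Finset V} (hw : isW c.E w) (hv : c.ctr w ∈ T) :
    c.ldII1 w T = 0 := by
  refine c.WSl_II1_zero fun S z hz _ _ _ => ?_
  intro hTS
  rw [hTS, Finset.mem_insert] at hv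
  rcases hv with h | h
  · exact c.ne_of_W_C (c.rep_isW hz) (c.ctr_isC hw) h.symm
  · exact (Finset.mem_erase.1 h).1 rfl

lemma WSl_M2_zero {w : V} {T : Finset V} (hv : c.ctr w ∈ T) : c.ldM2 w T = 0 := by
  unfold ldM2
  rw [if_neg]
  rintro ⟨-, h, -⟩
  exact h hv

lemma WSl_A_zero {w : V} {T : Finset V} (hv : c.ctr w ∈ T) : c.ldA w T = 0 := by
  unfold ldA
  rw [if_neg]
  rintro ⟨h, -⟩
  exact h hv

/-- `w ∈ T` : only the five loads remain -/
lemma WSl_in {w : V} {T : Finset V} (hw : isW c.E w) (hT : T ∈ c.D) (hwT : w ∈ T) :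
    c.ldW w T = c.ldII3 w T + c.ldR1 w T + c.ldSW w T + c.ldIAW w T + c.ldPart w T := by
  have hv := c.ctr_mem hw hT hwT
  have a1 := c.WSl_M2_zero hv
  have a2 := c.WSl_A_zero hv
  have a3 := c.WSl_II1_zero_of_mem hw hv
  have a4 : c.ldU4 w T = 0 := by
    unfold ldU4
    rw [if_neg]
    rintro ⟨-, h, -⟩
    exact h w (c.ctr_Dm hw) hwT
  unfold ldW
  omega

lemma WSl_cap_in {w : V} {T : Finset V} (hw : isW c.E w) (hwT : w ∈ T) :
    c.cap w T = 24 - 8 * c.t w T := by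
  unfold cap
  rw [if_pos hw, if_pos hwT]

theorem ldW_le {w : V} {T : Finset V} (hw : isW c.E w) (hT : T ∈ c.D) : c.ldW w T ≤ c.cap w T := by
  obtain ⟨hfive, hnone⟩ := c.WSl_five hw hT
  by_cases hwT : w ∈ T
  · rw [c.WSl_in hw hT hwT, c.WSl_cap_in hw hwT]
    by_cases hex : ∃ z, c.WSl_third w T z
    · obtain ⟨z, hz⟩ := hex
      have h1 := c.t_le_card w T
      rw [hz.2.2, Finset.card_singleton] at h1
      omega
    · rw [hnone hex]
      exact Nat.zero_le _
  · have hn : ¬ ∃ z, c.WSl_third w T z := by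
      rintro ⟨z, hz⟩
      exact hwT (c.WSl_mem hz.2.2)
    have h0 := hnone hn
    have hcap : c.cap w T = if insert w T ∈ c.D then 0 else 12 := by
      unfold cap
      rw [if_pos hw, if_neg hwT]
    by_cases hv : c.ctr w ∈ T
    · have a1 := c.WSl_M2_zero hv
      have a2 := c.WSl_A_zero hv
      have a3 := c.WSl_II1_zero_of_mem hw hv
      have a4 := c.ldU4_le hw hT
      rw [hcap]
      by_cases hi : insert w T ∈ c.D
      · have a5 : c.ldU4 w T = 0 := by
          unfold ldU4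
          rw [if_neg]
          rintro ⟨-, -, h⟩
          exact h hi
        rw [if_pos hi]
        unfold ldW
        omega
      · rw [if_neg hi]
        unfold ldW
        omega
    · have hi : insert w T ∉ c.D := by
        intro h
        have h1 := c.ctr_mem hw h (Finset.mem_insert_self w T)
        rcases Finset.mem_insert.1 h1 with h2 | h2
        · exact (c.ctr_Dm hw).1 h2.symm
        · exact hv h2
      rw [hcap, if_neg hi]
      have a4 : c.ldU4 w T = 0 := by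
        unfold ldU4
        rw [if_neg]
        rintro ⟨h, -, -⟩
        exact hv h
      by_cases hvi : insert (c.ctr w) T ∈ c.D
      · have a2 : c.ldA w T = 0 := by
          unfold ldA
          rw [if_neg]
          rintro ⟨-, h⟩
          exact h hvi
        have a5 := c.ldM2_add_ldII1_le hw hT
        unfold ldW
        omega
      · have a1 : c.ldM2 w T = 0 := by
          unfold ldM2
          rw [if_neg]
          rintro ⟨-, -, h⟩
          exact hvi h
        have a2 : c.ldA w T ≤ 12 := by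
          unfold ldA
          split_ifs <;> omega
        have a3 : c.ldII1 w T = 0 := by
          refine c.WSl_II1_zero fun S z hz hSD hvS hins => ?_
          intro hTS
          apply hvi
          have e : insert (c.ctr w) T = S ∪ T := by
            rw [hTS]
            ext x
            simp only [Finset.mem_insert, Finset.mem_union, Finset.mem_erase]
            by_cases hx : x = c.ctr w
            · subst hx; simp [hvS]
            · simp only [hx, false_or, ne_eq, not_false_eq_true, true_and]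
              tauto
          rw [e]
          exact c.union_D hSD hT
        unfold ldW
        omega

theorem ldW_lt {w : V} {T : Finset V} (hw : isW c.E w) (hT : T ∈ c.D) (hwT : w ∈ T)
    (h1 : (at' c.E T w).card = 1) : c.ldW w T < c.cap w T := by
  obtain ⟨hfive, -⟩ := c.WSl_five hw hT
  rw [c.WSl_in hw hT hwT, c.WSl_cap_in hw hwT]
  have h2 := c.t_le_card w T
  rw [h1] at h2
  omega

end Ctx
end H70G3
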