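import Pool.Agent.H70.G3.DS
import Pool.Agent.H70.G3.WSl
import Pool.Agent.H70.G3.Rsum
import Pool.Agent.H70.G3.TG

/-!
# Row Core : all vertices are loops

Suppose v0 is not a loop.  `toggle` and `cost_le_load`: Σ_w Σ_T cap w T ≤ Σ_{w ∈ Ws} Σ_T ldW w T + Σ_{y ∈ Rs} Σ_S ldR y S.
Σ_w Σ_T cap ≥ Σ_{w ∈ Ws} Σ_T cap + Σ_{y ∈ Rs} Σ_T cap (Ws, Rs disjoint: `W_not_R`).
Case W nonempty, w ∈ W, v = ctr w: there is T ∈ D, w ∈ T, card (at' E T w) = 1: if {w,v} ∈ E take T = {w,v} (edges at w contain w and v, so an edge at w inside {w,v} is {w,v}); otherwise take any edge e at w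
 (c.cov): an edge g ∋ w, g ⊆ e contains w, v and is not {w,v}; card e ≤ 3 so g = e.  T ∈ D by `edge_D`.  `ldW_lt` at (w,T), `ldW_le` elsewhere, `sum_ldR_le`: strict inequality, contradiction.
Case W empty: then no centres (`rep_isW`), so v0 ∈ R (`four`): `sum_ldR_lt` for v0, `sum_ldR_le` for the others: contradiction.
-/

open Finset Classical

universe u

namespace H70G3
namespace Ctx
variable {V : Type u} [Fintype V] [DecidableEq V] (c : Ctx V)

/-- a slot with exactly one edge -/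
lemma exists_one {w : V} (hw : isW c.E w) :
    ∃ T ∈ c.D, w ∈ T ∧ (at' c.E T w).card = 1 := by
  have hv := c.ctr_Dm hw
  by_cases hE : ({w, c.ctr w} : Finset V) ∈ c.E
  · refine ⟨{w, c.ctr w}, c.edge_D hE, by simp, ?_⟩
    rw [card_eq_one]
    refine ⟨{w, c.ctr w}, ?_⟩
    rw [eq_singleton_iff_unique_mem]
    refine ⟨by rw [mem_at]; exact ⟨hE, by simp, Subset.refl _⟩, ?_⟩
    intro g hg
    rw [mem_at] at hg
    apply Subset.antisymm hg.2.2
    intro x hx
    simp only [mem_insert, mem_singleton] at hx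
    rcases hx with rfl | rfl
    · exact hg.2.1
    · exact c.W_edge hw hg.1 hg.2.1
  · obtain ⟨e, he, hwe⟩ := c.cov w
    refine ⟨e, c.edge_D he, hwe, ?_⟩
    rw [card_eq_one]
    refine ⟨e, ?_⟩
    rw [eq_singleton_iff_unique_mem]
    refine ⟨by rw [mem_at]; exact ⟨he, hwe, Subset.refl _⟩, ?_⟩
    intro g hg
    rw [mem_at] at hg
    apply eq_of_subset_of_card_le hg.2.2
    have h3 := c.card_le e he
    have hsub : ({w, c.ctr w} : Finset V) ⊆ g := by
      intro x hx
      simp only [mem_insert, mem_singleton] at hx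
      rcases hx with rfl | rfl
      · exact hg.2.1
      · exact c.W_edge hw hg.1 hg.2.1
    have hne : ({w, c.ctr w} : Finset V) ≠ g := by
      rintro rfl; exact hE hg.1
    have h2 : ({w, c.ctr w} : Finset V).card < g.card := card_lt_card (hsub.ssubset_of_ne hne)
    have h2' : ({w, c.ctr w} : Finset V).card = 2 := card_pair hv.1
    omega

theorem all_loops (hP : ∀ e ∈ c.E, c.D.card ≤ 2 * (c.D.filter (fun S => e ⊆ S)).card) (v : V) :
    isL c.E v := by
  by_contra hv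
  have h1 := (c.toggle hP).trans c.cost_le_load
  have hdisj : Disjoint c.Ws c.Rs := by
    rw [disjoint_left]
    intro x hx hx2
    simp only [Ws, Rs, mem_filter, mem_univ, true_and] at hx hx2
    exact c.W_not_R hx hx2
  have h2 : ∑ w ∈ c.Ws, ∑ T ∈ c.D, c.cap w T + ∑ y ∈ c.Rs, ∑ T ∈ c.D, c.cap y T ≤
      ∑ w, ∑ T ∈ c.D, c.cap w T := by
    rw [← sum_union hdisj]
    exact sum_le_sum_of_subset (subset_univ _)
  have hWle : ∀ w ∈ c.Ws, ∑ T ∈ c.D, c.ldW w T ≤ ∑ T ∈ c.D, c.cap w T := by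
    intro w hw
    simp only [Ws, mem_filter, mem_univ, true_and] at hw
    exact sum_le_sum fun T hT => c.ldW_le hw hT
  have hRle : ∀ y ∈ c.Rs, ∑ S ∈ c.D, c.ldR y S ≤ ∑ T ∈ c.D, c.cap y T := by
    intro y hy
    simp only [Rs, mem_filter, mem_univ, true_and] at hy
    exact c.sum_ldR_le hy
  by_cases hW : ∃ w, isW c.E w
  · obtain ⟨w, hw⟩ := hW
    obtain ⟨T, hT, hwT, hc⟩ := c.exists_one hw
    have h3 : ∑ w ∈ c.Ws, ∑ T ∈ c.D, c.ldW w T < ∑ w ∈ c.Ws, ∑ T ∈ c.D, c.cap w T := by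
      apply sum_lt_sum hWle
      refine ⟨w, by simp [Ws, hw], ?_⟩
      apply sum_lt_sum (fun T hT => c.ldW_le hw hT)
      exact ⟨T, hT, c.ldW_lt hw hT hwT hc⟩
    have h4 := sum_le_sum hRle
    omega
  · push Not at hW
    have hvR : isR c.E v := by
      rcases c.four v with h | h | h | h
      · exact absurd h (hW v)
      · exact absurd (c.rep_isW h) (hW _)
      · exact absurd h hv
      · exact h
    have h3 : ∑ y ∈ c.Rs, ∑ S ∈ c.D, c.ldR y S < ∑ y ∈ c.Rs, ∑ T ∈ c.D, c.cap y T := by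
      apply sum_lt_sum hRle
      exact ⟨v, by simp [Rs, hvR], c.sum_ldR_lt hvR hW⟩
    have h4 := sum_le_sum hWle
    omega

end Ctx
end H70G3
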