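import Pool.Agent.H70.G3.IIU

/-!
# Row Tb : transfer of the classes II1 and II3

Σ_{w ∈ Ws} Σ_{T ∈ D} ldII1 w T = Σ over triples (w,T,p) of (if the condition in the definition of ldII1 holds for p then 6 else 0)
(6 * card (filter) = Σ_p if .. then 6 else 0: Finset.card_filter / sum_boole).
For x = (S,p) choose v, z with srcII1 S p v z. i(x) = (rep v, insert (rep z) (S.erase v), p).  cost p = 6 (`cost_R`), rep v ∈ Ws, T ∈ D (part of srcII1),
ctr (rep v) = v (`ctr_rep`), rep (ctr (rep v)) = rep v.  Injective: two x with the same image have the same rep v, hence the same v (apply ctr), and then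
the same S by `srcII1_unique`, p is part of the image.
II3: i(x) = (rep v, insert (rep v) S, p); rep v ∉ S because Dm (rep v) v (`rep_Dm`), so S = T.erase (rep v).
-/

open Finset Classical

universe u

namespace H70G3
namespace Ctx
variable {V : Type u} [Fintype V] [DecidableEq V] (c : Ctx V)

private lemma Tb_sum3 (P : V → Finset V → V → Prop) [∀ w T p, Decidable (P w T p)] :
    ∑ w ∈ c.Ws, ∑ T ∈ c.D, 6 * (univ.filter (fun p : V => P w T p)).card =
    ∑ x ∈ c.Ws ×ˢ (c.D ×ˢ (univ : Finset V)), if P x.1 x.2.1 x.2.2 then 6 else 0 := by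
  rw [sum_product]
  refine sum_congr rfl fun w _ => ?_
  rw [sum_product]
  refine sum_congr rfl fun T _ => ?_
  rw [card_filter, mul_sum]
  refine sum_congr rfl fun p _ => ?_
  dsimp only
  split_ifs <;> rfl

theorem sum_II1 : ∑ x ∈ c.Pr.filter (fun x => ∃ v z, c.srcII1 x.1 x.2 v z), c.cost x.2 ≤
    ∑ w ∈ c.Ws, ∑ T ∈ c.D, c.ldII1 w T := by
  have h0 : ∀ x : Finset V × V, ∃ vz : V × V, (∃ v z, c.srcII1 x.1 x.2 v z) →
      c.srcII1 x.1 x.2 vz.1 vz.2 := by
    intro x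
    by_cases h : ∃ v z, c.srcII1 x.1 x.2 v z
    · obtain ⟨v, z, h⟩ := h
      exact ⟨(v, z), fun _ => h⟩
    · exact ⟨(x.2, x.2), fun h' => absurd h' h⟩
  choose F hF using h0
  unfold ldII1
  rw [c.Tb_sum3 (fun w T p => c.rep (c.ctr w) = w ∧
    ∃ S z, c.srcII1 S p (c.ctr w) z ∧ T = insert (c.rep z) (S.erase (c.ctr w)))]
  refine transfer _ _ _ _ (fun x => (c.rep (F x).1, insert (c.rep (F x).2) (x.1.erase (F x).1), x.2))
    ?_ ?_ ?_
  · intro x hx
    rw [mem_filter] at hx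
    have h1 := hF x hx.2
    rw [mem_product, mem_product]
    refine ⟨?_, ?_, mem_univ _⟩
    · unfold Ws
      rw [mem_filter]
      exact ⟨mem_univ _, c.rep_isW h1.2.2.1.1⟩
    · exact h1.2.2.2.2.2
  · intro x hx y hy hxy
    rw [mem_filter] at hx hy
    have h1 := hF x hx.2
    have h2 := hF y hy.2
    simp only [Prod.mk.injEq] at hxy
    obtain ⟨e1, e2, _⟩ := hxy
    have e4 : (F x).1 = (F y).1 := by
      rw [← c.ctr_rep h1.2.2.1.1, ← c.ctr_rep h2.2.2.1.1, e1]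
    rw [e4] at h1 e2
    obtain ⟨e5, e6, _⟩ := c.srcII1_unique h1 h2 e2
    exact Prod.ext e5 e6
  · intro x hx
    rw [mem_filter] at hx
    have h1 := hF x hx.2
    rw [c.cost_R h1.2.1]
    dsimp only
    rw [if_pos]
    rw [c.ctr_rep h1.2.2.1.1]
    exact ⟨rfl, x.1, (F x).2, h1, rfl⟩

theorem sum_II3 : ∑ x ∈ c.Pr.filter (fun x => ∃ v z, c.srcII3 x.1 x.2 v z), c.cost x.2 ≤
    ∑ w ∈ c.Ws, ∑ T ∈ c.D, c.ldII3 w T := by
  have h0 : ∀ x : Finset V × V, ∃ vz : V × V, (∃ v z, c.srcII3 x.1 x.2 v z) →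
      c.srcII3 x.1 x.2 vz.1 vz.2 := by
    intro x
    by_cases h : ∃ v z, c.srcII3 x.1 x.2 v z
    · obtain ⟨v, z, h⟩ := h
      exact ⟨(v, z), fun _ => h⟩
    · exact ⟨(x.2, x.2), fun h' => absurd h' h⟩
  choose F hF using h0
  unfold ldII3
  rw [c.Tb_sum3 (fun w T p => c.rep (c.ctr w) = w ∧
    ∃ S z, c.srcII3 S p (c.ctr w) z ∧ T = insert w S)]
  refine transfer _ _ _ _ (fun x => (c.rep (F x).1, insert (c.rep (F x).1) x.1, x.2)) ?_ ?_ ?_
  · intro x hx
    rw [mem_filter] at hx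
    have h1 := hF x hx.2
    rw [mem_product, mem_product]
    refine ⟨?_, ?_, mem_univ _⟩
    · unfold Ws
      rw [mem_filter]
      exact ⟨mem_univ _, c.rep_isW h1.2.2.1.1⟩
    · exact h1.2.2.2.2.1
  · intro x hx y hy hxy
    rw [mem_filter] at hx hy
    have h1 := hF x hx.2
    have h2 := hF y hy.2
    simp only [Prod.mk.injEq] at hxy
    obtain ⟨e1, e2, e3⟩ := hxy
    have e4 : c.rep (F x).1 ∉ x.1 := h1.2.2.2.1 _ (c.rep_Dm h1.2.2.1.1)
    have e5 : c.rep (F y).1 ∉ y.1 := h2.2.2.2.1 _ (c.rep_Dm h2.2.2.1.1)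
    have e6 : x.1 = y.1 := by
      rw [← erase_insert e4, e2, e1, erase_insert e5]
    exact Prod.ext e6 e3
  · intro x hx
    rw [mem_filter] at hx
    have h1 := hF x hx.2
    rw [c.cost_R h1.2.1]
    dsimp only
    rw [if_pos]
    rw [c.ctr_rep h1.2.2.1.1]
    exact ⟨rfl, x.1, (F x).2, h1, rfl⟩

end Ctx
end H70G3
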