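import Pool.Agent.H70.G3.Basic

/-!
# Row Tc : transfer of the classes R1, A, SW

Use `transfer`.
R1: x = (S,p), choose y with isW y, dep S y p; i(x) = (y, S, p) into the triples (w,T,p) with weight (if dep T w p then cost p else 0); injective.
A: i(x) = (p, (S.erase p).erase (ctr p)) into pairs (w,T); ldA p X = 12 = cost p (`cost_W`): ctr p ∉ X, insert (ctr p) X ∉ D (part of clA).
   injective: S = insert p (insert (ctr p) X) as p, ctr p ∈ S.
SW: i(x) = (p, S); ldSW p S = 12 = cost p.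
-/

open Finset Classical

universe u

namespace H70G3
namespace Ctx
variable {V : Type u} [Fintype V] [DecidableEq V] (c : Ctx V)

theorem sum_R1 : ∑ x ∈ c.Pr.filter (fun x => ∃ y, isW c.E y ∧ dep c.E x.1 y x.2), c.cost x.2 ≤
    ∑ w ∈ c.Ws, ∑ T ∈ c.D, c.ldR1 w T := by
  have h0 : ∑ w ∈ c.Ws, ∑ T ∈ c.D, c.ldR1 w T =
      ∑ x ∈ c.Ws ×ˢ (c.D ×ˢ (univ : Finset V)),
        (if dep c.E x.2.1 x.1 x.2.2 then c.cost x.2.2 else 0) := by
    rw [sum_product]
    refine sum_congr rfl fun w _ => ?_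
    rw [sum_product]
    refine sum_congr rfl fun T _ => ?_
    rw [ldR1, sum_filter]
  rw [h0]
  have hch : ∀ x : Finset V × V, ∃ y, (∃ y, isW c.E y ∧ dep c.E x.1 y x.2) →
      isW c.E y ∧ dep c.E x.1 y x.2 := by
    intro x
    by_cases h : ∃ y, isW c.E y ∧ dep c.E x.1 y x.2
    · obtain ⟨y, hy⟩ := h; exact ⟨y, fun _ => hy⟩
    · exact ⟨x.2, fun h' => absurd h' h⟩
  choose f hf using hch
  apply transfer _ _ _ _ (fun x => (f x, x.1, x.2))
  · intro x hx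
    rw [mem_filter, Pr, mem_product] at hx
    simp only [mem_product, mem_univ, and_true]
    exact ⟨by simp [Ws, (hf x hx.2).1], hx.1.1⟩
  · rintro ⟨S, p⟩ _ ⟨S', p'⟩ _ h
    simp only [Prod.mk.injEq] at h
    rw [h.2.1, h.2.2]
  · intro x hx
    rw [mem_filter] at hx
    simp only [if_pos (hf x hx.2).2]
    exact le_refl _

theorem sum_A : ∑ x ∈ c.Pr.filter (fun x => c.clA x.1 x.2), c.cost x.2 ≤
    ∑ w ∈ c.Ws, ∑ T ∈ c.D, c.ldA w T := by
  rw [← sum_product' (s := c.Ws) (t := c.D) (f := fun w T => c.ldA w T)]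
  apply transfer _ _ _ _ (fun x => (x.2, (x.1.erase x.2).erase (c.ctr x.2)))
  · intro x hx
    rw [mem_filter] at hx
    obtain ⟨-, hW, hS, hp, hc, hD, -⟩ := hx
    rw [mem_product]
    exact ⟨by simp [Ws, hW], hD⟩
  · rintro ⟨S, p⟩ hx ⟨S', p'⟩ hx' h
    simp only [Prod.mk.injEq] at h
    obtain ⟨rfl, h⟩ := h
    rw [mem_filter] at hx hx'
    obtain ⟨-, hW, hS, hp, hc, hD, -⟩ := hx
    obtain ⟨-, hW', hS', hp', hc', hD', -⟩ := hx'
    simp only at hW hp hc hp' hc' h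
    have hne : c.ctr p ≠ p := (c.ctr_Dm hW).1.symm
    have h1 := congrArg (insert (c.ctr p)) h
    rw [insert_erase (mem_erase.2 ⟨hne, hc⟩), insert_erase (mem_erase.2 ⟨hne, hc'⟩)] at h1
    have h2 := congrArg (insert p) h1
    rw [insert_erase hp, insert_erase hp'] at h2
    rw [h2]
  · rintro ⟨S, p⟩ hx
    rw [mem_filter] at hx
    obtain ⟨-, hW, hS, hp, hc, hD, hn⟩ := hx
    simp only at hW hp hc hn ⊢
    rw [ldA, if_pos ⟨by simp, hn⟩]
    exact c.cost_le p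

theorem sum_SW : ∑ x ∈ c.Pr.filter (fun x => c.clSW x.1 x.2), c.cost x.2 ≤
    ∑ w ∈ c.Ws, ∑ T ∈ c.D, c.ldSW w T := by
  rw [← sum_product' (s := c.Ws) (t := c.D) (f := fun w T => c.ldSW w T)]
  apply transfer _ _ _ _ (fun x => (x.2, x.1))
  · intro x hx
    rw [mem_filter] at hx
    obtain ⟨-, hW, hS, -⟩ := hx
    rw [mem_product]
    exact ⟨by simp [Ws, hW], hS⟩
  · rintro ⟨S, p⟩ _ ⟨S', p'⟩ _ h
    simp only [Prod.mk.injEq] at h
    rw [h.1, h.2]
  · rintro ⟨S, p⟩ hx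
    rw [mem_filter] at hx
    obtain ⟨-, hW, hS, hn, hz⟩ := hx
    simp only at hW hn hz ⊢
    rw [ldSW, if_pos ⟨hn, hz⟩]
    exact c.cost_le p

end Ctx
end H70G3
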