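import Pool.Agent.H70.G3.Basic

/-!
# Row Td : transfer of the classes IAW, self, R

IAW: x = (S,p), choose v with isC v, rep v ∉ S, insert (rep v) S ∈ D, at' E (insert (rep v) S) (rep v) = {{rep v, v, p}}. i(x) = (rep v, insert (rep v) S, p) into the
 triples with weight (if isR p ∧ T.erase w ∈ D ∧ at' E T w = {{w, ctr w, p}} then 6 else 0); T.erase (rep v) = S ∈ D; ctr (rep v) = v; injective.
self: x = (S,p): isR p (both ias and ib contain it), cost p = 6 = self p S; Σ_{y ∈ Rs} Σ_{S ∈ D} self y S.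
R: for x = (S,p) with clR: claim  cost p ≤ Σ_{y ∈ Rs} om y S p + (if isW p then ldPart p S else 0).
 Let Y = {y ∈ Rs : dep S y p} (nonempty).  crit and red hold, so om y S p = the inner value for y ∈ Y.
 If Y has two elements then uniq fails for every y ∈ Y: om y S p = 3 (p ∈ R) resp. 6 (p ∈ W), two terms: ≥ 6 = cost p resp. ≥ 12 = cost p.
 If Y = {y}: uniq y S p. p ∈ R: om = 6.  p ∈ W: if card (at' E S p) ≠ 1: om = 12.  If card (at' E S p) = 1: om = 8 and ldPart p S = 4: S.erase p ∉ D (crit);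
   y ≠ ctr p (y ∈ R, ctr p ∈ C) so at' E S y = {{y, p, ctr p}} (`at_dep_W`); this edge is an S-edge at p, so at' E S p = {{y,p,ctr p}} = {{p, ctr p, y}}.
 Sum over x: Σ_x Σ_y om y S p ≤ Σ_{y ∈ Rs} Σ_{S ∈ D} Σ_p om y S p (swap sums, drop the filter), Σ_x (if isW p then ldPart p S else 0) ≤ Σ_{w ∈ Ws} Σ_{T ∈ D} ldPart w T.
-/

open Finset Classical

universe u

namespace H70G3
namespace Ctx
variable {V : Type u} [Fintype V] [DecidableEq V] (c : Ctx V)

theorem sum_IAW : ∑ x ∈ c.Pr.filter (fun x => c.clIAW x.1 x.2), c.cost x.2 ≤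
    ∑ w ∈ c.Ws, ∑ T ∈ c.D, c.ldIAW w T := by
  have hR : ∑ w ∈ c.Ws, ∑ T ∈ c.D, c.ldIAW w T =
      ∑ y ∈ c.Ws ×ˢ (c.D ×ˢ (univ : Finset V)),
        (if isR c.E y.2.2 ∧ y.2.1.erase y.1 ∈ c.D ∧ at' c.E y.2.1 y.1 = {{y.1, c.ctr y.1, y.2.2}}
          then 6 else 0) := by
    rw [sum_product]
    apply sum_congr rfl
    intro w _
    rw [sum_product]
    apply sum_congr rfl
    intro T _
    rw [ldIAW, ← sum_filter, sum_const, smul_eq_mul, Nat.mul_comm]
  rw [hR]
  have hch : ∀ x : Finset V × V, ∃ v, x ∈ c.Pr.filter (fun x => c.clIAW x.1 x.2) →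
      (isC c.E v ∧ c.rep v ∉ x.1 ∧ insert (c.rep v) x.1 ∈ c.D ∧
        at' c.E (insert (c.rep v) x.1) (c.rep v) = {{c.rep v, v, x.2}}) := by
    intro x
    by_cases hx : x ∈ c.Pr.filter (fun x => c.clIAW x.1 x.2)
    · obtain ⟨_, _, v, hv⟩ := (mem_filter.1 hx).2
      exact ⟨v, fun _ => hv⟩
    · exact ⟨x.2, fun h => absurd h hx⟩
  choose vv hvv using hch
  refine transfer _ _ _ _ (fun x => (c.rep (vv x), (insert (c.rep (vv x)) x.1, x.2))) ?_ ?_ ?_
  · intro x hx
    obtain ⟨h1, h2, h3, h4⟩ := hvv x hx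
    rw [mem_product, mem_product]
    refine ⟨?_, h3, mem_univ _⟩
    rw [Ws, mem_filter]
    exact ⟨mem_univ _, c.rep_isW h1⟩
  · intro x hx x' hx' h
    obtain ⟨h1, h2, h3, h4⟩ := hvv x hx
    obtain ⟨h1', h2', h3', h4'⟩ := hvv x' hx'
    have e1 : c.rep (vv x) = c.rep (vv x') := congrArg (fun z => z.1) h
    have e2 : insert (c.rep (vv x)) x.1 = insert (c.rep (vv x')) x'.1 :=
      congrArg (fun z => z.2.1) h
    have e3 : x.2 = x'.2 := congrArg (fun z => z.2.2) h
    have e4 : x.1 = x'.1 := by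
      rw [← erase_insert h2, ← erase_insert h2', e2, e1]
    exact Prod.ext e4 e3
  · intro x hx
    obtain ⟨h1, h2, h3, h4⟩ := hvv x hx
    obtain ⟨h5, h6, _⟩ := (mem_filter.1 hx).2
    have hcond : isR c.E x.2 ∧ (insert (c.rep (vv x)) x.1).erase (c.rep (vv x)) ∈ c.D ∧
        at' c.E (insert (c.rep (vv x)) x.1) (c.rep (vv x)) =
          {{c.rep (vv x), c.ctr (c.rep (vv x)), x.2}} := by
      refine ⟨h5, ?_, ?_⟩
      · rw [erase_insert h2]; exact h6
      · rw [c.ctr_rep h1]; exact h4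
    show c.cost x.2 ≤ (if isR c.E x.2 ∧ (insert (c.rep (vv x)) x.1).erase (c.rep (vv x)) ∈ c.D ∧
        at' c.E (insert (c.rep (vv x)) x.1) (c.rep (vv x)) =
          {{c.rep (vv x), c.ctr (c.rep (vv x)), x.2}} then 6 else 0)
    rw [if_pos hcond, c.cost_R h5]

theorem sum_self : ∑ x ∈ c.Pr.filter (fun x => c.clSelf x.1 x.2), c.cost x.2 ≤
    ∑ y ∈ c.Rs, ∑ S ∈ c.D, c.self y S := by
  have hR : ∑ y ∈ c.Rs, ∑ S ∈ c.D, c.self y S = ∑ z ∈ c.Rs ×ˢ c.D, c.self z.1 z.2 := by
    rw [sum_product]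
  rw [hR]
  have hrr : ∀ x : Finset V × V, c.clSelf x.1 x.2 → isR c.E x.2 := by
    intro x hx
    rcases hx with ⟨v, hv⟩ | hv
    · exact hv.2.1
    · exact hv.2.1
  refine transfer _ _ _ _ (fun x => (x.2, x.1)) ?_ ?_ ?_
  · intro x hx
    rw [mem_filter] at hx
    rw [mem_product]
    refine ⟨?_, ?_⟩
    · rw [Rs, mem_filter]
      exact ⟨mem_univ _, hrr x hx.2⟩
    · have := hx.1
      rw [Pr, mem_product] at this
      exact this.1
  · intro x _ x' _ h
    exact Prod.ext (congrArg (fun z => z.2) h) (congrArg (fun z => z.1) h)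
  · intro x hx
    rw [mem_filter] at hx
    show c.cost x.2 ≤ c.self x.2 x.1
    have h2 : (∃ v, c.ias x.1 x.2 v) ∨ c.ib x.1 x.2 := hx.2
    rw [c.cost_R (hrr x hx.2), self, if_pos h2]

/-- the local inequality of class R -/
lemma Td_loc (S : Finset V) (p : V) (h : c.clR S p) :
    c.cost p ≤ ∑ y ∈ c.Rs, c.om y S p + (if isW c.E p then c.ldPart p S else 0) := by
  obtain ⟨hcr, hred, hWR, y, hyR, hyd⟩ := h
  have hom : ∀ z, isR c.E z → dep c.E S z p → c.om z S p =
      (if isR c.E p then (if c.uniq z S p then 6 else 3)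
       else if isW c.E p then
        (if c.uniq z S p then (if (at' c.E S p).card = 1 then 8 else 12) else 6)
       else 0) := by
    intro z _ hz
    rw [om, if_pos ⟨hz, hcr, hred⟩]
  have hmemR : ∀ z, isR c.E z → z ∈ c.Rs := by
    intro z hz
    rw [Rs, mem_filter]; exact ⟨mem_univ _, hz⟩
  by_cases hu : c.uniq y S p
  · have h1 : c.om y S p ≤ ∑ z ∈ c.Rs, c.om z S p :=
      single_le_sum (f := fun z => c.om z S p) (fun _ _ => Nat.zero_le _) (hmemR y hyR)
    rcases hWR with hW | hR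
    · have hnR := c.W_not_R hW
      rw [c.cost_W hW, if_pos hW]
      have h2 := hom y hyR hyd
      rw [if_neg hnR, if_pos hW, if_pos hu] at h2
      by_cases hc1 : (at' c.E S p).card = 1
      · rw [if_pos hc1] at h2
        have hne : y ≠ c.ctr p := c.ne_of_R_C hyR (c.ctr_isC hW)
        have h3 := c.at_dep_W hcr.1 hyd hW hne
        have h4 : ({y, p, c.ctr p} : Finset V) ∈ at' c.E S y := by
          rw [h3]; exact mem_singleton_self _
        rw [mem_at] at h4
        have h5 : ({y, p, c.ctr p} : Finset V) ∈ at' c.E S p := by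
          rw [mem_at]
          exact ⟨h4.1, by simp, h4.2.2⟩
        obtain ⟨f, hf⟩ := card_eq_one.1 hc1
        rw [hf, mem_singleton] at h5
        have h6 : ({y, p, c.ctr p} : Finset V) = {p, c.ctr p, y} := by
          ext t; simp only [mem_insert, mem_singleton]; tauto
        have h7 : c.ldPart p S = 4 := by
          rw [ldPart, if_pos]
          refine ⟨hcr.2.2, y, hyR, ?_⟩
          rw [hf, ← h5, h6]
        omega
      · rw [if_neg hc1] at h2
        omega
    · rw [c.cost_R hR]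
      have h2 := hom y hyR hyd
      rw [if_pos hR, if_pos hu] at h2
      omega
  · have hu' := hu
    unfold uniq at hu'
    push Not at hu'
    obtain ⟨x, hxR, hxd, hxy⟩ := hu'
    have hux : ¬ c.uniq x S p := by
      intro h
      exact hxy (h y hyR hyd).symm
    have h1 : c.om x S p + c.om y S p ≤ ∑ z ∈ c.Rs, c.om z S p := by
      have hsub : ({x, y} : Finset V) ⊆ c.Rs := by
        intro z hz
        simp only [mem_insert, mem_singleton] at hz
        rcases hz with rfl | rfl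
        · exact hmemR _ hxR
        · exact hmemR _ hyR
      have h2 : ∑ z ∈ ({x, y} : Finset V), c.om z S p ≤ ∑ z ∈ c.Rs, c.om z S p :=
        sum_le_sum_of_subset hsub
      rwa [sum_pair hxy] at h2
    have h2 := hom x hxR hxd
    have h3 := hom y hyR hyd
    rcases hWR with hW | hR
    · have hnR := c.W_not_R hW
      rw [if_neg hnR, if_pos hW, if_neg hux] at h2
      rw [if_neg hnR, if_pos hW, if_neg hu] at h3
      rw [c.cost_W hW]
      omega
    · rw [if_pos hR, if_neg hux] at h2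
      rw [if_pos hR, if_neg hu] at h3
      rw [c.cost_R hR]
      omega

theorem sum_R : ∑ x ∈ c.Pr.filter (fun x => c.clR x.1 x.2), c.cost x.2 ≤
    ∑ y ∈ c.Rs, ∑ S ∈ c.D, ∑ p, c.om y S p + ∑ w ∈ c.Ws, ∑ T ∈ c.D, c.ldPart w T := by
  have h1 : ∑ x ∈ c.Pr.filter (fun x => c.clR x.1 x.2), c.cost x.2 ≤
      ∑ x ∈ c.Pr, (∑ y ∈ c.Rs, c.om y x.1 x.2 + (if isW c.E x.2 then c.ldPart x.2 x.1 else 0)) := by
    refine le_trans (sum_le_sum (fun x hx => c.Td_loc x.1 x.2 (mem_filter.1 hx).2)) ?_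
    exact sum_le_sum_of_subset (filter_subset _ _)
  refine le_trans h1 ?_
  rw [sum_add_distrib]
  apply add_le_add
  · rw [Pr, sum_product]
    have h2 : ∀ S ∈ c.D, ∑ p : V, ∑ y ∈ c.Rs, c.om y S p = ∑ y ∈ c.Rs, ∑ p : V, c.om y S p := by
      intro S _
      exact sum_comm
    rw [sum_congr rfl h2, sum_comm]
  · rw [Pr, sum_product]
    have h2 : ∀ S ∈ c.D, ∑ p : V, (if isW c.E p then c.ldPart p S else 0) =
        ∑ w ∈ c.Ws, c.ldPart w S := by
      intro S _
      rw [Ws, sum_filter]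
    rw [sum_congr rfl h2, sum_comm]

end Ctx
end H70G3
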