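import Pool.Agent.H70.G3.Ta
import Pool.Agent.H70.G3.Tb
import Pool.Agent.H70.G3.Tc
import Pool.Agent.H70.G3.Td
import Pool.Agent.H70.G3.CII
import Pool.Agent.H70.G3.CW
import Pool.Agent.H70.G3.CR

/-!
# Row DS : total cost ≤ total load

Every (S,p) with S ∈ D, p ∈ S, S.erase p ∉ D and cost p ≠ 0 (so isW p or isR p) is in one of the classes:
 cM2; cU4; class II (then `class_II` gives srcII1 or srcII3 for some v, z); some y ∈ W with dep S y p; otherwise red S p holds and either some y ∈ R has dep S y p (clR)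
 or `class_W` / `class_R` give clA, clSW, clIAW, clSelf.
So Σ over the critical pairs ≤ sum of the ten sums over the classes (sum over a union ≤ sum of sums), and these are bounded by `sum_M2`, `sum_U4`, `sum_II1`, `sum_II3`,
 `sum_R1`, `sum_A`, `sum_SW`, `sum_IAW`, `sum_self`, `sum_R`. Unfold ldW, ldR and use sum_add_distrib.
 The left side equals Σ_{x ∈ Pr, crit} cost x.2 (Finset.sum_product, sum_filter, sum_comm).
-/

open Finset Classical

universe u

namespace H70G3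
namespace Ctx
variable {V : Type u} [Fintype V] [DecidableEq V] (c : Ctx V)

lemma DS_class {S : Finset V} {p : V} (hS : S ∈ c.D) (hp : p ∈ S) (hcr : S.erase p ∉ c.D)
    (hc : isW c.E p ∨ isR c.E p) :
    c.cM2 S p ∨ c.cU4 S p ∨ (∃ v z, c.srcII1 S p v z) ∨ (∃ v z, c.srcII3 S p v z) ∨
      (∃ y, isW c.E y ∧ dep c.E S y p) ∨ c.clA S p ∨ c.clSW S p ∨ c.clIAW S p ∨ c.clSelf S p ∨
      c.clR S p := by
  by_cases h1 : c.cM2 S p
  · exact Or.inl h1
  by_cases h2 : c.cU4 S p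
  · exact Or.inr (Or.inl h2)
  by_cases h3 : ∃ v z, c.pairP S p v z
  · obtain ⟨v, z, h | h⟩ := c.class_II hS hc h2 h3
    · exact Or.inr (Or.inr (Or.inl ⟨v, z, h⟩))
    · exact Or.inr (Or.inr (Or.inr (Or.inl ⟨v, z, h⟩)))
  by_cases h4 : ∃ y, isW c.E y ∧ dep c.E S y p
  · exact Or.inr (Or.inr (Or.inr (Or.inr (Or.inl h4))))
  have hred : c.red S p := ⟨h1, h2, h3, h4⟩
  have hcrit : c.crit S p := ⟨hS, hp, hcr⟩
  by_cases h5 : ∃ y, isR c.E y ∧ dep c.E S y p
  · have : c.clR S p := ⟨hcrit, hred, hc, h5⟩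
    tauto
  have hn : ∀ y, isR c.E y → ¬ dep c.E S y p := fun y hy hd => h5 ⟨y, hy, hd⟩
  rcases hc with hc | hc
  · rcases c.class_W hcrit hred hc hn with h | h <;> tauto
  · rcases c.class_R hcrit hred hc hn with h | h <;> tauto

lemma DS_point (x : Finset V × V) (hx : x ∈ c.Pr) :
    (if x.2 ∈ x.1 ∧ x.1.erase x.2 ∉ c.D then c.cost x.2 else 0) ≤
      (if c.cM2 x.1 x.2 then c.cost x.2 else 0) + (if c.cU4 x.1 x.2 then c.cost x.2 else 0) +
      (if ∃ v z, c.srcII1 x.1 x.2 v z then c.cost x.2 else 0) +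
      (if ∃ v z, c.srcII3 x.1 x.2 v z then c.cost x.2 else 0) +
      (if ∃ y, isW c.E y ∧ dep c.E x.1 y x.2 then c.cost x.2 else 0) +
      (if c.clA x.1 x.2 then c.cost x.2 else 0) + (if c.clSW x.1 x.2 then c.cost x.2 else 0) +
      (if c.clIAW x.1 x.2 then c.cost x.2 else 0) + (if c.clSelf x.1 x.2 then c.cost x.2 else 0) +
      (if c.clR x.1 x.2 then c.cost x.2 else 0) := by
  obtain ⟨S, p⟩ := x
  have hS : S ∈ c.D := by
    unfold Pr at hx
    exact (mem_product.1 hx).1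
  dsimp only
  by_cases hcr : p ∈ S ∧ S.erase p ∉ c.D
  · rw [if_pos hcr]
    by_cases hc : isW c.E p ∨ isR c.E p
    · rcases c.DS_class hS hcr.1 hcr.2 hc with h | h | h | h | h | h | h | h | h | h <;>
        rw [if_pos h] <;> omega
    · have : c.cost p = 0 := c.cost_zero (fun h => hc (Or.inl h)) (fun h => hc (Or.inr h))
      rw [this]
      exact Nat.zero_le _
  · rw [if_neg hcr]
    exact Nat.zero_le _

lemma DS_left : ∑ p, ∑ _S ∈ c.D.filter (fun S => p ∈ S ∧ S.erase p ∉ c.D), c.cost p =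
    ∑ x ∈ c.Pr, (if x.2 ∈ x.1 ∧ x.1.erase x.2 ∉ c.D then c.cost x.2 else 0) := by
  unfold Pr
  rw [sum_product, sum_comm]
  refine sum_congr rfl fun p _ => ?_
  rw [sum_filter]

theorem cost_le_load : ∑ p, ∑ _S ∈ c.D.filter (fun S => p ∈ S ∧ S.erase p ∉ c.D), c.cost p ≤
    ∑ w ∈ c.Ws, ∑ T ∈ c.D, c.ldW w T + ∑ y ∈ c.Rs, ∑ S ∈ c.D, c.ldR y S := by
  rw [c.DS_left]
  refine (sum_le_sum c.DS_point).trans ?_
  simp only [sum_add_distrib]
  have e1 := c.sum_M2
  have e2 := c.sum_U4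
  have e3 := c.sum_II1
  have e4 := c.sum_II3
  have e5 := c.sum_R1
  have e6 := c.sum_A
  have e7 := c.sum_SW
  have e8 := c.sum_IAW
  have e9 := c.sum_self
  have e10 := c.sum_R
  rw [sum_filter] at e1 e2 e3 e4 e5 e6 e7 e8 e9 e10
  unfold ldW ldR
  simp only [sum_add_distrib]
  omega

end Ctx
end H70G3
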