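import Mathlib

/-!
# MP_75f39d_G3 : definitions of the discharging (see /team-store/H70_75f39d_G3.md)

`E` is a finite hypergraph of rank at most three on `V`; `Dset E` is the family of all unions of edges.
`dep E S y p` : `y` depends on `p` in `S` (every edge at `y` inside `S` contains `p`).
`Dm E w v` : `v` dominates `w`.  `isC` centres, `isW` dominated vertices, `isL` loops, `isR` the others.
-/

open Finset Classical

universe u

namespace H70G3

section basic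
variable {V : Type u} [Fintype V] [DecidableEq V]

/-- `S` is a union of edges -/
def isD (E : Finset (Finset V)) (S : Finset V) : Prop := ∀ v ∈ S, ∃ e ∈ E, v ∈ e ∧ e ⊆ S

/-- all unions of edges -/
noncomputable def Dset (E : Finset (Finset V)) : Finset (Finset V) := univ.filter (fun S => isD E S)

/-- `y ∈ S` depends on `p` -/
def dep (E : Finset (Finset V)) (S : Finset V) (y p : V) : Prop :=
  y ∈ S ∧ y ≠ p ∧ ∀ e ∈ E, y ∈ e → e ⊆ S → p ∈ e

/-- `v` dominates `w` -/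
def Dm (E : Finset (Finset V)) (w v : V) : Prop := w ≠ v ∧ ∀ e ∈ E, w ∈ e → v ∈ e

def isL (E : Finset (Finset V)) (v : V) : Prop := ({v} : Finset V) ∈ E
def isC (E : Finset (Finset V)) (v : V) : Prop := ∃ w, Dm E w v
def isW (E : Finset (Finset V)) (w : V) : Prop := ∃ v, Dm E w v
def isR (E : Finset (Finset V)) (y : V) : Prop := ¬ isL E y ∧ ¬ isC E y ∧ ¬ isW E y

/-- edges at `y` inside `S` -/
noncomputable def at' (E : Finset (Finset V)) (S : Finset V) (y : V) : Finset (Finset V) :=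
  E.filter (fun e => y ∈ e ∧ e ⊆ S)

end basic

/-- The hypergraph with all chosen data. -/
structure Ctx (V : Type u) [Fintype V] [DecidableEq V] where
  /-- the edges -/
  E : Finset (Finset V)
  /-- the unique dominator of a dominated vertex -/
  ctr : V → V
  /-- a chosen dominated vertex of a centre -/
  rep : V → V
  /-- the chosen edges at a vertex -/
  tri : V → Finset (Finset V)
  card_le : ∀ e ∈ E, e.card ≤ 3
  cov : ∀ v, ∃ e ∈ E, v ∈ e
  ctr_spec : ∀ w v, Dm E w v → ctr w = v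
  acyc : ∀ w v x, Dm E w v → ¬ Dm E v x
  rep_spec : ∀ v, isC E v → Dm E (rep v) v
  tri_sub : ∀ w, ∀ e ∈ tri w, e ∈ E ∧ w ∈ e
  tri_W : ∀ w, isW E w → (tri w).card = 3
  tri_R : ∀ y, isR E y →
    ((tri y).card = 3 ∧ ∀ x, x ≠ y → ∃ e ∈ tri y, x ∉ e) ∨
    ((tri y).card = 2 ∧ (∀ e ∈ E, y ∈ e → e ∈ tri y) ∧
      (∀ e ∈ tri y, ∀ f ∈ tri y, e ≠ f → ∀ x ∈ e, x ∈ f → x = y) ∧
      (∀ e ∈ tri y, ∀ x ∈ e, x ≠ y → isC E x))

namespace Ctx
variable {V : Type u} [Fintype V] [DecidableEq V] (c : Ctx V)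

/-- the family of unions of edges -/
noncomputable def D : Finset (Finset V) := Dset c.E

/-- number of chosen edges at `y` inside `S` -/
noncomputable def t (y : V) (S : Finset V) : ℕ := ((c.tri y).filter (fun e => e ⊆ S)).card

/-- `S` is critical for `p` -/
def crit (S : Finset V) (p : V) : Prop := S ∈ c.D ∧ p ∈ S ∧ S.erase p ∉ c.D

/-- six times the weight of `p` -/
noncomputable def cost (p : V) : ℕ := if isW c.E p then 12 else if isR c.E p then 6 else 0

/-- six times the capacity of the slot `(w, T)` -/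
noncomputable def cap (w : V) (T : Finset V) : ℕ :=
  if isW c.E w then
    (if w ∈ T then 24 - 8 * c.t w T else if insert w T ∈ c.D then 0 else 12)
  else if isR c.E w then
    (if w ∈ T then (if (c.tri w).card = 3 then 12 - 4 * c.t w T else 12 - 6 * c.t w T)
      else if insert w T ∈ c.D then 0 else 6)
  else 0

/-! ### classes of critical pairs `(S, p)` -/

/-- class M2 -/
def cM2 (S : Finset V) (p : V) : Prop := ∃ v, isC c.E v ∧ dep c.E S v p ∧ S.erase v ∈ c.D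

/-- class U4 -/
def cU4 (S : Finset V) (p : V) : Prop :=
  ∃ v, isC c.E v ∧ dep c.E S v p ∧ (∀ u, Dm c.E u v → u ∉ S) ∧ insert (c.rep v) S ∉ c.D

/-- the pair condition of class II -/
def pairP (S : Finset V) (p v z : V) : Prop :=
  isC c.E v ∧ isC c.E z ∧ dep c.E S v p ∧ dep c.E S v z ∧ dep c.E S z p ∧ dep c.E S z v ∧
    p ∈ S ∧ ¬ dep c.E S p v

/-- sources of rule II1 (charged to `(rep v, insert (rep z) (S.erase v))`) -/
def srcII1 (S : Finset V) (p v z : V) : Prop :=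
  S ∈ c.D ∧ isR c.E p ∧ c.pairP S p v z ∧ (∀ u, Dm c.E u v → u ∉ S) ∧ (∀ u, Dm c.E u z → u ∉ S) ∧
    insert (c.rep z) (S.erase v) ∈ c.D

/-- sources of rule II3 (charged to `(rep v, insert (rep v) S)`) -/
def srcII3 (S : Finset V) (p v z : V) : Prop :=
  S ∈ c.D ∧ isR c.E p ∧ c.pairP S p v z ∧ (∀ u, Dm c.E u v → u ∉ S) ∧
    insert (c.rep v) S ∈ c.D ∧ at' c.E (insert (c.rep v) S) (c.rep v) = {{c.rep v, v, z}}

/-- the pair `(S, p)` has been reduced : none of M2, U4, II, R1 applies -/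
def red (S : Finset V) (p : V) : Prop :=
  ¬ c.cM2 S p ∧ ¬ c.cU4 S p ∧ (¬ ∃ v z, c.pairP S p v z) ∧ ¬ ∃ u, isW c.E u ∧ dep c.E S u p

/-- rule ias : `y ∈ R` and the centre `v` are mutually dependent, `v` is the only dependent vertex -/
def ias (S : Finset V) (y v : V) : Prop :=
  S ∈ c.D ∧ isR c.E y ∧ isC c.E v ∧ dep c.E S y v ∧ dep c.E S v y ∧ (∀ x, dep c.E S x y → x = v) ∧
    (∀ u, Dm c.E u v → u ∉ S) ∧ insert (c.rep v) (S.erase y) ∈ c.D

/-- rule ib : isolated edge with two centres -/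
def ib (S : Finset V) (y : V) : Prop :=
  S ∈ c.D ∧ isR c.E y ∧ ∃ v v', isC c.E v ∧ isC c.E v' ∧ v ≠ v' ∧ at' c.E S y = {{y, v, v'}}

/-- rule A : `ctr p` is the only vertex depending on `p ∈ W` -/
def clA (S : Finset V) (p : V) : Prop :=
  isW c.E p ∧ S ∈ c.D ∧ p ∈ S ∧ c.ctr p ∈ S ∧ (S.erase p).erase (c.ctr p) ∈ c.D ∧
    insert (c.ctr p) ((S.erase p).erase (c.ctr p)) ∉ c.D

/-- rule SW -/
def clSW (S : Finset V) (p : V) : Prop :=
  isW c.E p ∧ S ∈ c.D ∧ S.erase p ∉ c.D ∧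
    ∃ z, isC c.E z ∧ z ≠ c.ctr p ∧ at' c.E S p = {{p, c.ctr p, z}}

/-- rule IAW -/
def clIAW (S : Finset V) (p : V) : Prop :=
  isR c.E p ∧ S ∈ c.D ∧ ∃ v, isC c.E v ∧ c.rep v ∉ S ∧ insert (c.rep v) S ∈ c.D ∧
    at' c.E (insert (c.rep v) S) (c.rep v) = {{c.rep v, v, p}}

/-- pairs paid by `R` -/
def clR (S : Finset V) (p : V) : Prop :=
  c.crit S p ∧ c.red S p ∧ (isW c.E p ∨ isR c.E p) ∧ ∃ y, isR c.E y ∧ dep c.E S y p

/-- pairs paid by `p ∈ R` itself -/
def clSelf (S : Finset V) (p : V) : Prop := (∃ v, c.ias S p v) ∨ c.ib S p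

/-- self payment of `y ∈ R` -/
noncomputable def self (y : V) (S : Finset V) : ℕ :=
  if (∃ v, c.ias S y v) ∨ c.ib S y then 6 else 0

/-! ### loads of the slots `(w, T)`, `w ∈ W` -/

noncomputable def ldM2 (w : V) (T : Finset V) : ℕ :=
  if c.rep (c.ctr w) = w ∧ c.ctr w ∉ T ∧ insert (c.ctr w) T ∈ c.D then
    ∑ p ∈ univ.filter (fun p => dep c.E (insert (c.ctr w) T) (c.ctr w) p), c.cost p else 0

noncomputable def ldU4 (w : V) (T : Finset V) : ℕ :=
  if c.ctr w ∈ T ∧ (∀ u, Dm c.E u (c.ctr w) → u ∉ T) ∧ insert w T ∉ c.D then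
    ∑ p ∈ univ.filter (fun p => dep c.E T (c.ctr w) p), c.cost p else 0

noncomputable def ldII1 (w : V) (T : Finset V) : ℕ :=
  6 * (univ.filter (fun p : V => c.rep (c.ctr w) = w ∧
    ∃ S z, c.srcII1 S p (c.ctr w) z ∧ T = insert (c.rep z) (S.erase (c.ctr w)))).card

noncomputable def ldII3 (w : V) (T : Finset V) : ℕ :=
  6 * (univ.filter (fun p : V => c.rep (c.ctr w) = w ∧
    ∃ S z, c.srcII3 S p (c.ctr w) z ∧ T = insert w S)).card

noncomputable def ldR1 (w : V) (T : Finset V) : ℕ :=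
  ∑ p ∈ univ.filter (fun p => dep c.E T w p), c.cost p

noncomputable def ldA (w : V) (T : Finset V) : ℕ :=
  if c.ctr w ∉ T ∧ insert (c.ctr w) T ∉ c.D then 12 else 0

noncomputable def ldSW (w : V) (T : Finset V) : ℕ :=
  if T.erase w ∉ c.D ∧ ∃ z, isC c.E z ∧ z ≠ c.ctr w ∧ at' c.E T w = {{w, c.ctr w, z}} then 12 else 0

noncomputable def ldIAW (w : V) (T : Finset V) : ℕ :=
  6 * (univ.filter (fun p : V => isR c.E p ∧ T.erase w ∈ c.D ∧ at' c.E T w = {{w, c.ctr w, p}})).card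

noncomputable def ldPart (w : V) (T : Finset V) : ℕ :=
  if T.erase w ∉ c.D ∧ ∃ y, isR c.E y ∧ at' c.E T w = {{w, c.ctr w, y}} then 4 else 0

/-- total load of a `W`-slot -/
noncomputable def ldW (w : V) (T : Finset V) : ℕ :=
  c.ldM2 w T + c.ldU4 w T + c.ldII1 w T + c.ldII3 w T + c.ldR1 w T + c.ldA w T + c.ldSW w T +
    c.ldIAW w T + c.ldPart w T

/-! ### loads of the slots `(y, S)`, `y ∈ R` -/

/-- `y` is the only dependent vertex in `R` -/
def uniq (y : V) (S : Finset V) (p : V) : Prop := ∀ x, isR c.E x → dep c.E S x p → x = y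

/-- payment of `y ∈ R` for `(S, p)` -/
noncomputable def om (y : V) (S : Finset V) (p : V) : ℕ :=
  if dep c.E S y p ∧ c.crit S p ∧ c.red S p then
    (if isR c.E p then (if c.uniq y S p then 6 else 3)
     else if isW c.E p then
       (if c.uniq y S p then (if (at' c.E S p).card = 1 then 8 else 12) else 6)
     else 0)
  else 0

/-- total load of an `R`-slot -/
noncomputable def ldR (y : V) (S : Finset V) : ℕ := (∑ p, c.om y S p) + c.self y S

/-! ### clusters -/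

/-- `X` is a member of `D` not containing `y` to which `y` cannot be added -/
def isU (y : V) (X : Finset V) : Prop := X ∈ c.D ∧ y ∉ X ∧ insert y X ∉ c.D

/-- O-active edge -/
def OA (y : V) (X : Finset V) (e : Finset V) : Prop :=
  c.isU y X ∧ e ∈ c.tri y ∧ at' c.E (X ∪ e) y = {e} ∧
    ∃ a x, a ∉ X ∧ a ≠ y ∧ ¬ isW c.E a ∧ x ∈ X ∧ isR c.E x ∧ e = {y, a, x}

/-- W-active edge -/
def WA (y : V) (X : Finset V) (e : Finset V) : Prop :=
  c.isU y X ∧ e ∈ c.tri y ∧ at' c.E (X ∪ e) y = {e} ∧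
    ∃ w, isW c.E w ∧ w ∉ X ∧ e = {y, w, c.ctr w} ∧
      (c.ctr w ∈ X ∨ ∀ f ∈ c.E, c.ctr w ∈ f → f ⊆ X ∪ e → w ∈ f)

/-- double vertex -/
def DA (y : V) (X : Finset V) (p : V) : Prop :=
  c.isU y X ∧ isR c.E p ∧ p ∉ X ∧ p ≠ y ∧
    ∃ e ∈ c.tri y, ∃ f ∈ c.tri y, e ≠ f ∧ p ∈ e ∧ p ∈ f ∧ e ⊆ insert y (insert p X) ∧
      f ⊆ insert y (insert p X)

/-- `(y, S)` asks two units from `(y, insert (rep v) S)` -/
def S1src (y : V) (S : Finset V) (v : V) : Prop :=
  c.ias S y v ∧ ((∃ s, isR c.E s ∧ s ≠ y ∧ at' c.E S y = {{y, v, s}} ∧ ({y, v, s} : Finset V) ∈ c.tri y) ∨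
    (2 ≤ (at' c.E S y).card ∧ c.t y S = 2))

/-- `(y, T)` gives two units -/
def S1img (y : V) (T : Finset V) : Prop := ∃ S v, c.S1src y S v ∧ T = insert (c.rep v) S

/-- states with four free units -/
def T2 (y : V) (T : Finset V) : Prop :=
  T ∈ c.D ∧ y ∈ T ∧ c.t y T = 2 ∧ ∃ e ∈ c.tri y, ∃ f ∈ c.tri y, e ≠ f ∧ e ⊆ T ∧ f ⊆ T ∧
    ((∀ x ∈ e, x ∈ f → x = y) ∨
     (∃ w x, isW c.E w ∧ e = {y, w, c.ctr w} ∧ f = {y, c.ctr w, x} ∧ (isC c.E x ∨ isW c.E x)))

/-- `T` is used by the cluster of `X` -/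
def Use (y : V) (X T : Finset V) : Prop :=
  c.t y T = 2 ∧
  ((∃ e f, e ≠ f ∧ c.WA y X e ∧ (c.WA y X f ∨ c.OA y X f) ∧ T = X ∪ e ∪ f) ∨
   (∃ w w', isW c.E w ∧ isW c.E w' ∧ c.WA y X {y, w, c.ctr w} ∧ c.WA y X {y, w', c.ctr w'} ∧
      c.ctr w ≠ c.ctr w' ∧ c.ctr w ∉ X ∧ c.ctr w' ∉ X ∧
      ({y, c.ctr w, c.ctr w'} : Finset V) ∈ c.tri y ∧
      T = X ∪ {y, w, c.ctr w} ∪ {y, c.ctr w, c.ctr w'}))

/-! ### counts -/

noncomputable def nOA (y : V) (S : Finset V) : ℕ :=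
  ((univ : Finset (Finset V × Finset V)).filter (fun x => c.OA y x.1 x.2 ∧ x.1 ∪ x.2 = S)).card

noncomputable def nWA (y : V) (S : Finset V) : ℕ :=
  ((univ : Finset (Finset V × Finset V)).filter (fun x => c.WA y x.1 x.2 ∧ x.1 ∪ x.2 = S)).card

noncomputable def nDA (y : V) (S : Finset V) : ℕ :=
  ((univ : Finset (Finset V × V)).filter (fun x => c.DA y x.1 x.2 ∧ insert y (insert x.2 x.1) = S)).card

noncomputable def nS1 (y : V) (S : Finset V) : ℕ := if ∃ v, c.S1src y S v then 1 else 0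
noncomputable def nImg (y : V) (S : Finset V) : ℕ := if c.S1img y S then 1 else 0
noncomputable def nT2 (y : V) (S : Finset V) : ℕ := if c.T2 y S then 1 else 0

noncomputable def oX (y : V) (X : Finset V) : ℕ := ((c.tri y).filter (fun e => c.OA y X e)).card
noncomputable def aX (y : V) (X : Finset V) : ℕ := ((c.tri y).filter (fun e => c.WA y X e)).card
noncomputable def dX (y : V) (X : Finset V) : ℕ := (univ.filter (fun p => c.DA y X p)).card
noncomputable def uX (y : V) (X : Finset V) : ℕ := (c.D.filter (fun T => c.Use y X T)).card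

/-- the vertices of `W`, of `R` -/
noncomputable def Ws : Finset V := univ.filter (fun w => isW c.E w)
noncomputable def Rs : Finset V := univ.filter (fun w => isR c.E w)

/-- the pairs `(S, p)`, `S ∈ D` -/
noncomputable def Pr : Finset (Finset V × V) := c.D ×ˢ univ

end Ctx
end H70G3
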