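import Pool.Agent.H70.G3.Basic

/-!
# Row IIU : the source of rule II1 is determined by its slot

PROOF. Write S_i, z_i, p_i, v.  From `srcII1`: S_i ∈ D, isR p_i, isC v, isC z_i, dep S_i v p_i, dep S_i v z_i, no u with
Dm u z_i lies in S_i; p_i ≠ z_i (R and C are disjoint, `ne_of_R_C`), v ≠ p_i, v ≠ z_i (part of dep).
By `at_unique` (S_i ∈ D, dep S_i v p_i, dep S_i v z_i): at' E S_i v = {e_i}, e_i = {v, p_i, z_i}.
v ∈ S_i, so insert v (insert (rep z_i) (S_i.erase v)) = insert (rep z_i) S_i; hence M := insert (rep z_1) S_1 = insert (rep z_2) S_2.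
rep z_i ∉ S_i (rep_Dm).
(a) rep z_1 = rep z_2: apply ctr (`ctr_rep`): z_1 = z_2; S_1 = M.erase (rep z_1) = S_2; then {v,p_1,z_1} = {v,p_2,z_2} gives p_1 ∈ {v,p_2,z_2},
p_1 ≠ v, z_2 so p_1 = p_2.
(b) rep z_1 ≠ rep z_2: e_1 ⊆ S_1 ⊆ M and rep z_2 ∉ e_1 (rep z_2 ∈ W; v, z_1 ∈ C, p_1 ∈ R), so e_1 ⊆ M.erase (rep z_2) = S_2, so
e_1 ∈ at' E S_2 v = {e_2}, e_1 = e_2, z_1 ∈ {v, p_2, z_2}, z_1 ≠ v, z_1 ≠ p_2 (C, R disjoint), so z_1 = z_2, contradiction.
-/

open Finset Classical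

universe u

namespace H70G3
namespace Ctx
variable {V : Type u} [Fintype V] [DecidableEq V] (c : Ctx V)

theorem srcII1_unique {S1 S2 : Finset V} {p1 p2 v z1 z2 : V} (h1 : c.srcII1 S1 p1 v z1)
    (h2 : c.srcII1 S2 p2 v z2)
    (hT : insert (c.rep z1) (S1.erase v) = insert (c.rep z2) (S2.erase v)) :
    S1 = S2 ∧ p1 = p2 ∧ z1 = z2 := by
  obtain ⟨hD1, hR1, ⟨hvC, hz1C, hvp1, hvz1, hz1p, hz1v, hp1S, -⟩, hv1, hu1, -⟩ := h1
  obtain ⟨hD2, hR2, ⟨-, hz2C, hvp2, hvz2, hz2p, hz2v, hp2S, -⟩, hv2, hu2, -⟩ := h2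
  have hpz1 : p1 ≠ z1 := c.ne_of_R_C hR1 hz1C
  have hpz2 : p2 ≠ z2 := c.ne_of_R_C hR2 hz2C
  have e1 := c.at_unique hD1 hvp1 hvz1 hpz1
  have e2 := c.at_unique hD2 hvp2 hvz2 hpz2
  have hr1 : c.rep z1 ∉ S1 := hu1 _ (c.rep_Dm hz1C)
  have hr2 : c.rep z2 ∉ S2 := hu2 _ (c.rep_Dm hz2C)
  have hvS1 : v ∈ S1 := hvp1.1
  have hvS2 : v ∈ S2 := hvp2.1
  have hM : insert (c.rep z1) S1 = insert (c.rep z2) S2 := by
    have h : insert v (insert (c.rep z1) (S1.erase v)) =
        insert v (insert (c.rep z2) (S2.erase v)) := by rw [hT]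
    rw [Finset.insert_comm, insert_erase hvS1, Finset.insert_comm, insert_erase hvS2] at h
    exact h
  by_cases hr : c.rep z1 = c.rep z2
  · have hz : z1 = z2 := by rw [← c.ctr_rep hz1C, hr, c.ctr_rep hz2C]
    subst hz
    have hS : S1 = S2 := by
      have h := congrArg (fun T => T.erase (c.rep z1)) hM
      simp only [erase_insert hr1, erase_insert hr2] at h
      exact h
    subst hS
    refine ⟨rfl, ?_, rfl⟩
    rw [e1, singleton_inj] at e2
    have h : p1 ∈ ({v, p2, z1} : Finset V) := by rw [← e2]; simp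
    simp only [mem_insert, mem_singleton] at h
    rcases h with h | h | h
    · exact absurd h.symm hvp1.2.1
    · exact h
    · exact absurd h hpz1
  · exfalso
    have hm1 : ({v, p1, z1} : Finset V) ∈ at' c.E S1 v := by rw [e1]; simp
    rw [c.mem_at] at hm1
    have hrW := c.rep_isW hz2C
    have hsub : ({v, p1, z1} : Finset V) ⊆ S2 := by
      intro x hx
      have hxM : x ∈ insert (c.rep z2) S2 := by rw [← hM]; exact mem_insert_of_mem (hm1.2.2 hx)
      rcases mem_insert.1 hxM with h | h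
      · exfalso
        simp only [mem_insert, mem_singleton] at hx
        rcases hx with hx | hx | hx
        · rw [h] at hx; exact c.ne_of_W_C hrW hvC hx
        · rw [h] at hx; exact c.ne_of_R_W hR1 hrW hx.symm
        · rw [h] at hx; exact c.ne_of_W_C hrW hz1C hx
      · exact h
    have hm2 : ({v, p1, z1} : Finset V) ∈ at' c.E S2 v := by
      rw [c.mem_at]; exact ⟨hm1.1, hm1.2.1, hsub⟩
    rw [e2, mem_singleton] at hm2
    have h : z1 ∈ ({v, p2, z2} : Finset V) := by rw [← hm2]; simp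
    simp only [mem_insert, mem_singleton] at h
    rcases h with h | h | h
    · exact hvz1.2.1 h.symm
    · exact c.ne_of_R_C hR2 hz1C h.symm
    · exact hr (by rw [h])

end Ctx
end H70G3
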