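import Pool.Agent.H70.G3.Defs

/-!
# MP_75f39d_G3 : the family side, definitions
-/

open Finset Classical

universe u

namespace H70G3
variable {α : Type u} [DecidableEq α]

/-- union-closed -/
def UC (A : Finset (Finset α)) : Prop := ∀ X ∈ A, ∀ Y ∈ A, X ∪ Y ∈ A

/-- separating -/
def Sep (A : Finset (Finset α)) : Prop :=
  ∀ x ∈ A.sup id, ∀ y ∈ A.sup id, x ≠ y → ∃ S ∈ A, (x ∈ S ∧ y ∉ S) ∨ (y ∈ S ∧ x ∉ S)

/-- join-irreducible member -/
def JI (A : Finset (Finset α)) (G : Finset α) : Prop :=
  G ≠ ∅ ∧ ∀ B ∈ A, ∀ C ∈ A, B ∪ C = G → B = G ∨ C = G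

/-- the set of join-irreducible members -/
noncomputable def J (A : Finset (Finset α)) : Finset (Finset α) := A.filter (fun G => JI A G)

/-- the join-irreducible members containing `x` -/
noncomputable def g (A : Finset (Finset α)) (x : α) : Finset {G // G ∈ J A} :=
  univ.filter (fun G => x ∈ G.1)

/-- the hypergraph of a family -/
noncomputable def EE (A : Finset (Finset α)) : Finset (Finset {G // G ∈ J A}) :=
  (A.sup id).image (g A)

/-- the join-irreducible members not contained in `B` -/
noncomputable def phi (A : Finset (Finset α)) (B : Finset α) : Finset {G // G ∈ J A} :=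
  univ.filter (fun G => ¬ G.1 ⊆ B)

end H70G3
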