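import Pool.Agent.H70.G3.JDefs

/-!
# Row Ja : join-irreducible members generate

exists_J: strong induction on card B.  x ∈ B so B ≠ ∅.  If B is JI take G = B.  Otherwise there are C1, C2 ∈ A with C1 ∪ C2 = B, C1 ≠ B, C2 ≠ B; so C1, C2 ⊂ B have smaller
 cardinality and x is in one of them: induction.
sup_mem: F ⊆ A, ∅ ∈ A, union-closed: induction on F (Finset.sup_induction or Finset.induction).
JI_mem: G JI, F ⊆ A with F.sup id = G ⇒ G ∈ F: induction on F: F = insert C F': C ∪ F'.sup id = G with C, F'.sup id ∈ A (sup_mem): C = G or F'.sup id = G; F = ∅: G = ∅ no.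
-/

open Finset Classical

universe u

namespace H70G3
variable {α : Type u} [DecidableEq α]

theorem exists_J {A : Finset (Finset α)} (hU : UC A) {B : Finset α} (hB : B ∈ A) {x : α}
    (hx : x ∈ B) : ∃ G ∈ J A, x ∈ G ∧ G ⊆ B := by
  induction hn : B.card using Nat.strong_induction_on generalizing B with
  | _ n ih =>
    by_cases hJ : JI A B
    · refine ⟨B, ?_, hx, Subset.refl _⟩
      unfold J
      rw [mem_filter]
      exact ⟨hB, hJ⟩
    · unfold JI at hJ
      rw [not_and_or] at hJ
      rcases hJ with hJ | hJ
      · rw [not_not] at hJ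
        rw [hJ] at hx
        exact absurd hx (notMem_empty x)
      · push Not at hJ
        obtain ⟨C1, hC1, C2, hC2, hU12, hne1, hne2⟩ := hJ
        have hs1 : C1 ⊆ B := by rw [← hU12]; exact subset_union_left
        have hs2 : C2 ⊆ B := by rw [← hU12]; exact subset_union_right
        have hx' := hx
        rw [← hU12, mem_union] at hx'
        rcases hx' with h | h
        · have hlt : C1.card < n := by
            rw [← hn]
            exact card_lt_card (hs1.ssubset_of_ne hne1)
          obtain ⟨G, hG, hxG, hGC⟩ := ih _ hlt hC1 h rfl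
          exact ⟨G, hG, hxG, hGC.trans hs1⟩
        · have hlt : C2.card < n := by
            rw [← hn]
            exact card_lt_card (hs2.ssubset_of_ne hne2)
          obtain ⟨G, hG, hxG, hGC⟩ := ih _ hlt hC2 h rfl
          exact ⟨G, hG, hxG, hGC.trans hs2⟩

theorem sup_mem_of_subset {A F : Finset (Finset α)} (hU : UC A) (h0 : ∅ ∈ A) (hF : F ⊆ A) :
    F.sup id ∈ A := by
  induction F using Finset.induction_on with
  | empty => rw [sup_empty]; exact h0
  | insert C F' _ ih =>
    rw [sup_insert]
    exact hU _ (hF (mem_insert_self _ _)) _ (ih ((subset_insert _ _).trans hF))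

theorem JI_mem_of_sup {A F : Finset (Finset α)} (hU : UC A) (h0 : ∅ ∈ A) (hF : F ⊆ A)
    {G : Finset α} (hG : JI A G) (h : F.sup id = G) : G ∈ F := by
  induction F using Finset.induction_on with
  | empty =>
    rw [sup_empty] at h
    exact absurd h.symm hG.1
  | insert C F' _ ih =>
    rw [sup_insert] at h
    have hF' : F' ⊆ A := (subset_insert _ _).trans hF
    rcases hG.2 C (hF (mem_insert_self _ _)) _ (sup_mem_of_subset hU h0 hF') h with h1 | h1
    · rw [← h1]; exact mem_insert_self _ _
    · exact mem_insert_of_mem (ih hF' h1)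

end H70G3
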