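import Pool.Agent.H70.G3.Ja

/-!
# Row Jb : the dual family

B ↦ phi A B is a bijection from A onto Dset (EE A), and for B ∈ A, x ∈ A.sup id: x ∉ B ↔ g A x ⊆ phi A B.
(1) phi A B ∈ Dset: G ∈ phi: there is x ∈ G.1, x ∉ B; x ∈ A.sup id; e := g A x ∈ EE A, G ∈ e, e ⊆ phi A B (x ∈ G', x ∉ B ⇒ ¬ G' ⊆ B).
(2) injective: B = union of the G ∈ J A with G ⊆ B (`exists_J`), so phi A B = phi A B' ⇒ the same G are contained ⇒ B ⊆ B' and B' ⊆ B.
(3) surjective: S ∈ Dset (EE A): B := ((univ.filter (fun G => G ∉ S)).image Subtype.val).sup id ∈ A (`sup_mem_of_subset`; J A ⊆ A).  phi A B = S: G ∉ S ⇒ G.1 ⊆ B ⇒ G ∉ phi.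
    G ∈ S ⇒ there is x with G ∈ g A x ⊆ S; x ∉ G' for all G' ∉ S, so x ∉ B, x ∈ G.1: G ∈ phi.
(4) x ∉ B ⇒ g A x ⊆ phi A B clear; x ∈ B ⇒ there is G ∈ J A, x ∈ G ⊆ B (`exists_J`): G ∈ g A x, G ∉ phi A B.
card_D from (1)-(3) (card_bij); card_sup from (4) in addition.
g_inj: x ≠ y in A.sup id, S ∈ A separates, say x ∈ S, y ∉ S: G ∈ J A with x ∈ G ⊆ S, so G ∈ g A x, G ∉ g A y.
-/

open Finset Classical

universe u

namespace H70G3
variable {α : Type u} [DecidableEq α]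

private lemma Jb_mem_phi {A : Finset (Finset α)} {B : Finset α} {G : {G // G ∈ J A}} :
    G ∈ phi A B ↔ ¬ G.1 ⊆ B := by
  unfold phi
  rw [mem_filter]
  exact ⟨fun h => h.2, fun h => ⟨mem_univ _, h⟩⟩

private lemma Jb_mem_g {A : Finset (Finset α)} {x : α} {G : {G // G ∈ J A}} :
    G ∈ g A x ↔ x ∈ G.1 := by
  unfold g
  rw [mem_filter]
  exact ⟨fun h => h.2, fun h => ⟨mem_univ _, h⟩⟩

private lemma Jb_J_sub {A : Finset (Finset α)} {G : Finset α} (h : G ∈ J A) : G ∈ A :=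
  (mem_filter.1 h).1

private lemma Jb_mem_sup {A : Finset (Finset α)} {G : Finset α} (h : G ∈ A) {x : α} (hx : x ∈ G) :
    x ∈ A.sup id := by
  rw [Finset.mem_sup]
  exact ⟨G, h, hx⟩

private lemma Jb_phi_mem (A : Finset (Finset α)) (B : Finset α) : phi A B ∈ Dset (EE A) := by
  unfold Dset
  rw [mem_filter]
  refine ⟨mem_univ _, ?_⟩
  intro G hG
  rw [Jb_mem_phi, not_subset] at hG
  obtain ⟨x, hx, hxB⟩ := hG
  refine ⟨g A x, ?_, Jb_mem_g.2 hx, ?_⟩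
  · unfold EE
    rw [mem_image]
    exact ⟨x, Jb_mem_sup (Jb_J_sub G.2) hx, rfl⟩
  · intro G' hG'
    rw [Jb_mem_g] at hG'
    rw [Jb_mem_phi]
    intro h
    exact hxB (h hG')

private lemma Jb_phi_sub {A : Finset (Finset α)} (hU : UC A) {B B' : Finset α} (hB : B ∈ A)
    (h : phi A B = phi A B') : B ⊆ B' := by
  intro x hx
  obtain ⟨G, hG, hxG, hGB⟩ := exists_J hU hB hx
  have h1 : (⟨G, hG⟩ : {G // G ∈ J A}) ∉ phi A B := by
    rw [Jb_mem_phi, not_not]; exact hGB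
  rw [h, Jb_mem_phi, not_not] at h1
  exact h1 hxG

private lemma Jb_phi_inj {A : Finset (Finset α)} (hU : UC A) {B B' : Finset α} (hB : B ∈ A)
    (hB' : B' ∈ A) (h : phi A B = phi A B') : B = B' :=
  Subset.antisymm (Jb_phi_sub hU hB h) (Jb_phi_sub hU hB' h.symm)

private lemma Jb_phi_surj {A : Finset (Finset α)} (hU : UC A) (h0 : ∅ ∈ A)
    {S : Finset {G // G ∈ J A}} (hS : S ∈ Dset (EE A)) : ∃ B ∈ A, phi A B = S := by
  unfold Dset at hS
  rw [mem_filter] at hS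
  obtain ⟨_, hS⟩ := hS
  obtain ⟨B, hB⟩ : ∃ B, B = (((univ : Finset {G // G ∈ J A}).filter (fun G => G ∉ S)).image
    Subtype.val).sup id := ⟨_, rfl⟩
  have hmem : ∀ x, x ∈ B ↔ ∃ G : {G // G ∈ J A}, G ∉ S ∧ x ∈ G.1 := by
    intro x
    rw [hB, Finset.mem_sup]
    constructor
    · rintro ⟨G, hG, hx⟩
      rw [mem_image] at hG
      obtain ⟨G', hG', rfl⟩ := hG
      exact ⟨G', (mem_filter.1 hG').2, hx⟩
    · rintro ⟨G, hG, hx⟩
      exact ⟨G.1, mem_image.2 ⟨G, mem_filter.2 ⟨mem_univ _, hG⟩, rfl⟩, hx⟩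
  refine ⟨B, ?_, ?_⟩
  · rw [hB]
    apply sup_mem_of_subset hU h0
    intro G hG
    rw [mem_image] at hG
    obtain ⟨G', _, rfl⟩ := hG
    exact Jb_J_sub G'.2
  · ext G
    rw [Jb_mem_phi]
    constructor
    · intro h
      by_contra hGS
      apply h
      intro x hx
      rw [hmem]
      exact ⟨G, hGS, hx⟩
    · intro hG h
      obtain ⟨e, he, hGe, heS⟩ := hS G hG
      unfold EE at he
      rw [mem_image] at he
      obtain ⟨x, _, rfl⟩ := he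
      rw [Jb_mem_g] at hGe
      obtain ⟨G', hG', hx⟩ := (hmem x).1 (h hGe)
      exact hG' (heS (Jb_mem_g.2 hx))

theorem card_D {A : Finset (Finset α)} (hU : UC A) (h0 : ∅ ∈ A) :
    (Dset (EE A)).card = A.card := by
  symm
  refine Finset.card_bij (fun B _ => phi A B) ?_ ?_ ?_
  · intro B _
    exact Jb_phi_mem A B
  · intro B hB B' hB' h
    exact Jb_phi_inj hU hB hB' h
  · intro S hS
    obtain ⟨B, hB, h⟩ := Jb_phi_surj hU h0 hS
    exact ⟨B, hB, h⟩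

theorem card_sup {A : Finset (Finset α)} (hU : UC A) (h0 : ∅ ∈ A) {x : α} (hx : x ∈ A.sup id) :
    ((Dset (EE A)).filter (fun S => g A x ⊆ S)).card = (A.filter (fun B => x ∉ B)).card := by
  symm
  refine Finset.card_bij (fun B _ => phi A B) ?_ ?_ ?_
  · intro B hB
    rw [mem_filter] at hB ⊢
    refine ⟨Jb_phi_mem A B, ?_⟩
    intro G hG
    rw [Jb_mem_g] at hG
    rw [Jb_mem_phi]
    intro h
    exact hB.2 (h hG)
  · intro B hB B' hB' h
    exact Jb_phi_inj hU (mem_filter.1 hB).1 (mem_filter.1 hB').1 h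
  · intro S hS
    rw [mem_filter] at hS
    obtain ⟨B, hB, h⟩ := Jb_phi_surj hU h0 hS.1
    refine ⟨B, ?_, h⟩
    rw [mem_filter]
    refine ⟨hB, ?_⟩
    intro hxB
    obtain ⟨G, hG, hxG, hGB⟩ := exists_J hU hB hxB
    have h1 : (⟨G, hG⟩ : {G // G ∈ J A}) ∈ S := hS.2 (Jb_mem_g.2 hxG)
    rw [← h, Jb_mem_phi] at h1
    exact h1 hGB

theorem g_inj {A : Finset (Finset α)} (hU : UC A) (hs : Sep A) {x y : α} (hx : x ∈ A.sup id)
    (hy : y ∈ A.sup id) (h : g A x = g A y) : x = y := by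
  by_contra hne
  obtain ⟨S, hS, h1 | h1⟩ := hs x hx y hy hne
  · obtain ⟨G, hG, hxG, hGB⟩ := exists_J hU hS h1.1
    have h2 : (⟨G, hG⟩ : {G // G ∈ J A}) ∈ g A x := Jb_mem_g.2 hxG
    rw [h, Jb_mem_g] at h2
    exact h1.2 (hGB h2)
  · obtain ⟨G, hG, hxG, hGB⟩ := exists_J hU hS h1.1
    have h2 : (⟨G, hG⟩ : {G // G ∈ J A}) ∈ g A y := Jb_mem_g.2 hxG
    rw [← h, Jb_mem_g] at h2
    exact h1.2 (hGB h2)

end H70G3
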