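import Pool.Agent.H70.G3.Jb

/-!
# Row Jc : domination in the hypergraph of a family

cov_EE: G ∈ J A, G.1 ≠ ∅, x ∈ G.1 ∈ A, so x ∈ A.sup id, G ∈ g A x.
Dm_iff: (⇐) G.1 ⊂ G'.1: G ≠ G'; an edge at G is g A x with x ∈ G.1 ⊆ G'.1.  (⇒) x ∈ G.1 ⇒ x ∈ A.sup id, g A x ∈ EE A contains G so contains G': x ∈ G'.1; so G.1 ⊆ G'.1, and ≠.
uniq_EE: G1.1 ⊂ G2.1, G1.1 ⊂ G3.1, G2 ≠ G3.  For every x ∈ G1.1: G1, G2, G3 ∈ g A x (three different), card ≤ 3 (h3: card (g A x) = card ((J A).filter (x ∈ ·))), so g A x = {G1,G2,G3}.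
  By g_inj G1.1 has exactly one element x: {x} ∈ A, excluded by hns.
acyc_EE: Dm G1 G2, Dm G2 G3: G1 ⊂ G2 ⊂ G3, so Dm G1 G3 as well and G2 ≠ G3: uniq_EE.
card_le_EE: card (g A x) = card ((J A).filter (fun G => x ∈ G)) ≤ 3 (the map Subtype.val).
-/

open Finset Classical

universe u

namespace H70G3
variable {α : Type u} [DecidableEq α]

theorem Jc_mem {A : Finset (Finset α)} (G : {G // G ∈ J A}) : G.1 ∈ A ∧ JI A G.1 := by
  have hG := G.2
  unfold J at hG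
  rw [Finset.mem_filter] at hG
  exact hG

theorem Jc_sup {A : Finset (Finset α)} (G : {G // G ∈ J A}) {x : α} (hx : x ∈ G.1) :
    x ∈ A.sup id := Finset.mem_sup.2 ⟨G.1, (Jc_mem G).1, hx⟩

theorem Jc_g {A : Finset (Finset α)} (G : {G // G ∈ J A}) (x : α) : G ∈ g A x ↔ x ∈ G.1 := by
  unfold g
  rw [Finset.mem_filter]
  exact ⟨fun h => h.2, fun h => ⟨Finset.mem_univ _, h⟩⟩

theorem Jc_edge {A : Finset (Finset α)} {x : α} (hx : x ∈ A.sup id) : g A x ∈ EE A :=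
  Finset.mem_image_of_mem _ hx

theorem cov_EE {A : Finset (Finset α)} (G : {G // G ∈ J A}) : ∃ e ∈ EE A, G ∈ e := by
  obtain ⟨x, hx⟩ := Finset.nonempty_iff_ne_empty.2 (Jc_mem G).2.1
  exact ⟨g A x, Jc_edge (Jc_sup G hx), (Jc_g G x).2 hx⟩

theorem Jc_card {A : Finset (Finset α)}
    (h3 : ∀ x ∈ A.sup id, ((J A).filter (fun G => x ∈ G)).card ≤ 3) {x : α}
    (hx : x ∈ A.sup id) : (g A x).card ≤ 3 := by
  refine le_trans ?_ (h3 x hx)
  apply Finset.card_le_card_of_injOn (fun G => G.1)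
  · intro G hG
    have h1 := (Jc_g G x).1 hG
    exact Finset.mem_filter.2 ⟨G.2, h1⟩
  · intro G _ G' _ h
    exact Subtype.ext h

theorem card_le_EE {A : Finset (Finset α)}
    (h3 : ∀ x ∈ A.sup id, ((J A).filter (fun G => x ∈ G)).card ≤ 3) :
    ∀ e ∈ EE A, e.card ≤ 3 := by
  intro e he
  unfold EE at he
  obtain ⟨x, hx, rfl⟩ := Finset.mem_image.1 he
  exact Jc_card h3 hx

theorem Dm_iff {A : Finset (Finset α)} (G G' : {G // G ∈ J A}) :
    Dm (EE A) G G' ↔ G.1 ⊂ G'.1 := by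
  constructor
  · intro h
    have hsub : G.1 ⊆ G'.1 := by
      intro x hx
      have h1 := h.2 (g A x) (Jc_edge (Jc_sup G hx)) ((Jc_g G x).2 hx)
      exact (Jc_g G' x).1 h1
    refine Finset.ssubset_iff_subset_ne.2 ⟨hsub, fun h2 => h.1 (Subtype.ext h2)⟩
  · intro h
    refine ⟨fun h2 => ?_, fun e he hG => ?_⟩
    · rw [h2] at h
      exact (Finset.ssubset_iff_subset_ne.1 h).2 rfl
    · unfold EE at he
      obtain ⟨x, hx, rfl⟩ := Finset.mem_image.1 he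
      exact (Jc_g G' x).2 (h.1 ((Jc_g G x).1 hG))

theorem uniq_EE {A : Finset (Finset α)} (hU : UC A) (hs : Sep A)
    (h3 : ∀ x ∈ A.sup id, ((J A).filter (fun G => x ∈ G)).card ≤ 3)
    (hns : ∀ x, ({x} : Finset α) ∉ A) (G1 G2 G3 : {G // G ∈ J A})
    (h12 : Dm (EE A) G1 G2) (h13 : Dm (EE A) G1 G3) : G2 = G3 := by
  by_contra hne
  have s12 := (Dm_iff G1 G2).1 h12
  have s13 := (Dm_iff G1 G3).1 h13
  have key : ∀ x ∈ G1.1, g A x = {G1, G2, G3} := by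
    intro x hx
    have hsub : ({G1, G2, G3} : Finset {G // G ∈ J A}) ⊆ g A x := by
      intro G hG
      simp only [Finset.mem_insert, Finset.mem_singleton] at hG
      rcases hG with rfl | rfl | rfl
      · exact (Jc_g _ x).2 hx
      · exact (Jc_g _ x).2 (s12.1 hx)
      · exact (Jc_g _ x).2 (s13.1 hx)
    have hcard : ({G1, G2, G3} : Finset {G // G ∈ J A}).card = 3 :=
      Finset.card_eq_three.2 ⟨G1, G2, G3, h12.1, h13.1, hne, rfl⟩
    exact (Finset.eq_of_subset_of_card_le hsub (by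
      rw [hcard]
      exact Jc_card h3 (Jc_sup G1 hx))).symm
  obtain ⟨x, hx⟩ := Finset.nonempty_iff_ne_empty.2 (Jc_mem G1).2.1
  have h1 : G1.1 = {x} := by
    refine Finset.eq_singleton_iff_unique_mem.2 ⟨hx, fun y hy => ?_⟩
    exact g_inj hU hs (Jc_sup G1 hy) (Jc_sup G1 hx) ((key y hy).trans (key x hx).symm)
  have h2 := (Jc_mem G1).1
  rw [h1] at h2
  exact hns x h2

theorem acyc_EE {A : Finset (Finset α)} (hU : UC A) (hs : Sep A)
    (h3 : ∀ x ∈ A.sup id, ((J A).filter (fun G => x ∈ G)).card ≤ 3)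
    (hns : ∀ x, ({x} : Finset α) ∉ A) (G1 G2 G3 : {G // G ∈ J A})
    (h12 : Dm (EE A) G1 G2) : ¬ Dm (EE A) G2 G3 := by
  intro h23
  have s12 := (Dm_iff G1 G2).1 h12
  have s23 := (Dm_iff G2 G3).1 h23
  have h13 : Dm (EE A) G1 G3 := (Dm_iff G1 G3).2 (s12.trans s23)
  exact h23.1 (uniq_EE hU hs h3 hns G1 G2 G3 h12 h13)

end H70G3
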