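import Pool.Agent.H70.G3.Ja

/-!
# Row Jd : two-element members

sdiff_mem: for B ∈ A put s(B) = [x ∈ B] + [y ∈ B] - 1.  Σ_B s(B) = f(x) + f(y) - |A| ≤ 0.  N := {B : x, y ∉ B} (s = -1), P := {B : x, y ∈ B} (s = 1), otherwise s = 0.  So card P ≤ card N.
  The map B ↦ B ∪ {x,y} is injective from N to P, so card N = card P and it is onto P: every C ∈ P is B ∪ {x,y} with B ∈ N, i.e. C \ {x,y} = B ∈ A.  For arbitrary B ∈ A: B ∪ {x,y} ∈ P, so
  (B ∪ {x,y}) \ {x,y} = B \ {x,y} ∈ A.
pair_gen: G ∈ J A, G ≠ {x,y}, G meets {x,y}.  B := G \ {x,y} ∈ A.  If x, y ∈ G then G = B ∪ {x,y} with B ≠ G, {x,y} ≠ G: contradicts JI.  So exactly one of x, y is in G.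
  B ≠ ∅ (otherwise G = {x} or {y} ∈ A).  z ∈ B: `exists_J` (B ∈ A) gives G' ∈ J A, z ∈ G' ⊆ B ⊂ G.
-/

open Finset Classical

universe u

namespace H70G3
variable {α : Type u} [DecidableEq α]

theorem sdiff_mem {A : Finset (Finset α)} (hU : UC A) {x y : α} (hxy : x ≠ y)
    (hm : ({x, y} : Finset α) ∈ A) (hx : 2 * (A.filter (fun B => x ∈ B)).card ≤ A.card)
    (hy : 2 * (A.filter (fun B => y ∈ B)).card ≤ A.card) : ∀ B ∈ A, B \ {x, y} ∈ A := by
  obtain ⟨N, hN⟩ : ∃ N : Finset (Finset α), N = A.filter (fun B => x ∉ B ∧ y ∉ B) := ⟨_, rfl⟩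
  obtain ⟨P, hP⟩ : ∃ P : Finset (Finset α), P = A.filter (fun B => x ∈ B ∧ y ∈ B) := ⟨_, rfl⟩
  have c1 : (A.filter (fun B => x ∈ B)).card =
      P.card + (A.filter (fun B => x ∈ B ∧ y ∉ B)).card := by
    rw [hP, ← filter_filter, ← filter_filter]
    exact (card_filter_add_card_filter_not (s := A.filter (fun B => x ∈ B)) (fun B => y ∈ B)).symm
  have c2 : (A.filter (fun B => x ∉ B)).card =
      (A.filter (fun B => x ∉ B ∧ y ∈ B)).card + N.card := by
    rw [hN, ← filter_filter, ← filter_filter]
    exact (card_filter_add_card_filter_not (s := A.filter (fun B => x ∉ B)) (fun B => y ∈ B)).symm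
  have c3 : (A.filter (fun B => y ∈ B)).card =
      P.card + (A.filter (fun B => x ∉ B ∧ y ∈ B)).card := by
    have h1 := card_filter_add_card_filter_not (s := A.filter (fun B => y ∈ B)) (fun B => x ∈ B)
    rw [filter_filter, filter_filter] at h1
    have h2 : A.filter (fun B => y ∈ B ∧ x ∈ B) = P := by
      rw [hP]
      exact filter_congr fun B _ => and_comm
    have h3 : A.filter (fun B => y ∈ B ∧ x ∉ B) = A.filter (fun B => x ∉ B ∧ y ∈ B) :=
      filter_congr fun B _ => and_comm
    rw [h2, h3] at h1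
    exact h1.symm
  have c4 : A.card = (A.filter (fun B => x ∈ B)).card + (A.filter (fun B => x ∉ B)).card :=
    (card_filter_add_card_filter_not (s := A) (fun B => x ∈ B)).symm
  have hle : P.card ≤ N.card := by omega
  have hinj : Set.InjOn (fun B : Finset α => B ∪ {x, y}) (N : Set (Finset α)) := by
    intro B hB C hC h
    rw [hN, mem_coe, mem_filter] at hB hC
    have hd : ∀ {B : Finset α}, x ∉ B → y ∉ B → (B ∪ {x, y}) \ {x, y} = B := by
      intro B h1 h2
      ext z
      simp only [mem_sdiff, mem_union, mem_insert, mem_singleton]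
      constructor
      · tauto
      · intro hz
        refine ⟨Or.inl hz, ?_⟩
        rintro (rfl | rfl)
        · exact h1 hz
        · exact h2 hz
    rw [← hd hB.2.1 hB.2.2, ← hd hC.2.1 hC.2.2]
    exact congrArg (fun D => D \ {x, y}) h
  have himg : N.image (fun B : Finset α => B ∪ {x, y}) ⊆ P := by
    intro C hC
    obtain ⟨B, hB, rfl⟩ := mem_image.1 hC
    rw [hN, mem_filter] at hB
    rw [hP, mem_filter]
    exact ⟨hU _ hB.1 _ hm, by simp, by simp⟩
  have heq : N.image (fun B : Finset α => B ∪ {x, y}) = P := by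
    refine eq_of_subset_of_card_le himg ?_
    rw [card_image_of_injOn hinj]
    exact hle
  intro B hB
  have hC : B ∪ {x, y} ∈ P := by
    rw [hP, mem_filter]
    exact ⟨hU _ hB _ hm, by simp, by simp⟩
  rw [← heq, mem_image] at hC
  obtain ⟨B', hB', he⟩ := hC
  rw [hN, mem_filter] at hB'
  have h1 : B \ {x, y} = B' := by
    ext z
    have h2 : z ∈ B' ∪ {x, y} ↔ z ∈ B ∪ {x, y} := by rw [he]
    simp only [mem_union, mem_insert, mem_singleton] at h2
    simp only [mem_sdiff, mem_insert, mem_singleton]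
    constructor
    · rintro ⟨h3, h4⟩
      rcases h2.2 (Or.inl h3) with h5 | h5
      · exact h5
      · exact absurd h5 h4
    · intro h3
      have h4 : ¬ (z = x ∨ z = y) := by
        rintro (rfl | rfl)
        · exact hB'.2.1 h3
        · exact hB'.2.2 h3
      rcases h2.1 (Or.inl h3) with h5 | h5
      · exact ⟨h5, h4⟩
      · exact absurd h5 h4
  rw [h1]
  exact hB'.1

theorem pair_gen {A : Finset (Finset α)} (hU : UC A) (hns : ∀ x, ({x} : Finset α) ∉ A) {x y : α}
    (hxy : x ≠ y) (hm : ({x, y} : Finset α) ∈ A)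
    (hx : 2 * (A.filter (fun B => x ∈ B)).card ≤ A.card)
    (hy : 2 * (A.filter (fun B => y ∈ B)).card ≤ A.card) {G : Finset α} (hG : G ∈ J A)
    (hne : G ≠ {x, y}) (hmeet : x ∈ G ∨ y ∈ G) :
    ¬ (x ∈ G ∧ y ∈ G) ∧ ∃ G' ∈ J A, G' ⊂ G := by
  have hGA : G ∈ A := (mem_filter.1 hG).1
  have hJI : JI A G := (mem_filter.1 hG).2
  have hB := sdiff_mem hU hxy hm hx hy G hGA
  have hboth : ¬ (x ∈ G ∧ y ∈ G) := by
    rintro ⟨h1, h2⟩
    have h3 : G \ {x, y} ∪ {x, y} = G := by
      ext z
      simp only [mem_union, mem_sdiff, mem_insert, mem_singleton]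
      constructor
      · rintro (h4 | rfl | rfl)
        · exact h4.1
        · exact h1
        · exact h2
      · intro h4
        by_cases h5 : z = x ∨ z = y
        · exact Or.inr h5
        · exact Or.inl ⟨h4, h5⟩
    rcases hJI.2 _ hB _ hm h3 with h4 | h4
    · have h5 : x ∈ G \ {x, y} := by rw [h4]; exact h1
      simp at h5
    · exact hne h4.symm
  refine ⟨hboth, ?_⟩
  have hsub : G \ {x, y} ⊆ G := sdiff_subset
  have hss : G \ {x, y} ⊂ G := by
    refine ⟨hsub, fun h => ?_⟩
    rcases hmeet with h1 | h1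
    · have := h h1
      simp at this
    · have := h h1
      simp at this
  have hne0 : (G \ {x, y}).Nonempty := by
    rw [nonempty_iff_ne_empty]
    intro h0
    have hsub2 : G ⊆ {x, y} := sdiff_eq_empty_iff_subset.1 h0
    rcases hmeet with h1 | h1
    · have h2 : y ∉ G := fun h => hboth ⟨h1, h⟩
      have h3 : G = {x} := by
        ext z
        rw [mem_singleton]
        constructor
        · intro hz
          have := hsub2 hz
          rw [mem_insert, mem_singleton] at this
          rcases this with h4 | h4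
          · exact h4
          · rw [h4] at hz
            exact absurd hz h2
        · rintro rfl
          exact h1
      exact hns x (h3 ▸ hGA)
    · have h2 : x ∉ G := fun h => hboth ⟨h, h1⟩
      have h3 : G = {y} := by
        ext z
        rw [mem_singleton]
        constructor
        · intro hz
          have := hsub2 hz
          rw [mem_insert, mem_singleton] at this
          rcases this with h4 | h4
          · rw [h4] at hz
            exact absurd hz h2
          · exact h4
        · rintro rfl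
          exact h1
      exact hns y (h3 ▸ hGA)
  obtain ⟨z, hz⟩ := hne0
  obtain ⟨G', hG', _, hG's⟩ := exists_J hU hB hz
  exact ⟨G', hG', lt_of_le_of_lt hG's hss⟩

end H70G3
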