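import Pool.Agent.H70.G3.Jc
import Pool.Agent.H70.G3.Jd

/-!
# Row Je : the degrees in the hypergraph of a family

Let w : {G // G ∈ J A}.  The edges at w are the g A x, x ∈ w.1 (x ∈ A.sup id since w.1 ∈ A), different for different x (`g_inj`): card ((EE A).filter (w ∈ ·)) = card w.1.
w.1 ≠ ∅; card w.1 ≠ 1 (hns).  card w.1 ≥ 3: left alternative.  card w.1 = 2: w.1 = {x,y}, x ≠ y, {x,y} ∈ A.  Right alternative:
 card = 2.  ¬ isW: Dm w G' means {x,y} ⊂ G'.1 (`Dm_iff`): G' ≠ {x,y} contains both x and y: contradicts `pair_gen`.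
 two different edges at w are g A x and g A y; G ∈ both means x, y ∈ G.1: by `pair_gen` G.1 = {x,y}, G = w.
 G ∈ g A x (or g A y), G ≠ w: `pair_gen` gives G' ∈ J A, G' ⊂ G.1: Dm ⟨G',_⟩ G (`Dm_iff`): isC G.
-/

open Finset Classical

universe u

namespace H70G3
variable {α : Type u} [DecidableEq α]

theorem deg_EE {A : Finset (Finset α)} (hU : UC A) (hs : Sep A)
    (hns : ∀ x, ({x} : Finset α) ∉ A)
    (hf : ∀ x ∈ A.sup id, 2 * (A.filter (fun B => x ∈ B)).card ≤ A.card)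
    (w : {G // G ∈ J A}) :
    3 ≤ ((EE A).filter (fun e => w ∈ e)).card ∨
    (¬ isW (EE A) w ∧ ((EE A).filter (fun e => w ∈ e)).card = 2 ∧
      (∀ e ∈ EE A, w ∈ e → ∀ f ∈ EE A, w ∈ f → e ≠ f → ∀ x ∈ e, x ∈ f → x = w) ∧
      (∀ e ∈ EE A, w ∈ e → ∀ x ∈ e, x ≠ w → isC (EE A) x)) := by
  have hE : (EE A).filter (fun e => w ∈ e) = w.1.image (g A) := by
    ext e
    rw [mem_filter, mem_image]
    constructor
    · rintro ⟨he, hw⟩
      unfold EE at he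
      obtain ⟨x, hx, rfl⟩ := mem_image.1 he
      exact ⟨x, (Jc_g w x).1 hw, rfl⟩
    · rintro ⟨x, hx, rfl⟩
      exact ⟨Jc_edge (Jc_sup w hx), (Jc_g w x).2 hx⟩
  have hcard : ((EE A).filter (fun e => w ∈ e)).card = w.1.card := by
    rw [hE]
    exact card_image_of_injOn (fun x hx y hy h => g_inj hU hs (Jc_sup w hx) (Jc_sup w hy) h)
  rw [hcard]
  by_cases h3 : 3 ≤ w.1.card
  · exact Or.inl h3
  right
  have hwA := (Jc_mem w).1
  have h0 : w.1.card ≠ 0 := fun h => (Jc_mem w).2.1 (card_eq_zero.1 h)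
  have h1 : w.1.card ≠ 1 := by
    intro h
    obtain ⟨x, hx⟩ := card_eq_one.1 h
    rw [hx] at hwA
    exact hns x hwA
  have h2 : w.1.card = 2 := by omega
  obtain ⟨x, y, hxy, hw⟩ := card_eq_two.1 h2
  have hxw : x ∈ w.1 := by rw [hw]; exact mem_insert_self _ _
  have hyw : y ∈ w.1 := by rw [hw]; exact mem_insert_of_mem (mem_singleton_self _)
  have hm : ({x, y} : Finset α) ∈ A := by rw [← hw]; exact hwA
  have hP : ∀ G : {G // G ∈ J A}, G ≠ w → (x ∈ G.1 ∨ y ∈ G.1) →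
      ¬ (x ∈ G.1 ∧ y ∈ G.1) ∧ ∃ G' ∈ J A, G' ⊂ G.1 := by
    intro G hne hor
    refine pair_gen hU hns hxy hm (hf x (Jc_sup w hxw)) (hf y (Jc_sup w hyw)) G.2 ?_ hor
    intro h
    exact hne (Subtype.ext (h.trans hw.symm))
  have hedge : ∀ e ∈ EE A, w ∈ e → ∃ a, (a = x ∨ a = y) ∧ e = g A a := by
    intro e he hwe
    have h4 : e ∈ (EE A).filter (fun e => w ∈ e) := mem_filter.2 ⟨he, hwe⟩
    rw [hE, mem_image] at h4
    obtain ⟨a, ha, rfl⟩ := h4
    rw [hw, mem_insert, mem_singleton] at ha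
    exact ⟨a, ha, rfl⟩
  refine ⟨?_, h2, ?_, ?_⟩
  · rintro ⟨v, hv⟩
    have h4 := (Dm_iff w v).1 hv
    exact (hP v (fun h => hv.1 h.symm) (Or.inl (h4.1 hxw))).1 ⟨h4.1 hxw, h4.1 hyw⟩
  · intro e he hwe f hf' hwf hef G hGe hGf
    by_contra hne
    obtain ⟨a, ha, rfl⟩ := hedge e he hwe
    obtain ⟨b, hb, rfl⟩ := hedge f hf' hwf
    have h4 := (Jc_g G a).1 hGe
    have h5 := (Jc_g G b).1 hGf
    have hab : a ≠ b := fun h => hef (by rw [h])
    rcases ha with rfl | rfl <;> rcases hb with rfl | rfl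
    · exact hab rfl
    · exact (hP G hne (Or.inl h4)).1 ⟨h4, h5⟩
    · exact (hP G hne (Or.inl h5)).1 ⟨h5, h4⟩
    · exact hab rfl
  · intro e he hwe G hGe hne
    obtain ⟨a, ha, rfl⟩ := hedge e he hwe
    have h4 := (Jc_g G a).1 hGe
    have h5 : x ∈ G.1 ∨ y ∈ G.1 := by
      rcases ha with rfl | rfl
      · exact Or.inl h4
      · exact Or.inr h4
    obtain ⟨G', hG', hss⟩ := (hP G hne h5).2
    exact ⟨⟨G', hG'⟩, (Dm_iff ⟨G', hG'⟩ G).2 hss⟩

end H70G3
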