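import Pool.Agent.H70.G3.Defs

/-!
# Row Jf : choosing the data

exists_triple: edges at y have at most 3 elements, at least three edges, no x ≠ y is in all of them.  Take an edge e1 at y, e1 ≠ {y} (as {y} ∉ E), e1 = {y,a} or {y,a,b}.  There is an edge e2 at y
 with a ∉ e2.  If e1 ∩ e2 = {y} take any third edge at y.  Otherwise e1 = {y,a,b}, b ∈ e2.  There is an edge e3 at y with b ∉ e3 (so e3 ≠ e1, e2).  Then {e1,e2,e3} works: a vertex x ≠ y in all three is in e1,
 so x = a (a ∉ e2) or x = b (b ∉ e3).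
exists_ctx: ctr w := the dominator if isW w, else w; rep v := some w with Dm w v if isC v, else v.  tri w := for isW w: three edges at w (huniq, hacyc: isW w ⇒ ¬ isL, ¬ isC; hdeg gives 3 ≤ card, since the right
 alternative has ¬ isW): Finset.exists_subset_card_eq; for isR w: if 3 ≤ card: exists_triple (no x ≠ w is in all edges at w since ¬ isW w), otherwise all edges at w; else ∅.
 (w with isW: {w} ∈ E would give v ∈ {w}.  isW w and isC w is excluded by hacyc.)
-/

open Finset Classical

universe u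

namespace H70G3
variable {V : Type u} [Fintype V] [DecidableEq V]

theorem exists_triple {E : Finset (Finset V)} (h3 : ∀ e ∈ E, e.card ≤ 3) {y : V}
    (hL : ({y} : Finset V) ∉ E) (hd : 3 ≤ (E.filter (fun e => y ∈ e)).card)
    (hn : ∀ x, x ≠ y → ∃ e ∈ E, y ∈ e ∧ x ∉ e) :
    ∃ t ⊆ E.filter (fun e => y ∈ e), t.card = 3 ∧ ∀ x, x ≠ y → ∃ e ∈ t, x ∉ e := by
  have hne : (E.filter (fun e => y ∈ e)).Nonempty := by
    rw [← Finset.card_pos]; omega
  obtain ⟨e1, he1⟩ := hne
  have he1' := mem_filter.1 he1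
  have hex : ∃ a ∈ e1, a ≠ y := by
    by_contra hcon
    push Not at hcon
    apply hL
    have : e1 = {y} := by
      rw [Finset.eq_singleton_iff_unique_mem]
      exact ⟨he1'.2, hcon⟩
    rw [← this]
    exact he1'.1
  obtain ⟨a, ha, hay⟩ := hex
  obtain ⟨e2, he2, hy2, ha2⟩ := hn a hay
  have he2' : e2 ∈ E.filter (fun e => y ∈ e) := mem_filter.2 ⟨he2, hy2⟩
  have h12 : e1 ≠ e2 := by
    rintro rfl
    exact ha2 ha
  by_cases hb : ∀ x, x ≠ y → x ∈ e1 → x ∉ e2
  · have hlt : ({e1, e2} : Finset (Finset V)).card < (E.filter (fun e => y ∈ e)).card := by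
      have : ({e1, e2} : Finset (Finset V)).card ≤ 2 := Finset.card_le_two
      omega
    obtain ⟨e3, he3, hn3⟩ := Finset.exists_mem_notMem_of_card_lt_card hlt
    simp only [mem_insert, mem_singleton, not_or] at hn3
    refine ⟨{e1, e2, e3}, ?_, ?_, ?_⟩
    · intro x hx
      simp only [mem_insert, mem_singleton] at hx
      rcases hx with rfl | rfl | rfl <;> assumption
    · rw [card_eq_three]
      exact ⟨e1, e2, e3, h12, fun h => hn3.1 h.symm, fun h => hn3.2 h.symm, rfl⟩
    · intro x hx
      by_cases hx1 : x ∈ e1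
      · exact ⟨e2, by simp, hb x hx hx1⟩
      · exact ⟨e1, by simp, hx1⟩
  · push Not at hb
    obtain ⟨b, hby, hb1, hb2⟩ := hb
    have hab : a ≠ b := by
      rintro rfl
      exact ha2 hb2
    have he1e : e1 = {y, a, b} := by
      symm
      apply eq_of_subset_of_card_le
      · intro x hx
        simp only [mem_insert, mem_singleton] at hx
        rcases hx with rfl | rfl | rfl
        · exact he1'.2
        · exact ha
        · exact hb1
      · have : ({y, a, b} : Finset V).card = 3 := by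
          rw [card_eq_three]
          exact ⟨y, a, b, hay.symm, hby.symm, hab, rfl⟩
        rw [this]
        exact h3 e1 he1'.1
    obtain ⟨e3, he3, hy3, hb3⟩ := hn b hby
    have he3' : e3 ∈ E.filter (fun e => y ∈ e) := mem_filter.2 ⟨he3, hy3⟩
    refine ⟨{e1, e2, e3}, ?_, ?_, ?_⟩
    · intro x hx
      simp only [mem_insert, mem_singleton] at hx
      rcases hx with rfl | rfl | rfl <;> assumption
    · rw [card_eq_three]
      refine ⟨e1, e2, e3, h12, ?_, ?_, rfl⟩
      · rintro rfl
        exact hb3 hb1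
      · rintro rfl
        exact hb3 hb2
    · intro x hx
      by_cases hx1 : x ∈ e1
      · rw [he1e] at hx1
        simp only [mem_insert, mem_singleton] at hx1
        rcases hx1 with h | h | h
        · exact absurd h hx
        · exact ⟨e2, by simp, by rw [h]; exact ha2⟩
        · exact ⟨e3, by simp, by rw [h]; exact hb3⟩
      · exact ⟨e1, by simp, hx1⟩

theorem exists_ctx {E : Finset (Finset V)} (h3 : ∀ e ∈ E, e.card ≤ 3)
    (hcov : ∀ v, ∃ e ∈ E, v ∈ e) (huniq : ∀ w v v', Dm E w v → Dm E w v' → v = v')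
    (hacyc : ∀ w v x, Dm E w v → ¬ Dm E v x)
    (hdeg : ∀ w, 3 ≤ (E.filter (fun e => w ∈ e)).card ∨
      (¬ isW E w ∧ (E.filter (fun e => w ∈ e)).card = 2 ∧
        (∀ e ∈ E, w ∈ e → ∀ f ∈ E, w ∈ f → e ≠ f → ∀ x ∈ e, x ∈ f → x = w) ∧
        (∀ e ∈ E, w ∈ e → ∀ x ∈ e, x ≠ w → isC E x))) :
    ∃ c : Ctx V, c.E = E := by
  have hctr : ∀ w : V, ∃ v0 : V, ∀ v, Dm E w v → v0 = v := by
    intro w
    by_cases h : isW E w
    · obtain ⟨v0, hv0⟩ := h
      exact ⟨v0, fun v hv => huniq w v0 v hv0 hv⟩
    · exact ⟨w, fun v hv => absurd ⟨v, hv⟩ h⟩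
  have hrep : ∀ v : V, ∃ w : V, isC E v → Dm E w v := by
    intro v
    by_cases h : isC E v
    · obtain ⟨w, hw⟩ := h
      exact ⟨w, fun _ => hw⟩
    · exact ⟨v, fun h' => absurd h' h⟩
  have htri : ∀ w : V, ∃ t : Finset (Finset V), (∀ e ∈ t, e ∈ E ∧ w ∈ e) ∧
      (isW E w → t.card = 3) ∧
      (isR E w → (t.card = 3 ∧ ∀ x, x ≠ w → ∃ e ∈ t, x ∉ e) ∨
        (t.card = 2 ∧ (∀ e ∈ E, w ∈ e → e ∈ t) ∧
          (∀ e ∈ t, ∀ f ∈ t, e ≠ f → ∀ x ∈ e, x ∈ f → x = w) ∧
          (∀ e ∈ t, ∀ x ∈ e, x ≠ w → isC E x))) := by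
    intro w
    by_cases hW : isW E w
    · have hcard : 3 ≤ (E.filter (fun e => w ∈ e)).card := by
        rcases hdeg w with h | h
        · exact h
        · exact absurd hW h.1
      obtain ⟨t, ht, htc⟩ := Finset.exists_subset_card_eq hcard
      refine ⟨t, fun e he => ?_, fun _ => htc, fun hR => absurd hW hR.2.2⟩
      exact mem_filter.1 (ht he)
    · by_cases hR : isR E w
      · rcases hdeg w with h | h
        · obtain ⟨t, ht, htc, htx⟩ := exists_triple h3 hR.1 h (by
            intro x hx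
            by_contra hcon
            push Not at hcon
            exact hW ⟨x, hx.symm, hcon⟩)
          exact ⟨t, fun e he => mem_filter.1 (ht he), fun h' => absurd h' hW,
            fun _ => Or.inl ⟨htc, htx⟩⟩
        · obtain ⟨-, hc2, hd1, hd2⟩ := h
          refine ⟨E.filter (fun e => w ∈ e), fun e he => mem_filter.1 he, fun h' => absurd h' hW,
            fun _ => Or.inr ⟨hc2, fun e he hwe => mem_filter.2 ⟨he, hwe⟩, ?_, ?_⟩⟩
          · intro e he f hf
            have he' := mem_filter.1 he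
            have hf' := mem_filter.1 hf
            exact hd1 e he'.1 he'.2 f hf'.1 hf'.2
          · intro e he
            have he' := mem_filter.1 he
            exact hd2 e he'.1 he'.2
      · exact ⟨∅, by simp, fun h' => absurd h' hW, fun h' => absurd h' hR⟩
  choose ctr hctr using hctr
  choose rep hrep using hrep
  choose tri htri1 htri2 htri3 using htri
  exact ⟨{ E := E, ctr := ctr, rep := rep, tri := tri, card_le := h3, cov := hcov,
           ctr_spec := hctr, acyc := hacyc, rep_spec := hrep, tri_sub := htri1,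
           tri_W := htri2, tri_R := htri3 }, rfl⟩

end H70G3
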