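import Pool.Agent.H70.G3.Core
import Pool.Agent.H70.G3.Je
import Pool.Agent.H70.G3.Jf

/-!
# Row Jg : families with ∅, without singletons, all frequencies at most one half

Take c from `exists_ctx` with E := EE A (`card_le_EE`, `cov_EE`, `uniq_EE`, `acyc_EE`, `deg_EE`).  hP: e = g A x, x ∈ A.sup id: card D = card A (`card_D`; c.D = Dset c.E), card (filter (e ⊆ ·)) = card {B : x ∉ B}
 = card A - f(x) (`card_sup`), and 2 f(x) ≤ card A.  `Ctx.all_loops`: every G ∈ J A is a loop: {G} ∈ EE A.
So every set of vertices is in D: D = univ, card D = 2^n, n = card {G // G ∈ J A}.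
Suppose A ≠ {∅}. Then there is B ∈ A, B ≠ ∅, so some G ∈ J A (`exists_J`). card G.1 ≥ 2 (nonempty; not a singleton by hns).  {G} = g A z for some z ∈ A.sup id, z ∈ G.1; take x ∈ G.1, x ≠ z:
 g A x ≠ g A z (`g_inj`), G ∈ g A x, so card (g A x) ≥ 2.  The number of S ⊇ g A x is 2^(n - card (g A x)) ≤ 2^(n-2), and hP: 2^n ≤ 2 * 2^(n-2): contradiction.
 (Simpler: two different G, G' ∈ g A x; the map S ↦ S is not needed: the four sets S \ {G,G'} ∪ subset: card {S : G, G' ∈ S} * 4 = 2^n.)
-/

open Finset Classical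

universe u

namespace H70G3
variable {α : Type u} [DecidableEq α]

/-- two different points lie together in a quarter of the sets -/
private lemma Jg_count {V : Type u} [Fintype V] [DecidableEq V] {a b : V} (hab : a ≠ b)
    (h : (univ : Finset (Finset V)).card ≤
      2 * ((univ : Finset (Finset V)).filter (fun S => a ∈ S ∧ b ∈ S)).card) : False := by
  obtain ⟨P, hP⟩ : ∃ P : Finset (Finset V), P = univ.filter (fun S => a ∈ S ∧ b ∈ S) := ⟨_, rfl⟩
  rw [← hP] at h
  have hmem : ∀ S, S ∈ P ↔ a ∈ S ∧ b ∈ S := by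
    intro S
    rw [hP, mem_filter]
    exact ⟨fun h => h.2, fun h => ⟨mem_univ _, h⟩⟩
  have hi : (P.image (fun S => S.erase a)).card = P.card := by
    apply Finset.card_image_of_injOn
    intro S hS T hT hST
    have h1 := ((hmem S).1 hS).1
    have h2 := ((hmem T).1 hT).1
    have h3 : S.erase a = T.erase a := hST
    rw [← Finset.insert_erase h1, ← Finset.insert_erase h2, h3]
  have hd : Disjoint P (P.image (fun S => S.erase a)) := by
    rw [Finset.disjoint_left]
    intro S hS hS'
    obtain ⟨T, -, rfl⟩ := mem_image.1 hS'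
    have h1 := ((hmem _).1 hS).1
    exact (Finset.notMem_erase a T) h1
  have hc : (P ∪ P.image (fun S => S.erase a)).card = P.card + P.card := by
    rw [Finset.card_union_of_disjoint hd, hi]
  have hne : (∅ : Finset V) ∉ P ∪ P.image (fun S => S.erase a) := by
    intro h0
    rcases mem_union.1 h0 with h0 | h0
    · have h1 := ((hmem _).1 h0).1
      exact absurd h1 (Finset.notMem_empty a)
    · obtain ⟨T, hT, hT0⟩ := mem_image.1 h0
      have h1 := ((hmem T).1 hT).2
      have h2 : b ∈ T.erase a := Finset.mem_erase.2 ⟨hab.symm, h1⟩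
      have h3 : T.erase a = ∅ := hT0
      rw [h3] at h2
      exact absurd h2 (Finset.notMem_empty b)
  have hlt : (P ∪ P.image (fun S => S.erase a)).card < (univ : Finset (Finset V)).card := by
    apply Finset.card_lt_card
    rw [Finset.ssubset_iff_subset_ne]
    refine ⟨Finset.subset_univ _, fun h => ?_⟩
    rw [h] at hne
    exact hne (mem_univ _)
  omega

theorem eq_singleton_empty {A : Finset (Finset α)} (hU : UC A) (h0 : ∅ ∈ A) (hs : Sep A)
    (hns : ∀ x, ({x} : Finset α) ∉ A)
    (h3 : ∀ x ∈ A.sup id, ((J A).filter (fun G => x ∈ G)).card ≤ 3)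
    (hf : ∀ x ∈ A.sup id, 2 * (A.filter (fun B => x ∈ B)).card ≤ A.card) : A = {∅} := by
  obtain ⟨c, hc⟩ := exists_ctx (E := EE A) (card_le_EE h3) cov_EE (uniq_EE hU hs h3 hns)
    (acyc_EE hU hs h3 hns) (deg_EE hU hs hns hf)
  have hD : c.D = Dset (EE A) := by
    unfold Ctx.D
    rw [hc]
  have hPx : ∀ x ∈ A.sup id,
      (Dset (EE A)).card ≤ 2 * ((Dset (EE A)).filter (fun S => g A x ⊆ S)).card := by
    intro x hx
    rw [card_D hU h0, card_sup hU h0 hx]
    have h1 := hf x hx
    have h2 := Finset.card_filter_add_card_filter_not (s := A) (fun B => x ∈ B)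
    omega
  have hP : ∀ e ∈ c.E, c.D.card ≤ 2 * (c.D.filter (fun S => e ⊆ S)).card := by
    intro e he
    rw [hc] at he
    unfold EE at he
    obtain ⟨x, hx, rfl⟩ := mem_image.1 he
    rw [hD]
    exact hPx x hx
  have hL : ∀ G : {G // G ∈ J A}, ({G} : Finset {G // G ∈ J A}) ∈ EE A := by
    intro G
    have h1 := c.all_loops hP G
    rw [hc] at h1
    exact h1
  have hDu : Dset (EE A) = univ := by
    apply Finset.eq_univ_of_forall
    intro S
    unfold Dset
    rw [mem_filter]
    refine ⟨mem_univ _, ?_⟩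
    intro v hv
    exact ⟨{v}, hL v, mem_singleton_self v, by
      intro w hw
      rw [mem_singleton] at hw
      rw [hw]
      exact hv⟩
  -- no join-irreducible members
  have hno : ∀ G : {G // G ∈ J A}, False := by
    intro G
    have h1 := hL G
    unfold EE at h1
    obtain ⟨z, hz, hgz⟩ := mem_image.1 h1
    have hzG : z ∈ G.1 := by
      have : G ∈ g A z := by
        rw [hgz]
        exact mem_singleton_self G
      exact (Jc_g G z).1 this
    have hns' : ∃ x ∈ G.1, x ≠ z := by
      by_contra hcon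
      push Not at hcon
      have h2 : G.1 = {z} := Finset.eq_singleton_iff_unique_mem.2 ⟨hzG, hcon⟩
      have h4 := (Jc_mem G).1
      rw [h2] at h4
      exact hns z h4
    obtain ⟨x, hx, hxz⟩ := hns'
    have hxs := Jc_sup G hx
    have hGx : G ∈ g A x := (Jc_g G x).2 hx
    have hG' : ∃ G' ∈ g A x, G' ≠ G := by
      by_contra hcon
      push Not at hcon
      have h2 : g A x = {G} := Finset.eq_singleton_iff_unique_mem.2 ⟨hGx, hcon⟩
      exact hxz (g_inj hU hs hxs hz (h2.trans hgz.symm))
    obtain ⟨G', hG'x, hne⟩ := hG'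
    apply Jg_count hne
    have h2 := hPx x hxs
    rw [hDu] at h2
    refine le_trans h2 ?_
    apply Nat.mul_le_mul_left
    apply Finset.card_le_card
    intro S hS
    have h4 := (mem_filter.1 hS).2
    exact mem_filter.2 ⟨mem_univ _, h4 hG'x, h4 hGx⟩
  -- hence only the empty set
  refine Finset.eq_singleton_iff_unique_mem.2 ⟨h0, fun B hB => ?_⟩
  by_contra hne
  obtain ⟨x, hx⟩ := Finset.nonempty_iff_ne_empty.2 hne
  obtain ⟨G, hG, -, -⟩ := exists_J hU hB hx
  exact hno ⟨G, hG⟩

end H70G3
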