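import Pool.Agent.H70.G3.Jg

/-!
# Row Jh : removing singletons; ∅ ∈ A

power_of_half: strong induction on card A.  If no singleton is in A: `eq_singleton_empty` gives A = {∅}, sup = ∅, powerset ∅ = {∅}.
Let {x} ∈ A.  B ↦ insert x B maps {B : x ∉ B} injectively to {B : x ∈ B}, so f(x) ≥ card A / 2, hence equality and every B ∈ A with x ∈ B has B.erase x ∈ A.
A' := A.filter (x ∉ ·).  card A = 2 card A' (so card A' < card A), A' is union-closed, ∅ ∈ A', A = A' ∪ A'.image (insert x).  A'.sup id = (A.sup id).erase x (z ∈ B ∈ A, z ≠ x ⇒ z ∈ B.erase x ∈ A').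
Sep A': y, z ∈ A'.sup id separated by B ∈ A: B.erase x ∈ A' separates (y, z ≠ x).
J A' ⊆ J A: G ∈ A', JI in A': if B ∪ C = G, B, C ∈ A then x ∉ B, C so B, C ∈ A'.   So h3 passes to A'.
frequencies: for z ∈ A'.sup id: f_A(z) = 2 f_A'(z), so 2 f_A'(z) ≤ card A'.
By induction A' = (A'.sup id).powerset = ((A.sup id).erase x).powerset, so A = (A.sup id).powerset (x ∈ A.sup id; Finset.powerset_insert).
-/

open Finset Classical

universe u

namespace H70G3
variable {α : Type u} [DecidableEq α]

private theorem Jh_aux (n : ℕ) : ∀ A : Finset (Finset α), A.card = n → UC A → ∅ ∈ A → Sep A →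
    (∀ x ∈ A.sup id, ((J A).filter (fun G => x ∈ G)).card ≤ 3) →
    (∀ x ∈ A.sup id, 2 * (A.filter (fun B => x ∈ B)).card ≤ A.card) →
    A = (A.sup id).powerset := by
  induction n using Nat.strong_induction_on with
  | _ n ih =>
  intro A hn hU h0 hs h3 hf
  by_cases hns : ∀ x, ({x} : Finset α) ∉ A
  · have h := eq_singleton_empty hU h0 hs hns h3 hf
    have h1 : A.sup id = ∅ := by rw [h, Finset.sup_singleton, id]
    rw [h1, Finset.powerset_empty]
    exact h
  · push Not at hns
    obtain ⟨x, hx⟩ := hns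
    have hins : ∀ B ∈ A, insert x B ∈ A := fun B hB => by
      have h1 := hU {x} hx B hB
      rwa [← Finset.insert_eq] at h1
    have hxs : x ∈ A.sup id := Finset.mem_sup.2 ⟨{x}, hx, Finset.mem_singleton_self x⟩
    set A0 := A.filter (fun B => x ∉ B) with hA0
    have mem0 : ∀ B, B ∈ A0 ↔ B ∈ A ∧ x ∉ B := fun B => by rw [hA0, Finset.mem_filter]
    have hinj : ∀ B ∈ A0, ∀ C ∈ A0, insert x B = insert x C → B = C := fun B hB C hC h => by
      rw [← Finset.erase_insert ((mem0 B).1 hB).2, h, Finset.erase_insert ((mem0 C).1 hC).2]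
    have hsub : A0.image (insert x) ⊆ A.filter (fun B => x ∈ B) := by
      intro B hB
      obtain ⟨C, hC, rfl⟩ := Finset.mem_image.1 hB
      exact Finset.mem_filter.2 ⟨hins C ((mem0 C).1 hC).1, Finset.mem_insert_self x C⟩
    have hci : (A0.image (insert x)).card = A0.card := Finset.card_image_of_injOn
      (fun B hB C hC h => hinj B hB C hC h)
    have hsum : (A.filter (fun B => x ∈ B)).card + A0.card = A.card :=
      Finset.card_filter_add_card_filter_not (fun B => x ∈ B)
    have hle := Finset.card_le_card hsub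
    have hfx := hf x hxs
    have heq : A0.image (insert x) = A.filter (fun B => x ∈ B) :=
      Finset.eq_of_subset_of_card_le hsub (by omega)
    have hE : ∀ B ∈ A, B.erase x ∈ A0 := fun B hB => by
      by_cases hxB : x ∈ B
      · have h1 : B ∈ A0.image (insert x) := by
          rw [heq]
          exact Finset.mem_filter.2 ⟨hB, hxB⟩
        obtain ⟨C, hC, rfl⟩ := Finset.mem_image.1 h1
        rwa [Finset.erase_insert ((mem0 C).1 hC).2]
      · rw [Finset.erase_eq_of_notMem hxB]
        exact (mem0 B).2 ⟨hB, hxB⟩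
    have hpos : 0 < A0.card := Finset.card_pos.2 ⟨∅, (mem0 ∅).2 ⟨h0, Finset.notMem_empty x⟩⟩
    have hcard : A.card = 2 * A0.card := by omega
    have hlt : A0.card < n := by omega
    have hsup : A0.sup id = (A.sup id).erase x := by
      ext z
      rw [Finset.mem_erase, Finset.mem_sup, Finset.mem_sup]
      constructor
      · rintro ⟨B, hB, hz⟩
        refine ⟨?_, B, ((mem0 B).1 hB).1, hz⟩
        rintro rfl
        exact ((mem0 B).1 hB).2 hz
      · rintro ⟨hzx, B, hB, hz⟩
        exact ⟨B.erase x, hE B hB, Finset.mem_erase.2 ⟨hzx, hz⟩⟩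
    have hU0 : UC A0 := fun X hX Y hY => by
      rw [mem0] at hX hY ⊢
      refine ⟨hU X hX.1 Y hY.1, ?_⟩
      rw [Finset.mem_union]
      exact fun h => h.elim hX.2 hY.2
    have hs0 : Sep A0 := by
      intro y hy z hz hyz
      rw [hsup, Finset.mem_erase] at hy hz
      obtain ⟨S, hS, h⟩ := hs y hy.2 z hz.2 hyz
      refine ⟨S.erase x, hE S hS, ?_⟩
      rcases h with ⟨h1, h2⟩ | ⟨h1, h2⟩
      · left
        exact ⟨Finset.mem_erase.2 ⟨hy.1, h1⟩, fun h => h2 (Finset.mem_of_mem_erase h)⟩
      · right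
        exact ⟨Finset.mem_erase.2 ⟨hz.1, h1⟩, fun h => h2 (Finset.mem_of_mem_erase h)⟩
    have hJ : J A0 ⊆ J A := by
      intro G hG
      unfold J at hG ⊢
      rw [Finset.mem_filter] at hG ⊢
      obtain ⟨hGA, hGne, hGji⟩ := hG
      refine ⟨((mem0 G).1 hGA).1, hGne, fun B hB C hC hBC => ?_⟩
      have hxG := ((mem0 G).1 hGA).2
      rw [← hBC, Finset.mem_union, not_or] at hxG
      exact hGji B ((mem0 B).2 ⟨hB, hxG.1⟩) C ((mem0 C).2 ⟨hC, hxG.2⟩) hBC
    have h30 : ∀ z ∈ A0.sup id, ((J A0).filter (fun G => z ∈ G)).card ≤ 3 := by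
      intro z hz
      rw [hsup, Finset.mem_erase] at hz
      exact (Finset.card_le_card (Finset.filter_subset_filter _ hJ)).trans (h3 z hz.2)
    have hf0 : ∀ z ∈ A0.sup id, 2 * (A0.filter (fun B => z ∈ B)).card ≤ A0.card := by
      intro z hz
      rw [hsup, Finset.mem_erase] at hz
      have h1 := hf z hz.2
      have h2 : (A0.filter (fun B => z ∈ B)) ∪ (A0.filter (fun B => z ∈ B)).image (insert x) ⊆
          A.filter (fun B => z ∈ B) := by
        intro B hB
        rcases Finset.mem_union.1 hB with hB | hB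
        · rw [Finset.mem_filter] at hB ⊢
          exact ⟨((mem0 B).1 hB.1).1, hB.2⟩
        · obtain ⟨C, hC, rfl⟩ := Finset.mem_image.1 hB
          rw [Finset.mem_filter] at hC ⊢
          exact ⟨hins C ((mem0 C).1 hC.1).1, Finset.mem_insert_of_mem hC.2⟩
      have h3' : Disjoint (A0.filter (fun B => z ∈ B))
          ((A0.filter (fun B => z ∈ B)).image (insert x)) := by
        rw [Finset.disjoint_left]
        intro B hB hB'
        obtain ⟨C, hC, rfl⟩ := Finset.mem_image.1 hB'
        rw [Finset.mem_filter] at hB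
        exact ((mem0 _).1 hB.1).2 (Finset.mem_insert_self x C)
      have h4 : ((A0.filter (fun B => z ∈ B)).image (insert x)).card =
          (A0.filter (fun B => z ∈ B)).card := Finset.card_image_of_injOn
        (fun B hB C hC h => hinj B (Finset.mem_of_mem_filter B hB) C
          (Finset.mem_of_mem_filter C hC) h)
      have h5 := Finset.card_le_card h2
      rw [Finset.card_union_of_disjoint h3', h4] at h5
      omega
    have key := ih A0.card hlt A0 rfl hU0 ((mem0 ∅).2 ⟨h0, Finset.notMem_empty x⟩) hs0 h30 hf0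
    rw [hsup] at key
    ext B
    rw [Finset.mem_powerset]
    constructor
    · intro hB
      exact Finset.le_sup (f := id) hB
    · intro hB
      have h1 : B.erase x ∈ A0 := by
        rw [key, Finset.mem_powerset]
        exact Finset.erase_subset_erase x hB
      have h2 := ((mem0 _).1 h1).1
      by_cases hxB : x ∈ B
      · have h4 := hins _ h2
        rwa [Finset.insert_erase hxB] at h4
      · rwa [Finset.erase_eq_of_notMem hxB] at h2

theorem power_of_half (A : Finset (Finset α)) (hU : UC A) (h0 : ∅ ∈ A) (hs : Sep A)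
    (h3 : ∀ x ∈ A.sup id, ((J A).filter (fun G => x ∈ G)).card ≤ 3)
    (hf : ∀ x ∈ A.sup id, 2 * (A.filter (fun B => x ∈ B)).card ≤ A.card) :
    A = (A.sup id).powerset := by
  exact Jh_aux A.card A rfl hU h0 hs h3 hf

end H70G3
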