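import Pool.Agent.H70.G3.Jh

/-!
# Row Ji : the theorem

Given a generating family G ⊆ A (every B ∈ A is F.sup id for some F ⊆ G), every x in at most three members of G.
Case ∅ ∈ A: J A ⊆ G (`JI_mem_of_sup`: B ∈ J A, B = F.sup id, F ⊆ G ⊆ A, so B ∈ F ⊆ G), so h3 holds for J A.  If the conclusion fails then all 2 f(x) ≤ card A and `power_of_half` gives A = powerset: excluded.
Case ∅ ∉ A: A' := insert ∅ A: union-closed, ∅ ∈ A', same sup, Sep A' (from Sep A), J A' ⊆ G: B ∈ J A' is ≠ ∅, so B ∈ A, B = F.sup id, F ⊆ G ⊆ A ⊆ A', `JI_mem_of_sup` for A'.  f_A'(x) = f_A(x) for all x; card A' = card A + 1.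
 If 2 f(x) ≤ card A for all x then 2 f_A'(x) ≤ card A', so A' = (A.sup id).powerset, card A' = 2^n with n = card (A.sup id) ≥ 1 (A nonempty and ∅ ∉ A), f_A'(x) = 2^(n-1), so 2 f(x) = 2^n = card A + 1 > card A: contradiction.
-/

open Finset Classical

universe u

namespace H70G3
variable {α : Type u} [DecidableEq α]

/-- the join-irreducible members lie in every generating family -/
theorem Ji_sub (A G : Finset (Finset α)) (hU : UC A) (h0 : ∅ ∈ A) (hGA : G ⊆ A)
    (hgen : ∀ B ∈ A, B ≠ ∅ → ∃ F ⊆ G, F.sup id = B) : J A ⊆ G := by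
  intro B hB
  obtain ⟨hBA, hJI⟩ := mem_filter.1 hB
  obtain ⟨F, hF, hs⟩ := hgen B hBA hJI.1
  exact hF (JI_mem_of_sup hU h0 (hF.trans hGA) hJI hs)

/-- half of the subsets of `S` contain `x` -/
theorem Ji_half {S : Finset α} {x : α} (hx : x ∈ S) :
    2 * (S.powerset.filter (fun B => x ∈ B)).card = S.powerset.card := by
  have h1 : S.powerset.filter (fun B => ¬ x ∈ B) = (S.erase x).powerset := by
    ext B
    rw [mem_filter, mem_powerset, mem_powerset, subset_erase]
  have h2 : (S.powerset.filter (fun B => x ∈ B)).card + (S.powerset.filter (fun B => ¬ x ∈ B)).card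
      = S.powerset.card := Finset.card_filter_add_card_filter_not _
  rw [h1] at h2
  have h3 : S.card = (S.erase x).card + 1 := by
    rw [card_erase_of_mem hx]
    have := card_pos.2 ⟨x, hx⟩
    omega
  have h4 : S.powerset.card = 2 * (S.erase x).powerset.card := by
    rw [card_powerset, card_powerset, h3, pow_succ]
    ring
  omega

theorem main (A G : Finset (Finset α)) (hA : A.Nonempty) (hU : ∀ X ∈ A, ∀ Y ∈ A, X ∪ Y ∈ A)
    (hs : ∀ x ∈ A.sup id, ∀ y ∈ A.sup id, x ≠ y →
      ∃ S ∈ A, (x ∈ S ∧ y ∉ S) ∨ (y ∈ S ∧ x ∉ S))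
    (hp : A ≠ (A.sup id).powerset) (hGA : G ⊆ A) (hgen : ∀ B ∈ A, ∃ F ⊆ G, F.sup id = B)
    (h3 : ∀ x ∈ A.sup id, (G.filter (fun B => x ∈ B)).card ≤ 3) :
    ∃ x ∈ A.sup id, A.card < 2 * (A.filter (fun B => x ∈ B)).card := by
  by_contra hcon
  push Not at hcon
  by_cases h0 : ∅ ∈ A
  · apply hp
    refine power_of_half A hU h0 hs ?_ hcon
    intro x hx
    exact (card_le_card (filter_subset_filter _
      (Ji_sub A G hU h0 hGA (fun B hB _ => hgen B hB)))).trans (h3 x hx)
  · obtain ⟨A', hA'⟩ : ∃ A', A' = insert ∅ A := ⟨_, rfl⟩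
    have hmem : ∀ B, B ∈ A' ↔ B = ∅ ∨ B ∈ A := by
      intro B
      rw [hA', mem_insert]
    have hsup : A'.sup id = A.sup id := by
      rw [hA', sup_insert]
      simp
    have h0' : ∅ ∈ A' := (hmem _).2 (Or.inl rfl)
    have hU' : UC A' := by
      intro X hX Y hY
      rcases (hmem X).1 hX with rfl | hX
      · rw [empty_union]
        exact hY
      · rcases (hmem Y).1 hY with rfl | hY
        · rw [union_empty]
          exact (hmem X).2 (Or.inr hX)
        · exact (hmem _).2 (Or.inr (hU X hX Y hY))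
    have hS' : Sep A' := by
      intro x hx y hy hxy
      rw [hsup] at hx hy
      obtain ⟨S, hS, h⟩ := hs x hx y hy hxy
      exact ⟨S, (hmem S).2 (Or.inr hS), h⟩
    have hJ' : J A' ⊆ G := by
      refine Ji_sub A' G hU' h0' (fun B hB => (hmem B).2 (Or.inr (hGA hB))) ?_
      intro B hB hB0
      rcases (hmem B).1 hB with h | h
      · exact absurd h hB0
      · exact hgen B h
    have hf : ∀ x, (A'.filter (fun B => x ∈ B)).card = (A.filter (fun B => x ∈ B)).card := by
      intro x
      congr 1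
      ext B
      rw [mem_filter, mem_filter, hmem]
      constructor
      · rintro ⟨h | h, hx⟩
        · rw [h] at hx
          simp at hx
        · exact ⟨h, hx⟩
      · rintro ⟨h, hx⟩
        exact ⟨Or.inr h, hx⟩
    have hc : A'.card = A.card + 1 := by
      rw [hA', card_insert_of_notMem h0]
    have hpow := power_of_half A' hU' h0' hS' (by
      intro x hx
      rw [hsup] at hx
      exact (card_le_card (filter_subset_filter _ hJ')).trans (h3 x hx)) (by
      intro x hx
      rw [hsup] at hx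
      rw [hf, hc]
      exact (hcon x hx).trans (Nat.le_succ _))
    obtain ⟨B, hB⟩ := hA
    have hBne : B.Nonempty := by
      rw [nonempty_iff_ne_empty]
      rintro rfl
      exact h0 hB
    obtain ⟨x, hx⟩ := hBne
    have hxS : x ∈ A.sup id := by
      rw [Finset.mem_sup]
      exact ⟨B, hB, hx⟩
    have h1 := Ji_half hxS
    rw [← hsup, ← hpow, hf, hc] at h1
    have h2 := hcon x hxS
    omega

end H70G3
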