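import Pool.Agent.H70.G3.Basic

/-!
# Row Ra : small facts on om, ldR

om y S p is an if on dep S y p ∧ crit S p ∧ red S p; unfold om, split_ifs.
om_C: p ∈ C is neither R nor W (`C_not_R`, `C_not_W`).  ldR_not_mem: y ∉ S: dep needs y ∈ S; ias contains dep S y v; ib: at' E S y = {e} gives y ∈ e ⊆ S
(mem_at).  self_le: unfold.  self_zero_of_W: if w ∈ S is in W and every S-edge at y contains w (dep S y w) or ctr w... see statement: ias S y v has dep S y v, so v ∈ {w, ctr w}
for the unique edge {y, w, ctr w}; v ≠ w (C, W), so v = ctr w, but no u with Dm u v is in S and w ∈ S (`ctr_Dm`).  ib: at' E S y = {{y,v,v'}} = {{y,w,ctr w}} with v, v' ∈ C,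
so w ∈ {y, v, v'}: w = y (R, W) or w ∈ C, contradiction.  self_R: at' E S y = {{y,p,q}} with p, q ∈ R: ias gives v ∈ C in {p,q}; ib gives {y,v,v'} = {y,p,q}, v ∈ {y,p,q}
all in R: contradiction.
-/

open Finset Classical

universe u

namespace H70G3
namespace Ctx
variable {V : Type u} [Fintype V] [DecidableEq V] (c : Ctx V)

theorem om_le (y : V) (S : Finset V) (p : V) : c.om y S p ≤ 12 := by
  unfold om
  split_ifs <;> omega

theorem om_R_le {y : V} {S : Finset V} {p : V} (hp : isR c.E p) : c.om y S p ≤ 6 := by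
  unfold om
  rw [if_pos hp]
  split_ifs <;> omega

theorem om_R_le3 {y : V} {S : Finset V} {p : V} (hp : isR c.E p) (hu : ¬ c.uniq y S p) :
    c.om y S p ≤ 3 := by
  unfold om
  rw [if_pos hp, if_neg hu]
  split_ifs <;> omega

theorem om_zero {y : V} {S : Finset V} {p : V} (h1 : ¬ isR c.E p) (h2 : ¬ isW c.E p) :
    c.om y S p = 0 := by
  unfold om
  rw [if_neg h1, if_neg h2]
  split_ifs <;> rfl

theorem om_dep {y : V} {S : Finset V} {p : V} (h : c.om y S p ≠ 0) :
    dep c.E S y p ∧ c.crit S p ∧ c.red S p := by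
  by_contra hn
  apply h
  unfold om
  rw [if_neg hn]

theorem self_le (y : V) (S : Finset V) : c.self y S ≤ 6 := by
  unfold self
  split_ifs <;> omega

theorem ldR_not_mem {y : V} {S : Finset V} (hy : y ∉ S) : c.ldR y S = 0 := by
  unfold ldR
  have h1 : ∑ p, c.om y S p = 0 := by
    refine sum_eq_zero fun p _ => ?_
    by_contra h
    exact hy (c.om_dep h).1.1
  have h2 : c.self y S = 0 := by
    unfold self
    rw [if_neg]
    rintro (⟨v, h⟩ | ⟨_, _, v, v', _, _, _, h⟩)
    · exact hy h.2.2.2.1.1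
    · have h3 : ({y, v, v'} : Finset V) ∈ at' c.E S y := by rw [h]; exact mem_singleton_self _
      rw [mem_at] at h3
      exact hy (h3.2.2 h3.2.1)
  rw [h1, h2]

theorem self_zero_of_W {y w : V} {S : Finset V} (hw : isW c.E w) (hy : isR c.E y)
    (he : at' c.E S y = {{y, w, c.ctr w}}) : c.self y S = 0 := by
  have h3 : ({y, w, c.ctr w} : Finset V) ∈ at' c.E S y := by rw [he]; exact mem_singleton_self _
  rw [mem_at] at h3
  unfold self
  rw [if_neg]
  rintro (⟨v, h⟩ | ⟨_, _, v, v', hv, hv', _, h⟩)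
  · have h4 := h.2.2.2.1.2.2 _ h3.1 h3.2.1 h3.2.2
    simp only [mem_insert, mem_singleton] at h4
    rcases h4 with h4 | h4 | h4
    · exact h.2.2.2.1.2.1 h4.symm
    · rw [h4] at h
      exact c.W_not_C hw h.2.2.1
    · rw [h4] at h
      exact h.2.2.2.2.2.2.1 w (c.ctr_Dm hw) (h3.2.2 (by simp))
  · rw [he] at h
    have h4 := singleton_injective h
    have h5 : w ∈ ({y, w, c.ctr w} : Finset V) := by simp
    rw [h4] at h5
    simp only [mem_insert, mem_singleton] at h5
    rcases h5 with h5 | h5 | h5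
    · rw [h5] at hw
      exact c.W_not_R hw hy
    · rw [h5] at hw
      exact c.W_not_C hw hv
    · rw [h5] at hw
      exact c.W_not_C hw hv'

theorem self_zero_of_R {y p q : V} {S : Finset V} (hy : isR c.E y) (hp : isR c.E p)
    (hq : isR c.E q) (he : at' c.E S y = {{y, p, q}}) : c.self y S = 0 := by
  have h3 : ({y, p, q} : Finset V) ∈ at' c.E S y := by rw [he]; exact mem_singleton_self _
  rw [mem_at] at h3
  have key : ∀ v ∈ ({y, p, q} : Finset V), ¬ isC c.E v := by
    intro v hv hC
    simp only [mem_insert, mem_singleton] at hv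
    rcases hv with rfl | rfl | rfl
    · exact c.C_not_R hC hy
    · exact c.C_not_R hC hp
    · exact c.C_not_R hC hq
  unfold self
  rw [if_neg]
  rintro (⟨v, h⟩ | ⟨_, _, v, v', hv, hv', _, h⟩)
  · exact key v (h.2.2.2.1.2.2 _ h3.1 h3.2.1 h3.2.2) h.2.2.1
  · rw [he] at h
    have h4 := singleton_injective h
    refine key v ?_ hv
    rw [h4]
    simp

end Ctx
end H70G3
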