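import Pool.Agent.H70.G3.Basic

/-!
# Row Ru : the W-unit

v = ctr w, y ≠ v (`ne_of_R_C`, `ctr_isC`), e = {y,w,v}; at' E S y = {e} (`at_dep_W`).
Claim: dep S x w ⇒ x = y or x = v.  x ∉ L, x ∉ W (red), x ∈ R ⇒ x = y (uniq).  Suppose x ∈ C, x ≠ v. at' E S x = {{x,w,v}} (`at_dep_W`).  ¬ cM2 with x: there is z, dep S z x.
  z = w: all S-edges at w contain x, but e = {y,w,v} is an S-edge at w and x ∉ e (x ∈ C, y ∈ R, w ∈ W, x ≠ v): contradiction.
  z ≠ w: dep S z w (`dep_trans`).  z = v: e is an S-edge at v without x, contradiction.  z ≠ v: at' E S z = {{z,w,v}} (`at_dep_W`), it contains x: x = z (dep excludes), w, v: no.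
Case A: not dep S v w. Then all dependent vertices equal y. X := (S.erase w).erase y ∈ D by `erase_erase_D` (p := w, q := y, hq from dep S y w).
  isU y X: y ∉ X; insert y X ∉ D: an edge at y inside insert y X is an S-edge at y, so equals e ∋ w, but w ∉ insert y X.  X ∪ e = S (y, w, v ∈ S; v ∈ X).  Then at' E (X ∪ e) y = {e}.
  w ∉ X, v ∈ X (v ≠ w, y): first alternative.
Case B: dep S v w.  X := ((S.erase w).erase y).erase v = S \ {w, y, v}. X ∈ D by `sdiff_D`: z ∈ S, z ∉ {w,y,v}: not dep S z w (claim), so some S-edge g at z avoids w; g avoids y (S-edges at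
  y are e ∋ w) and avoids v (dep S v w). X ∪ e = S.  isU y X as before. Second alternative: ∀ f ∈ E, v ∈ f → f ⊆ X ∪ e = S → w ∈ f by dep S v w.
-/

open Finset Classical

universe u

namespace H70G3
namespace Ctx
variable {V : Type u} [Fintype V] [DecidableEq V] (c : Ctx V)

theorem unit_W {S : Finset V} {y w : V} (hy : isR c.E y) (hw : isW c.E w) (hc : c.crit S w)
    (hr : c.red S w) (hd : dep c.E S y w) (hu : c.uniq y S w)
    (ht : ({y, w, c.ctr w} : Finset V) ∈ c.tri y) :
    ∃ X, c.WA y X {y, w, c.ctr w} ∧ X ∪ {y, w, c.ctr w} = S := by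
  obtain ⟨hSD, hwS, -⟩ := hc
  have hyv : y ≠ c.ctr w := c.ne_of_R_C hy (c.ctr_isC hw)
  have hwv : w ≠ c.ctr w := (c.ctr_Dm hw).1
  have hyw : y ≠ w := hd.2.1
  have hat : at' c.E S y = {{y, w, c.ctr w}} := c.at_dep_W hSD hd hw hyv
  have heat : ({y, w, c.ctr w} : Finset V) ∈ at' c.E S y := by rw [hat]; exact mem_singleton_self _
  obtain ⟨heE, -, heS⟩ := c.mem_at.1 heat
  have hyS : y ∈ S := hd.1
  have hvS : c.ctr w ∈ S := c.ctr_mem hw hSD hwS
  -- the claim
  have claim : ∀ x, dep c.E S x w → x = y ∨ x = c.ctr w := by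
    intro x hx
    by_contra hcon
    push Not at hcon
    obtain ⟨hxy, hxv⟩ := hcon
    have hxL : ¬ isL c.E x := c.dep_not_L hx
    have hxW : ¬ isW c.E x := fun h => hr.2.2.2 ⟨x, h, hx⟩
    have hxR : ¬ isR c.E x := fun h => hxy (hu x h hx)
    have hxC : isC c.E x := by
      rcases c.four x with h | h | h | h
      · exact absurd h hxW
      · exact h
      · exact absurd h hxL
      · exact absurd h hxR
    have hne : S.erase x ∉ c.D := fun h => hr.1 ⟨x, hxC, hx, h⟩
    rw [c.erase_D_iff hSD] at hne
    push Not at hne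
    obtain ⟨z, hz⟩ := hne
    have hnot : x ∉ ({y, w, c.ctr w} : Finset V) := by
      simp only [mem_insert, mem_singleton, not_or]
      exact ⟨hxy, hx.2.1, hxv⟩
    by_cases hzw : z = w
    · rw [hzw] at hz
      exact hnot (hz.2.2 _ heE (by simp) heS)
    · by_cases hzv : z = c.ctr w
      · rw [hzv] at hz
        exact hnot (hz.2.2 _ heE (by simp) heS)
      · have hzd : dep c.E S z w := c.dep_trans hz hx hzw
        have h1 : at' c.E S z = {{z, w, c.ctr w}} := c.at_dep_W hSD hzd hw hzv
        have h2 : ({z, w, c.ctr w} : Finset V) ∈ at' c.E S z := by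
          rw [h1]; exact mem_singleton_self _
        obtain ⟨h3, h4, h5⟩ := c.mem_at.1 h2
        have h6 := hz.2.2 _ h3 h4 h5
        simp only [mem_insert, mem_singleton] at h6
        rcases h6 with h | h | h
        · exact hz.2.1 h.symm
        · exact hx.2.1 h
        · exact hxv h
  have key : ∀ X : Finset V, X ∈ c.D → y ∉ X → w ∉ X → X ∪ {y, w, c.ctr w} = S →
      (c.ctr w ∈ X ∨ ∀ f ∈ c.E, c.ctr w ∈ f → f ⊆ X ∪ {y, w, c.ctr w} → w ∈ f) →
      c.WA y X {y, w, c.ctr w} := by
    intro X hX hyX hwX hXS hlast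
    refine ⟨⟨hX, hyX, ?_⟩, ht, ?_, w, hw, hwX, rfl, hlast⟩
    · intro hins
      obtain ⟨f, hf⟩ := c.exists_at hins (mem_insert_self y X)
      rw [c.mem_at] at hf
      obtain ⟨hfE, hyf, hfs⟩ := hf
      have hfS : f ⊆ S := by
        refine hfs.trans ?_
        rw [← hXS]
        intro x hx
        rcases mem_insert.1 hx with h | h
        · rw [h]; exact mem_union_right _ (by simp)
        · exact mem_union_left _ h
      have hwf : w ∈ f := hd.2.2 f hfE hyf hfS
      rcases mem_insert.1 (hfs hwf) with h | h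
      · exact hyw h.symm
      · exact hwX h
    · rw [hXS]; exact hat
  by_cases hvw : dep c.E S (c.ctr w) w
  · refine ⟨S \ {y, w, c.ctr w}, ?_, ?_⟩
    · apply key
      · apply c.sdiff_D
        intro z hz
        rw [mem_sdiff] at hz
        obtain ⟨hzS, hzn⟩ := hz
        simp only [mem_insert, mem_singleton, not_or] at hzn
        obtain ⟨hzy, hzw, hzv⟩ := hzn
        have hnd : ¬ dep c.E S z w := by
          intro h
          rcases claim z h with h | h
          · exact hzy h
          · exact hzv h
        unfold dep at hnd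
        push Not at hnd
        obtain ⟨g, hg, hzg, hgS, hwg⟩ := hnd hzS hzw
        refine ⟨g, hg, hzg, hgS, ?_⟩
        rw [disjoint_left]
        intro x hxg hx
        simp only [mem_insert, mem_singleton] at hx
        rcases hx with h | h | h
        · rw [h] at hxg; exact hwg (hd.2.2 g hg hxg hgS)
        · rw [h] at hxg; exact hwg hxg
        · rw [h] at hxg; exact hwg (hvw.2.2 g hg hxg hgS)
      · simp
      · simp
      · exact sdiff_union_of_subset heS
      · right
        intro f hf hvf hfs
        rw [sdiff_union_of_subset heS] at hfs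
        exact hvw.2.2 f hf hvf hfs
    · exact sdiff_union_of_subset heS
  · have hun : (S.erase w).erase y ∪ {y, w, c.ctr w} = S := by
      ext x
      simp only [mem_union, mem_erase, mem_insert, mem_singleton]
      constructor
      · rintro (⟨-, -, h⟩ | h | h | h)
        · exact h
        · rw [h]; exact hyS
        · rw [h]; exact hwS
        · rw [h]; exact hvS
      · intro h
        by_cases h1 : x = y
        · exact Or.inr (Or.inl h1)
        · by_cases h2 : x = w
          · exact Or.inr (Or.inr (Or.inl h2))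
          · exact Or.inl ⟨h1, h2, h⟩
    refine ⟨(S.erase w).erase y, ?_, hun⟩
    apply key
    · apply c.erase_erase_D hSD hd.2.2
      intro x hx
      rcases claim x hx with h | h
      · exact h
      · rw [h] at hx; exact absurd hx hvw
    · simp
    · simp
    · exact hun
    · left
      rw [mem_erase, mem_erase]
      exact ⟨hyv.symm, hwv.symm, hvS⟩

end Ctx
end H70G3
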