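import Pool.Agent.H70.G3.Ra
import Pool.Agent.H70.G3.Rs
import Pool.Agent.H70.G3.Ru

/-!
# Row Rn : the load of (y, S) when there is exactly one S-edge e at y

t := t y S ≤ 1, and t = 1 iff e ∈ tri y (t y S = card of the chosen edges ⊆ S, all of which lie in at' E S y = {e}).
The nonzero om y S p have dep S y p (`om_dep`), i.e. p ∈ e, p ≠ y.  y ∈ e, e ≠ {y} (`R_not_L`), card e ≤ 3.
Case 0: e = {y, a} (two elements): no vertex of e is in W (a ∈ W ⇒ ctr a ∈ e, ctr a ≠ a, so ctr a = y ∈ C, contradiction).  If a ∈ R: om ≤ 6, self = 0 (ias: v ∈ C, v = a; ib: the edge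
  would contain two centres v ≠ v', both different from y, so both = a).  If a ∉ R: om = 0, self ≤ 6.  So ldR ≤ 6 and ldR + 4 t ≤ 10 ≤ 12.
Case 1: e = {y,p,q} (pairwise different), p ∈ W.  Then ctr p ∈ e, so q = ctr p (ctr p ≠ y: C, R; ctr p ≠ p).  om y S q = 0, self = 0 (`self_zero_of_W`), ldR = om y S p.
   om y S p ≤ 8: fine with t ≤ 1 (8 + 4 = 12).   om y S p > 8: then uniq y S p and om = 12; if e ∉ tri y: t = 0, 12 ≤ 12.  If e ∈ tri y: `unit_W` gives X with WA y X e ∧ X ∪ e = S, so
   nWA y S ≥ 1: 12 + 4 ≤ 12 + 4.   (Same if q ∈ W.)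
Case 2: p, q ∈ R: self = 0 (`self_zero_of_R`).  Let s_p = 1 if om y S p > 3, s_q likewise; ldR ≤ 6 + 3 s_p + 3 s_q (`om_R_le`, `om_R_le3`).
   If e ∉ tri y: 12 ≤ 12.  If e ∈ tri y: need nOA y S ≥ s_p + s_q (then 6 + 3 s_p + 3 s_q + 4 ≤ 12 + 2 s_p + 2 s_q).
   s_p = 1: uniq (`om_R_le3`), dep, crit, red; by `sole_or_special` either a centre is in e = {y,p,v} (impossible: at' E S y = {{y,p,q}} = {{y,p,v}}, v ∈ {y,p,q} all in R)
   or all dependents equal y: X_p := (S.erase p).erase y ∈ D (`erase_erase_D`, hq from dep S y p).  OA y X_p e: isU: y ∉ X_p, insert y X_p ∉ D (its edges at y are S-edges at y,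
   = e ∋ p, p ∉ insert y X_p); X_p ∪ e = S; a := p ∉ X_p, p ≠ y, ¬ isW p (R); x := q ∈ X_p, isR q; e = {y,p,q}.  Similarly X_q with a := q, x := p.
   (X_p, e) ≠ (X_q, e) since q ∈ X_p, q ∉ X_q. Both are in the filter set of nOA.
Case 3: exactly one of p, q is in R, none in W, say p ∈ R, q ∉ R: om y S q = 0, om y S p ≤ 6.  self = 0: ldR ≤ 6, 6 + 4 ≤ 12.  self ≠ 0: ib impossible (p ∈ R is not a centre),
   so ias S y v with v ∈ e, so v = q.  If e ∉ tri y: 12 ≤ 12.  If e ∈ tri y: X := (S.erase y).erase q ∈ D (`erase_erase_D` with p := y, q := q: hq from dep S q y; all dependents of y equal q).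
   OA y X e: a := q ∉ X, q ≠ y, ¬ isW q (`C_not_W`), x := p ∈ X ∩ R; isU y X (edges at y in insert y X are S-edges, = e ∋ q).  X ∪ e = S.  So nOA ≥ 1.  nS1 y S = 1: S1src y S q with the
   first alternative (s := p).  12 + 4 ≤ 12 + 2 + 2.
Case 4: p, q neither in R nor in W: ldR = self ≤ 6.
-/

/-!
# Row Rn : the load of (y, S) when there is exactly one S-edge e at y
-/

open Finset Classical

universe u

namespace H70G3
namespace Ctx
variable {V : Type u} [Fintype V] [DecidableEq V] (c : Ctx V)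

theorem Rn_uniq {y p : V} {S : Finset V} (h : 8 < c.om y S p) : c.uniq y S p := by
  by_contra hu
  unfold om at h
  simp only [hu, if_false] at h
  split_ifs at h <;> omega

theorem Rn_e {y : V} {S e : Finset V} (he : at' c.E S y = {e}) : e ∈ c.E ∧ y ∈ e ∧ e ⊆ S :=
  c.mem_at.1 (by rw [he]; exact mem_singleton_self e)

theorem Rn_sum {y : V} {S e : Finset V} (he : at' c.E S y = {e}) :
    ∑ p, c.om y S p = ∑ p ∈ e.erase y, c.om y S p := by
  symm
  apply Finset.sum_subset (Finset.subset_univ _)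
  intro p _ hp
  by_contra h
  obtain ⟨hd, -, -⟩ := c.om_dep h
  obtain ⟨h1, h2, h3⟩ := c.Rn_e he
  exact hp (mem_erase.2 ⟨hd.2.1.symm, hd.2.2 e h1 h2 h3⟩)

theorem Rn_t {y : V} {S e : Finset V} (he : at' c.E S y = {e}) :
    c.t y S = 0 ∨ (c.t y S = 1 ∧ e ∈ c.tri y) := by
  have h1 : c.t y S ≤ 1 := by
    have := c.t_le_card y S
    rwa [he, card_singleton] at this
  rcases Nat.eq_zero_or_pos (c.t y S) with h0 | h0
  · exact Or.inl h0
  · refine Or.inr ⟨le_antisymm h1 h0, ?_⟩
    obtain ⟨f, hf⟩ := card_pos.1 h0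
    obtain ⟨hf1, hf2⟩ := mem_filter.1 hf
    obtain ⟨hfE, hyf⟩ := c.tri_sub y f hf1
    have h2 : f ∈ at' c.E S y := c.mem_at.2 ⟨hfE, hyf, hf2⟩
    rw [he, mem_singleton] at h2
    rwa [← h2]

theorem Rn_OA {y a x : V} {S X e : Finset V} (he : at' c.E S y = {e}) (het : e ∈ c.tri y)
    (hX : X ∈ c.D) (hXm : ∀ z, z ∈ X ↔ z ∈ S ∧ z ≠ a ∧ z ≠ y) (hay : a ≠ y)
    (haW : ¬ isW c.E a) (hxa : x ≠ a) (hxy : x ≠ y) (hxR : isR c.E x)
    (hexy : e = {y, a, x}) : c.OA y X e ∧ X ∪ e = S := by
  obtain ⟨heE, hye, heS⟩ := c.Rn_e he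
  have hae : a ∈ e := by rw [hexy]; simp
  have hxe : x ∈ e := by rw [hexy]; simp
  have hyX : y ∉ X := fun h => ((hXm y).1 h).2.2 rfl
  have haX : a ∉ X := fun h => ((hXm a).1 h).2.1 rfl
  have hun : X ∪ e = S := by
    ext z
    rw [mem_union]
    constructor
    · rintro (h | h)
      · exact ((hXm z).1 h).1
      · exact heS h
    · intro h
      by_cases h1 : z = a
      · right; rw [h1]; exact hae
      · by_cases h2 : z = y
        · right; rw [h2]; exact hye
        · left; exact (hXm z).2 ⟨h, h1, h2⟩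
  refine ⟨⟨⟨hX, hyX, ?_⟩, het, by rw [hun, he], a, x, haX, hay, haW, ?_, hxR, hexy⟩, hun⟩
  · intro hD
    obtain ⟨f, hf⟩ := c.exists_at hD (mem_insert_self y X)
    obtain ⟨hf1, hf2, hf3⟩ := c.mem_at.1 hf
    have hins : insert y X ⊆ S := by
      intro z hz
      rcases mem_insert.1 hz with rfl | hz
      · exact heS hye
      · exact ((hXm z).1 hz).1
    have h2 : f ∈ at' c.E S y := c.mem_at.2 ⟨hf1, hf2, hf3.trans hins⟩
    rw [he, mem_singleton] at h2
    have h3 : a ∈ insert y X := hf3 (by rw [h2]; exact hae)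
    rcases mem_insert.1 h3 with h4 | h4
    · exact hay h4
    · exact haX h4
  · exact (hXm x).2 ⟨heS hxe, hxa, hxy⟩

theorem Rn_nOA_pos {y : V} {S X e : Finset V} (h : c.OA y X e) (hu : X ∪ e = S) :
    1 ≤ c.nOA y S :=
  card_pos.2 ⟨(X, e), mem_filter.2 ⟨mem_univ _, h, hu⟩⟩

theorem Rn_nOA_two {y : V} {S X X' e : Finset V} (h : c.OA y X e) (hu : X ∪ e = S)
    (h' : c.OA y X' e) (hu' : X' ∪ e = S) (hne : X ≠ X') : 2 ≤ c.nOA y S :=
  one_lt_card.2 ⟨(X, e), mem_filter.2 ⟨mem_univ _, h, hu⟩, (X', e),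
    mem_filter.2 ⟨mem_univ _, h', hu'⟩, fun hc => hne (congrArg Prod.fst hc)⟩

/-- case 1 -/
theorem Rn_W {y p : V} {S e : Finset V} (hy : isR c.E y) (he : at' c.E S y = {e})
    (hp : isW c.E p) (hpe : p ∈ e) :
    c.ldR y S + 4 * c.t y S ≤ 12 + 4 * c.nWA y S := by
  obtain ⟨heE, hye, heS⟩ := c.Rn_e he
  have hcp : c.ctr p ∈ e := c.W_edge hp heE hpe
  have h1 : y ≠ p := c.ne_of_R_W hy hp
  have h2 : y ≠ c.ctr p := c.ne_of_R_C hy (c.ctr_isC hp)
  have h3 : p ≠ c.ctr p := (c.ctr_Dm hp).1
  have he3 : e = {y, p, c.ctr p} := c.edge_eq heE hye hpe hcp h1 h2 h3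
  have hself : c.self y S = 0 := c.self_zero_of_W hp hy (by rw [he, he3])
  have hsum : ∑ p', c.om y S p' = c.om y S p := by
    rw [c.Rn_sum he]
    have h4 : e.erase y = {p, c.ctr p} := by
      rw [he3]
      ext z
      simp only [mem_erase, mem_insert, mem_singleton]
      constructor
      · rintro ⟨h5, h6 | h6 | h6⟩
        · exact absurd h6 h5
        · exact Or.inl h6
        · exact Or.inr h6
      · rintro (h6 | h6)
        · exact ⟨by rw [h6]; exact h1.symm, Or.inr (Or.inl h6)⟩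
        · exact ⟨by rw [h6]; exact h2.symm, Or.inr (Or.inr h6)⟩
    rw [h4, sum_pair h3, c.om_zero (c.C_not_R (c.ctr_isC hp)) (c.C_not_W (c.ctr_isC hp)), add_zero]
  have hld : c.ldR y S = c.om y S p := by
    unfold ldR
    rw [hsum, hself, add_zero]
  rw [hld]
  rcases c.Rn_t he with ht | ⟨ht, het⟩
  · have := c.om_le y S p
    omega
  · by_cases h8 : 8 < c.om y S p
    · obtain ⟨hd, hc, hr⟩ := c.om_dep (show c.om y S p ≠ 0 by omega)
      obtain ⟨X, hX1, hX2⟩ := c.unit_W hy hp hc hr hd (c.Rn_uniq h8) (by rw [← he3]; exact het)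
      have h5 : 1 ≤ c.nWA y S :=
        card_pos.2 ⟨(X, {y, p, c.ctr p}), mem_filter.2 ⟨mem_univ _, hX1, hX2⟩⟩
      have := c.om_le y S p
      omega
    · omega

omit [Fintype V] in
theorem Rn_erase {y p q : V} {e : Finset V} (he3 : e = {y, p, q}) (h1 : y ≠ p) (h2 : y ≠ q) :
    e.erase y = {p, q} := by
  rw [he3]
  ext z
  simp only [mem_erase, mem_insert, mem_singleton]
  constructor
  · rintro ⟨h5, h6 | h6 | h6⟩
    · exact absurd h6 h5
    · exact Or.inl h6
    · exact Or.inr h6
  · rintro (h6 | h6)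
    · exact ⟨by rw [h6]; exact h1.symm, Or.inr (Or.inl h6)⟩
    · exact ⟨by rw [h6]; exact h2.symm, Or.inr (Or.inr h6)⟩

/-- the unit for a dependent `p` in `R`, partner `q` in `R` -/
theorem Rn_unit {y p q : V} {S e : Finset V} (hy : isR c.E y) (hS : S ∈ c.D)
    (he : at' c.E S y = {e}) (het : e ∈ c.tri y) (hp : isR c.E p) (hq : isR c.E q)
    (h1 : y ≠ p) (h2 : y ≠ q) (h3 : p ≠ q) (he3 : e = {y, p, q}) (hom : 3 < c.om y S p) :
    c.OA y ((S.erase p).erase y) e ∧ (S.erase p).erase y ∪ e = S := by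
  obtain ⟨hd, hc, hr⟩ := c.om_dep (show c.om y S p ≠ 0 by omega)
  have hu : c.uniq y S p := by
    by_contra hu
    have := c.om_R_le3 hp hu
    omega
  have hx : ∀ x, dep c.E S x p → x = y := by
    rcases c.sole_or_special hy hp hc hr hd hu with h | ⟨v, hv, hv2⟩
    · exact h
    · exfalso
      rw [he] at hv2
      have h4 : e = {y, p, v} := singleton_injective hv2
      have h5 : v ∈ e := by rw [h4]; simp
      rw [he3] at h5
      simp only [mem_insert, mem_singleton] at h5
      rcases h5 with rfl | rfl | rfl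
      · exact c.C_not_R hv hy
      · exact c.C_not_R hv hp
      · exact c.C_not_R hv hq
  have hX : (S.erase p).erase y ∈ c.D := c.erase_erase_D hS hd.2.2 hx
  refine c.Rn_OA he het hX ?_ h1.symm (fun h => c.W_not_R h hp) h3.symm h2.symm hq he3
  intro z
  simp only [mem_erase]
  tauto

/-- case 2 -/
theorem Rn_RR {y p q : V} {S e : Finset V} (hy : isR c.E y) (hS : S ∈ c.D)
    (he : at' c.E S y = {e}) (hp : isR c.E p) (hq : isR c.E q)
    (h1 : y ≠ p) (h2 : y ≠ q) (h3 : p ≠ q) (he3 : e = {y, p, q}) :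
    c.ldR y S + 4 * c.t y S ≤ 12 + 2 * c.nOA y S := by
  have hself : c.self y S = 0 := c.self_zero_of_R hy hp hq (by rw [he, he3])
  have hld : c.ldR y S = c.om y S p + c.om y S q := by
    unfold ldR
    rw [c.Rn_sum he, Rn_erase he3 h1 h2, sum_pair h3, hself, add_zero]
  rw [hld]
  have hp6 := c.om_R_le (y := y) (S := S) hp
  have hq6 := c.om_R_le (y := y) (S := S) hq
  rcases c.Rn_t he with ht | ⟨ht, het⟩
  · omega
  · have he3' : e = {y, q, p} := by
      rw [he3]
      ext z
      simp only [mem_insert, mem_singleton]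
      tauto
    by_cases hps : 3 < c.om y S p
    · obtain ⟨a1, a2⟩ := c.Rn_unit hy hS he het hp hq h1 h2 h3 he3 hps
      by_cases hqs : 3 < c.om y S q
      · obtain ⟨b1, b2⟩ := c.Rn_unit hy hS he het hq hp h2 h1 h3.symm he3' hqs
        have hne : (S.erase p).erase y ≠ (S.erase q).erase y := by
          intro h
          have h4 : q ∈ (S.erase p).erase y := by
            simp only [mem_erase]
            refine ⟨h2.symm, h3.symm, (c.Rn_e he).2.2 ?_⟩
            rw [he3]; simp
          rw [h] at h4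
          simp only [mem_erase] at h4
          exact h4.2.1 rfl
        have := c.Rn_nOA_two a1 a2 b1 b2 hne
        omega
      · have := c.Rn_nOA_pos a1 a2
        omega
    · by_cases hqs : 3 < c.om y S q
      · obtain ⟨b1, b2⟩ := c.Rn_unit hy hS he het hq hp h2 h1 h3.symm he3' hqs
        have := c.Rn_nOA_pos b1 b2
        omega
      · omega

/-- case 3 -/
theorem Rn_RN {y p q : V} {S e : Finset V} (hS : S ∈ c.D)
    (he : at' c.E S y = {e}) (hp : isR c.E p) (hq : ¬ isR c.E q) (hqW : ¬ isW c.E q)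
    (h1 : y ≠ p) (h2 : y ≠ q) (h3 : p ≠ q) (he3 : e = {y, p, q}) :
    c.ldR y S + 4 * c.t y S ≤ 12 + 2 * c.nOA y S + 2 * c.nS1 y S := by
  obtain ⟨heE, hye, heS⟩ := c.Rn_e he
  have hld : c.ldR y S = c.om y S p + c.self y S := by
    unfold ldR
    rw [c.Rn_sum he, Rn_erase he3 h1 h2, sum_pair h3, c.om_zero hq hqW, add_zero]
  rw [hld]
  have hp6 := c.om_R_le (y := y) (S := S) hp
  have hs6 := c.self_le y S
  rcases c.Rn_t he with ht | ⟨ht, het⟩
  · omega
  · by_cases hs : c.self y S = 0
    · omega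
    · have hcond : (∃ v, c.ias S y v) ∨ c.ib S y := by
        by_contra hcon
        apply hs
        unfold self
        rw [if_neg hcon]
      have hias : c.ias S y q := by
        rcases hcond with ⟨v, hv⟩ | ⟨-, -, v, v', hv, hv', -, hat⟩
        · obtain ⟨-, -, hvC, hdep, -, -, -, -⟩ := id hv
          have h4 : v ∈ e := hdep.2.2 e heE hye heS
          rw [he3] at h4
          simp only [mem_insert, mem_singleton] at h4
          rcases h4 with h4 | h4 | h4
          · exact absurd h4.symm hdep.2.1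
          · rw [h4] at hvC
            exact absurd hp (c.C_not_R hvC)
          · rwa [h4] at hv
        · exfalso
          rw [he] at hat
          have h4 : e = {y, v, v'} := singleton_injective hat
          have h5 : p ∈ e := by rw [he3]; simp
          rw [h4] at h5
          simp only [mem_insert, mem_singleton] at h5
          rcases h5 with h5 | h5 | h5
          · exact h1 h5.symm
          · rw [h5] at hp
            exact c.C_not_R hv hp
          · rw [h5] at hp
            exact c.C_not_R hv' hp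
      obtain ⟨-, -, hqC, hyq, hqy, hall, -, -⟩ := id hias
      have he3' : e = {y, q, p} := by
        rw [he3]
        ext z
        simp only [mem_insert, mem_singleton]
        tauto
      have hX : (S.erase y).erase q ∈ c.D := c.erase_erase_D hS hqy.2.2 hall
      obtain ⟨a1, a2⟩ := c.Rn_OA (a := q) (x := p) he het hX (by
        intro z
        simp only [mem_erase]
        tauto) h2.symm hqW h3 h1.symm hp he3'
      have b1 := c.Rn_nOA_pos a1 a2
      have b2 : c.nS1 y S = 1 := by
        unfold nS1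
        rw [if_pos]
        refine ⟨q, hias, Or.inl ⟨p, hp, h1.symm, ?_, ?_⟩⟩
        · rw [he, he3']
        · rw [← he3']
          exact het
      omega

theorem ldR_one {y : V} {S e : Finset V} (hy : isR c.E y) (h3 : (c.tri y).card = 3)
    (hS : S ∈ c.D) (he : at' c.E S y = {e}) :
    c.ldR y S + 4 * c.t y S ≤ 12 + 2 * c.nOA y S + 4 * c.nWA y S + 2 * c.nS1 y S := by
  obtain ⟨heE, hye, heS⟩ := c.Rn_e he
  by_cases hW : ∃ p ∈ e, isW c.E p
  · obtain ⟨p, hpe, hp⟩ := hW
    have := c.Rn_W hy he hp hpe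
    omega
  have hW' : ∀ p ∈ e, ¬ isW c.E p := fun p hp h => hW ⟨p, hp, h⟩
  have hcard := c.card_le e heE
  have hce : (e.erase y).card ≤ 2 := by
    rw [card_erase_of_mem hye]
    omega
  have hpos : 0 < (e.erase y).card := by
    rw [card_pos]
    by_contra hcon
    rw [not_nonempty_iff_eq_empty, erase_eq_empty_iff] at hcon
    rcases hcon with h | h
    · rw [h] at hye
      exact notMem_empty y hye
    · rw [h] at heE
      exact c.R_not_L hy heE
  rcases (show (e.erase y).card = 1 ∨ (e.erase y).card = 2 by omega) with h1 | h2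
  · obtain ⟨a, ha⟩ := card_eq_one.1 h1
    have hae : a ∈ e.erase y := by rw [ha]; exact mem_singleton_self a
    obtain ⟨hay, hae'⟩ := mem_erase.1 hae
    have hmem : ∀ z ∈ e, z ≠ y → z = a := by
      intro z hz hzy
      have : z ∈ e.erase y := mem_erase.2 ⟨hzy, hz⟩
      rw [ha] at this
      exact mem_singleton.1 this
    have hld : c.ldR y S = c.om y S a + c.self y S := by
      unfold ldR
      rw [c.Rn_sum he, ha, sum_singleton]
    have hs6 := c.self_le y S
    have ht : c.t y S ≤ 1 := by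
      rcases c.Rn_t he with ht | ⟨ht, -⟩ <;> omega
    by_cases haR : isR c.E a
    · have hself : c.self y S = 0 := by
        unfold self
        rw [if_neg]
        rintro (⟨v, hv⟩ | ⟨-, -, v, v', hv, hv', hne, hat⟩)
        · obtain ⟨-, -, hvC, hdep, -, -, -, -⟩ := hv
          have h4 := hmem v (hdep.2.2 e heE hye heS) hdep.2.1.symm
          rw [h4] at hvC
          exact c.C_not_R hvC haR
        · rw [he] at hat
          have h4 : e = {y, v, v'} := singleton_injective hat
          have h5 := hmem v (by rw [h4]; simp) (c.ne_of_R_C hy hv).symm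
          have h6 := hmem v' (by rw [h4]; simp) (c.ne_of_R_C hy hv').symm
          exact hne (h5.trans h6.symm)
      have := c.om_R_le (y := y) (S := S) haR
      rw [hld, hself]
      omega
    · rw [hld, c.om_zero haR (hW' a hae')]
      omega
  · obtain ⟨p, q, hpq, hpqe⟩ := card_eq_two.1 h2
    have hpe : p ∈ e.erase y := by rw [hpqe]; simp
    have hqe : q ∈ e.erase y := by rw [hpqe]; simp
    obtain ⟨hpy, hpe'⟩ := mem_erase.1 hpe
    obtain ⟨hqy, hqe'⟩ := mem_erase.1 hqe
    have he3 : e = {y, p, q} := c.edge_eq heE hye hpe' hqe' hpy.symm hqy.symm hpq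
    have he3' : e = {y, q, p} := c.edge_eq heE hye hqe' hpe' hqy.symm hpy.symm hpq.symm
    by_cases hp : isR c.E p
    · by_cases hq : isR c.E q
      · have := c.Rn_RR hy hS he hp hq hpy.symm hqy.symm hpq he3
        omega
      · have := c.Rn_RN hS he hp hq (hW' q hqe') hpy.symm hqy.symm hpq he3
        omega
    · by_cases hq : isR c.E q
      · have := c.Rn_RN hS he hq hp (hW' p hpe') hqy.symm hpy.symm hpq.symm he3'
        omega
      · have hld : c.ldR y S = c.self y S := by
          unfold ldR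
          rw [c.Rn_sum he, hpqe, sum_pair hpq, c.om_zero hp (hW' p hpe'),
            c.om_zero hq (hW' q hqe')]
          omega
        have hs6 := c.self_le y S
        have ht : c.t y S ≤ 1 := by
          rcases c.Rn_t he with ht | ⟨ht, -⟩ <;> omega
        rw [hld]
        omega

end Ctx
end H70G3
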