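import Pool.Agent.H70.G3.Basic

/-!
# Row Rp : pairs of active edges and the third chosen edge

e W-active: e = {y,w,v}, v = ctr w, isW w, w ∉ X, y ∉ X, at' E (X ∪ e) y = {e}, and (v ∈ X or all (X ∪ e)-edges at v contain w).  y, w, v pairwise different.
Facts: an edge at y (in E) containing w contains v, so equals e (`W_edge`, `edge_eq`).
theorem pair_shape: f ≠ e active (W or O), v ∈ f.  f = {y, v, u} or {y, v} (w ∉ f).  f ⊄ X ∪ e because at' E (X ∪ e) y = {e}; so f = {y,v,u} with u ∉ X, u ∉ e (if f = {y,v} then f ⊆ e).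
  f O-active: f = {y,a,x}, a ∉ X, x ∈ X ∩ R, so {a,x} = {v,u}; x ∈ R so x ≠ v; x = u ∉ X: contradiction.  f W-active: f = {y,w',ctr w'} so {w', ctr w'} = {v,u}, w' ≠ v (v ∈ C), so w' = u, ctr w' = v.
theorem third_edge: g ∈ tri y different from e, f, g ⊆ X ∪ e ∪ f.  g ⊄ X ∪ e and g ⊄ X ∪ f (at' E (X ∪ f) y = {f}).  So there are α ∈ g, α ∈ e, α ∉ X ∪ f and β ∈ g, β ∈ f, β ∉ X ∪ e.
  α ≠ y (y ∈ f), α ≠ w (otherwise g = e), so α = v, v ∉ X, v ∉ f.  β ≠ y, β ≠ v.  So g = {y,v,β} (`edge_eq`).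
  f O-active, f = {y,a,x}, x ∈ X: β = a (β ∉ X, β ≠ y).  Then g is not O-active (it would contain a vertex of X, which is in {y,v,a}: none in X) and not W-active
   (it would be {y,w'',ctr w''} with w'' ∈ {v, a}: v ∈ C, ¬ isW a).
  f W-active, f = {y,w',v'}: β = w': then g contains w', so g = f, contradiction; so β = v' ∉ X; g = {y,v,v'}, v ≠ v' since v' = β ∉ e.
-/

open Finset Classical

universe u

namespace H70G3
namespace Ctx
variable {V : Type u} [Fintype V] [DecidableEq V] (c : Ctx V)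

theorem WA_edge {y w : V} {X g : Finset V} (hy : isR c.E y) (hw : isW c.E w) (hg : g ∈ c.E)
    (hyg : y ∈ g) (hwg : w ∈ g) : g = {y, w, c.ctr w} := by
  exact c.edge_eq hg hyg hwg (c.W_edge hw hg hwg) (c.ne_of_R_W hy hw)
    (c.ne_of_R_C hy (c.ctr_isC hw)) (c.ne_of_W_C hw (c.ctr_isC hw))

theorem Rp_act {y : V} {X f : Finset V} (hf : c.WA y X f ∨ c.OA y X f) :
    f ∈ c.tri y ∧ at' c.E (X ∪ f) y = {f} := by
  rcases hf with hf | hf
  · exact ⟨hf.2.1, hf.2.2.1⟩
  · exact ⟨hf.2.1, hf.2.2.1⟩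

theorem Rp_nsub {y : V} {X e g : Finset V} (hat : at' c.E (X ∪ e) y = {e}) (hg : g ∈ c.tri y)
    (hge : g ≠ e) : ¬ g ⊆ X ∪ e := by
  intro hsub
  have h1 : g ∈ at' c.E (X ∪ e) y := by
    rw [c.mem_at]
    exact ⟨(c.tri_sub y g hg).1, (c.tri_sub y g hg).2, hsub⟩
  rw [hat, mem_singleton] at h1
  exact hge h1

theorem pair_shape {y w : V} {X f : Finset V} (hy : isR c.E y) (hw : isW c.E w)
    (he : c.WA y X {y, w, c.ctr w}) (hf : c.WA y X f ∨ c.OA y X f) (hne : f ≠ {y, w, c.ctr w})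
    (hv : c.ctr w ∈ f) : ∃ w', isW c.E w' ∧ c.ctr w' = c.ctr w ∧ f = {y, c.ctr w, w'} := by
  have hyv : y ≠ c.ctr w := c.ne_of_R_C hy (c.ctr_isC hw)
  have hfE := c.Rp_act hf
  have hns := c.Rp_nsub he.2.2.1 hfE.1 hne
  rcases hf with hf | hf
  · obtain ⟨-, -, -, w', hw', -, hfe, -⟩ := hf
    have h1 : c.ctr w = c.ctr w' := by
      rw [hfe] at hv
      simp only [mem_insert, mem_singleton] at hv
      rcases hv with h | h | h
      · exact absurd h.symm hyv
      · exact absurd (h ▸ c.ctr_isC hw) (c.W_not_C hw')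
      · exact h
    refine ⟨w', hw', h1.symm, ?_⟩
    rw [hfe, ← h1]
    ext z
    simp only [mem_insert, mem_singleton]
    tauto
  · obtain ⟨-, -, -, a, x, haX, hay, haW, hxX, hxR, hfe⟩ := hf
    exfalso
    rw [hfe] at hv
    simp only [mem_insert, mem_singleton] at hv
    rcases hv with h | h | h
    · exact hyv h.symm
    · apply hns
      rw [hfe]
      intro z hz
      simp only [mem_insert, mem_singleton] at hz
      simp only [mem_union, mem_insert, mem_singleton]
      rcases hz with rfl | rfl | rfl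
      · exact Or.inr (Or.inl rfl)
      · exact Or.inr (Or.inr (Or.inr h.symm))
      · exact Or.inl hxX
    · exact c.C_not_R (h ▸ c.ctr_isC hw) hxR

theorem third_edge {y w : V} {X f g : Finset V} (hy : isR c.E y) (hw : isW c.E w) (hwX : w ∉ X)
    (he : c.WA y X {y, w, c.ctr w}) (hf : c.WA y X f ∨ c.OA y X f) (hne : f ≠ {y, w, c.ctr w})
    (hg : g ∈ c.tri y) (hge : g ≠ {y, w, c.ctr w}) (hgf : g ≠ f)
    (hsub : g ⊆ X ∪ {y, w, c.ctr w} ∪ f) :
    (∃ w', isW c.E w' ∧ c.WA y X f ∧ f = {y, w', c.ctr w'} ∧ g = {y, c.ctr w, c.ctr w'} ∧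
      c.ctr w ≠ c.ctr w' ∧ c.ctr w ∉ X ∧ c.ctr w' ∉ X) ∨
    (¬ c.WA y X f ∧ ¬ c.WA y X g ∧ ¬ c.OA y X g) := by
  have hyv : y ≠ c.ctr w := c.ne_of_R_C hy (c.ctr_isC hw)
  have hfE := c.Rp_act hf
  have hyX : y ∉ X := he.1.2.1
  have hgE := (c.tri_sub y g hg).1
  have hyg := (c.tri_sub y g hg).2
  have hyf := (c.tri_sub y f hfE.1).2
  obtain ⟨β, hβg, hβ⟩ := not_subset.1 (c.Rp_nsub he.2.2.1 hg hge)
  obtain ⟨α, hαg, hα⟩ := not_subset.1 (c.Rp_nsub hfE.2 hg hgf)
  have hβs := hsub hβg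
  have hαs := hsub hαg
  simp only [mem_union, mem_insert, mem_singleton, not_or] at hβ hα hβs hαs
  obtain ⟨hβX, hβy, hβw, hβv⟩ := hβ
  obtain ⟨hαX, hαf⟩ := hα
  have hβf : β ∈ f := by
    rcases hβs with (h | h | h | h) | h
    · exact absurd h hβX
    · exact absurd h hβy
    · exact absurd h hβw
    · exact absurd h hβv
    · exact h
  have hαv : α = c.ctr w := by
    rcases hαs with (h | h | h | h) | h
    · exact absurd h hαX
    · exact absurd (h ▸ hyf) hαf
    · exact absurd (c.WA_edge (X := X) hy hw hgE hyg (h ▸ hαg)) hge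
    · exact h
    · exact absurd h hαf
  rw [hαv] at hαg hαX hαf
  have hgeq : g = {y, c.ctr w, β} :=
    c.edge_eq hgE hyg hαg hβg hyv (fun h => hβy h.symm) (fun h => hβv h.symm)
  by_cases hWf : c.WA y X f
  · left
    obtain ⟨-, -, -, w', hw', -, hfe, -⟩ := id hWf
    have hβ' : β = c.ctr w' := by
      rw [hfe] at hβf
      simp only [mem_insert, mem_singleton] at hβf
      rcases hβf with h | h | h
      · exact absurd h hβy
      · exfalso
        apply hgf
        rw [hfe]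
        exact c.WA_edge (X := X) hy hw' hgE hyg (h ▸ hβg)
      · exact h
    rw [hβ'] at hgeq hβX hβv
    exact ⟨w', hw', hWf, hfe, hgeq, fun h => hβv h.symm, hαX, hβX⟩
  · right
    have hOf : c.OA y X f := hf.resolve_left hWf
    obtain ⟨-, -, -, a, x, haX, hay, haW, hxX, hxR, hfe⟩ := hOf
    have hβa : β = a := by
      rw [hfe] at hβf
      simp only [mem_insert, mem_singleton] at hβf
      rcases hβf with h | h | h
      · exact absurd h hβy
      · exact h
      · exact absurd (h ▸ hxX) hβX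
    refine ⟨hWf, ?_, ?_⟩
    · rintro ⟨-, -, -, w'', hw'', -, hge', -⟩
      have h1 : w'' ∈ g := by
        rw [hge']
        simp
      rw [hgeq] at h1
      simp only [mem_insert, mem_singleton] at h1
      rcases h1 with h | h | h
      · exact c.ne_of_R_W hy hw'' h.symm
      · exact c.C_not_W (c.ctr_isC hw) (h ▸ hw'')
      · exact haW (hβa ▸ h ▸ hw'')
    · rintro ⟨-, -, -, a', x', -, -, -, hxX', -, hge'⟩
      have h1 : x' ∈ g := by
        rw [hge']
        simp
      rw [hgeq] at h1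
      simp only [mem_insert, mem_singleton] at h1
      rcases h1 with h | h | h
      · exact hyX (h ▸ hxX')
      · exact hαX (h ▸ hxX')
      · exact hβX (h ▸ hxX')

end Ctx
end H70G3
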