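import Pool.Agent.H70.G3.Defs

/-!
# MP_75f39d_G3, second theorem (sparse generators, any number of generators per element): definitions
-/

open Finset Classical

universe u

namespace H70G3
variable {V : Type u} [Fintype V] [DecidableEq V]

/-- number of edges of `F` inside `S` -/
noncomputable def tt (F : Finset (Finset V)) (S : Finset V) : ℕ := (F.filter (fun e => e ⊆ S)).card

/-- members of `D` containing `w` with exactly `j` edges of `F` inside -/
noncomputable def aa (E F : Finset (Finset V)) (w : V) (j : ℕ) : ℕ :=
  ((Dset E).filter (fun S => w ∈ S ∧ tt F S = j)).card

/-- critical members for `p` -/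
noncomputable def cr (E : Finset (Finset V)) (p : V) : ℕ :=
  ((Dset E).filter (fun S => p ∈ S ∧ S.erase p ∉ Dset E)).card

/-- members not containing `p` to which `p` cannot be added -/
noncomputable def un (E : Finset (Finset V)) (p : V) : ℕ :=
  ((Dset E).filter (fun S => p ∉ S ∧ insert p S ∉ Dset E)).card

end H70G3
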