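import Pool.Agent.H70.G3.SDefs

/-!
# Row Sa : toggling one vertex

D = Dset E, A = {S ∈ D : w ∈ S}, B = {S ∈ D : w ∉ S}; card D = card A + card B.  S ↦ S.erase w is a bijection from {S ∈ A : S.erase w ∈ D} onto {X ∈ B : insert w X ∈ D}:
so card A + un = card B + cr.  For e ∈ F let m_e = card {S ∈ A : ¬ e ⊆ S}; since w ∈ e, card {S ∈ D : e ⊆ S} = card A - m_e; hP: card A + card B ≤ 2 (card A - m_e), so 2 m_e + un ≤ cr.
Sum over e ∈ F: 2 Σ_e m_e + card F * un ≤ card F * cr and Σ_e m_e = Σ_{S ∈ A} (card F - tt F S) (double counting, tt F S ≤ card F).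
-/

open Finset Classical

universe u

namespace H70G3
variable {V : Type u} [Fintype V] [DecidableEq V]

theorem toggle_one {E F : Finset (Finset V)} {w : V} (hF : ∀ e ∈ F, w ∈ e)
    (hP : ∀ e ∈ F, (Dset E).card ≤ 2 * ((Dset E).filter (fun S => e ⊆ S)).card) :
    F.card * un E w + 2 * ∑ S ∈ (Dset E).filter (fun S => w ∈ S), (F.card - tt F S) ≤
      F.card * cr E w := by
  sorry

end H70G3
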