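import Pool.Agent.H70.G3.SDefs

/-!
# Row Sb : adding a petal

Let A_j = {S ∈ D : w ∈ S, tt F S = j}.  Consider the pairs (S, e), S ∈ A_j, e ∈ F, ¬ e ⊆ S: there are (card F - j) * aa j of them.
For such a pair T := S ∪ e ∈ D (S ∈ D, e ∈ E; union of unions of edges), w ∈ T, tt F T = j + 1: an edge f ∈ F, f ≠ e, with f ⊆ S ∪ e has f \ {w} disjoint from e (hdisj), so f ⊆ S; and e ⊆ T, ¬ e ⊆ S.
Map (S,e) ↦ (T, e, S ∩ (e.erase w)); it is injective: S = (T \ (e.erase w)) ∪ (S ∩ e.erase w) since S \ e.erase w = T \ e.erase w.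
The image lies in {(T, e, Z) : T ∈ A_(j+1), e ∈ F, e ⊆ T, Z ⊆ e.erase w, Z ≠ e.erase w}: for T there are j + 1 choices of e, and at most 2^(card e - 1) - 1 ≤ 2^(r-1) - 1 choices of Z.
(Z ≠ e.erase w because otherwise e ⊆ S, as w ∈ S.)
-/

open Finset Classical

universe u

namespace H70G3
variable {V : Type u} [Fintype V] [DecidableEq V]

theorem add_petal {E F : Finset (Finset V)} {w : V} {r : ℕ} (hFE : F ⊆ E) (hF : ∀ e ∈ F, w ∈ e)
    (hr : ∀ e ∈ F, e.card ≤ r)
    (hdisj : ∀ e ∈ F, ∀ f ∈ F, e ≠ f → ∀ x ∈ e, x ∈ f → x = w) (j : ℕ) :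
    (F.card - j) * aa E F w j ≤ (j + 1) * (2 ^ (r - 1) - 1) * aa E F w (j + 1) := by
  set A : ℕ → Finset (Finset V) := fun k => (Dset E).filter (fun S => w ∈ S ∧ tt F S = k) with hA
  have haa : ∀ k, aa E F w k = (A k).card := fun k => rfl
  have memA : ∀ k S, S ∈ A k ↔ isD E S ∧ w ∈ S ∧ tt F S = k := by
    intro k S
    simp [hA, Dset]
  let P : Finset (Sigma fun _ : Finset V => Finset V) :=
    (A j).sigma (fun S => F.filter (fun e => ¬ e ⊆ S))
  let Q : Finset (Sigma fun _ : Finset V => Sigma fun _ : Finset V => Finset V) :=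
    (A (j + 1)).sigma (fun T => (F.filter (fun e => e ⊆ T)).sigma
      (fun e => (e.erase w).powerset.erase (e.erase w)))
  have hP : P.card = (F.card - j) * aa E F w j := by
    have h1 : ∀ S ∈ A j, (F.filter (fun e => ¬ e ⊆ S)).card = F.card - j := by
      intro S hS
      have h2 := ((memA j S).1 hS).2.2
      unfold tt at h2
      have h3 := card_filter_add_card_filter_not (s := F) (fun e => e ⊆ S)
      omega
    change ((A j).sigma (fun S => F.filter (fun e => ¬ e ⊆ S))).card = _
    rw [card_sigma, sum_congr rfl h1, sum_const, smul_eq_mul, haa, mul_comm]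
  have hQ : Q.card ≤ (j + 1) * (2 ^ (r - 1) - 1) * aa E F w (j + 1) := by
    have h1 : ∀ T ∈ A (j + 1), ((F.filter (fun e => e ⊆ T)).sigma
        (fun e => (e.erase w).powerset.erase (e.erase w))).card ≤ (j + 1) * (2 ^ (r - 1) - 1) := by
      intro T hT
      have h2 := ((memA (j + 1) T).1 hT).2.2
      unfold tt at h2
      rw [card_sigma]
      calc ∑ e ∈ F.filter (fun e => e ⊆ T), ((e.erase w).powerset.erase (e.erase w)).card
          ≤ ∑ e ∈ F.filter (fun e => e ⊆ T), (2 ^ (r - 1) - 1) := by
            apply sum_le_sum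
            intro e he
            have heF := (mem_filter.1 he).1
            rw [card_erase_of_mem (mem_powerset.2 (Subset.refl _)), card_powerset,
              card_erase_of_mem (hF e heF)]
            have h3 := hr e heF
            have h4 : 2 ^ (e.card - 1) ≤ 2 ^ (r - 1) := Nat.pow_le_pow_right (by norm_num) (by omega)
            omega
        _ = (j + 1) * (2 ^ (r - 1) - 1) := by
            rw [sum_const, smul_eq_mul, h2]
    change ((A (j + 1)).sigma _).card ≤ _
    rw [card_sigma, haa]
    calc _ ≤ ∑ T ∈ A (j + 1), (j + 1) * (2 ^ (r - 1) - 1) := sum_le_sum h1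
      _ = _ := by rw [sum_const, smul_eq_mul, mul_comm]
  rw [← hP]
  refine le_trans ?_ hQ
  have hkey : ∀ S e, isD E S → w ∈ S → tt F S = j → e ∈ F → ¬ e ⊆ S →
      isD E (S ∪ e) ∧ tt F (S ∪ e) = j + 1 := by
    intro S e hS hw ht he hn
    constructor
    · intro v hv
      rcases mem_union.1 hv with h | h
      · obtain ⟨g, hg, h1, h2⟩ := hS v h
        exact ⟨g, hg, h1, h2.trans subset_union_left⟩
      · exact ⟨e, hFE he, h, subset_union_right⟩
    · unfold tt at ht ⊢
      have h1 : F.filter (fun f => f ⊆ S ∪ e) = insert e (F.filter (fun f => f ⊆ S)) := by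
        ext f
        simp only [mem_filter, mem_insert]
        constructor
        · rintro ⟨h1, h2⟩
          by_cases hfe : f = e
          · exact Or.inl hfe
          · refine Or.inr ⟨h1, ?_⟩
            intro x hx
            rcases mem_union.1 (h2 hx) with h3 | h3
            · exact h3
            · rw [hdisj f h1 e he hfe x hx h3]; exact hw
        · rintro (h1 | ⟨h1, h2⟩)
          · rw [h1]; exact ⟨he, subset_union_right⟩
          · exact ⟨h1, h2.trans subset_union_left⟩
      rw [h1, card_insert_of_notMem, ht]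
      rw [mem_filter]
      exact fun h => hn h.2
  apply card_le_card_of_injOn
    (fun x : (Sigma fun _ : Finset V => Finset V) =>
      (⟨x.1 ∪ x.2, x.2, x.1 ∩ (x.2.erase w)⟩ :
        Sigma fun _ : Finset V => Sigma fun _ : Finset V => Finset V))
  · rintro ⟨S, e⟩ hx
    have hx' := mem_sigma.1 (mem_coe.1 hx)
    obtain ⟨hS, he⟩ := hx'
    simp only at hS he
    rw [memA] at hS
    rw [mem_filter] at he
    obtain ⟨h1, h2⟩ := hkey S e hS.1 hS.2.1 hS.2.2 he.1 he.2
    apply mem_coe.2
    apply mem_sigma.2
    refine ⟨?_, ?_⟩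
    · simp only
      rw [memA]
      exact ⟨h1, mem_union_left _ hS.2.1, h2⟩
    · apply mem_sigma.2
      refine ⟨?_, ?_⟩
      · simp only
        rw [mem_filter]
        exact ⟨he.1, subset_union_right⟩
      · simp only
        rw [mem_erase, mem_powerset]
        refine ⟨?_, inter_subset_right⟩
        intro h3
        apply he.2
        intro x hx
        by_cases hxw : x = w
        · rw [hxw]; exact hS.2.1
        · have h4 : x ∈ e.erase w := mem_erase.2 ⟨hxw, hx⟩
          rw [← h3] at h4
          exact (mem_inter.1 h4).1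
  · rintro ⟨S, e⟩ hx ⟨S', e'⟩ hx' heq
    simp only [Sigma.mk.injEq, heq_eq_eq] at heq
    obtain ⟨h1, h2, h3⟩ := heq
    subst h2
    have hS : S = S' := by
      ext x
      by_cases hxe : x ∈ e.erase w
      · constructor
        · intro hxS
          have h4 : x ∈ S ∩ e.erase w := mem_inter.2 ⟨hxS, hxe⟩
          rw [h3] at h4
          exact (mem_inter.1 h4).1
        · intro hxS
          have h4 : x ∈ S' ∩ e.erase w := mem_inter.2 ⟨hxS, hxe⟩
          rw [← h3] at h4
          exact (mem_inter.1 h4).1
      · have hw1 : w ∈ S := by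
          have := (mem_sigma.1 (mem_coe.1 hx)).1
          simp only at this
          rw [memA] at this
          exact this.2.1
        have hw2 : w ∈ S' := by
          have := (mem_sigma.1 (mem_coe.1 hx')).1
          simp only at this
          rw [memA] at this
          exact this.2.1
        by_cases hxw : x = w
        · rw [hxw]; simp only [hw1, hw2]
        · have hxe' : x ∉ e := fun h => hxe (mem_erase.2 ⟨hxw, h⟩)
          have h5 : x ∈ S ∪ e ↔ x ∈ S' ∪ e := by rw [h1]
          simp only [mem_union, hxe', or_false] at h5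
          exact h5
    rw [hS]

end H70G3
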