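import Pool.Agent.H70.G3.SDefs

/-!
# Row Sc : critical vertices are charged to dependent vertices

For S ∈ D, p ∈ S with S.erase p ∉ D there is y with dep E S y p: y ∈ S.erase p such that no edge e with y ∈ e is ⊆ S.erase p.  y is not a loop ({y} ⊆ S gives p ∈ {y}).
So Σ_{p not a loop} cr E p ≤ Σ_{y not a loop} Σ_{S ∈ D, y ∈ S} card {p : dep E S y p}  (card of a set of pairs (S,p) ≤ number of triples (S,y,p)).
For y not a loop, y ∈ S ∈ D: there is an edge e, y ∈ e ⊆ S, and {p : dep E S y p} ⊆ e.erase y: at most r - 1.  If tt (F y) S ≥ 2: two different edges e, f ∈ F y inside S, a p with dep E S y p is in e and f,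
 so p = y, but p ≠ y: the set is empty.  So the inner sum is ≤ (r - 1) * (aa 0 + aa 1).
-/

open Finset Classical

universe u

namespace H70G3
variable {V : Type u} [Fintype V] [DecidableEq V]

theorem crit_le {E : Finset (Finset V)} {r : ℕ} (hr : ∀ e ∈ E, e.card ≤ r)
    (F : V → Finset (Finset V)) (hFE : ∀ w, F w ⊆ E) (hF : ∀ w, ∀ e ∈ F w, w ∈ e)
    (hdisj : ∀ w, ∀ e ∈ F w, ∀ f ∈ F w, e ≠ f → ∀ x ∈ e, x ∈ f → x = w) :
    ∑ p ∈ univ.filter (fun p => ¬ isL E p), cr E p ≤
      ∑ y ∈ univ.filter (fun y => ¬ isL E y),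
        (r - 1) * (aa E (F y) y 0 + aa E (F y) y 1) := by
  sorry

end H70G3
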