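import Pool.Agent.H70.G3.Sa
import Pool.Agent.H70.G3.Sb
import Pool.Agent.H70.G3.Sc

/-!
# Row Sd : all vertices are loops

Suppose some vertex is not a loop.  For every w that is not a loop we show (r - 1) * (a0 + a1) < cr E w, where a_j = aa E (F w) w j; summed over the non-loops this contradicts `crit_le`.
Let m = card (F w) ≥ r 2^r, q = 2^(r-1) - 1.  r ≥ 2: an edge at w (some e ∈ F w, m ≥ 1) is not {w}, so has ≥ 2 elements (r = 0, 1: r*2^r ≤ m; if r ≤ 1 the edges at w have ≤ 1 element, so equal {w}: take hcov).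
`toggle_one` with F w: m un + 2 Σ_{S ∋ w} (m - tt) ≤ m cr.
`add_petal` j = 0: m a0 ≤ q a1;  j = 1: (m - 1) a1 ≤ 2 q a2.
Case a2 = 0: then (m - 1) a1 = 0, a1 = 0, a0 = 0; un ≥ 1: ∅ ∈ D, insert w ∅ = {w} ∉ D (an edge inside {w} containing w is {w}, w not a loop); so m ≤ m cr and cr ≥ 1 > 0 = (r-1)(a0+a1).
Case a2 ≥ 1: Σ_{S ∋ w} (m - tt) ≥ (m - 2) a2, so m cr ≥ 2 (m - 2) a2 ≥ m a2 (m ≥ 4), so cr ≥ a2.  It remains (r - 1) (a0 + a1) < a2.
 r a0 ≤ a1 / 2...: in integers: from m ≥ r 2^r = 2 r 2^(r-1) > 2 r q: 2 r q a0 ≤ m a0 ≤ q a1 so 2 r a0 ≤ a1 (q ≥ 1 as r ≥ 2).  m - 1 ≥ r 2^r - 1 ≥ 2 r q (as r 2^r - 2 r q = 2 r ≥ 1): 2 r q a1 ≤ (m - 1) a1 ≤ 2 q a2, so r a1 ≤ a2.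
 So 2 r (r - 1)(a0 + a1) ≤ (r - 1)(a1 + 2 r a1) = (r - 1)(2 r + 1) a1, and r a1 ≤ a2: 2 r^2 (r-1)(a0+a1) ≤ (r-1)(2r+1) a2 < 2 r^2 a2 since (r-1)(2r+1) = 2r^2 - r - 1 < 2 r^2 and a2 ≥ 1.
-/

open Finset Classical

universe u

namespace H70G3
variable {V : Type u} [Fintype V] [DecidableEq V]

lemma Sd_arith {s q m a0 a1 a2 : ℕ} (hq : 1 ≤ q) (hm : 2 * (s + 1) * (q + 1) ≤ m)
    (h0 : m * a0 ≤ q * a1) (h1 : (m - 1) * a1 ≤ 2 * q * a2) (h2 : 1 ≤ a2) :
    s * (a0 + a1) < a2 := by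
  have e0 : 2 * (s + 1) * a0 ≤ a1 := by
    have h3 : q * (2 * (s + 1) * a0) ≤ q * a1 := by
      calc q * (2 * (s + 1) * a0) = (2 * (s + 1) * q) * a0 := by ring
        _ ≤ m * a0 := by
          apply Nat.mul_le_mul_right
          refine le_trans ?_ hm
          exact Nat.mul_le_mul_left _ (Nat.le_succ q)
        _ ≤ q * a1 := h0
    exact Nat.le_of_mul_le_mul_left h3 hq
  have e1 : (s + 1) * a1 ≤ a2 := by
    have h3 : (2 * q) * ((s + 1) * a1) ≤ (2 * q) * a2 := by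
      calc (2 * q) * ((s + 1) * a1) = (2 * (s + 1) * q) * a1 := by ring
        _ ≤ (m - 1) * a1 := by
          apply Nat.mul_le_mul_right
          have h4 : 2 * (s + 1) * (q + 1) = 2 * (s + 1) * q + 2 * (s + 1) := by ring
          omega
        _ ≤ 2 * q * a2 := h1
    exact Nat.le_of_mul_le_mul_left h3 (by omega)
  by_contra hcon
  push Not at hcon
  have k1 : (2 * (s + 1) * (s + 1)) * a2 ≤ (2 * (s + 1) * (s + 1)) * (s * (a0 + a1)) :=
    Nat.mul_le_mul_left _ hcon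
  have k2 : (s + 1) * s * (2 * (s + 1) * a0) ≤ (s + 1) * s * a1 := Nat.mul_le_mul_left _ e0
  have k3 : (s * (2 * s + 3)) * ((s + 1) * a1) ≤ (s * (2 * s + 3)) * a2 :=
    Nat.mul_le_mul_left _ e1
  have k4 : (2 * (s + 1) * (s + 1)) * (s * (a0 + a1)) =
      (s + 1) * s * (2 * (s + 1) * a0) + (s + 1) * s * (2 * (s + 1)) * a1 := by ring
  have k5 : (s + 1) * s * a1 + (s + 1) * s * (2 * (s + 1)) * a1 =
      (s * (2 * s + 3)) * ((s + 1) * a1) := by ring
  have k6 : (2 * (s + 1) * (s + 1)) * a2 = (s * (2 * s + 3)) * a2 + (s + 2) * a2 := by ring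
  have k7 : 0 < (s + 2) * a2 := Nat.mul_pos (by omega) h2
  omega

lemma Sd_local {E : Finset (Finset V)} {r : ℕ} (hr : ∀ e ∈ E, e.card ≤ r)
    (hcov : ∀ v, ∃ e ∈ E, v ∈ e)
    (hP : ∀ e ∈ E, (Dset E).card ≤ 2 * ((Dset E).filter (fun S => e ⊆ S)).card)
    {w : V} (hw : ¬ isL E w) {F : Finset (Finset V)} (hFE : F ⊆ E) (hm : r * 2 ^ r ≤ F.card)
    (hF : ∀ e ∈ F, w ∈ e)
    (hdisj : ∀ e ∈ F, ∀ f ∈ F, e ≠ f → ∀ x ∈ e, x ∈ f → x = w) :
    (r - 1) * (aa E F w 0 + aa E F w 1) < cr E w := by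
  have hr2 : 2 ≤ r := by
    by_contra hcon
    obtain ⟨e, he, hwe⟩ := hcov w
    have h1 : e.card ≤ 1 := le_trans (hr e he) (by omega)
    have h2 : e = {w} := by
      apply Finset.eq_singleton_iff_unique_mem.2
      refine ⟨hwe, fun x hx => ?_⟩
      exact Finset.card_le_one.1 h1 x hx w hwe
    exact hw (by rw [isL, ← h2]; exact he)
  obtain ⟨s, rfl⟩ : ∃ s, r = s + 1 := ⟨r - 1, by omega⟩
  have hs : 1 ≤ s := by omega
  have hQ : 2 ≤ 2 ^ s := by
    calc 2 = 2 ^ 1 := by norm_num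
      _ ≤ 2 ^ s := Nat.pow_le_pow_right (by norm_num) hs
  obtain ⟨q, hq⟩ : ∃ q, 2 ^ s = q + 1 := ⟨2 ^ s - 1, by omega⟩
  have hq1 : 1 ≤ q := by omega
  have hm' : 2 * (s + 1) * (q + 1) ≤ F.card := by
    calc 2 * (s + 1) * (q + 1) = (s + 1) * 2 ^ (s + 1) := by rw [pow_succ, hq]; ring
      _ ≤ F.card := hm
  have hm8 : 8 ≤ F.card := by
    refine le_trans ?_ hm'
    calc 8 = 2 * (1 + 1) * (1 + 1) := by norm_num
      _ ≤ 2 * (s + 1) * (q + 1) := by
        apply Nat.mul_le_mul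
        · omega
        · omega
  have htog := toggle_one (E := E) (F := F) (w := w) hF (fun e he => hP e (hFE he))
  have hp0 := add_petal hFE hF (fun e he => hr e (hFE he)) hdisj 0
  have hp1 := add_petal hFE hF (fun e he => hr e (hFE he)) hdisj 1
  have hq' : 2 ^ (s + 1 - 1) - 1 = q := by
    rw [Nat.add_sub_cancel, hq, Nat.add_sub_cancel]
  rw [hq'] at hp0 hp1
  have hp0' : F.card * aa E F w 0 ≤ q * aa E F w 1 := by
    have h1 : (F.card - 0) * aa E F w 0 ≤ (0 + 1) * q * aa E F w (0 + 1) := hp0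
    rw [Nat.sub_zero, Nat.zero_add, Nat.one_mul] at h1
    exact h1
  have hp1' : (F.card - 1) * aa E F w 1 ≤ 2 * q * aa E F w 2 := hp1
  have hs1 : s + 1 - 1 = s := Nat.add_sub_cancel s 1
  rw [hs1]
  rcases Nat.eq_zero_or_pos (aa E F w 2) with h2 | h2
  · rw [h2, Nat.mul_zero] at hp1'
    have a1 : aa E F w 1 = 0 := by
      rcases Nat.mul_eq_zero.1 (Nat.le_zero.1 hp1') with h | h
      · omega
      · exact h
    rw [a1, Nat.mul_zero] at hp0'
    have a0 : aa E F w 0 = 0 := by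
      rcases Nat.mul_eq_zero.1 (Nat.le_zero.1 hp0') with h | h
      · omega
      · exact h
    rw [a0, a1, Nat.add_zero, Nat.mul_zero]
    have hun : 1 ≤ un E w := by
      unfold un
      apply Finset.card_pos.2
      refine ⟨∅, ?_⟩
      rw [mem_filter]
      refine ⟨?_, ?_, ?_⟩
      · rw [Dset, mem_filter]
        exact ⟨mem_univ _, fun v hv => absurd hv (Finset.notMem_empty v)⟩
      · exact Finset.notMem_empty w
      · intro h
        rw [Dset, mem_filter] at h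
        obtain ⟨e, he, hwe, hes⟩ := h.2 w (mem_insert_self _ _)
        have h3 : e = {w} := by
          apply Finset.eq_singleton_iff_unique_mem.2
          refine ⟨hwe, fun x hx => ?_⟩
          have := hes hx
          rcases mem_insert.1 this with h | h
          · exact h
          · exact absurd h (Finset.notMem_empty x)
        exact hw (by rw [isL, ← h3]; exact he)
    rcases Nat.eq_zero_or_pos (cr E w) with h | h
    · rw [h, Nat.mul_zero] at htog
      have h5 : F.card * 1 ≤ F.card * un E w := Nat.mul_le_mul_left _ hun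
      omega
    · exact h
  · have hlt := Sd_arith (s := s) hq1 hm' hp0' hp1' h2
    refine lt_of_lt_of_le hlt ?_
    have hsum : (F.card - 2) * aa E F w 2 ≤
        ∑ S ∈ (Dset E).filter (fun S => w ∈ S), (F.card - tt F S) := by
      calc (F.card - 2) * aa E F w 2
          = ∑ S ∈ (Dset E).filter (fun S => w ∈ S ∧ tt F S = 2), (F.card - tt F S) := by
            rw [sum_congr rfl (g := fun _ => F.card - 2)
              (fun S hS => by rw [(mem_filter.1 hS).2.2]), sum_const, smul_eq_mul, aa,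
              Nat.mul_comm]
        _ ≤ _ := by
            apply sum_le_sum_of_subset
            intro S hS
            rw [mem_filter] at hS ⊢
            exact ⟨hS.1, hS.2.1⟩
    have h3 : F.card * aa E F w 2 ≤ F.card * cr E w := by
      have h4 : F.card ≤ 2 * (F.card - 2) := by omega
      calc F.card * aa E F w 2 ≤ (2 * (F.card - 2)) * aa E F w 2 := Nat.mul_le_mul_right _ h4
        _ = 2 * ((F.card - 2) * aa E F w 2) := by ring
        _ ≤ 2 * ∑ S ∈ (Dset E).filter (fun S => w ∈ S), (F.card - tt F S) :=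
          Nat.mul_le_mul_left _ hsum
        _ ≤ F.card * cr E w := le_trans (Nat.le_add_left _ _) htog
    exact Nat.le_of_mul_le_mul_left h3 (by omega)

theorem all_loops_sparse {E : Finset (Finset V)} {r : ℕ} (hr : ∀ e ∈ E, e.card ≤ r)
    (hcov : ∀ v, ∃ e ∈ E, v ∈ e)
    (hsp : ∀ w, ¬ isL E w → ∃ F ⊆ E, r * 2 ^ r ≤ F.card ∧ (∀ e ∈ F, w ∈ e) ∧
      ∀ e ∈ F, ∀ f ∈ F, e ≠ f → ∀ x ∈ e, x ∈ f → x = w)
    (hP : ∀ e ∈ E, (Dset E).card ≤ 2 * ((Dset E).filter (fun S => e ⊆ S)).card) (v : V) :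
    isL E v := by
  by_contra hv
  have hch : ∀ w, ∃ F : Finset (Finset V), F ⊆ E ∧ (∀ e ∈ F, w ∈ e) ∧
      (∀ e ∈ F, ∀ f ∈ F, e ≠ f → ∀ x ∈ e, x ∈ f → x = w) ∧
      (¬ isL E w → r * 2 ^ r ≤ F.card) := by
    intro w
    by_cases hw : isL E w
    · refine ⟨∅, Finset.empty_subset _, ?_, ?_, fun h => absurd hw h⟩
      · intro e he; exact absurd he (Finset.notMem_empty e)
      · intro e he; exact absurd he (Finset.notMem_empty e)
    · obtain ⟨F, h1, h2, h3, h4⟩ := hsp w hw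
      exact ⟨F, h1, h3, h4, fun _ => h2⟩
  choose F hFE hF hdisj hm using hch
  have h1 := crit_le hr F hFE hF hdisj
  have h2 : ∑ y ∈ univ.filter (fun y => ¬ isL E y),
      (r - 1) * (aa E (F y) y 0 + aa E (F y) y 1) <
      ∑ p ∈ univ.filter (fun p => ¬ isL E p), cr E p := by
    apply sum_lt_sum_of_nonempty
    · exact ⟨v, by rw [mem_filter]; exact ⟨mem_univ _, hv⟩⟩
    · intro w hw
      rw [mem_filter] at hw
      exact Sd_local hr hcov hP hw.2 (hFE w) (hm w hw.2) (hF w) (hdisj w)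
  omega

end H70G3
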