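import Pool.Agent.H70.G3.Jc
import Pool.Agent.H70.G3.Sd

/-!
# Row Se : the second theorem (sparse generators)

loops_power: A union-closed, ∅ ∈ A, separating, every vertex of EE A a loop, 2 f(x) ≤ card A for all x ∈ A.sup id.  Then A is a power set.  Every set of vertices is in Dset (EE A) (all singletons are edges), so
 card A = 2^n (`card_D`), n = card {G // G ∈ J A}.  For x ∈ A.sup id: card {B : x ∉ B} = card {S : g A x ⊆ S} = 2^(n - card (g A x)) ≥ 2^(n-1) (`card_sup`), so card (g A x) ≤ 1 (if G ≠ G' ∈ g A x then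
 the sets S ∋ G, G' are at most a quarter).  So every x is in exactly one G ∈ J A (at least one by `exists_J`), {G} is an edge for every G, and x ↦ g A x = {G} is injective (`g_inj`): every G.1 = {x} is a singleton,
 and every x ∈ A.sup id has {x} ∈ A.  So A contains all subsets of A.sup id (unions; ∅ ∈ A).
main_sparse, case ∅ ∈ A: suppose 2 f(x) ≤ card A for all x ∈ A.sup id.  J A ⊆ G (`JI_mem_of_sup`: B ∈ J A is F.sup id with F ⊆ G ⊆ A, so B ∈ F).  `all_loops_sparse` for EE A: card ≤ r: card (g A x) = card ((J A).filter (x ∈ ·))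
 ≤ card (G.filter (x ∈ ·)) ≤ r; hcov: `cov_EE` type argument (x ∈ B ∈ J A, B ≠ ∅).  hsp: w = B not a loop.  If B has a private element x (in no other member of G) then g A x = {B}: a loop.  So there is Y ⊆ B:
 F := Y.image (g A): card F = card Y ≥ r 2^r (`g_inj`), B ∈ g A x, and a common vertex C of g A x, g A y, x ≠ y ∈ Y, satisfies x, y ∈ C so C = B.  hP: `card_D`, `card_sup` (card {x ∉ B} = card A - f(x)).
 So all vertices are loops and A is a power set: contradiction.
Case ∅ ∉ A: A' := insert ∅ A, same sup, J A' ⊆ G: B ∈ J A' is ≠ ∅, so B ∈ A, B = F.sup id, F ⊆ G ⊆ A', `JI_mem_of_sup`.  f_A' = f_A, card A' = card A + 1.  If 2 f(x) ≤ card A for all x then (as above for A', 2 f ≤ card A') A' is the power set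
 of A.sup id, card A' = 2^n, n ≥ 1 (A nonempty, ∅ ∉ A), f(x) = 2^(n-1): 2 f(x) = card A + 1: contradiction.
-/

open Finset Classical

universe u

namespace H70G3
variable {α : Type u} [DecidableEq α]

theorem Se_g {A : Finset (Finset α)} (G : {G // G ∈ J A}) (x : α) : G ∈ g A x ↔ x ∈ G.1 := Jc_g G x

theorem Se_split (A : Finset (Finset α)) (x : α) :
    (A.filter (fun B => x ∈ B)).card + (A.filter (fun B => x ∉ B)).card = A.card :=
  Finset.card_filter_add_card_filter_not (s := A) (p := fun B => x ∈ B)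

theorem loops_power {A : Finset (Finset α)} (hU : UC A) (h0 : ∅ ∈ A) (hs : Sep A)
    (hL : ∀ v, isL (EE A) v)
    (hf : ∀ x ∈ A.sup id, 2 * (A.filter (fun B => x ∈ B)).card ≤ A.card) :
    A = (A.sup id).powerset := by
  have hD : Dset (EE A) = univ := by
    unfold Dset
    rw [Finset.filter_eq_self]
    intro S _ v hv
    exact ⟨{v}, hL v, Finset.mem_singleton_self v, Finset.singleton_subset_iff.2 hv⟩
  have hcard : A.card = 2 ^ Fintype.card {G // G ∈ J A} := by
    rw [← card_D hU h0, hD, Finset.card_univ, Fintype.card_finset]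
  -- every `g A x` has exactly one element
  have hg1 : ∀ x ∈ A.sup id, (g A x).card = 1 := by
    intro x hx
    have hlow : 0 < (g A x).card := by
      rw [Finset.mem_sup] at hx
      obtain ⟨B, hB, hxB⟩ := hx
      obtain ⟨G, hG, hxG, _⟩ := exists_J hU hB hxB
      exact Finset.card_pos.2 ⟨⟨G, hG⟩, (Jc_g _ x).2 hxG⟩
    have h1 := card_sup hU h0 hx
    have h2 : ((Dset (EE A)).filter (fun S => g A x ⊆ S)) = Finset.Icc (g A x) univ := by
      rw [hD]
      ext S
      rw [Finset.mem_filter, Finset.mem_Icc]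
      exact ⟨fun h => ⟨h.2, Finset.subset_univ _⟩, fun h => ⟨Finset.mem_univ _, h.1⟩⟩
    rw [h2, Finset.card_Icc_finset (Finset.subset_univ _), Finset.card_univ] at h1
    have h3 := Se_split A x
    have h4 := hf x hx
    have h5 : (g A x).card ≤ Fintype.card {G // G ∈ J A} := Finset.card_le_univ _
    set n := Fintype.card {G // G ∈ J A} with hn
    by_contra hne
    have h6 : 2 ≤ (g A x).card := by omega
    have h7 : 2 ^ (n - (g A x).card) ≤ 2 ^ (n - 2) := Nat.pow_le_pow_right (by norm_num) (by omega)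
    have h8 : 2 ^ n = 4 * 2 ^ (n - 2) := by
      have : n = (n - 2) + 2 := by omega
      conv_lhs => rw [this, pow_add]
      ring
    have h9 : 0 < 2 ^ (n - 2) := by positivity
    omega
  have hsing : ∀ x ∈ A.sup id, ({x} : Finset α) ∈ A := by
    intro x hx
    obtain ⟨G, hG⟩ := Finset.card_eq_one.1 (hg1 x hx)
    have hxG : x ∈ G.1 := by
      have : G ∈ g A x := by rw [hG]; exact Finset.mem_singleton_self G
      exact (Jc_g _ x).1 this
    have h1 : G.1 = {x} := by
      refine Finset.eq_singleton_iff_unique_mem.2 ⟨hxG, fun y hy => ?_⟩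
      have hys := Jc_sup G hy
      obtain ⟨G', hG'⟩ := Finset.card_eq_one.1 (hg1 y hys)
      have hGy : G ∈ g A y := (Jc_g _ y).2 hy
      rw [hG', Finset.mem_singleton] at hGy
      refine g_inj hU hs hys hx ?_
      rw [hG, hG', hGy]
    rw [← h1]
    exact (Jc_mem G).1
  apply Finset.Subset.antisymm
  · intro B hB
    rw [Finset.mem_powerset]
    exact Finset.le_sup (f := id) hB
  · intro B hB
    rw [Finset.mem_powerset] at hB
    have h1 : (B.image (fun x => ({x} : Finset α))).sup id = B := by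
      ext y
      rw [Finset.mem_sup]
      constructor
      · rintro ⟨C, hC, hy⟩
        obtain ⟨x, hx, rfl⟩ := Finset.mem_image.1 hC
        have : y = x := Finset.mem_singleton.1 hy
        rw [this]
        exact hx
      · intro hy
        exact ⟨{y}, Finset.mem_image_of_mem _ hy, Finset.mem_singleton_self y⟩
    rw [← h1]
    refine sup_mem_of_subset hU h0 ?_
    intro C hC
    obtain ⟨x, hx, rfl⟩ := Finset.mem_image.1 hC
    exact hsing x (hB hx)

theorem Se_core {A G : Finset (Finset α)} (hU : UC A) (h0 : ∅ ∈ A) (hs : Sep A) (hJG : J A ⊆ G) (r : ℕ)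
    (hr : ∀ x ∈ A.sup id, (G.filter (fun B => x ∈ B)).card ≤ r)
    (hsp : ∀ B ∈ G, (∃ x ∈ B, ∀ C ∈ G, x ∈ C → C = B) ∨
      ∃ Y ⊆ B, r * 2 ^ r ≤ Y.card ∧ ∀ x ∈ Y, ∀ y ∈ Y, x ≠ y → ∀ C ∈ G, x ∈ C → y ∈ C → C = B)
    (hf : ∀ x ∈ A.sup id, 2 * (A.filter (fun B => x ∈ B)).card ≤ A.card) :
    A = (A.sup id).powerset := by
  refine loops_power hU h0 hs (fun v => ?_) hf
  refine all_loops_sparse (E := EE A) (r := r) ?_ (fun v => cov_EE v) ?_ ?_ v
  · intro e he
    unfold EE at he
    obtain ⟨x, hx, rfl⟩ := Finset.mem_image.1 he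
    refine le_trans ?_ (hr x hx)
    apply Finset.card_le_card_of_injOn (fun G => G.1)
    · intro B hB
      have h1 := (Jc_g B x).1 hB
      exact Finset.mem_filter.2 ⟨hJG B.2, h1⟩
    · intro B _ B' _ h
      exact Subtype.ext h
  · intro w hw
    rcases hsp w.1 (hJG w.2) with ⟨x, hx, hC⟩ | ⟨Y, hY, hYc, hYC⟩
    · exfalso
      apply hw
      have h1 : g A x = {w} := by
        refine Finset.eq_singleton_iff_unique_mem.2 ⟨(Jc_g _ x).2 hx, fun C hCx => ?_⟩
        exact Subtype.ext (hC C.1 (hJG C.2) ((Jc_g _ x).1 hCx))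
      unfold isL
      rw [← h1]
      exact Jc_edge (Jc_sup w hx)
    · refine ⟨Y.image (g A), ?_, ?_, ?_, ?_⟩
      · intro e he
        obtain ⟨x, hx, rfl⟩ := Finset.mem_image.1 he
        exact Jc_edge (Jc_sup w (hY hx))
      · rw [Finset.card_image_of_injOn]
        · exact hYc
        · intro x hx y hy hxy
          exact g_inj hU hs (Jc_sup w (hY hx)) (Jc_sup w (hY hy)) hxy
      · intro e he
        obtain ⟨x, hx, rfl⟩ := Finset.mem_image.1 he
        exact (Jc_g _ x).2 (hY hx)
      · intro e he f hf' hef C hCe hCf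
        obtain ⟨x, hx, rfl⟩ := Finset.mem_image.1 he
        obtain ⟨y, hy, rfl⟩ := Finset.mem_image.1 hf'
        have hxy : x ≠ y := by
          rintro rfl
          exact hef rfl
        exact Subtype.ext (hYC x hx y hy hxy C.1 (hJG C.2) ((Jc_g _ x).1 hCe) ((Jc_g _ y).1 hCf))
  · intro e he
    unfold EE at he
    obtain ⟨x, hx, rfl⟩ := Finset.mem_image.1 he
    rw [card_D hU h0, card_sup hU h0 hx]
    have h3 := Se_split A x
    have h4 := hf x hx
    omega

theorem main_sparse (A G : Finset (Finset α)) (hA : A.Nonempty) (hU : ∀ X ∈ A, ∀ Y ∈ A, X ∪ Y ∈ A)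
    (hs : ∀ x ∈ A.sup id, ∀ y ∈ A.sup id, x ≠ y →
      ∃ S ∈ A, (x ∈ S ∧ y ∉ S) ∨ (y ∈ S ∧ x ∉ S))
    (hp : A ≠ (A.sup id).powerset) (hGA : G ⊆ A) (hgen : ∀ B ∈ A, ∃ F ⊆ G, F.sup id = B) (r : ℕ)
    (hr : ∀ x ∈ A.sup id, (G.filter (fun B => x ∈ B)).card ≤ r)
    (hsp : ∀ B ∈ G, (∃ x ∈ B, ∀ C ∈ G, x ∈ C → C = B) ∨
      ∃ Y ⊆ B, r * 2 ^ r ≤ Y.card ∧ ∀ x ∈ Y, ∀ y ∈ Y, x ≠ y → ∀ C ∈ G, x ∈ C → y ∈ C → C = B) :
    ∃ x ∈ A.sup id, A.card < 2 * (A.filter (fun B => x ∈ B)).card := by
  by_contra hcon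
  push Not at hcon
  by_cases h0 : ∅ ∈ A
  · have hJG : J A ⊆ G := by
      intro B hB
      have hB' : B ∈ A ∧ JI A B := by
        unfold J at hB
        exact Finset.mem_filter.1 hB
      obtain ⟨F, hF, hFB⟩ := hgen B hB'.1
      exact hF (JI_mem_of_sup hU h0 (hF.trans hGA) hB'.2 hFB)
    exact hp (Se_core hU h0 hs hJG r hr hsp hcon)
  · have hsup : (insert ∅ A).sup id = A.sup id := by
      rw [Finset.sup_insert]
      simp
    have hU' : UC (insert ∅ A) := by
      intro X hX Y hY
      rw [Finset.mem_insert] at hX hY ⊢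
      rcases hX with rfl | hX
      · rw [Finset.empty_union]
        exact hY
      · rcases hY with rfl | hY
        · rw [Finset.union_empty]
          exact Or.inr hX
        · exact Or.inr (hU X hX Y hY)
    have hs' : Sep (insert ∅ A) := by
      intro x hx y hy hxy
      rw [hsup] at hx hy
      obtain ⟨S, hS, h⟩ := hs x hx y hy hxy
      exact ⟨S, Finset.mem_insert_of_mem hS, h⟩
    have hJG : J (insert ∅ A) ⊆ G := by
      intro B hB
      have hB' : B ∈ insert ∅ A ∧ JI (insert ∅ A) B := by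
        unfold J at hB
        exact Finset.mem_filter.1 hB
      have hBA : B ∈ A := by
        rcases Finset.mem_insert.1 hB'.1 with h | h
        · exact absurd h hB'.2.1
        · exact h
      obtain ⟨F, hF, hFB⟩ := hgen B hBA
      exact hF (JI_mem_of_sup hU' (Finset.mem_insert_self _ _)
        ((hF.trans hGA).trans (Finset.subset_insert _ _)) hB'.2 hFB)
    have hfil : ∀ x, (insert ∅ A).filter (fun B => x ∈ B) = A.filter (fun B => x ∈ B) := by
      intro x
      rw [Finset.filter_insert, if_neg (Finset.notMem_empty x)]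
    have hc : (insert ∅ A).card = A.card + 1 := Finset.card_insert_of_notMem h0
    have hf' : ∀ x ∈ (insert ∅ A).sup id,
        2 * ((insert ∅ A).filter (fun B => x ∈ B)).card ≤ (insert ∅ A).card := by
      intro x hx
      rw [hsup] at hx
      rw [hfil, hc]
      have := hcon x hx
      omega
    have hpow := Se_core hU' (Finset.mem_insert_self _ _) hs' hJG r
      (by rw [hsup]; exact hr) hsp hf'
    obtain ⟨B, hB⟩ := hA
    have hBne : B ≠ ∅ := by
      rintro rfl
      exact h0 hB
    obtain ⟨x, hx⟩ := Finset.nonempty_iff_ne_empty.2 hBne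
    have hxs : x ∈ A.sup id := Finset.mem_sup.2 ⟨B, hB, hx⟩
    have h1 : ((insert ∅ A).filter (fun B => x ∉ B)).card ≤ ((insert ∅ A).filter (fun B => x ∈ B)).card := by
      apply Finset.card_le_card_of_injOn (fun B => insert x B)
      · intro C hC
        have hC' := Finset.mem_filter.1 (Finset.mem_coe.1 hC)
        have hC1 := hC'.1
        rw [hpow, Finset.mem_powerset, hsup] at hC1
        refine Finset.mem_coe.2 (Finset.mem_filter.2 ⟨?_, Finset.mem_insert_self _ _⟩)
        rw [hpow, Finset.mem_powerset, hsup]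
        exact Finset.insert_subset hxs hC1
      · intro C hC C' hC' h
        have a1 := (Finset.mem_filter.1 (Finset.mem_coe.1 hC)).2
        have a2 := (Finset.mem_filter.1 (Finset.mem_coe.1 hC')).2
        have h' : insert x C = insert x C' := h
        calc C = (insert x C).erase x := (Finset.erase_insert a1).symm
          _ = (insert x C').erase x := by rw [h']
          _ = C' := Finset.erase_insert a2
    have h2 := Se_split (insert ∅ A) x
    rw [hfil] at h1 h2
    have h3 := hcon x hxs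
    omega

end H70G3
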