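import Pool.Agent.H70.G3.Basic

/-!
# Row Ta : transfer of the classes M2 and U4

Use `transfer` (Basic) after writing the right side as one sum over triples:
 Σ_{w ∈ Ws} Σ_{T ∈ D} ldM2 w T = Σ over triples (w, T, p) (Finset.sum_sigma / sum_product) of the function
 F(w,T,p) = if (condition) ∧ dep (insert (ctr w) T) (ctr w) p then cost p else 0.
For x = (S, p) in the class choose v = v(x) (Classical.choose): isC v, dep S v p, S.erase v ∈ D.
 i(x) = (rep v, S.erase v, p).  rep v ∈ Ws (`rep_isW`), ctr (rep v) = v (`ctr_rep`), v ∉ S.erase v, insert v (S.erase v) = S ∈ D, so F(i x) = cost p.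
 Injective: from (w,T,p) we get v = ctr w and S = insert v T.
For U4: i(x) = (rep v, S, p): v ∈ S, conditions as in the definition of cU4 with ctr (rep v) = v.
-/

open Finset Classical

universe u

namespace H70G3
namespace Ctx
variable {V : Type u} [Fintype V] [DecidableEq V] (c : Ctx V)

theorem sum_M2 : ∑ x ∈ c.Pr.filter (fun x => c.cM2 x.1 x.2), c.cost x.2 ≤
    ∑ w ∈ c.Ws, ∑ T ∈ c.D, c.ldM2 w T := by
  have hR : ∑ w ∈ c.Ws, ∑ T ∈ c.D, c.ldM2 w T =
      ∑ b ∈ c.Ws ×ˢ (c.D ×ˢ (univ : Finset V)),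
        (if (c.rep (c.ctr b.1) = b.1 ∧ c.ctr b.1 ∉ b.2.1 ∧ insert (c.ctr b.1) b.2.1 ∈ c.D) ∧
          dep c.E (insert (c.ctr b.1) b.2.1) (c.ctr b.1) b.2.2 then c.cost b.2.2 else 0) := by
    rw [sum_product]
    refine sum_congr rfl fun w _ => ?_
    rw [sum_product]
    refine sum_congr rfl fun T _ => ?_
    unfold ldM2
    by_cases h : c.rep (c.ctr w) = w ∧ c.ctr w ∉ T ∧ insert (c.ctr w) T ∈ c.D
    · rw [if_pos h, sum_filter]
      refine sum_congr rfl fun p _ => ?_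
      by_cases h2 : dep c.E (insert (c.ctr w) T) (c.ctr w) p
      · rw [if_pos h2, if_pos ⟨h, h2⟩]
      · rw [if_neg h2, if_neg (fun h3 => h2 h3.2)]
    · rw [if_neg h]
      symm
      refine sum_eq_zero fun p _ => ?_
      rw [if_neg (fun h3 => h h3.1)]
  rw [hR]
  have hi : ∀ x ∈ c.Pr.filter (fun x => c.cM2 x.1 x.2), ∃ v, isC c.E v ∧ dep c.E x.1 v x.2 ∧
      x.1.erase v ∈ c.D := by
    intro x hx
    rw [mem_filter] at hx
    exact hx.2
  obtain ⟨g, hg⟩ : ∃ g : Finset V × V → V, ∀ x ∈ c.Pr.filter (fun x => c.cM2 x.1 x.2),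
      isC c.E (g x) ∧ dep c.E x.1 (g x) x.2 ∧ x.1.erase (g x) ∈ c.D :=
    ⟨fun x => if h : ∃ v, isC c.E v ∧ dep c.E x.1 v x.2 ∧ x.1.erase v ∈ c.D then h.choose else x.2,
      fun x hx => by
        have h := hi x hx
        simp only [dif_pos h]
        exact h.choose_spec⟩
  apply transfer _ _ _ _ (fun x => (c.rep (g x), x.1.erase (g x), x.2))
  · intro x hx
    obtain ⟨h1, h2, h3⟩ := hg x hx
    simp only [mem_product, mem_univ, and_true]
    refine ⟨?_, h3⟩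
    unfold Ws
    rw [mem_filter]
    exact ⟨mem_univ _, c.rep_isW h1⟩
  · intro x hx y hy hxy
    obtain ⟨h1, h2, h3⟩ := hg x hx
    obtain ⟨h1', h2', h3'⟩ := hg y hy
    simp only [Prod.mk.injEq] at hxy
    obtain ⟨e1, e2, e3⟩ := hxy
    have e4 : g x = g y := by
      rw [← c.ctr_rep h1, ← c.ctr_rep h1', e1]
    have e5 : x.1 = y.1 := by
      rw [← insert_erase h2.1, ← insert_erase h2'.1, e2, e4]
    exact Prod.ext e5 e3
  · intro x hx
    obtain ⟨h1, h2, h3⟩ := hg x hx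
    have hS : x.1 ∈ c.D := by
      rw [mem_filter] at hx
      have := hx.1
      unfold Pr at this
      exact (mem_product.1 this).1
    simp only [c.ctr_rep h1, insert_erase h2.1]
    rw [if_pos ⟨⟨trivial, notMem_erase _ _, hS⟩, h2⟩]

theorem sum_U4 : ∑ x ∈ c.Pr.filter (fun x => c.cU4 x.1 x.2), c.cost x.2 ≤
    ∑ w ∈ c.Ws, ∑ T ∈ c.D, c.ldU4 w T := by
  have hR : ∑ w ∈ c.Ws, ∑ T ∈ c.D, c.ldU4 w T =
      ∑ b ∈ c.Ws ×ˢ (c.D ×ˢ (univ : Finset V)),
        (if (c.ctr b.1 ∈ b.2.1 ∧ (∀ u, Dm c.E u (c.ctr b.1) → u ∉ b.2.1) ∧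
          insert b.1 b.2.1 ∉ c.D) ∧
          dep c.E b.2.1 (c.ctr b.1) b.2.2 then c.cost b.2.2 else 0) := by
    rw [sum_product]
    refine sum_congr rfl fun w _ => ?_
    rw [sum_product]
    refine sum_congr rfl fun T _ => ?_
    unfold ldU4
    by_cases h : c.ctr w ∈ T ∧ (∀ u, Dm c.E u (c.ctr w) → u ∉ T) ∧ insert w T ∉ c.D
    · rw [if_pos h, sum_filter]
      refine sum_congr rfl fun p _ => ?_
      by_cases h2 : dep c.E T (c.ctr w) p
      · rw [if_pos h2, if_pos ⟨h, h2⟩]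
      · rw [if_neg h2, if_neg (fun h3 => h2 h3.2)]
    · rw [if_neg h]
      symm
      refine sum_eq_zero fun p _ => ?_
      rw [if_neg (fun h3 => h h3.1)]
  rw [hR]
  have hi : ∀ x ∈ c.Pr.filter (fun x => c.cU4 x.1 x.2), ∃ v, isC c.E v ∧ dep c.E x.1 v x.2 ∧
      (∀ u, Dm c.E u v → u ∉ x.1) ∧ insert (c.rep v) x.1 ∉ c.D := by
    intro x hx
    rw [mem_filter] at hx
    exact hx.2
  obtain ⟨g, hg⟩ : ∃ g : Finset V × V → V, ∀ x ∈ c.Pr.filter (fun x => c.cU4 x.1 x.2),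
      isC c.E (g x) ∧ dep c.E x.1 (g x) x.2 ∧
      (∀ u, Dm c.E u (g x) → u ∉ x.1) ∧ insert (c.rep (g x)) x.1 ∉ c.D :=
    ⟨fun x => if h : ∃ v, isC c.E v ∧ dep c.E x.1 v x.2 ∧
      (∀ u, Dm c.E u v → u ∉ x.1) ∧ insert (c.rep v) x.1 ∉ c.D then h.choose else x.2,
      fun x hx => by
        have h := hi x hx
        simp only [dif_pos h]
        exact h.choose_spec⟩
  apply transfer _ _ _ _ (fun x => (c.rep (g x), x.1, x.2))
  · intro x hx
    obtain ⟨h1, h2, h3, h4⟩ := hg x hx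
    have hS : x.1 ∈ c.D := by
      rw [mem_filter] at hx
      have := hx.1
      unfold Pr at this
      exact (mem_product.1 this).1
    simp only [mem_product, mem_univ, and_true]
    refine ⟨?_, hS⟩
    unfold Ws
    rw [mem_filter]
    exact ⟨mem_univ _, c.rep_isW h1⟩
  · intro x hx y hy hxy
    simp only [Prod.mk.injEq] at hxy
    obtain ⟨e1, e2, e3⟩ := hxy
    exact Prod.ext e2 e3
  · intro x hx
    obtain ⟨h1, h2, h3, h4⟩ := hg x hx
    simp only [c.ctr_rep h1]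
    rw [if_pos ⟨⟨h2.1, h3, h4⟩, h2⟩]

end Ctx
end H70G3
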