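import Pool.Agent.H70.G3.IIU

/-!
# Row WM2 : load of a slot (w, T) with ctr w ∉ T from M2 and II1 is at most 12

Put v = ctr w, M = insert v T.
(1) ldII1 w T ≤ 6: the filter has at most one element by `srcII1_unique` (two elements p1, p2 with sources (S1,z1), (S2,z2), same T).
(2) If the condition of ldM2 fails: ldM2 = 0, total ≤ 6.
(3) Suppose v ∉ T, M ∈ D.  Let P = {p : dep M v p}.  v ∈ M, so there is f0 ∈ at' E M v (`exists_at`), P ⊆ f0.erase v, card (f0.erase v) ≤ 2.
 (3a) p ∈ P, isW p ⇒ ctr p ≠ v: p ∈ M (`dep_mem`), p ≠ v so p ∈ T, so ctr p ∈ T (`ctr_mem`, T ∈ D) but v ∉ T.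
 Hence if some p ∈ P is in W: ctr p ∈ f0 (`W_edge`), so f0 = {v, p, ctr p} (`edge_eq`), P ⊆ {p, ctr p}, cost (ctr p) = 0 (`cost_C`, `ctr_isC`),
 so the sum is ≤ 12.  If no p ∈ P is in W: every cost is ≤ 6 (unfold cost), card P ≤ 2, sum ≤ 12.
(4) If moreover there is a II1 source (S, z, p1), T = insert (rep z) (S.erase v): then M = insert (rep z) S ⊇ S, at' E S v = {{v,p1,z}} (`at_unique`),
 {v,p1,z} is an M-edge at v, so P ⊆ {p1, z}, cost z = 0, cost p1 = 6: ldM2 ≤ 6, total ≤ 12.  If there is no source: ldII1 = 0, total ≤ 12 by (3).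
-/

open Finset Classical

universe u

namespace H70G3
namespace Ctx
variable {V : Type u} [Fintype V] [DecidableEq V] (c : Ctx V)

private lemma wm2_A {w : V} {T : Finset V} (hT : T ∈ c.D) : c.ldM2 w T ≤ 12 := by
  unfold ldM2
  by_cases hcond : c.rep (c.ctr w) = w ∧ c.ctr w ∉ T ∧ insert (c.ctr w) T ∈ c.D
  · rw [if_pos hcond]
    obtain ⟨_, hvT, hM⟩ := hcond
    generalize c.ctr w = v at hvT hM ⊢
    obtain ⟨f0, hf0⟩ := c.exists_at hM (mem_insert_self v T)
    rw [c.mem_at] at hf0
    obtain ⟨hfE, hvf, hfM⟩ := hf0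
    have hPf : ∀ p, dep c.E (insert v T) v p → p ∈ f0 ∧ v ≠ p :=
      fun p hp => ⟨hp.2.2 f0 hfE hvf hfM, hp.2.1⟩
    by_cases hW : ∃ p, dep c.E (insert v T) v p ∧ isW c.E p
    · obtain ⟨p, hp, hpW⟩ := hW
      have hpT : p ∈ T := by
        rcases mem_insert.1 (c.dep_mem hM hp) with h | h
        · exact absurd h.symm hp.2.1
        · exact h
      have hcT := c.ctr_mem hpW hT hpT
      have hvc : v ≠ c.ctr p := by
        intro h
        rw [← h] at hcT
        exact hvT hcT
      have hcf := c.W_edge hpW hfE (hPf p hp).1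
      have hfeq := c.edge_eq hfE hvf (hPf p hp).1 hcf hp.2.1 hvc (c.ctr_Dm hpW).1
      calc ∑ q ∈ univ.filter (fun q => dep c.E (insert v T) v q), c.cost q
          ≤ ∑ q ∈ ({p, c.ctr p} : Finset V), c.cost q := by
            apply sum_le_sum_of_subset
            intro q hq
            rw [mem_filter] at hq
            have h1 := hPf q hq.2
            have h2 := h1.1
            rw [hfeq, mem_insert] at h2
            rcases h2 with h2 | h2
            · exact absurd h2.symm h1.2
            · exact h2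
        _ = c.cost p + c.cost (c.ctr p) := sum_pair (c.ctr_Dm hpW).1
        _ ≤ 12 := by
            rw [c.cost_W hpW, c.cost_C (c.ctr_isC hpW)]
    · push Not at hW
      have hcost : ∀ q ∈ univ.filter (fun q => dep c.E (insert v T) v q), c.cost q ≤ 6 := by
        intro q hq
        rw [mem_filter] at hq
        unfold cost
        rw [if_neg (hW q hq.2)]
        split_ifs <;> omega
      have hcard : (univ.filter (fun q => dep c.E (insert v T) v q)).card ≤ 2 := by
        have h1 : (univ.filter (fun q => dep c.E (insert v T) v q)).card ≤ (f0.erase v).card := by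
          apply card_le_card
          intro q hq
          rw [mem_filter] at hq
          have h2 := hPf q hq.2
          exact mem_erase.2 ⟨h2.2.symm, h2.1⟩
        rw [card_erase_of_mem hvf] at h1
        have h3 := c.card_le f0 hfE
        omega
      refine le_trans (sum_le_card_nsmul _ _ 6 hcost) ?_
      rw [smul_eq_mul]
      omega
  · rw [if_neg hcond]
    omega

private lemma wm2_B {w : V} {T S : Finset V} {p1 z : V} (hs : c.srcII1 S p1 (c.ctr w) z)
    (hTS : T = insert (c.rep z) (S.erase (c.ctr w))) : c.ldM2 w T ≤ 6 := by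
  unfold ldM2
  by_cases hcond : c.rep (c.ctr w) = w ∧ c.ctr w ∉ T ∧ insert (c.ctr w) T ∈ c.D
  · rw [if_pos hcond]
    clear hcond
    generalize c.ctr w = v at hs hTS ⊢
    obtain ⟨hSD, hR, hpair, _, _, _⟩ := hs
    obtain ⟨_, hCz, hd1, hd2, _⟩ := hpair
    have hp1z : p1 ≠ z := c.ne_of_R_C hR hCz
    have hat := c.at_unique hSD hd1 hd2 hp1z
    have he : ({v, p1, z} : Finset V) ∈ at' c.E S v := by
      rw [hat]
      exact mem_singleton_self _
    rw [c.mem_at] at he
    obtain ⟨heE, hve, heS⟩ := he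
    have heM : ({v, p1, z} : Finset V) ⊆ insert v T := by
      intro x hx
      by_cases hxv : x = v
      · rw [hxv]
        exact mem_insert_self _ _
      · rw [hTS]
        exact mem_insert_of_mem (mem_insert_of_mem (mem_erase.2 ⟨hxv, heS hx⟩))
    calc ∑ q ∈ univ.filter (fun q => dep c.E (insert v T) v q), c.cost q
        ≤ ∑ q ∈ ({p1, z} : Finset V), c.cost q := by
          apply sum_le_sum_of_subset
          intro q hq
          rw [mem_filter] at hq
          have h2 := hq.2.2.2 _ heE hve heM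
          rw [mem_insert] at h2
          rcases h2 with h2 | h2
          · exact absurd h2.symm hq.2.2.1
          · exact h2
      _ = c.cost p1 + c.cost z := sum_pair hp1z
      _ ≤ 6 := by
          rw [c.cost_R hR, c.cost_C hCz]
  · rw [if_neg hcond]
    omega

theorem ldM2_add_ldII1_le {w : V} {T : Finset V} (hw : isW c.E w) (hT : T ∈ c.D) :
    c.ldM2 w T + c.ldII1 w T ≤ 12 := by
  by_cases hsrc : ∃ p, c.rep (c.ctr w) = w ∧
      ∃ S z, c.srcII1 S p (c.ctr w) z ∧ T = insert (c.rep z) (S.erase (c.ctr w))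
  · obtain ⟨p1, _, S, z, hs, hTS⟩ := hsrc
    have h1 := c.wm2_B hs hTS
    have h2 : c.ldII1 w T ≤ 6 := by
      unfold ldII1
      have h3 : (univ.filter (fun p : V => c.rep (c.ctr w) = w ∧
          ∃ S z, c.srcII1 S p (c.ctr w) z ∧
            T = insert (c.rep z) (S.erase (c.ctr w)))).card ≤ 1 := by
        rw [card_le_one]
        intro a ha b hb
        rw [mem_filter] at ha hb
        obtain ⟨_, _, S1, z1, hs1, hT1⟩ := ha
        obtain ⟨_, _, S2, z2, hs2, hT2⟩ := hb
        exact (c.srcII1_unique hs1 hs2 (hT1.symm.trans hT2)).2.1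
      omega
    omega
  · have h1 := c.wm2_A (w := w) hT
    have h2 : c.ldII1 w T = 0 := by
      unfold ldII1
      rw [filter_eq_empty_iff.2 fun p _ hp => hsrc ⟨p, hp⟩, card_empty]
    omega

end Ctx
end H70G3
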